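import Pool.Agent.Work.MP_e0c7e8_nt.BG.StmtsI
import Pool.Agent.Work.MP_e0c7e8_nt.SM.ItemC2b

/-! Item IDB of the block BG. -/

set_option autoImplicit false

namespace Pool.Agent.Work.MP_e0c7e8_nt.BG

open Finset Polynomial Pool.Agent.Work.MP_e0c7e8_nt.SM

/-- Products of fractional ideals that are ideals. -/
theorem I_IDB.coe_prod {R : Type} [CommRing R] [IsDomain R] (s : Finset ℕ)
    (W : ℕ → (FractionalIdeal (nonZeroDivisors R) (FractionRing R))ˣ) (I : ℕ → Ideal R)
    (f : ℕ → ℕ)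
    (h : ∀ p ∈ s, (W p : FractionalIdeal (nonZeroDivisors R) (FractionRing R)) = (I p : _)) :
    ((∏ p ∈ s, W p ^ f p : (FractionalIdeal (nonZeroDivisors R) (FractionRing R))ˣ) :
      FractionalIdeal (nonZeroDivisors R) (FractionRing R)) =
      ((∏ p ∈ s, I p ^ f p : Ideal R) : FractionalIdeal (nonZeroDivisors R) (FractionRing R)) := by
  classical
  induction s using Finset.induction_on with
  | empty => simp
  | insert p s hp ih =>
    rw [Finset.prod_insert hp, Finset.prod_insert hp, FractionalIdeal.coeIdeal_mul,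
      Units.val_mul, ih (fun q hq => h q (Finset.mem_insert_of_mem hq)),
      Units.val_pow_eq_pow_val, h p (Finset.mem_insert_self p s), FractionalIdeal.coeIdeal_pow]

theorem IDB_pf (h1 : ClaimC2b1) : S_IDB := by
  classical
  intro d n hd hd4 hRt
  have hU : ∀ p : ℕ, ∃ U V : (FractionalIdeal (nonZeroDivisors ↥(Od d)) (FractionRing ↥(Od d)))ˣ,
      p.Prime → chi d p = 1 →
      (U : FractionalIdeal (nonZeroDivisors ↥(Od d)) (FractionRing ↥(Od d))) =
        (Pi1 d p (n p) : FractionalIdeal (nonZeroDivisors ↥(Od d)) (FractionRing ↥(Od d))) ∧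
      (V : FractionalIdeal (nonZeroDivisors ↥(Od d)) (FractionRing ↥(Od d))) =
        (Pi2 d p (n p) : FractionalIdeal (nonZeroDivisors ↥(Od d)) (FractionRing ↥(Od d))) ∧
      ClassGroup.mk (FractionRing ↥(Od d)) U * ClassGroup.mk (FractionRing ↥(Od d)) V = 1 := by
    intro p
    by_cases hp : p.Prime ∧ chi d p = 1
    · obtain ⟨ha, hb⟩ := hRt p hp.1 hp.2
      have hp0 : ((p : ℕ) : ↥(Od d)) ≠ 0 := by exact_mod_cast hp.1.ne_zero
      obtain ⟨U, V, h⟩ := ItemC2b.units _ _ _ hp0 (h1 d p (n p) hd hd4 hp.1 ha hb)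
      exact ⟨U, V, fun _ _ => h⟩
    · exact ⟨1, 1, fun ha hb => absurd ⟨ha, hb⟩ hp⟩
  choose U V hUV using hU
  let W : AI → (FractionalIdeal (nonZeroDivisors ↥(Od d)) (FractionRing ↥(Od d)))ˣ := fun A =>
    ∏ p ∈ A.1.primeFactors, (if p ∈ A.2 then U p else V p) ^ A.1.factorization p
  have hW : ∀ A : AI, Adm d A →
      (W A : FractionalIdeal (nonZeroDivisors ↥(Od d)) (FractionRing ↥(Od d))) =
        (JJ d n A : FractionalIdeal (nonZeroDivisors ↥(Od d)) (FractionRing ↥(Od d))) := by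
    intro A hA
    unfold JJ
    apply I_IDB.coe_prod A.1.primeFactors (fun p => if p ∈ A.2 then U p else V p)
      (fun p => if p ∈ A.2 then Pi1 d p (n p) else Pi2 d p (n p)) (fun p => A.1.factorization p)
    intro p hp
    have hp1 := Nat.prime_of_mem_primeFactors hp
    have hp2 := hA.2.1 p hp
    obtain ⟨hu, hv, _⟩ := hUV p hp1 hp2
    show ((if p ∈ A.2 then U p else V p :
      (FractionalIdeal (nonZeroDivisors ↥(Od d)) (FractionRing ↥(Od d)))ˣ) :
      FractionalIdeal (nonZeroDivisors ↥(Od d)) (FractionRing ↥(Od d))) =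
      ((if p ∈ A.2 then Pi1 d p (n p) else Pi2 d p (n p) : Ideal ↥(Od d)) :
        FractionalIdeal (nonZeroDivisors ↥(Od d)) (FractionRing ↥(Od d)))
    by_cases h : p ∈ A.2
    · rw [if_pos h, if_pos h, hu]
    · rw [if_neg h, if_neg h, hv]
  have hcj : ∀ A : AI, Adm d A → Adm d (cj A) := by
    intro A hA
    exact ⟨hA.1, hA.2.1, Finset.sdiff_subset⟩
  have hinv : ∀ A : AI, Adm d A →
      ClassGroup.mk (FractionRing ↥(Od d)) (W A) *
        ClassGroup.mk (FractionRing ↥(Od d)) (W (cj A)) = 1 := by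
    intro A hA
    show ClassGroup.mk (FractionRing ↥(Od d))
        (∏ p ∈ A.1.primeFactors, (if p ∈ A.2 then U p else V p) ^ A.1.factorization p) *
      ClassGroup.mk (FractionRing ↥(Od d))
        (∏ p ∈ A.1.primeFactors,
          (if p ∈ A.1.primeFactors \ A.2 then U p else V p) ^ A.1.factorization p) = 1
    rw [map_prod, map_prod, ← Finset.prod_mul_distrib]
    apply Finset.prod_eq_one
    intro p hp
    have hp1 := Nat.prime_of_mem_primeFactors hp
    have hp2 := hA.2.1 p hp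
    obtain ⟨_, _, hm⟩ := hUV p hp1 hp2
    rw [map_pow, map_pow, ← mul_pow]
    by_cases h : p ∈ A.2
    · have h' : ¬ p ∈ A.1.primeFactors \ A.2 := fun h'' => (Finset.mem_sdiff.mp h'').2 h
      rw [if_pos h, if_neg h', hm, one_pow]
    · have h' : p ∈ A.1.primeFactors \ A.2 := Finset.mem_sdiff.mpr ⟨hp, h⟩
      have hm' : ClassGroup.mk (FractionRing ↥(Od d)) (V p) *
          ClassGroup.mk (FractionRing ↥(Od d)) (U p) = 1 :=
        (mul_comm (ClassGroup.mk (FractionRing ↥(Od d)) (V p))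
          (ClassGroup.mk (FractionRing ↥(Od d)) (U p))).trans hm
      rw [if_neg h, if_pos h', hm', one_pow]
  refine ⟨fun A => ClassGroup.mk (FractionRing ↥(Od d)) (W A), ?_⟩
  intro A A' hA hA' k hk
  have hk' : ClassGroup.mk (FractionRing ↥(Od d)) (W A) ^ k =
      ClassGroup.mk (FractionRing ↥(Od d)) (W A') ^ k := hk
  have hone : ClassGroup.mk (FractionRing ↥(Od d)) (W A ^ k * W (cj A') ^ k) = 1 := by
    rw [map_mul, map_pow, map_pow, hk', ← mul_pow, hinv A' hA', one_pow]
  have hval : ((W A ^ k * W (cj A') ^ k :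
      (FractionalIdeal (nonZeroDivisors ↥(Od d)) (FractionRing ↥(Od d)))ˣ) :
      FractionalIdeal (nonZeroDivisors ↥(Od d)) (FractionRing ↥(Od d))) =
      ((JJ d n A ^ k * JJ d n (cj A') ^ k : Ideal ↥(Od d)) :
        FractionalIdeal (nonZeroDivisors ↥(Od d)) (FractionRing ↥(Od d))) := by
    rw [Units.val_mul, Units.val_pow_eq_pow_val, Units.val_pow_eq_pow_val, hW A hA,
      hW (cj A') (hcj A' hA'), FractionalIdeal.coeIdeal_mul, FractionalIdeal.coeIdeal_pow,
      FractionalIdeal.coeIdeal_pow]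
  rw [ClassGroup.mk_eq_one_of_coe_ideal hval] at hone
  obtain ⟨g, _, hg⟩ := hone
  exact ⟨g, hg⟩

end Pool.Agent.Work.MP_e0c7e8_nt.BG
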