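import Pool.Agent.Work.MP_e0c7e8_nt.BG.Defs

/-!
# Beyond the GRH bound for `k`-torsion: statements of the items, Diophantine part

Every item `S_XXX` is proved in its own file `BG/I_XXX.lean` as
`theorem XXX_pf (h₁ : S_YYY) ... : S_XXX`, where the hypotheses may be any EARLIER statements.
Paper proof: note 3719 on MP_e0c7e8_nt.
-/

set_option autoImplicit false

namespace Pool.Agent.Work.MP_e0c7e8_nt.BG

open Finset Polynomial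

/-! ## Basic tools -/

/-- [PC] choice of a prime. By Bertrand's postulate there are `2 L` different primes in
`(y, 4 ^ L y]`; each `N t ≠ 0` is divisible by fewer than `L` of them (their product would be
larger than `y ^ L`); average over the primes. -/
def S_PC : Prop := ∀ (ι : Type) (S : Finset ι) (N : ι → ℤ) (y L : ℕ), 1 ≤ y → 1 ≤ L →
  (∀ t ∈ S, N t ≠ 0 ∧ |N t| ≤ (y : ℤ) ^ L) →
  ∃ q : ℕ, q.Prime ∧ y < q ∧ q ≤ 4 ^ L * y ∧ ∃ S' ⊆ S, S.card ≤ 2 * S'.card ∧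
    ∀ t ∈ S', ¬ (q : ℤ) ∣ N t

/-- [CD1] the ring generated by one function divisible by `q`: every element is
`∑_(i < s) c_i U^i` with `0 ≤ c_i < q^(s-i)` (as `U^i` is divisible by `q^i`). -/
def S_CD1 : Prop := ∀ (q s : ℕ) (κ : Type) (U : κ → ℤ), 1 ≤ q → (∀ i, (q : ℤ) ∣ U i) →
  Finite (RS q s {U}) ∧ Nat.card (RS q s {U}) ≤ q ^ (s * (s + 1) / 2)

/-- [CD2] the ring generated by two functions divisible by `q`: every element is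
`∑_(i + j < s) c_ij U^i W^j` with `0 ≤ c_ij < q^(s-i-j)`;
`∑_(i + j < s) (s - i - j) = s (s + 1) (s + 2) / 6`. -/
def S_CD2 : Prop := ∀ (q s : ℕ) (κ : Type) (U W : κ → ℤ), 1 ≤ q →
  (∀ i, (q : ℤ) ∣ U i ∧ (q : ℤ) ∣ W i) →
  Finite (RS q s {U, W}) ∧ Nat.card (RS q s {U, W}) ≤ q ^ (s * (s + 1) * (s + 2) / 6)

/-- [IFT] implicit functions: let `f` be constant modulo `q` and a root of `P`, whose coefficients
are in the finite ring `R`, with `P'(f)` a unit at every point. Then `f` is in `R`.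
Proof: `f₀` the constant, `m = {z ∈ R : z = 0 mod q}`; `P(f₀) ∈ m`, so `z ↦ P(f₀ + z)` maps `m` to
`m`; the difference of two values is `(z - z')` times a unit (Taylor, `Polynomial.binomExpansion`;
a number congruent to a unit modulo `q` is a unit), so the map is injective, hence surjective:
`P(f₀ + z) = 0` for some `z ∈ m`, and then `f = f₀ + z` for the same reason. -/
def S_IFT : Prop := ∀ (q s : ℕ) (κ : Type) (R : Subalgebra (ZMod (q ^ s)) (κ → ZMod (q ^ s))),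
  q.Prime → Finite R → ∀ (f : κ → ℤ) (P : Polynomial (κ → ZMod (q ^ s))), (∀ j, P.coeff j ∈ R) →
  P.eval (fun i => ((f i : ℤ) : ZMod (q ^ s))) = 0 → (∃ r : ℤ, ∀ i, (q : ℤ) ∣ f i - r) →
  (∀ i, IsUnit ((P.derivative.eval (fun i => ((f i : ℤ) : ZMod (q ^ s)))) i)) →
  (fun i => ((f i : ℤ) : ZMod (q ^ s))) ∈ R

/-- [BOX] the box principle: two different coefficient vectors in `∏ [0, L v]` give the same
element of `R`; the difference is zero modulo `m` and smaller than `m`. -/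
def S_BOX : Prop := ∀ (κ ι : Type) [Fintype ι] (m : ℕ) (R : AddSubgroup (κ → ZMod m)), 0 < m →
  Finite R → ∀ (f : ι → κ → ℤ) (L F : ι → ℕ),
  (∀ v, (fun i => ((f v i : ℤ) : ZMod m)) ∈ R) → (∀ v i, |f v i| ≤ F v) →
  Nat.card R < ∏ v, (L v + 1) → ∑ v, L v * F v < m →
  ∃ l : ι → ℤ, l ≠ 0 ∧ (∀ v, |l v| ≤ L v) ∧ ∀ i, ∑ v, l v * f v i = 0

/-! ## Step A: the auxiliary relation -/

/-- [INR] in one class modulo `q` all monomials are in the ring of the two functions `T - T₀`,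
`S - S₀` (`IFT` for `x`: `Z^2 - ..`, then for `al`: `a^2 Z^k - ..` and `be`). -/
def S_INR : Prop := ∀ (k q s : ℕ) (p : Co) (κ : Type) (P : κ → Pt ℤ) (P₀ : Pt ℤ),
  1 ≤ k → q.Prime → 2 * k < q → ¬ (q : ℤ) ∣ p.a → (∀ i, On k p (P i)) →
  (∀ i, ¬ (q : ℤ) ∣ (P i).x ∧ ¬ (q : ℤ) ∣ (P i).al ∧ ¬ (q : ℤ) ∣ (P i).be) →
  (∀ i, (q : ℤ) ∣ (P i).T - P₀.T ∧ (q : ℤ) ∣ (P i).S - P₀.S ∧ (q : ℤ) ∣ (P i).x - P₀.x ∧
    (q : ℤ) ∣ (P i).al - P₀.al ∧ (q : ℤ) ∣ (P i).be - P₀.be) →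
  ∀ u : Ix, (fun i => ((mo u (P i) : ℤ) : ZMod (q ^ s))) ∈
    RS q s {fun i => (P i).T - P₀.T, fun i => (P i).S - P₀.S}

/-- [CLS] classes modulo `q`: `q^2` classes of `(T, S)`, then at most `2`, `k`, `k` roots. -/
def S_CLS : Prop := ∀ (k q : ℕ) (p : Co) (S : Finset (Pt ℤ)), 1 ≤ k → q.Prime → 2 < q →
  ¬ (q : ℤ) ∣ p.a → (∀ P ∈ S, On k p P) →
  ∃ K ⊆ S, S.card ≤ 2 * k ^ 2 * q ^ 2 * K.card ∧ ∀ P ∈ K, ∀ Q ∈ K,
    (q : ℤ) ∣ P.T - Q.T ∧ (q : ℤ) ∣ P.S - Q.S ∧ (q : ℤ) ∣ P.x - Q.x ∧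
    (q : ℤ) ∣ P.al - Q.al ∧ (q : ℤ) ∣ P.be - Q.be

/-- [NUA] the numerical condition of the box principle. Take `M = 54 k - 1`, `s = 300 k`:
`∑_(u ∈ WB) (M - wt u) = ∑_(e,c,c') M'(M'+1)(M'+2)/6` with `M' = M - k e - c - c' ≥ M - k - 8`,
`50 (M - k - 8)^3 / 6 ≥ 1118481 k^3`, and `0.18 s (s + 1) (s + 2) / 6 ≤ 812000 k^3`;
`q^s = (q^100)^(3 k) > B^(54 k)`. -/
def S_NUA : Prop := ∀ k : ℕ, 5 ≤ k → ∃ M s : ℕ, 1 ≤ M ∧ ∀ C : ℕ, ∃ B0 : ℕ, ∀ B q : ℕ, B0 ≤ B →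
  B ^ 18 < q ^ 100 → q ^ 100 ≤ C * B ^ 18 → C * B ^ M < q ^ s ∧
    q ^ (s * (s + 1) * (s + 2) / 6) < ∏ u ∈ WB k M, (B ^ (M - wt k u) + 1)

/-- [STA] Step A. `PC` with `y = ⌊B^0.18⌋` and `N = x al be` (`|x| ≤ 2 B^k` by `e0`), `CLS`,
`INR`, `CD2`, `NUA`, `BOX`. (`B < B0`: let `K` be one point.) -/
def S_STA : Prop := ∀ k : ℕ, 5 ≤ k → ∃ M C : ℕ, ∀ (B : ℕ) (p : Co) (S : Finset (Pt ℤ)), 1 ≤ B →
  p.Good → |p.a| ^ 100 ≤ B → (∀ P ∈ S, On k p P ∧ 1 ≤ P.T ∧ P.T ≤ B ∧ 1 ≤ P.S ∧ P.S ≤ B ∧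
    1 ≤ P.al ∧ P.al ≤ B ∧ 1 ≤ P.be ∧ P.be ≤ B ∧ P.x ≠ 0) →
  ∃ K ⊆ S, S.card ^ 25 ≤ C * B ^ 9 * K.card ^ 25 ∧ ∃ g : Ix →₀ ℚ, g ≠ 0 ∧
    g.support ⊆ Box k M ∧ ∀ P ∈ K, ev g (P.map (fun z : ℤ => (z : ℚ))) = 0

/-! ## Step B: elimination -/

/-- [MUL] products of formal combinations (reduce the monomials with the equations). Suggested:
call a function `f : Pt Om → Om` of level `m` if `f P = ev H P` for all `P` on the variety, with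
`H` supported in `Box k m`; sums and rational multiples of functions of level `m` are of level `m`,
`T f`, `S f` of level `m + 1`, `x f` of level `m + k`, `al f` and `be f` of level `m + 2 k`. -/
def S_MUL : Prop := ∀ k : ℕ, 1 ≤ k → ∃ c1 : ℕ, ∀ p : Co, p.Good → ∀ (m m' : ℕ) (F G : Ix →₀ ℚ),
  F.support ⊆ Box k m → G.support ⊆ Box k m' → ∃ H : Ix →₀ ℚ, H.support ⊆ Box k (m + m' + c1) ∧
    ∀ P : Pt Om, On k p P → ev H P = ev F P * ev G P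

/-- [BES] linear independence of radicals (Besicovitch). In a shortest nontrivial relation take
two terms `i ≠ j` and an automorphism `σ` of `Ω` over `L` that moves `ξ i / ξ j`
(`Ω / L` is Galois); `σ (ξ i) = ζ_i ξ i` with `ζ_i ∈ L`; apply `σ` and subtract `ζ_j` times the
relation: the term `j` disappears, the term `i` stays. -/
def S_BES : Prop := ∀ (L Ω : Type) [Field L] [CharZero L] [Field Ω] [Algebra L Ω]
  [IsAlgClosure L Ω] (k : ℕ), 1 ≤ k → (∃ ζ : L, IsPrimitiveRoot ζ k) →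
  ∀ (ι : Type) [Finite ι] (ξ : ι → Ω), (∀ i, ξ i ≠ 0) →
  (∀ i, ∃ r : L, ξ i ^ k = algebraMap L Ω r) →
  (∀ i j, i ≠ j → ∀ r : L, ξ i ≠ algebraMap L Ω r * ξ j) → LinearIndependent L ξ

/-- [PRM] the quotients of the products `al^i be^j` are not in `ℂ(t)` at a point
`(t, ν / t, x₀, al, be)`, `x₀, ν` constants. `t^k a^2 al^k = P₃(t)`,
`P₃ = b^2 t^(2k) - b c x₀ t^k + c^2 ν^k`, has simple roots, `t^k = (c / 2b) (x₀ ± sqrt(-D a^2))`,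
and one of them is not a root of `P₄` (as `b c' ≠ b' c` and `x₀ ≠ 0`); compare root
multiplicities modulo `k`; the same for `P₄`. -/
def S_PRM : Prop := ∀ (k : ℕ) (p : Co) (x0 ν : ℂ) (P : Pt Om), 1 ≤ k → p.Good → x0 ≠ 0 →
  ν ≠ 0 → On k p P → P.T = tt → P.S * tt = cc ν → P.x = cc x0 →
  ∀ (i j i' j' : ℕ) (R : RatFunc ℂ), i < k → j < k → i' < k → j' < k →
    P.al ^ i * P.be ^ j = algebraMap (RatFunc ℂ) Om R * (P.al ^ i' * P.be ^ j') → i = i' ∧ j = j'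

/-- [IND] from `BES` and `PRM`. -/
def S_IND : Prop := ∀ (k : ℕ) (p : Co) (x0 ν : ℂ) (P : Pt Om), 1 ≤ k → p.Good → x0 ≠ 0 →
  ν ≠ 0 → On k p P → P.T = tt → P.S * tt = cc ν → P.x = cc x0 →
  LinearIndependent (RatFunc ℂ) (fun u : Fin k × Fin k => P.al ^ (u.1 : ℕ) * P.be ^ (u.2 : ℕ))

/-- [NV] a formal combination does not vanish at the points over `(t, ν / t)` for all but
finitely many small rational `ν > 0`. By `IND` its value is zero only if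
`F_(0,c,c')(t, ν/t) + x₀ F_(1,c,c')(t, ν/t) = 0` for all `c, c'`; `x₀^2 = 4 ν^k - D a^2 < 0`, so
`x₀` is purely imaginary and both polynomials vanish at `(t, ν/t)`, that is
`∑_(i - j = l) F_ij ν^j = 0` for all `l`. -/
def S_NV : Prop := ∀ (k : ℕ) (p : Co) (m : ℕ) (F : Ix →₀ ℚ), 1 ≤ k → p.Good → F ≠ 0 →
  F.support ⊆ Box k m → ∃ Z : Finset ℚ, ∀ ν : ℚ, 0 < ν → 4 * ν ^ k < p.D * p.a ^ 2 → ν ∉ Z →
  ∀ P : Pt Om, On k p P → P.T = tt → P.S * tt = (ν : Om) → ev F P ≠ 0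

/-- [NZ2] two formal combinations are different from zero at a common point. -/
def S_NZ2 : Prop := ∀ (k : ℕ) (p : Co) (m : ℕ) (F G : Ix →₀ ℚ), 1 ≤ k → p.Good → F ≠ 0 → G ≠ 0 →
  F.support ⊆ Box k m → G.support ⊆ Box k m → ∃ P : Pt Om, On k p P ∧ ev F P ≠ 0 ∧ ev G P ≠ 0

/-- [ELM] elimination, by `MUL` and `NZ2` only. `D_m` = functions `P ↦ ev F P` on the variety over
`Ω`, `F` supported in `Box k m`: a vector space over `ℚ` of dimension `2 k^2 (m + 1)^2`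
(`NZ2` with `F = G`); multiplication by `g` is injective `D_m → D_(m + c)` (`NZ2`); `E_n ⊆ D_n`
spanned by the `T^i S^j`, `i, j ≤ n`, has dimension `(n + 1)^2`; so `g D_m ∩ E_(m + c) ≠ 0` for `m`
large (depending on `k` and `M` only). Clear denominators. -/
def S_ELM : Prop := ∀ k : ℕ, 1 ≤ k → ∀ M : ℕ, ∃ E : ℕ, ∀ p : Co, p.Good → ∀ g : Ix →₀ ℚ, g ≠ 0 →
  g.support ⊆ Box k M → ∃ h : ℤ[X][X], h ≠ 0 ∧ Bx E E h ∧ ∀ P : Pt ℤ, On k p P →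
    ev g (P.map (fun z : ℤ => (z : ℚ))) = 0 → h.evalEval P.T P.S = 0

/-! ## Dense integer valued algebraic functions are rational -/

/-- [HT] a relation of small height. The vectors `(t^i y^j)_(i ≤ E, j ≤ n)` of the points span a
proper subspace of `ℚ^((E+1)(n+1))`; take linearly independent ones spanning the same space and
apply Siegel's lemma `Int.Matrix.exists_ne_zero_int_vec_norm_le` (or `..._le'`) to them. -/
def S_HT : Prop := ∀ E n w C0 : ℕ, ∃ C : ℕ, ∀ (B : ℕ) (ι : Type) (K : Finset ι) (t y : ι → ℤ)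
  (h : ℤ[X][X]), 1 ≤ B → (∀ i ∈ K, |t i| ≤ B ∧ |y i| ≤ C0 * (B : ℤ) ^ w) → h ≠ 0 → Bx E n h →
  (∀ i ∈ K, h.evalEval (t i) (y i) = 0) →
  ∃ g : ℤ[X][X], g ≠ 0 ∧ Bx E n g ∧ (∀ i ∈ K, g.evalEval (t i) (y i) = 0) ∧
    ∀ i ∈ K, |(derivative g).evalEval (t i) (y i)| ≤ C * (B : ℤ) ^ C

/-- [CLY] classes modulo `q`: at most `n` values of `y` for each `t` modulo `q`. -/
def S_CLY : Prop := ∀ (ι : Type) (K : Finset ι) (t y : ι → ℤ) (n q : ℕ) (h : ℤ[X][X]), q.Prime →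
  h.natDegree ≤ n → (∀ i ∈ K, h.evalEval (t i) (y i) = 0 ∧
    ¬ (q : ℤ) ∣ (derivative h).evalEval (t i) (y i)) →
  ∃ K' ⊆ K, K.card ≤ n * q * K'.card ∧ ∀ i ∈ K', ∀ j ∈ K', (q : ℤ) ∣ t i - t j ∧
    (q : ℤ) ∣ y i - y j

/-- [DRC] in one class `y` is in the ring `RS q s {t - t₀}` (`IFT`) and the box principle with the
functions `t^i`, `i ≤ M`, and `t^i y`, `i ≤ M - w`, of weights `i`, `i + w`, gives a relation:
`M = 100 w'`, `s = 170 w'`, `w' = 2 w` or larger: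
`0.6 s (s + 1) < M (M + 1) + (M - w) (M - w + 1)`, `0.59 s > M`. (`CD1`, `IFT`, `BOX`.) -/
def S_DRC : Prop := ∀ w C0 C1 : ℕ, 1 ≤ w → ∃ M B0 : ℕ, ∀ (B q : ℕ) (ι : Type) (K : Finset ι)
  (t y : ι → ℤ) (h : ℤ[X][X]), B0 ≤ B → q.Prime → B ^ 59 < q ^ 100 → q ^ 100 ≤ C1 * B ^ 59 →
  (∀ i ∈ K, |t i| ≤ B ∧ |y i| ≤ C0 * (B : ℤ) ^ w ∧ h.evalEval (t i) (y i) = 0 ∧
    ¬ (q : ℤ) ∣ (derivative h).evalEval (t i) (y i)) →
  (∀ i ∈ K, ∀ j ∈ K, (q : ℤ) ∣ t i - t j ∧ (q : ℤ) ∣ y i - y j) →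
  ∃ al be : ℤ[X], (al ≠ 0 ∨ be ≠ 0) ∧ al.natDegree ≤ M ∧ be.natDegree ≤ M ∧
    ∀ i ∈ K, al.eval (t i) + be.eval (t i) * y i = 0

/-- [PSD] pseudo-division: `ρ = be^n h(X, -al/be)`, and `be^n h = (al + be Y) h₂` if `ρ = 0`. -/
def S_PSD : Prop := ∀ (E n M : ℕ) (h : ℤ[X][X]) (al be : ℤ[X]), h ≠ 0 → 1 ≤ n → Bx E n h →
  be ≠ 0 → al.natDegree ≤ M → be.natDegree ≤ M →
  (∃ r : ℤ[X], r ≠ 0 ∧ r.natDegree ≤ E + n * M ∧ ∀ t y : ℤ, h.evalEval t y = 0 →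
    al.eval t + be.eval t * y = 0 → r.eval t = 0) ∨
  (∃ h2 : ℤ[X][X], h2 ≠ 0 ∧ Bx (E + n * M) (n - 1) h2 ∧ ∀ t y : ℤ, h.evalEval t y = 0 →
    al.eval t + be.eval t * y = 0 ∨ h2.evalEval t y = 0)

/-- [DRS] one step of the descent. Replace `h` by `g` of `HT`. If `∂g/∂Y` (degree `≤ n - 1`, not
zero, or else `g` itself has degree `0` in `Y`) vanishes on half of `K`: done. Otherwise `PC` for
`N = (∂g/∂Y)(t, y)` and `y = ⌊B^0.59⌋`, `CLY`, a class with many elements, `DRC`, `PSD`. (`B < B0`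
or `K` small: excluded by `C * B^3 ≤ |K|^5` and `|K| ≤ B`.) -/
def S_DRS : Prop := ∀ E n w C0 : ℕ, 1 ≤ w → 2 ≤ n → ∃ E' C : ℕ, ∀ (B : ℕ) (ι : Type)
  (K : Finset ι) (t y : ι → ℤ) (h : ℤ[X][X]), 1 ≤ B →
  (∀ i ∈ K, 1 ≤ t i ∧ t i ≤ B ∧ |y i| ≤ C0 * (B : ℤ) ^ w) → Set.InjOn t K → h ≠ 0 → Bx E n h →
  (∀ i ∈ K, h.evalEval (t i) (y i) = 0) → C * B ^ 3 ≤ K.card ^ 5 →
  ∃ K' ⊆ K, K.card ≤ 4 * K'.card ∧ ∃ h' : ℤ[X][X], h' ≠ 0 ∧ Bx E' (n - 1) h' ∧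
    ∀ i ∈ K', h'.evalEval (t i) (y i) = 0

/-- [DR] the descent: iterate `DRS` down to degree `1` in `Y`. -/
def S_DR : Prop := ∀ E n w C0 : ℕ, 1 ≤ w → ∃ E' C : ℕ, ∀ (B : ℕ) (ι : Type)
  (K : Finset ι) (t y : ι → ℤ) (h : ℤ[X][X]), 1 ≤ B →
  (∀ i ∈ K, 1 ≤ t i ∧ t i ≤ B ∧ |y i| ≤ C0 * (B : ℤ) ^ w) → Set.InjOn t K → h ≠ 0 → Bx E n h →
  (∀ i ∈ K, h.evalEval (t i) (y i) = 0) → C * B ^ 3 ≤ K.card ^ 5 →
  ∃ K' ⊆ K, K.card ≤ C * K'.card ∧ ∃ al be : ℤ[X], be ≠ 0 ∧ al.natDegree ≤ E' ∧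
    be.natDegree ≤ E' ∧ ∀ i ∈ K', al.eval (t i) + be.eval (t i) * y i = 0

/-! ## The end -/

/-- [MS] Mason-Stothers (`Polynomial.abc`): `ξ^2 + δ = 4 r^k` with `k ≥ 4`, `δ ≠ 0` has only
constant solutions `r`. `r = U / V` in lowest terms, `ξ = P / Q` in lowest terms:
`P^2 V^k = Q^2 (4 U^k - δ V^k)`, so `V^k` and `Q^2` are associated, and
`4 U^k = c P^2 + δ V^k` with coprime terms. -/
def S_MS : Prop := ∀ k : ℕ, 4 ≤ k → ∀ (δ : ℚ) (ξ r : RatFunc ℚ), δ ≠ 0 →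
  ξ ^ 2 + RatFunc.C δ = 4 * r ^ k → ∃ c : ℚ, r = RatFunc.C c

/-- [END] rational `y` and `x` force `t y` to be constant (`MS`; the equation holds for many `t`,
hence identically). -/
def S_END : Prop := ∀ k E : ℕ, 4 ≤ k → ∃ C : ℕ, ∀ (D a : ℤ) (ι : Type) (K : Finset ι)
  (t y x : ι → ℤ) (al be al2 be2 : ℤ[X]), 0 < D → a ≠ 0 → Set.InjOn t K →
  (∀ i ∈ K, x i ^ 2 + D * a ^ 2 = 4 * (t i * y i) ^ k) → be ≠ 0 → be2 ≠ 0 →
  al.natDegree ≤ E → be.natDegree ≤ E → al2.natDegree ≤ E → be2.natDegree ≤ E →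
  (∀ i ∈ K, al.eval (t i) + be.eval (t i) * y i = 0 ∧ al2.eval (t i) + be2.eval (t i) * x i = 0) →
  C ≤ K.card → ∃ K' ⊆ K, K.card ≤ K'.card + E ∧ ∃ c : ℤ, ∀ i ∈ K', t i * y i = c

/-- [DIV] the divisor bound. -/
def S_DIV : Prop := ∃ C : ℕ, ∀ n : ℕ, 1 ≤ n → n.divisors.card ^ 8 ≤ C * n

/-- [TP] Theorem P. Choose one point for every `n₁ ∈ S`; at most `C B^(1/4)` have `x = 0`
(`DIV`); `STA`, `ELM`, `DR` for `y = n₂` (`w = 1`), `DR` for `y = x` (`w = k`, the polynomial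
`be^k Y^2 - 4 (-X al)^k + D a^2 be^k`), `END`, `DIV`. -/
def S_TP : Prop := ∀ k : ℕ, 5 ≤ k → ∃ C : ℕ, ∀ (B : ℕ) (p : Co) (S : Finset ℕ), 1 ≤ B →
  p.Good → |p.a| ^ 100 ≤ B → (∀ N ∈ S, 1 ≤ N ∧ N ≤ B ∧ ∃ P : Pt ℤ, On k p P ∧ P.T = N ∧
    1 ≤ P.S ∧ P.S ≤ B ∧ 1 ≤ P.al ∧ P.al ≤ B ∧ 1 ≤ P.be ∧ P.be ≤ B) →
  S.card ^ 100 ≤ C * B ^ 97

end Pool.Agent.Work.MP_e0c7e8_nt.BG
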