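import Mathlib
import Pool.Agent.Work.MP_e0c7e8_nt.BG.Stmts

/-!
# Item BES: linear independence of radicals
-/

set_option autoImplicit false

namespace Pool.Agent.Work.MP_e0c7e8_nt.BG

open Finset Polynomial

theorem BES_pf : S_BES := by
  intro L Ω _ _ _ _ _ k hk hζ0 ι _ ξ h0 hr hne
  classical
  obtain ⟨ζ, hζ⟩ := hζ0
  have : NeZero k := ⟨by omega⟩
  have hgal : IsGalois L Ω := IsAlgClosure.isGalois L Ω
  have hζ' : IsPrimitiveRoot (algebraMap L Ω ζ) k :=
    hζ.map_of_injective (algebraMap L Ω).injective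
  have hroot : ∀ (σ : Ω ≃ₐ[L] Ω) (i : ι), ∃ z : L, σ (ξ i) = algebraMap L Ω z * ξ i := by
    intro σ i
    obtain ⟨r, hr⟩ := hr i
    have h2 : algebraMap L Ω r ≠ 0 := by
      rw [← hr]
      exact pow_ne_zero _ (h0 i)
    have h1 : (σ (ξ i) / ξ i) ^ k = 1 := by
      rw [div_pow, ← map_pow, hr, AlgEquiv.commutes, div_self h2]
    obtain ⟨j, _, hj⟩ := hζ'.eq_pow_of_pow_eq_one h1
    refine ⟨ζ ^ j, ?_⟩
    rw [map_pow, hj, div_mul_cancel₀ _ (h0 i)]
  let χ : ι → ((Ω ≃ₐ[L] Ω) →* Ω) := fun i =>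
    { toFun := fun σ => σ (ξ i) / ξ i
      map_one' := by
        rw [AlgEquiv.one_apply, div_self (h0 i)]
      map_mul' := fun σ τ => by
        obtain ⟨z, hz⟩ := hroot τ i
        rw [AlgEquiv.mul_apply, hz, map_mul, AlgEquiv.commutes, mul_div_assoc,
          mul_div_cancel_right₀ _ (h0 i), mul_comm] }
  have hχ : ∀ i σ, χ i σ = σ (ξ i) / ξ i := fun _ _ => rfl
  have hinj : Function.Injective χ := by
    intro i j hij
    by_contra hij'
    have hfix : ∀ σ : Ω ≃ₐ[L] Ω, σ (ξ i / ξ j) = ξ i / ξ j := by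
      intro σ
      have h3 := DFunLike.congr_fun hij σ
      rw [hχ, hχ, div_eq_div_iff (h0 i) (h0 j)] at h3
      have h4 : σ (ξ j) ≠ 0 := fun h => h0 j (σ.injective (by rw [h, map_zero]))
      rw [map_div₀, div_eq_div_iff h4 (h0 j), h3, mul_comm]
    have h5 := (InfiniteGalois.mem_bot_iff_fixed (k := L) (K := Ω) (ξ i / ξ j)).2 hfix
    obtain ⟨r, hr'⟩ := IntermediateField.mem_bot.1 h5
    refine hne i j hij' r ?_
    rw [hr', div_mul_cancel₀ _ (h0 j)]
  have hli : LinearIndependent Ω (fun i => (χ i : (Ω ≃ₐ[L] Ω) → Ω)) :=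
    (linearIndependent_monoidHom (Ω ≃ₐ[L] Ω) Ω).comp χ hinj
  rw [linearIndependent_iff'] at hli ⊢
  intro s g hg i hi
  have h6 : ∑ i ∈ s, (algebraMap L Ω (g i) * ξ i) • (χ i : (Ω ≃ₐ[L] Ω) → Ω) = 0 := by
    funext σ
    have h7 := congrArg σ hg
    rw [map_sum, map_zero] at h7
    rw [Finset.sum_apply, Pi.zero_apply, ← h7]
    refine Finset.sum_congr rfl fun j _ => ?_
    rw [Pi.smul_apply, hχ, smul_eq_mul, Algebra.smul_def, map_mul, AlgEquiv.commutes, mul_assoc,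
      mul_div_cancel₀ _ (h0 j)]
  have h8 := hli s (fun i => algebraMap L Ω (g i) * ξ i) h6 i hi
  rcases mul_eq_zero.1 h8 with h | h
  · exact (map_eq_zero_iff _ (algebraMap L Ω).injective).1 h
  · exact absurd h (h0 i)

end Pool.Agent.Work.MP_e0c7e8_nt.BG
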