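import Pool.Agent.Work.MP_e0c7e8_nt.BG.StmtsI

/-!
# Item BGC: the torsion bound from `PAT` and `TP`
-/

set_option autoImplicit false

namespace Pool.Agent.Work.MP_e0c7e8_nt.BG

open Finset Polynomial Pool.Agent.Work.MP_e0c7e8_nt.SM

theorem BGC_pf (hPAT : S_PAT) (hTP : S_TP) : S_BGC := by
  intro k hk
  obtain ⟨C1, hC1, h1⟩ := hPAT k (by omega) (1 / 500) (by norm_num)
  obtain ⟨C2, h2⟩ := hTP k hk
  refine ⟨⌈C1 ^ 1000⌉₊ * C2 ^ 10, ?_⟩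
  intro d B V hd hd4 hB hV hBV hVB hMM hfin
  by_contra hcon
  push Not at hcon
  obtain ⟨p, S, hp, hpa, hS, hSc⟩ := h1 d B V hd hd4 hB hV hBV hfin hcon
  have ha : |p.a| ^ 100 ≤ (B : ℤ) := by
    calc |p.a| ^ 100 ≤ (V : ℤ) ^ 100 := pow_le_pow_left₀ (abs_nonneg _) hpa 100
      _ ≤ (V : ℤ) ^ 200 := pow_le_pow_right₀ (by exact_mod_cast hV) (by norm_num)
      _ ≤ (B : ℤ) := by exact_mod_cast hVB
  have h3 := h2 B p S hB hp ha hS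
  have hB0 : (0 : ℝ) < B := by exact_mod_cast hB
  have hB1 : (1 : ℝ) ≤ B := by exact_mod_cast hB
  have hBi : ((B : ℝ) ^ ((1 : ℝ) / 500)) ^ 1000 = (B : ℝ) ^ 2 := by
    rw [← Real.rpow_natCast, ← Real.rpow_mul hB0.le, ← Real.rpow_natCast]
    norm_num
  have h3' : (S.card : ℝ) ^ 100 ≤ C2 * (B : ℝ) ^ 97 := by exact_mod_cast h3
  have hVB' : (V : ℝ) ^ 200 ≤ B := by exact_mod_cast hVB
  have h4 : (MM d B : ℝ) ^ 1000 ≤ (C1 ^ 1000 * C2 ^ 10) * (B : ℝ) ^ 997 := by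
    calc (MM d B : ℝ) ^ 1000
        ≤ (C1 * (V : ℝ) ^ 5 * (B : ℝ) ^ ((1 : ℝ) / 500) * S.card) ^ 1000 :=
          pow_le_pow_left₀ (by positivity) hSc 1000
      _ = C1 ^ 1000 * ((V : ℝ) ^ 200) ^ 25 * ((B : ℝ) ^ ((1 : ℝ) / 500)) ^ 1000 *
          ((S.card : ℝ) ^ 100) ^ 10 := by
          rw [mul_pow, mul_pow, mul_pow, ← pow_mul, ← pow_mul, ← pow_mul]
      _ ≤ C1 ^ 1000 * (B : ℝ) ^ 25 * (B : ℝ) ^ 2 * (C2 * (B : ℝ) ^ 97) ^ 10 := by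
          rw [hBi]
          have g1 : (0 : ℝ) ≤ C1 ^ 1000 := (pow_pos hC1 1000).le
          have g2 : (0 : ℝ) ≤ (V : ℝ) ^ 200 := pow_nonneg (Nat.cast_nonneg V) 200
          have g3 : (0 : ℝ) ≤ (S.card : ℝ) ^ 100 := pow_nonneg (Nat.cast_nonneg _) 100
          generalize C1 ^ 1000 = u at g1 ⊢
          generalize (V : ℝ) ^ 200 = v at hVB' g2 ⊢
          generalize (S.card : ℝ) ^ 100 = w at h3' g3 ⊢
          exact mul_le_mul (mul_le_mul_of_nonneg_right (mul_le_mul_of_nonneg_left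
            (pow_le_pow_left₀ g2 hVB' 25) g1) (by positivity))
            (pow_le_pow_left₀ g3 h3' 10) (by positivity) (by positivity)
      _ = (C1 ^ 1000 * C2 ^ 10) * (B : ℝ) ^ 997 := by
          rw [mul_pow (C2 : ℝ), ← pow_mul]
          rw [show (997 : ℕ) = 25 + 2 + 97 * 10 by norm_num, pow_add, pow_add]
          ring
  have h5 : (((⌈C1 ^ 1000⌉₊ * C2 ^ 10) * B ^ 997 : ℕ) : ℝ) < (MM d B : ℝ) ^ 1000 := by
    exact_mod_cast hMM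
  have h6 : (C1 ^ 1000 * C2 ^ 10) * (B : ℝ) ^ 997 ≤
      (((⌈C1 ^ 1000⌉₊ * C2 ^ 10) * B ^ 997 : ℕ) : ℝ) := by
    push_cast
    have := Nat.le_ceil (C1 ^ 1000)
    gcongr
  linarith

end Pool.Agent.Work.MP_e0c7e8_nt.BG
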