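import Pool.Agent.Work.MP_e0c7e8_nt.BG.Stmts

/-!
# Item BOX: the box principle
-/

set_option autoImplicit false

namespace Pool.Agent.Work.MP_e0c7e8_nt.BG

open Finset Polynomial

theorem BOX_pf : S_BOX := by
  classical
  intro κ ι _ m R hm hR f L F hf hF hcard hsum
  have : Fintype R := Fintype.ofFinite R
  -- the map from coefficient vectors to the group
  let Φ : ((v : ι) → Fin (L v + 1)) → R := fun c =>
    ⟨∑ v, ((c v : ℕ)) • (fun i => ((f v i : ℤ) : ZMod m)),
      R.sum_mem fun v _ => R.nsmul_mem (hf v) _⟩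
  have hc : Fintype.card R < Fintype.card ((v : ι) → Fin (L v + 1)) := by
    rw [Fintype.card_pi]
    simp only [Fintype.card_fin]
    rw [← Nat.card_eq_fintype_card]
    exact hcard
  obtain ⟨c, c', hne, heq⟩ := Fintype.exists_ne_map_eq_of_card_lt Φ hc
  have hΦ : ∀ c : (v : ι) → Fin (L v + 1), ∀ i, (Φ c : κ → ZMod m) i =
      ((∑ v, ((c v : ℕ) : ℤ) * f v i : ℤ) : ZMod m) := by
    intro c i
    change (∑ v, ((c v : ℕ)) • (fun i => ((f v i : ℤ) : ZMod m))) i = _
    rw [Finset.sum_apply]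
    push_cast
    refine Finset.sum_congr rfl fun v _ => ?_
    simp
  refine ⟨fun v => ((c v : ℕ) : ℤ) - ((c' v : ℕ) : ℤ), ?_, ?_, ?_⟩
  · intro h0
    apply hne
    funext v
    have := congrFun h0 v
    simp only [Pi.zero_apply] at this
    apply Fin.ext
    omega
  · intro v
    have h1 := (c v).2
    have h2 := (c' v).2
    show |((c v : ℕ) : ℤ) - ((c' v : ℕ) : ℤ)| ≤ L v
    rw [abs_le]
    constructor <;> omega
  · intro i
    have h1 : (((∑ v, ((c v : ℕ) : ℤ) * f v i) - ∑ v, ((c' v : ℕ) : ℤ) * f v i : ℤ) : ZMod m)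
        = 0 := by
      rw [Int.cast_sub, ← hΦ c i, ← hΦ c' i, heq, sub_self]
    have e : ∑ v, (((c v : ℕ) : ℤ) - ((c' v : ℕ) : ℤ)) * f v i =
        (∑ v, ((c v : ℕ) : ℤ) * f v i) - ∑ v, ((c' v : ℕ) : ℤ) * f v i := by
      rw [← Finset.sum_sub_distrib]
      refine Finset.sum_congr rfl fun v _ => ?_
      ring
    rw [← e] at h1
    have h2 := (ZMod.intCast_zmod_eq_zero_iff_dvd _ m).1 h1
    apply Int.eq_zero_of_abs_lt_dvd h2
    have hb : |∑ v, (((c v : ℕ) : ℤ) - ((c' v : ℕ) : ℤ)) * f v i| ≤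
        ∑ v, ((L v * F v : ℕ) : ℤ) := by
      refine (Finset.abs_sum_le_sum_abs _ _).trans (Finset.sum_le_sum fun v _ => ?_)
      rw [abs_mul]
      push_cast
      refine mul_le_mul ?_ (hF v i) (abs_nonneg _) (by positivity)
      have h1 := (c v).2
      have h2 := (c' v).2
      rw [abs_le]
      constructor <;> omega
    have h3 : ∑ v, ((L v * F v : ℕ) : ℤ) < m := by exact_mod_cast hsum
    exact lt_of_le_of_lt hb h3

end Pool.Agent.Work.MP_e0c7e8_nt.BG
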