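import Pool.Agent.Work.MP_e0c7e8_nt.BG.Stmts

set_option autoImplicit false

namespace Pool.Agent.Work.MP_e0c7e8_nt.BG

open Finset Polynomial

namespace I_CD1

theorem pow_zero_of (q s i m : ℕ) {κ : Type} (U : κ → ℤ) (hU : ∀ x, (q : ℤ) ∣ U x)
    (h : s ≤ m + i) :
    ((q ^ m : ℕ) : ZMod (q ^ s)) • ((fun x => ((U x : ℤ) : ZMod (q ^ s))) ^ i) = 0 := by
  funext x
  rw [Pi.smul_apply, Pi.pow_apply, Pi.zero_apply, smul_eq_mul]
  have h1 : ((q ^ m : ℕ) : ZMod (q ^ s)) * ((U x : ℤ) : ZMod (q ^ s)) ^ i =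
      (((q : ℤ) ^ m * U x ^ i : ℤ) : ZMod (q ^ s)) := by
    push_cast
    ring
  rw [h1, ZMod.intCast_zmod_eq_zero_iff_dvd]
  push_cast
  calc (q : ℤ) ^ s ∣ (q : ℤ) ^ (m + i) := pow_dvd_pow _ h
    _ = (q : ℤ) ^ m * (q : ℤ) ^ i := pow_add _ _ _
    _ ∣ (q : ℤ) ^ m * U x ^ i := mul_dvd_mul_left _ (pow_dvd_pow_of_dvd (hU x) i)

theorem red (q s i : ℕ) (hq : 1 ≤ q) {κ : Type} (U : κ → ℤ) (hU : ∀ x, (q : ℤ) ∣ U x)
    (c : ZMod (q ^ s)) (hi : i < s) :
    c • ((fun x => ((U x : ℤ) : ZMod (q ^ s))) ^ i) =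
      ((c.val % q ^ (s - i) : ℕ) : ZMod (q ^ s)) •
        ((fun x => ((U x : ℤ) : ZMod (q ^ s))) ^ i) := by
  have : NeZero (q ^ s) := ⟨by positivity⟩
  have h1 : c = ((c.val % q ^ (s - i) : ℕ) : ZMod (q ^ s)) +
      ((c.val / q ^ (s - i) : ℕ) : ZMod (q ^ s)) * ((q ^ (s - i) : ℕ) : ZMod (q ^ s)) := by
    conv_lhs => rw [← ZMod.natCast_zmod_val c]
    conv_lhs => rw [← Nat.mod_add_div' c.val (q ^ (s - i))]
    rw [Nat.cast_add, Nat.cast_mul]
  conv_lhs => rw [h1]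
  rw [add_smul, mul_smul, pow_zero_of q s i (s - i) U hU (by omega), smul_zero, add_zero]

end I_CD1

theorem CD1_pf : S_CD1 := by
  intro q s κ U hq hU
  have : NeZero (q ^ s) := ⟨by positivity⟩
  set u : κ → ZMod (q ^ s) := fun x => ((U x : ℤ) : ZMod (q ^ s)) with hu
  have hmem : ∀ c : (i : Fin s) → Fin (q ^ (s - i.val)),
      ∑ i : Fin s, (((c i).val : ℕ) : ZMod (q ^ s)) • u ^ (i.val) ∈ RS q s {U} := by
    intro c
    refine Subalgebra.sum_mem _ fun i _ => Subalgebra.smul_mem _ (Subalgebra.pow_mem _ ?_ _) _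
    exact Algebra.subset_adjoin ⟨U, rfl, rfl⟩
  let Φ : ((i : Fin s) → Fin (q ^ (s - i.val))) → RS q s {U} := fun c => ⟨_, hmem c⟩
  have hsurj : Function.Surjective Φ := by
    rintro ⟨f, hf⟩
    have hf2 : f ∈ Algebra.adjoin (ZMod (q ^ s)) {u} := by
      have h1 : RS q s {U} = Algebra.adjoin (ZMod (q ^ s)) {u} := by
        unfold RS
        rw [Set.image_singleton]
      rw [h1] at hf
      exact hf
    rw [Algebra.adjoin_singleton_eq_range_aeval] at hf2
    obtain ⟨p, hp⟩ := hf2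
    have hp2 : aeval u p = f := hp
    refine ⟨fun i => ⟨(p.coeff i.val).val % q ^ (s - i.val), Nat.mod_lt _ (by positivity)⟩, ?_⟩
    apply Subtype.ext
    show ∑ i : Fin s, (((p.coeff i.val).val % q ^ (s - i.val) : ℕ) : ZMod (q ^ s)) • u ^ (i.val) = f
    have h2 : ∑ i : Fin s, (((p.coeff i.val).val % q ^ (s - i.val) : ℕ) : ZMod (q ^ s)) •
        u ^ (i.val) = ∑ i ∈ Finset.range s, (p.coeff i) • u ^ i := by
      rw [Finset.sum_range]
      refine Finset.sum_congr rfl fun i _ => ?_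
      exact (I_CD1.red q s i.val hq U hU _ i.2).symm
    rw [h2, ← hp2, Polynomial.aeval_eq_sum_range' (n := max s (p.natDegree + 1))
      (lt_of_lt_of_le (Nat.lt_succ_self _) (le_max_right _ _))]
    refine Finset.sum_subset (Finset.range_subset_range.2 (le_max_left _ _)) fun i _ hi => ?_
    rw [Finset.mem_range, not_lt] at hi
    have h3 := I_CD1.pow_zero_of q s i 0 U hU (by omega)
    rw [pow_zero, Nat.cast_one, one_smul] at h3
    rw [h3, smul_zero]
  have hcard : Nat.card ((i : Fin s) → Fin (q ^ (s - i.val))) = q ^ (s * (s + 1) / 2) := by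
    rw [Nat.card_eq_fintype_card, Fintype.card_pi]
    simp only [Fintype.card_fin]
    rw [Finset.prod_pow_eq_pow_sum]
    congr 1
    rw [← Finset.sum_range (fun i => s - i)]
    have h1 : ∑ i ∈ Finset.range s, (s - i) = ∑ i ∈ Finset.range (s + 1), i := by
      rw [Finset.sum_range_succ' (fun i => i), add_zero, ← Finset.sum_range_reflect]
      refine Finset.sum_congr rfl fun i hi => ?_
      rw [Finset.mem_range] at hi
      omega
    rw [h1, Finset.sum_range_id]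
    have h2 : s + 1 - 1 = s := rfl
    rw [h2, mul_comm]
  refine ⟨Finite.of_surjective Φ hsurj, ?_⟩
  rw [← hcard]
  exact Nat.card_le_card_of_surjective Φ hsurj

end Pool.Agent.Work.MP_e0c7e8_nt.BG
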