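import Pool.Agent.Work.MP_e0c7e8_nt.BG.Stmts

/-!
# Item CD2: the ring generated by two functions divisible by `q`
-/

set_option autoImplicit false

namespace Pool.Agent.Work.MP_e0c7e8_nt.BG

open Finset Polynomial

namespace I_CD2

theorem sA (n : ℕ) : 2 * ∑ j ∈ range n, (j + 1) = n * (n + 1) := by
  induction n with
  | zero => simp
  | succ n ih => rw [Finset.sum_range_succ, mul_add, ih]; ring

theorem sB (n : ℕ) :
    6 * ∑ i ∈ range n, ∑ j ∈ range (i + 1), (j + 1) = n * (n + 1) * (n + 2) := by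
  induction n with
  | zero => simp
  | succ n ih =>
    rw [Finset.sum_range_succ, mul_add, ih]
    have h := sA (n + 1)
    have h2 : 6 * ∑ j ∈ range (n + 1), (j + 1) = 3 * (2 * ∑ j ∈ range (n + 1), (j + 1)) := by ring
    rw [h2, h]
    ring

theorem sC (n : ℕ) : ∑ j ∈ range n, (n - j) = ∑ j ∈ range n, (j + 1) := by
  rw [← Finset.sum_range_reflect (fun j => j + 1)]
  refine Finset.sum_congr rfl fun j hj => ?_
  have := Finset.mem_range.1 hj
  omega

theorem sD (s : ℕ) : ∑ t : (i : Fin s) × Fin (s - i), (s - (t.1 : ℕ) - (t.2 : ℕ)) =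
    s * (s + 1) * (s + 2) / 6 := by
  have h1 : ∑ t : (i : Fin s) × Fin (s - i), (s - (t.1 : ℕ) - (t.2 : ℕ)) =
      ∑ i ∈ range s, ∑ j ∈ range (s - i), (s - i - j) := by
    rw [Fintype.sum_sigma, ← Fin.sum_univ_eq_sum_range (fun i => ∑ j ∈ range (s - i), (s - i - j))]
    refine Finset.sum_congr rfl fun i _ => ?_
    exact Fin.sum_univ_eq_sum_range (fun j => s - (i : ℕ) - j) (s - (i : ℕ))
  have h2 : ∑ i ∈ range s, ∑ j ∈ range (s - i), (s - i - j) =
      ∑ i ∈ range s, ∑ j ∈ range (i + 1), (j + 1) := by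
    rw [← Finset.sum_range_reflect (fun i => ∑ j ∈ range (i + 1), (j + 1))]
    refine Finset.sum_congr rfl fun i hi => ?_
    have := Finset.mem_range.1 hi
    rw [sC]
    congr 2
    omega
  rw [h1, h2, ← sB]
  omega

variable {κ : Type}

/-- reduction of a function -/
def rd (q s : ℕ) (f : κ → ℤ) : κ → ZMod (q ^ s) := fun i => ((f i : ℤ) : ZMod (q ^ s))

theorem zero_of {q s a b : ℕ} {U W : κ → ℤ} (h : ∀ i, (q : ℤ) ∣ U i ∧ (q : ℤ) ∣ W i)
    (c : ℤ) (hc : ((q ^ (s - a - b) : ℕ) : ℤ) ∣ c) :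
    (c : ZMod (q ^ s)) • (rd q s U ^ a * rd q s W ^ b) = 0 := by
  funext i
  simp only [Pi.smul_apply, Pi.mul_apply, Pi.pow_apply, Pi.zero_apply, rd, smul_eq_mul]
  have h1 : ((q ^ s : ℕ) : ℤ) ∣ c * (U i ^ a * W i ^ b) := by
    have h2 : ((q : ℤ) ^ (s - a - b)) * ((q : ℤ) ^ a * (q : ℤ) ^ b) ∣ c * (U i ^ a * W i ^ b) := by
      refine mul_dvd_mul ?_ (mul_dvd_mul (pow_dvd_pow_of_dvd (h i).1 a)
        (pow_dvd_pow_of_dvd (h i).2 b))
      push_cast at hc
      exact hc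
    refine dvd_trans ?_ h2
    push_cast
    rw [← pow_add, ← pow_add]
    exact pow_dvd_pow _ (by omega)
  have h3 := (ZMod.intCast_zmod_eq_zero_iff_dvd (c * (U i ^ a * W i ^ b)) (q ^ s)).2 h1
  push_cast at h3
  exact h3

end I_CD2

open I_CD2 in
/-- **CD2** -/
theorem CD2_pf : S_CD2 := by
  classical
  intro q s κ U W hq h
  have : NeZero (q ^ s) := ⟨by positivity⟩
  let T := (i : Fin s) × Fin (s - i)
  let mon : T → (κ → ZMod (q ^ s)) := fun t => rd q s U ^ (t.1 : ℕ) * rd q s W ^ (t.2 : ℕ)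
  let f : (∀ t : T, Fin (q ^ (s - (t.1 : ℕ) - (t.2 : ℕ)))) → (κ → ZMod (q ^ s)) :=
    fun c => ∑ t, (((c t : ℕ) : ℤ) : ZMod (q ^ s)) • mon t
  have hset : ((fun (f : κ → ℤ) (i : κ) => ((f i : ℤ) : ZMod (q ^ s))) '' {U, W}) =
      {rd q s U, rd q s W} := by
    rw [Set.image_pair]
    rfl
  have hspan : ∀ z ∈ RS q s ({U, W} : Set (κ → ℤ)), z ∈ Submodule.span (ZMod (q ^ s))
      (Set.range mon) := by
    intro z hz
    have h1 : z ∈ Subalgebra.toSubmodule (RS q s ({U, W} : Set (κ → ℤ))) := hz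
    unfold RS at h1
    rw [Algebra.adjoin_eq_span, hset] at h1
    refine (Submodule.span_le.2 ?_) h1
    intro y hy
    obtain ⟨m, n, rfl⟩ := (Submonoid.mem_closure_pair _ _ _).1 hy
    by_cases hmn : m + n < s
    · refine Submodule.subset_span ⟨⟨⟨m, by omega⟩, ⟨n, ?_⟩⟩, rfl⟩
      show n < s - m
      omega
    · have h2 := zero_of (s := s) (a := m) (b := n) h 1 (by
        have : s - m - n = 0 := by omega
        rw [this]
        simp)
      rw [Int.cast_one, one_smul] at h2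
      show rd q s U ^ m * rd q s W ^ n ∈ Submodule.span (ZMod (q ^ s)) (Set.range mon)
      rw [h2]
      exact Submodule.zero_mem _
  have hsub : (RS q s ({U, W} : Set (κ → ℤ)) : Set (κ → ZMod (q ^ s))) ⊆ Set.range f := by
    intro z hz
    obtain ⟨c, hc⟩ := (Submodule.mem_span_range_iff_exists_fun _).1 (hspan z hz)
    have hpos : ∀ t : T, 0 < q ^ (s - (t.1 : ℕ) - (t.2 : ℕ)) := fun t => by positivity
    refine ⟨fun t => ⟨(c t).val % (q ^ (s - (t.1 : ℕ) - (t.2 : ℕ))), Nat.mod_lt _ (hpos t)⟩, ?_⟩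
    rw [← hc]
    refine Finset.sum_congr rfl fun t _ => ?_
    have h3 := zero_of (s := s) (a := t.1) (b := t.2) h
      (((c t).val : ℤ) - (((c t).val % (q ^ (s - (t.1 : ℕ) - (t.2 : ℕ))) : ℕ) : ℤ)) (by
        have := Int.emod_add_mul_ediv ((c t).val : ℤ) ((q ^ (s - (t.1 : ℕ) - (t.2 : ℕ)) : ℕ) : ℤ)
        refine ⟨((c t).val : ℤ) / ((q ^ (s - (t.1 : ℕ) - (t.2 : ℕ)) : ℕ) : ℤ), ?_⟩
        rw [Int.natCast_mod]
        linarith)
    rw [Int.cast_sub, sub_smul, sub_eq_zero] at h3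
    have h4 : (((c t).val : ℤ) : ZMod (q ^ s)) = c t := by
      rw [Int.cast_natCast, ZMod.natCast_zmod_val]
    rw [h4] at h3
    exact h3.symm
  have hfin : (Set.range f).Finite := Set.finite_range f
  refine ⟨(hfin.subset hsub).to_subtype, ?_⟩
  have h5 : Nat.card (RS q s ({U, W} : Set (κ → ℤ))) ≤ Nat.card (Set.range f) :=
    Nat.card_mono hfin hsub
  have h6 : Nat.card (Set.range f) ≤
      Nat.card (∀ t : T, Fin (q ^ (s - (t.1 : ℕ) - (t.2 : ℕ)))) :=
    Finite.card_range_le f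
  refine (h5.trans h6).trans_eq ?_
  rw [Nat.card_pi, ← sD s]
  simp only [Nat.card_eq_fintype_card, Fintype.card_fin]
  rw [Finset.prod_pow_eq_pow_sum]

end Pool.Agent.Work.MP_e0c7e8_nt.BG
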