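import Pool.Agent.Work.MP_e0c7e8_nt.BG.StmtsI

/-!
# Item CLQ: pigeonhole
-/

set_option autoImplicit false

namespace Pool.Agent.Work.MP_e0c7e8_nt.BG

open Finset Polynomial

theorem CLQ_pf : S_CLQ := by
  classical
  intro α β S f N hN hS
  refine ⟨S.filter (fun a => 4 ≤ (S.filter (fun x => f x = f a)).card), filter_subset _ _, ?_, ?_⟩
  · have h1 := S.card_filter_add_card_filter_not
      (fun a => 4 ≤ (S.filter (fun x => f x = f a)).card)
    set T := S.filter (fun a => ¬ 4 ≤ (S.filter (fun x => f x = f a)).card) with hT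
    have h2 : T.card ≤ 3 * (T.image f).card := by
      apply card_le_mul_card_image
      intro b hb
      obtain ⟨a, ha, rfl⟩ := mem_image.1 hb
      have ha' := (mem_filter.1 ha).2
      have h3 : (T.filter (fun x => f x = f a)).card ≤ (S.filter (fun x => f x = f a)).card :=
        card_le_card (filter_subset_filter _ (filter_subset _ _))
      omega
    have h4 : (T.image f).card ≤ N := by
      refine le_trans ?_ hN
      rw [← coe_image, Set.ncard_coe_finset]
      exact card_le_card (image_subset_image (filter_subset _ _))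
    omega
  · intro A1 hA1
    obtain ⟨hA1S, h4⟩ := mem_filter.1 hA1
    have h5 : 2 < ((S.filter (fun x => f x = f A1)).erase A1).card := by
      have h6 : A1 ∈ S.filter (fun x => f x = f A1) := mem_filter.2 ⟨hA1S, rfl⟩
      have h7 := card_erase_add_one h6
      omega
    obtain ⟨A2, h2, A3, h3, A4, h4', h23, h24, h34⟩ := two_lt_card.1 h5
    obtain ⟨n2, m2⟩ := mem_erase.1 h2
    obtain ⟨n3, m3⟩ := mem_erase.1 h3
    obtain ⟨n4, m4⟩ := mem_erase.1 h4'
    obtain ⟨s2, e2⟩ := mem_filter.1 m2
    obtain ⟨s3, e3⟩ := mem_filter.1 m3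
    obtain ⟨s4, e4⟩ := mem_filter.1 m4
    exact ⟨A2, s2, A3, s3, A4, s4, n2.symm, n3.symm, n4.symm, h23, h24, h34, e2, e3, e4⟩

end Pool.Agent.Work.MP_e0c7e8_nt.BG
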