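import Pool.Agent.Work.MP_e0c7e8_nt.BG.Stmts

/-!
Block [e0c7e8 BG], item CLS: classes modulo `q`.
-/

set_option autoImplicit false

namespace Pool.Agent.Work.MP_e0c7e8_nt.BG

open Finset Polynomial

namespace I_CLS

theorem card_roots_le {F : Type} [Field F] (k : ℕ) (hk : 1 ≤ k) (a r : F) (ha : a ≠ 0)
    (Y : Finset F) (h : ∀ y ∈ Y, a * y ^ k = r) : Y.card ≤ k := by
  have hdeg : (C a * X ^ k - C r : F[X]).natDegree = k := by
    rw [natDegree_sub_C, natDegree_C_mul_X_pow k a ha]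
  have hp : (C a * X ^ k - C r : F[X]) ≠ 0 := by
    intro h0
    rw [h0, natDegree_zero] at hdeg
    omega
  have h1 : Y.val ⊆ (C a * X ^ k - C r : F[X]).roots := by
    intro y hy
    rw [mem_roots hp, IsRoot.def, eval_sub, eval_mul, eval_C, eval_pow, eval_X, eval_C,
      h y hy, sub_self]
  exact (card_le_degree_of_subset_roots h1).trans hdeg.le

theorem step {σ α β : Type} [DecidableEq α] [DecidableEq β] (S : Finset σ) (f : σ → α)
    (g : σ → β) (n : ℕ)
    (h : ∀ a, ∀ Y : Finset β, (∀ y ∈ Y, ∃ P ∈ S, f P = a ∧ g P = y) → Y.card ≤ n) :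
    (S.image fun P => (f P, g P)).card ≤ n * (S.image f).card := by
  have h1 := Finset.card_le_mul_card_image (f := Prod.fst) (S.image fun P => (f P, g P)) n
    (fun a _ => ?_)
  · rwa [Finset.image_image] at h1
  · have h2 : (((S.image fun P => (f P, g P)).filter fun z => z.1 = a).image Prod.snd).card =
        ((S.image fun P => (f P, g P)).filter fun z => z.1 = a).card := by
      refine Finset.card_image_of_injOn ?_
      intro z hz z' hz' hzz
      rw [Finset.mem_coe, Finset.mem_filter] at hz hz'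
      exact Prod.ext (hz.2.trans hz'.2.symm) hzz
    rw [← h2]
    refine h a _ fun y hy => ?_
    rw [Finset.mem_image] at hy
    obtain ⟨z, hz, rfl⟩ := hy
    rw [Finset.mem_filter, Finset.mem_image] at hz
    obtain ⟨⟨P, hP, rfl⟩, hz2⟩ := hz
    exact ⟨P, hP, hz2, rfl⟩

theorem pigeon {σ α : Type} [DecidableEq α] (S : Finset σ) (f : σ → α) (n : ℕ)
    (h : (S.image f).card ≤ n) :
    ∃ K ⊆ S, S.card ≤ n * K.card ∧ ∀ P ∈ K, ∀ Q ∈ K, f P = f Q := by
  rcases S.eq_empty_or_nonempty with rfl | hS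
  · exact ⟨∅, Finset.Subset.refl _, by simp, by simp⟩
  · obtain ⟨a, -, ha⟩ := Finset.exists_max_image (S.image f)
      (fun a => (S.filter fun P => f P = a).card) (hS.image f)
    refine ⟨S.filter fun P => f P = a, Finset.filter_subset _ _, ?_, ?_⟩
    · have h1 := Finset.card_le_mul_card_image (f := f) S (S.filter fun P => f P = a).card
        (fun b hb => ha b hb)
      calc S.card ≤ (S.filter fun P => f P = a).card * (S.image f).card := h1
        _ ≤ (S.filter fun P => f P = a).card * n := Nat.mul_le_mul_left _ h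
        _ = n * (S.filter fun P => f P = a).card := Nat.mul_comm _ _
    · intro P hP Q hQ
      rw [Finset.mem_filter] at hP hQ
      rw [hP.2, hQ.2]

end I_CLS

open I_CLS in
/-- [CLS] classes modulo `q`. -/
theorem CLS_pf : S_CLS := by
  intro k q p S hk hq hq2 ha hS
  have hf : Fact q.Prime := ⟨hq⟩
  have ha' : ((p.a : ℤ) : ZMod q) ≠ 0 := by
    intro h
    exact ha ((ZMod.intCast_zmod_eq_zero_iff_dvd p.a q).1 h)
  have ha2 : ((p.a : ℤ) : ZMod q) ^ 2 ≠ 0 := pow_ne_zero 2 ha'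
  -- the equations modulo q
  have he : ∀ P ∈ S, ((P.x : ℤ) : ZMod q) ^ 2 + (p.D : ZMod q) * (p.a : ZMod q) ^ 2 =
        4 * ((P.T : ZMod q) * (P.S : ZMod q)) ^ k ∧
      (p.a : ZMod q) ^ 2 * (P.al : ZMod q) ^ k = (p.b : ZMod q) ^ 2 * (P.T : ZMod q) ^ k -
        (p.b : ZMod q) * (p.c : ZMod q) * (P.x : ZMod q) + (p.c : ZMod q) ^ 2 *
          (P.S : ZMod q) ^ k ∧
      (p.a : ZMod q) ^ 2 * (P.be : ZMod q) ^ k = (p.b' : ZMod q) ^ 2 * (P.T : ZMod q) ^ k -
        (p.b' : ZMod q) * (p.c' : ZMod q) * (P.x : ZMod q) + (p.c' : ZMod q) ^ 2 *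
          (P.S : ZMod q) ^ k := by
    intro P hP
    obtain ⟨h0, h3, h4⟩ := hS P hP
    refine ⟨?_, ?_, ?_⟩
    · have := congrArg (fun z : ℤ => (z : ZMod q)) h0
      push_cast at this
      exact this
    · have := congrArg (fun z : ℤ => (z : ZMod q)) h3
      push_cast at this
      exact this
    · have := congrArg (fun z : ℤ => (z : ZMod q)) h4
      push_cast at this
      exact this
  set f2 : Pt ℤ → ZMod q × ZMod q := fun P => ((P.T : ZMod q), (P.S : ZMod q)) with hf2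
  set f3 : Pt ℤ → (ZMod q × ZMod q) × ZMod q := fun P => (f2 P, (P.x : ZMod q)) with hf3
  set f4 : Pt ℤ → ((ZMod q × ZMod q) × ZMod q) × ZMod q := fun P => (f3 P, (P.al : ZMod q))
    with hf4
  set f5 : Pt ℤ → (((ZMod q × ZMod q) × ZMod q) × ZMod q) × ZMod q :=
    fun P => (f4 P, (P.be : ZMod q)) with hf5
  have c2 : (S.image f2).card ≤ q ^ 2 := by
    refine (Finset.card_le_univ _).trans ?_
    rw [Fintype.card_prod, ZMod.card, pow_two]
  have c3 : (S.image f3).card ≤ 2 * (S.image f2).card := by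
    refine step S f2 (fun P => (P.x : ZMod q)) 2 fun a Y hY => ?_
    refine card_roots_le 2 (by norm_num) 1
      (4 * (a.1 * a.2) ^ k - (p.D : ZMod q) * (p.a : ZMod q) ^ 2) one_ne_zero Y fun y hy => ?_
    obtain ⟨P, hP, hPa, rfl⟩ := hY y hy
    rw [← hPa, one_mul, eq_sub_iff_add_eq]
    exact (he P hP).1
  have c4 : (S.image f4).card ≤ k * (S.image f3).card := by
    refine step S f3 (fun P => (P.al : ZMod q)) k fun a Y hY => ?_
    refine card_roots_le k hk ((p.a : ZMod q) ^ 2)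
      ((p.b : ZMod q) ^ 2 * a.1.1 ^ k - (p.b : ZMod q) * (p.c : ZMod q) * a.2 +
        (p.c : ZMod q) ^ 2 * a.1.2 ^ k) ha2 Y fun y hy => ?_
    obtain ⟨P, hP, hPa, rfl⟩ := hY y hy
    rw [← hPa]
    exact (he P hP).2.1
  have c5 : (S.image f5).card ≤ k * (S.image f4).card := by
    refine step S f4 (fun P => (P.be : ZMod q)) k fun a Y hY => ?_
    refine card_roots_le k hk ((p.a : ZMod q) ^ 2)
      ((p.b' : ZMod q) ^ 2 * a.1.1.1 ^ k - (p.b' : ZMod q) * (p.c' : ZMod q) * a.1.2 +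
        (p.c' : ZMod q) ^ 2 * a.1.1.2 ^ k) ha2 Y fun y hy => ?_
    obtain ⟨P, hP, hPa, rfl⟩ := hY y hy
    rw [← hPa]
    exact (he P hP).2.2
  have c : (S.image f5).card ≤ 2 * k ^ 2 * q ^ 2 := by
    calc (S.image f5).card ≤ k * (k * (2 * q ^ 2)) :=
          c5.trans (Nat.mul_le_mul_left _ (c4.trans (Nat.mul_le_mul_left _
            (c3.trans (Nat.mul_le_mul_left _ c2)))))
      _ = 2 * k ^ 2 * q ^ 2 := by ring
  obtain ⟨K, hK, h1, h2⟩ := pigeon S f5 _ c
  refine ⟨K, hK, h1, fun P hP Q hQ => ?_⟩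
  have h3 := h2 P hP Q hQ
  simp only [hf5, hf4, hf3, hf2, Prod.mk.injEq] at h3
  obtain ⟨⟨⟨⟨hT, hSS⟩, hx⟩, hal⟩, hbe⟩ := h3
  have hd : ∀ u v : ℤ, (u : ZMod q) = (v : ZMod q) → (q : ℤ) ∣ u - v := by
    intro u v huv
    rw [← ZMod.intCast_zmod_eq_zero_iff_dvd, Int.cast_sub, huv, sub_self]
  exact ⟨hd _ _ hT, hd _ _ hSS, hd _ _ hx, hd _ _ hal, hd _ _ hbe⟩

end Pool.Agent.Work.MP_e0c7e8_nt.BG
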