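import Pool.Agent.Work.MP_e0c7e8_nt.BG.Stmts

/-!
Block BG of MP_e0c7e8_nt, item CLY: classes modulo `q`.
-/

set_option autoImplicit false

namespace Pool.Agent.Work.MP_e0c7e8_nt.BG

open Finset Polynomial

namespace I_CLY

/-- reduction of the coefficients at `X = τ`. -/
noncomputable def psi (q : ℕ) (τ : ZMod q) : ℤ[X] →+* ZMod q :=
  eval₂RingHom (Int.castRingHom (ZMod q)) τ

theorem psi_C (q : ℕ) (τ : ZMod q) (z : ℤ) : psi q τ (C z) = (z : ZMod q) := by
  unfold psi
  rw [coe_eval₂RingHom, eval₂_C]
  rfl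

theorem psi_cast (q : ℕ) (t : ℤ) (P : ℤ[X]) : psi q (t : ZMod q) P = ((P.eval t : ℤ) : ZMod q) := by
  unfold psi
  rw [coe_eval₂RingHom]
  exact eval₂_hom (Int.castRingHom (ZMod q)) t

theorem eval_map_psi (q : ℕ) (t y : ℤ) (h : ℤ[X][X]) :
    (h.map (psi q (t : ZMod q))).eval (y : ZMod q) = ((h.evalEval t y : ℤ) : ZMod q) := by
  rw [← psi_C q (t : ZMod q) y, eval_map, eval₂_hom, psi_cast]

end I_CLY

open I_CLY in
theorem CLY_pf : S_CLY := by
  classical
  intro ι K t y n q h hq hn hK
  have : Fact q.Prime := ⟨hq⟩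
  let φ : ι → ZMod q × ZMod q := fun i => ((t i : ZMod q), (y i : ZMod q))
  by_cases hne : K.Nonempty
  · obtain ⟨b, hb, hmax⟩ := Finset.exists_max_image (K.image φ)
      (fun b => (K.filter (fun i => φ i = b)).card) (hne.image φ)
    refine ⟨K.filter (fun i => φ i = b), Finset.filter_subset _ _, ?_, ?_⟩
    · have hI : (K.image φ).card ≤ n * q := by
        have hsub : K.image φ ⊆ (Finset.univ : Finset (ZMod q)).biUnion (fun τ =>
            (h.map (psi q τ)).roots.toFinset.image (fun z => (τ, z))) := by
          intro c hc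
          obtain ⟨i, hi, rfl⟩ := Finset.mem_image.1 hc
          refine Finset.mem_biUnion.2 ⟨(t i : ZMod q), Finset.mem_univ _, ?_⟩
          refine Finset.mem_image.2 ⟨(y i : ZMod q), ?_, rfl⟩
          rw [Multiset.mem_toFinset, Polynomial.mem_roots']
          obtain ⟨h0, h1⟩ := hK i hi
          refine ⟨?_, ?_⟩
          · intro hz
            apply h1
            rw [← ZMod.intCast_zmod_eq_zero_iff_dvd, ← eval_map_psi, ← derivative_map, hz]
            simp
          · rw [Polynomial.IsRoot.def, eval_map_psi, h0]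
            simp
        refine (Finset.card_le_card hsub).trans (Finset.card_biUnion_le.trans ?_)
        refine (Finset.sum_le_card_nsmul _ _ n fun τ _ => ?_).trans ?_
        · refine Finset.card_image_le.trans ((Multiset.toFinset_card_le _).trans ?_)
          exact (card_roots' _).trans ((natDegree_map_le).trans hn)
        · rw [Finset.card_univ, ZMod.card, smul_eq_mul, mul_comm]
      rw [Finset.card_eq_sum_card_image φ K]
      refine (Finset.sum_le_card_nsmul _ _ _ fun c hc => hmax c hc).trans ?_
      rw [smul_eq_mul]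
      exact Nat.mul_le_mul_right _ hI
    · intro i hi j hj
      have h1 := (Finset.mem_filter.1 hi).2
      have h2 := (Finset.mem_filter.1 hj).2
      have h3 : φ i = φ j := h1.trans h2.symm
      have h4 : (t i : ZMod q) = (t j : ZMod q) := congrArg Prod.fst h3
      have h5 : (y i : ZMod q) = (y j : ZMod q) := congrArg Prod.snd h3
      refine ⟨?_, ?_⟩
      · rw [← ZMod.intCast_zmod_eq_zero_iff_dvd, Int.cast_sub, h4, sub_self]
      · rw [← ZMod.intCast_zmod_eq_zero_iff_dvd, Int.cast_sub, h5, sub_self]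
  · rw [Finset.not_nonempty_iff_eq_empty] at hne
    refine ⟨∅, Finset.empty_subset _, ?_, ?_⟩
    · rw [hne]; simp
    · intro i hi
      exact absurd hi (Finset.notMem_empty i)

end Pool.Agent.Work.MP_e0c7e8_nt.BG
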