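import Pool.Agent.Work.MP_e0c7e8_nt.BG.Stmts
import Pool.Agent.Work.MP_e0aece_nt.DivisorBound

/-!
# Item DIV: the divisor bound
-/

set_option autoImplicit false

namespace Pool.Agent.Work.MP_e0c7e8_nt.BG

open Finset Polynomial

theorem DIV_pf : S_DIV := by
  obtain ⟨C, hC, h⟩ := Pool.Agent.Work.MP_e0aece_nt.exists_divisor_bound (1 / 8) (by norm_num)
  refine ⟨⌈C ^ 8⌉₊, fun n hn => ?_⟩
  have h1 := h n (by omega)
  have h0 : (0 : ℝ) ≤ (n.divisors.card : ℝ) := Nat.cast_nonneg _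
  have h2 : ((n.divisors.card : ℝ)) ^ 8 ≤ (C * (n : ℝ) ^ ((1 : ℝ) / 8)) ^ 8 :=
    pow_le_pow_left₀ h0 h1 8
  have h3 : (C * (n : ℝ) ^ ((1 : ℝ) / 8)) ^ 8 = C ^ 8 * n := by
    rw [mul_pow]
    congr 1
    rw [← Real.rpow_natCast, ← Real.rpow_mul (Nat.cast_nonneg n)]
    norm_num
  rw [h3] at h2
  have h4 : C ^ 8 * (n : ℝ) ≤ (⌈C ^ 8⌉₊ : ℝ) * n :=
    mul_le_mul_of_nonneg_right (Nat.le_ceil _) (Nat.cast_nonneg n)
  have h5 := h2.trans h4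
  exact_mod_cast h5

end Pool.Agent.Work.MP_e0c7e8_nt.BG
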