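import Pool.Agent.Work.MP_e0c7e8_nt.BG.Stmts

/-!
Block BG of MP_e0c7e8_nt, item DR: the descent.
-/

set_option autoImplicit false

namespace Pool.Agent.Work.MP_e0c7e8_nt.BG

open Finset Polynomial

namespace I_DR

/-- A relation that involves `t` only. -/
theorem card_le (E : ℕ) (ι : Type) (K : Finset ι) (t : ι → ℤ) (g : ℤ[X]) (hg : g ≠ 0)
    (hE : g.natDegree ≤ E) (hinj : Set.InjOn t K) (h : ∀ i ∈ K, g.eval (t i) = 0) :
    K.card ≤ E := by
  classical
  calc K.card = (K.image t).card := (Finset.card_image_of_injOn hinj).symm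
    _ ≤ g.roots.toFinset.card := by
        apply Finset.card_le_card
        intro x hx
        obtain ⟨i, hi, rfl⟩ := Finset.mem_image.1 hx
        rw [Multiset.mem_toFinset, Polynomial.mem_roots hg]
        exact h i hi
    _ ≤ Multiset.card g.roots := Multiset.toFinset_card_le _
    _ ≤ g.natDegree := Polynomial.card_roots' g
    _ ≤ E := hE

theorem contra (E B c : ℕ) (hB : 1 ≤ B) (hc : c ≤ E) (h : (E ^ 5 + 1) * B ^ 3 ≤ c ^ 5) : False := by
  have h1 : c ^ 5 ≤ E ^ 5 := Nat.pow_le_pow_left hc 5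
  have h2 : 1 ≤ B ^ 3 := Nat.one_le_pow _ _ hB
  have h3 : (E ^ 5 + 1) * 1 ≤ (E ^ 5 + 1) * B ^ 3 := Nat.mul_le_mul_left _ h2
  omega

theorem deg1 (E : ℕ) (ι : Type) (K : Finset ι) (t y : ι → ℤ) (B : ℕ) (h : ℤ[X][X]) (hB : 1 ≤ B)
    (hinj : Set.InjOn t K) (h0 : h ≠ 0) (hb : Bx E 1 h)
    (hv : ∀ i ∈ K, h.evalEval (t i) (y i) = 0) (hC : (E ^ 5 + 1) * B ^ 3 ≤ K.card ^ 5) :
    ∃ K' ⊆ K, K.card ≤ (E ^ 5 + 1) * K'.card ∧ ∃ al be : ℤ[X], be ≠ 0 ∧ al.natDegree ≤ E ∧
    be.natDegree ≤ E ∧ ∀ i ∈ K', al.eval (t i) + be.eval (t i) * y i = 0 := by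
  have e1 : h = C (h.coeff 1) * X + C (h.coeff 0) :=
    Polynomial.eq_X_add_C_of_natDegree_le_one hb.1
  have e2 : ∀ i, h.evalEval (t i) (y i) =
      (h.coeff 0).eval (t i) + (h.coeff 1).eval (t i) * y i := by
    intro i
    conv_lhs => rw [e1]
    simp only [Polynomial.evalEval, Polynomial.eval_add, Polynomial.eval_mul, Polynomial.eval_C,
      Polynomial.eval_X]
    ring
  by_cases hbe : h.coeff 1 = 0
  · exfalso
    have hg : h.coeff 0 ≠ 0 := by
      intro h00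
      apply h0
      rw [e1, hbe, h00]
      simp
    refine contra E B K.card hB (card_le E ι K t (h.coeff 0) hg (hb.2 0) hinj ?_) hC
    intro i hi
    have := hv i hi
    rw [e2, hbe] at this
    simpa using this
  · refine ⟨K, Finset.Subset.refl K, ?_, h.coeff 0, h.coeff 1, hbe, hb.2 0, hb.2 1, ?_⟩
    · exact Nat.le_mul_of_pos_left _ (Nat.succ_pos _)
    · intro i hi
      rw [← e2]
      exact hv i hi

end I_DR

open I_DR in
theorem DR_pf (h1 : S_DRS) : S_DR := by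
  intro E n w C0 hw
  induction n generalizing E with
  | zero =>
    refine ⟨E, E ^ 5 + 1, ?_⟩
    intro B ι K t y h hB hK hinj h0 hb hv hC
    exact deg1 E ι K t y B h hB hinj h0 ⟨hb.1.trans (Nat.zero_le _), hb.2⟩ hv hC
  | succ n ih =>
    rcases Nat.eq_zero_or_pos n with rfl | hn
    · refine ⟨E, E ^ 5 + 1, ?_⟩
      intro B ι K t y h hB hK hinj h0 hb hv hC
      exact deg1 E ι K t y B h hB hinj h0 hb hv hC
    · obtain ⟨E1, C1, hD⟩ := h1 E (n + 1) w C0 hw (by omega)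
      obtain ⟨E2, C2, hR⟩ := ih E1
      refine ⟨E2, C1 + 1024 * C2, ?_⟩
      intro B ι K t y h hB hK hinj h0 hb hv hC
      have hC1 : C1 * B ^ 3 ≤ K.card ^ 5 := by nlinarith [Nat.zero_le (C2 * B ^ 3)]
      obtain ⟨K', hK', hc', h', h0', hb', hv'⟩ := hD B ι K t y h hB hK hinj h0 hb hv hC1
      have hC2 : C2 * B ^ 3 ≤ K'.card ^ 5 := by
        have a1 : K.card ^ 5 ≤ (4 * K'.card) ^ 5 := Nat.pow_le_pow_left hc' 5
        have a2 : (4 * K'.card) ^ 5 = 1024 * K'.card ^ 5 := by ring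
        have a3 : (C1 + 1024 * C2) * B ^ 3 = C1 * B ^ 3 + 1024 * (C2 * B ^ 3) := by ring
        have a4 := Nat.zero_le (C1 * B ^ 3)
        omega
      obtain ⟨K'', hK'', hc'', al, be, hbe, ha, hbd, hz⟩ := hR B ι K' t y h' hB
        (fun i hi => hK i (hK' hi)) (hinj.mono (by exact_mod_cast hK')) h0' hb' hv' hC2
      refine ⟨K'', hK''.trans hK', ?_, al, be, hbe, ha, hbd, hz⟩
      have b1 : K.card ≤ 4 * (C2 * K''.card) := hc'.trans (Nat.mul_le_mul_left 4 hc'')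
      have b2 : (C1 + 1024 * C2) * K''.card = C1 * K''.card + 1024 * (C2 * K''.card) := by ring
      have b3 := Nat.zero_le (C1 * K''.card)
      have b4 := Nat.zero_le (C2 * K''.card)
      omega

end Pool.Agent.Work.MP_e0c7e8_nt.BG
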