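import Pool.Agent.Work.MP_e0c7e8_nt.BG.Stmts

/-!
Item DRC: a rational relation in one class modulo `q`.
-/

set_option autoImplicit false

namespace Pool.Agent.Work.MP_e0c7e8_nt.BG

open Finset Polynomial

namespace I_DRC

/-- Evaluation of integer polynomials at the function `t`. -/
noncomputable def phi {κ : Type} (m : ℕ) (t : κ → ℤ) : ℤ[X] →+* (κ → ZMod m) :=
  eval₂RingHom (Int.castRingHom _) (fun i => ((t i : ℤ) : ZMod m))

theorem phi_apply {κ : Type} (m : ℕ) (t : κ → ℤ) (p : ℤ[X]) (i : κ) :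
    phi m t p i = ((p.eval (t i) : ℤ) : ZMod m) := by
  have h : (Pi.evalRingHom (fun _ : κ => ZMod m) i).comp (phi m t) =
      (Int.castRingHom (ZMod m)).comp (evalRingHom (t i)) := by
    refine Polynomial.ringHom_ext' (RingHom.ext_int _ _) ?_
    simp [phi]
  exact congrArg (fun f => f p) h

theorem eval_apply {κ : Type} (m : ℕ) (t y : κ → ℤ) (h : ℤ[X][X]) (i : κ) :
    ((h.map (phi m t)).eval (fun i => ((y i : ℤ) : ZMod m))) i =
      ((h.evalEval (t i) (y i) : ℤ) : ZMod m) := by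
  have e : ((Pi.evalRingHom (fun _ : κ => ZMod m) i).comp
      (evalRingHom (fun i => ((y i : ℤ) : ZMod m)))).comp (mapRingHom (phi m t)) =
      (Int.castRingHom (ZMod m)).comp (evalEvalRingHom (t i) (y i)) := by
    refine Polynomial.ringHom_ext' (Polynomial.ringHom_ext' (RingHom.ext_int _ _) ?_) ?_
    · simp [phi]
    · simp
  exact congrArg (fun f => f h) e

theorem phi_mem {κ : Type} (m : ℕ) (t : κ → ℤ) (R : Subalgebra (ZMod m) (κ → ZMod m))
    (ht : (fun i => ((t i : ℤ) : ZMod m)) ∈ R) (p : ℤ[X]) : phi m t p ∈ R := by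
  unfold phi
  rw [coe_eval₂RingHom, eval₂_eq_sum_range]
  refine Subalgebra.sum_mem _ fun i _ => Subalgebra.mul_mem _ ?_ (Subalgebra.pow_mem _ ht _)
  rw [eq_intCast]
  exact intCast_mem R _

theorem unit_of (q s : ℕ) (hq : q.Prime) (n : ℤ) (hn : ¬ (q : ℤ) ∣ n) :
    IsUnit ((n : ℤ) : ZMod (q ^ s)) := by
  rw [ZMod.coe_int_isUnit_iff_isCoprime]
  push_cast
  exact IsCoprime.pow_left ((Nat.prime_iff_prime_int.mp hq).coprime_iff_not_dvd.2 hn)

theorem sum_sub (M : ℕ) : 2 * ∑ a : Fin (M + 1), (M - (a : ℕ)) = M * (M + 1) := by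
  rw [Fin.sum_univ_eq_sum_range (fun a => M - a) (M + 1)]
  have h1 : ∑ a ∈ range (M + 1), (M - a) = ∑ a ∈ range (M + 1), a := by
    have := Finset.sum_range_reflect (fun a => a) (M + 1)
    simpa using this
  rw [h1, mul_comm, Finset.sum_range_id_mul_two]
  simp
  ring

/-- numerical inequality 1 -/
theorem num1 (w C1 B q S e : ℕ) (hS : S = 170 * w * (170 * w + 1) / 2)
    (he : 2 * e = 100 * w * (100 * w + 1) + 99 * w * (99 * w + 1)) (hw : 1 ≤ w)
    (hB : C1 ^ S < B) (hq : q ^ 100 ≤ C1 * B ^ 59) : q ^ S < B ^ e := by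
  have hB1 : 1 ≤ B := by omega
  have h1 : 59 * S + 1 ≤ 100 * e := by
    have e1 : S * 2 ≤ 170 * w * (170 * w + 1) := by
      rw [hS]
      exact Nat.div_mul_le_self _ _
    nlinarith
  have h2 : (q ^ S) ^ 100 < (B ^ e) ^ 100 := by
    calc (q ^ S) ^ 100 = (q ^ 100) ^ S := by rw [← pow_mul, ← pow_mul, mul_comm]
      _ ≤ (C1 * B ^ 59) ^ S := Nat.pow_le_pow_left hq _
      _ = C1 ^ S * B ^ (59 * S) := by rw [mul_pow, ← pow_mul]
      _ < B * B ^ (59 * S) := Nat.mul_lt_mul_of_pos_right hB (Nat.pow_pos hB1)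
      _ = B ^ (59 * S + 1) := by ring
      _ ≤ B ^ (100 * e) := Nat.pow_le_pow_right hB1 h1
      _ = (B ^ e) ^ 100 := by rw [← pow_mul, mul_comm]
  exact lt_of_pow_lt_pow_left₀ 100 (Nat.zero_le _) h2

/-- numerical inequality 2 -/
theorem num2 (w C B q : ℕ) (hw : 1 ≤ w) (hB1 : 1 ≤ B) (hB : C ^ 100 ≤ B)
    (hq : B ^ 59 < q ^ 100) : C * B ^ (100 * w) < q ^ (170 * w) := by
  have h2 : (C * B ^ (100 * w)) ^ 100 < (q ^ (170 * w)) ^ 100 := by
    calc (C * B ^ (100 * w)) ^ 100 = C ^ 100 * B ^ (10000 * w) := by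
          rw [mul_pow, ← pow_mul]
          ring_nf
      _ ≤ B * B ^ (10000 * w) := Nat.mul_le_mul_right _ hB
      _ = B ^ (10000 * w + 1) := by ring
      _ ≤ B ^ (59 * (170 * w)) := Nat.pow_le_pow_right hB1 (by omega)
      _ = (B ^ 59) ^ (170 * w) := by rw [pow_mul]
      _ < (q ^ 100) ^ (170 * w) := Nat.pow_lt_pow_left hq (by omega)
      _ = (q ^ (170 * w)) ^ 100 := by rw [← pow_mul, ← pow_mul, mul_comm]
  exact lt_of_pow_lt_pow_left₀ 100 (Nat.zero_le _) h2

end I_DRC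

open I_DRC

theorem DRC_pf (h1 : S_CD1) (h2 : S_IFT) (h3 : S_BOX) : S_DRC := by
  classical
  intro w C0 C1 hw
  obtain ⟨S, hS⟩ : ∃ S : ℕ, S = 170 * w * (170 * w + 1) / 2 := ⟨_, rfl⟩
  obtain ⟨Cb, hCb⟩ : ∃ Cb : ℕ, Cb = (100 * w + 1) + (99 * w + 1) * C0 := ⟨_, rfl⟩
  refine ⟨100 * w, C1 ^ S + 1 + Cb ^ 100, ?_⟩
  intro B q ι K t y h hB hq hq1 hq2 hK hcl
  rcases K.eq_empty_or_nonempty with hKe | ⟨i0, hi0⟩
  · subst hKe
    exact ⟨1, 0, Or.inl one_ne_zero, by simp, by simp, fun i hi =>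
      absurd hi (Finset.notMem_empty i)⟩
  have hB1 : 1 ≤ B := by omega
  obtain ⟨m, hm⟩ : ∃ m : ℕ, m = q ^ (170 * w) := ⟨_, rfl⟩
  have hm0 : 0 < m := by
    rw [hm]
    exact Nat.pow_pos hq.pos
  -- the ring
  let κ : Type := K
  let tk : K → ℤ := fun i => t i
  let yk : K → ℤ := fun i => y i
  let U : K → ℤ := fun i => t i - t i0
  obtain ⟨hfin, hcard⟩ := h1 q (170 * w) K U hq.one_lt.le (fun i => (hcl i i.2 i0 hi0).1)
  rw [← hS] at hcard
  obtain ⟨R, hR⟩ : ∃ R, R = RS q (170 * w) {U} := ⟨_, rfl⟩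
  rw [← hR] at hfin hcard
  have htR : (fun i => ((tk i : ℤ) : ZMod (q ^ (170 * w)))) ∈ R := by
    have e1 : (fun i => ((tk i : ℤ) : ZMod (q ^ (170 * w)))) =
        (fun i : K => ((U i : ℤ) : ZMod (q ^ (170 * w)))) +
          (((t i0 : ℤ)) : K → ZMod (q ^ (170 * w))) := by
      funext i
      simp [tk, U]
    rw [e1]
    refine Subalgebra.add_mem _ ?_ (intCast_mem R _)
    rw [hR]
    exact Algebra.subset_adjoin ⟨U, rfl, rfl⟩
  have hyR : (fun i => ((yk i : ℤ) : ZMod (q ^ (170 * w)))) ∈ R := by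
    refine h2 q (170 * w) K R hq hfin yk (h.map (phi (q ^ (170 * w)) tk)) ?_ ?_ ?_ ?_
    · intro j
      rw [coeff_map]
      exact phi_mem _ tk R htR _
    · funext i
      rw [eval_apply]
      have := (hK i i.2).2.2.1
      show ((h.evalEval (t i) (y i) : ℤ) : ZMod (q ^ (170 * w))) = 0
      rw [this]
      simp
    · exact ⟨y i0, fun i => (hcl i i.2 i0 hi0).2⟩
    · intro i
      rw [derivative_map, eval_apply]
      exact unit_of q _ hq _ (hK i i.2).2.2.2
  -- the box principle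
  let f : Fin (100 * w + 1) ⊕ Fin (99 * w + 1) → K → ℤ :=
    Sum.elim (fun a i => t i ^ (a : ℕ)) (fun a i => t i ^ (a : ℕ) * y i)
  let L : Fin (100 * w + 1) ⊕ Fin (99 * w + 1) → ℕ :=
    Sum.elim (fun a => B ^ (100 * w - (a : ℕ))) (fun a => B ^ (99 * w - (a : ℕ)))
  let F : Fin (100 * w + 1) ⊕ Fin (99 * w + 1) → ℕ :=
    Sum.elim (fun a => B ^ (a : ℕ)) (fun a => C0 * B ^ ((a : ℕ) + w))
  have hequiv : (R : Type) ≃ (R.toSubring.toAddSubgroup : Type) :=
    Equiv.subtypeEquivRight (fun _ => Iff.rfl)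
  have hfin' : Finite (R.toSubring.toAddSubgroup) := Finite.of_equiv _ hequiv
  have hcard' : Nat.card (R.toSubring.toAddSubgroup) ≤ q ^ S := by
    rw [← Nat.card_congr hequiv]
    exact hcard
  have htb : ∀ (i : K) (a : ℕ), |t i ^ a| ≤ ((B ^ a : ℕ) : ℤ) := by
    intro i a
    rw [abs_pow]
    push_cast
    exact pow_le_pow_left₀ (abs_nonneg _) (hK i i.2).1 a
  obtain ⟨l, hl0, -, hl⟩ := h3 K (Fin (100 * w + 1) ⊕ Fin (99 * w + 1)) (q ^ (170 * w))
    R.toSubring.toAddSubgroup (Nat.pow_pos hq.pos) hfin' f L F (by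
      rintro (a | a)
      · have e1 : (fun i : K => ((f (Sum.inl a) i : ℤ) : ZMod (q ^ (170 * w)))) =
            (fun i => ((tk i : ℤ) : ZMod (q ^ (170 * w)))) ^ (a : ℕ) := by
          funext i
          simp [f, tk]
        rw [e1]
        exact Subalgebra.pow_mem _ htR _
      · have e1 : (fun i : K => ((f (Sum.inr a) i : ℤ) : ZMod (q ^ (170 * w)))) =
            (fun i => ((tk i : ℤ) : ZMod (q ^ (170 * w)))) ^ (a : ℕ) *
              (fun i => ((yk i : ℤ) : ZMod (q ^ (170 * w)))) := by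
          funext i
          simp [f, tk, yk]
        rw [e1]
        exact Subalgebra.mul_mem _ (Subalgebra.pow_mem _ htR _) hyR)
    (by
      rintro (a | a) i
      · exact htb i a
      · show |t i ^ (a : ℕ) * y i| ≤ ((C0 * B ^ ((a : ℕ) + w) : ℕ) : ℤ)
        rw [abs_mul]
        calc |t i ^ (a : ℕ)| * |y i| ≤ ((B ^ (a : ℕ) : ℕ) : ℤ) * (C0 * (B : ℤ) ^ w) :=
              mul_le_mul (htb i a) (hK i i.2).2.1 (abs_nonneg _) (by positivity)
          _ = ((C0 * B ^ ((a : ℕ) + w) : ℕ) : ℤ) := by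
              push_cast
              ring)
    (by
      rw [Fintype.prod_sum_type]
      show _ < (∏ a : Fin (100 * w + 1), (B ^ (100 * w - (a : ℕ)) + 1)) *
        ∏ a : Fin (99 * w + 1), (B ^ (99 * w - (a : ℕ)) + 1)
      have e1 : B ^ (∑ a : Fin (100 * w + 1), (100 * w - (a : ℕ))) ≤
          ∏ a : Fin (100 * w + 1), (B ^ (100 * w - (a : ℕ)) + 1) := by
        rw [← Finset.prod_pow_eq_pow_sum]
        exact Finset.prod_le_prod' fun a _ => Nat.le_succ _
      have e2 : B ^ (∑ a : Fin (99 * w + 1), (99 * w - (a : ℕ))) ≤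
          ∏ a : Fin (99 * w + 1), (B ^ (99 * w - (a : ℕ)) + 1) := by
        rw [← Finset.prod_pow_eq_pow_sum]
        exact Finset.prod_le_prod' fun a _ => Nat.le_succ _
      refine lt_of_le_of_lt hcard' (lt_of_lt_of_le ?_ (Nat.mul_le_mul e1 e2))
      rw [← pow_add]
      refine num1 w C1 B q S _ hS ?_ hw (by omega) hq2
      rw [mul_add, sum_sub, sum_sub])
    (by
      rw [Fintype.sum_sum_type]
      show (∑ a : Fin (100 * w + 1), B ^ (100 * w - (a : ℕ)) * B ^ (a : ℕ)) +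
        (∑ a : Fin (99 * w + 1), B ^ (99 * w - (a : ℕ)) * (C0 * B ^ ((a : ℕ) + w))) < _
      have e1 : ∀ a : Fin (100 * w + 1), B ^ (100 * w - (a : ℕ)) * B ^ (a : ℕ) =
          B ^ (100 * w) := by
        intro a
        rw [← pow_add]
        congr 1
        have := a.2
        omega
      have e2 : ∀ a : Fin (99 * w + 1), B ^ (99 * w - (a : ℕ)) * (C0 * B ^ ((a : ℕ) + w)) =
          C0 * B ^ (100 * w) := by
        intro a
        have e3 : 100 * w = (99 * w - (a : ℕ)) + ((a : ℕ) + w) := by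
          have := a.2
          omega
        conv_rhs => rw [e3, pow_add]
        ring
      rw [Finset.sum_congr rfl fun a _ => e1 a, Finset.sum_congr rfl fun a _ => e2 a]
      simp only [Finset.sum_const, Finset.card_univ, Fintype.card_fin, smul_eq_mul]
      have e4 : (100 * w + 1) * B ^ (100 * w) + (99 * w + 1) * (C0 * B ^ (100 * w)) =
          Cb * B ^ (100 * w) := by
        rw [hCb]
        ring
      rw [e4]
      exact num2 w Cb B q hw hB1 (by omega) hq1)
  -- the polynomials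
  let al : ℤ[X] := ∑ a : Fin (100 * w + 1), monomial (a : ℕ) (l (Sum.inl a))
  let be : ℤ[X] := ∑ a : Fin (99 * w + 1), monomial (a : ℕ) (l (Sum.inr a))
  have hcal : ∀ a : Fin (100 * w + 1), al.coeff (a : ℕ) = l (Sum.inl a) := by
    intro a
    simp only [al, finsetSum_coeff]
    rw [Finset.sum_eq_single a]
    · rw [coeff_monomial, if_pos rfl]
    · intro b _ hb
      rw [coeff_monomial, if_neg]
      intro h
      exact hb (Fin.ext h)
    · intro h
      exact absurd (Finset.mem_univ a) h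
  have hcbe : ∀ a : Fin (99 * w + 1), be.coeff (a : ℕ) = l (Sum.inr a) := by
    intro a
    simp only [be, finsetSum_coeff]
    rw [Finset.sum_eq_single a]
    · rw [coeff_monomial, if_pos rfl]
    · intro b _ hb
      rw [coeff_monomial, if_neg]
      intro h
      exact hb (Fin.ext h)
    · intro h
      exact absurd (Finset.mem_univ a) h
  refine ⟨al, be, ?_, ?_, ?_, ?_⟩
  · by_contra hcon
    push Not at hcon
    apply hl0
    funext v
    rcases v with a | a
    · rw [← hcal a, hcon.1]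
      simp
    · rw [← hcbe a, hcon.2]
      simp
  · refine natDegree_sum_le_of_forall_le _ _ fun a _ => ?_
    exact (natDegree_monomial_le _).trans (by have := a.2; omega)
  · refine natDegree_sum_le_of_forall_le _ _ fun a _ => ?_
    exact (natDegree_monomial_le _).trans (by have := a.2; omega)
  · intro i hi
    have e1 := hl ⟨i, hi⟩
    rw [Fintype.sum_sum_type] at e1
    have e2 : al.eval (t i) = ∑ a : Fin (100 * w + 1), l (Sum.inl a) * t i ^ (a : ℕ) := by
      simp only [al, eval_finsetSum, eval_monomial]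
    have e3 : be.eval (t i) = ∑ a : Fin (99 * w + 1), l (Sum.inr a) * t i ^ (a : ℕ) := by
      simp only [be, eval_finsetSum, eval_monomial]
    rw [e2, e3, Finset.sum_mul, ← e1]
    congr 1
    refine Finset.sum_congr rfl fun a _ => ?_
    show _ = l (Sum.inr a) * (t i ^ (a : ℕ) * y i)
    ring

end Pool.Agent.Work.MP_e0c7e8_nt.BG
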