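import Pool.Agent.Work.MP_e0c7e8_nt.BG.Stmts

/-!
# [DRS] one step of the descent
-/

set_option autoImplicit false

namespace Pool.Agent.Work.MP_e0c7e8_nt.BG

open Finset Polynomial

namespace I_DRS

/-- The derivative in the outer variable respects the boxes. -/
theorem bx_derivative {E n : ℕ} {g : ℤ[X][X]} (hg : Bx E n g) :
    Bx E (n - 1) (derivative g) := by
  refine ⟨?_, ?_⟩
  · have h1 := natDegree_derivative_le g
    have h2 := hg.1
    omega
  · intro j
    rw [coeff_derivative]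
    have h3 : ((g.coeff (j + 1)) * ((j : ℤ[X]) + 1)) = (g.coeff (j + 1)) * ((j + 1 : ℕ) : ℤ[X]) := by
      push_cast
      rfl
    rw [h3]
    refine (natDegree_mul_le).trans ?_
    rw [natDegree_natCast]
    simpa using hg.2 (j + 1)

/-- Polynomials with zero derivative have degree zero. -/
theorem bx_of_derivative_eq_zero {E n : ℕ} {g : ℤ[X][X]} (hg : Bx E n g)
    (hd : derivative g = 0) : Bx E (n - 1) g := by
  refine ⟨?_, hg.2⟩
  have := derivative_eq_zero.mp hd
  omega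

/-- The linear polynomial. -/
theorem lin_evalEval (al be : ℤ[X]) (t y : ℤ) :
    (C al + C be * X : ℤ[X][X]).evalEval t y = al.eval t + be.eval t * y := by
  simp [evalEval]

theorem lin_ne_zero (al be : ℤ[X]) (hbe : be ≠ 0) : (C al + C be * X : ℤ[X][X]) ≠ 0 := by
  intro h
  apply hbe
  have := congrArg (fun p : ℤ[X][X] => p.coeff 1) h
  simpa using this

theorem lin_bx (al be : ℤ[X]) {M : ℕ} (h1 : al.natDegree ≤ M) (h2 : be.natDegree ≤ M) :
    Bx M 1 (C al + C be * X : ℤ[X][X]) := by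
  refine ⟨?_, ?_⟩
  · refine (natDegree_add_le _ _).trans ?_
    refine max_le ?_ ?_
    · simp
    · refine (natDegree_mul_le).trans ?_
      simp
  · intro j
    rcases j with _ | _ | j
    · simpa using h1
    · simpa using h2
    · have : (C al + C be * X : ℤ[X][X]).coeff (j + 2) = 0 := by
        rw [coeff_add, coeff_C_mul, coeff_X, coeff_C]
        simp
      rw [this]
      simp

theorem Bx.mono {E E' n n' : ℕ} {h : ℤ[X][X]} (hh : Bx E n h) (h1 : E ≤ E') (h2 : n ≤ n') :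
    Bx E' n' h := ⟨hh.1.trans h2, fun j => (hh.2 j).trans h1⟩

/-- A nonzero polynomial with zeros at distinct points. -/
theorem card_le_of_roots {ι : Type} (K : Finset ι) (t : ι → ℤ) (ht : Set.InjOn t K)
    (r : ℤ[X]) (hr : r ≠ 0) (h : ∀ i ∈ K, r.eval (t i) = 0) : K.card ≤ r.natDegree := by
  classical
  have h1 : (K.image t).card = K.card := Finset.card_image_of_injOn ht
  rw [← h1]
  have h2 : K.image t ⊆ r.roots.toFinset := by
    intro z hz
    rw [Finset.mem_image] at hz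
    obtain ⟨i, hi, rfl⟩ := hz
    rw [Multiset.mem_toFinset, mem_roots hr]
    exact h i hi
  exact (Finset.card_le_card h2).trans
    ((Multiset.toFinset_card_le _).trans (card_roots' r))

/-- The integer part of `B ^ 0.59`. -/
theorem exists_root (B : ℕ) (hB : 1 ≤ B) : ∃ Y : ℕ, 1 ≤ Y ∧ Y ^ 100 ≤ B ^ 59 ∧
    B ^ 59 < (Y + 1) ^ 100 := by
  classical
  have hex : ∃ Y : ℕ, B ^ 59 < (Y + 1) ^ 100 := by
    refine ⟨B ^ 59, ?_⟩
    calc B ^ 59 < B ^ 59 + 1 := Nat.lt_succ_self _
      _ = (B ^ 59 + 1) ^ 1 := by ring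
      _ ≤ (B ^ 59 + 1) ^ 100 := Nat.pow_le_pow_right (Nat.succ_pos _) (by norm_num)
  refine ⟨Nat.find hex, ?_, ?_, Nat.find_spec hex⟩
  · by_contra h0
    have h0' : Nat.find hex = 0 := by omega
    have h1 := Nat.find_spec hex
    rw [h0'] at h1
    simp only [zero_add, one_pow, Nat.lt_one_iff] at h1
    have : 1 ≤ B ^ 59 := Nat.one_le_pow _ _ hB
    omega
  · rcases Nat.eq_zero_or_pos (Nat.find hex) with h0 | h0
    · rw [h0]
      simp
    · have h1 := Nat.find_min hex (m := Nat.find hex - 1) (by omega)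
      have h2 : Nat.find hex - 1 + 1 = Nat.find hex := by omega
      rw [h2] at h1
      exact not_lt.mp h1

/-- The size of the integer part: `C * B ^ C ≤ Y ^ (4 C + 1)` for `B` large. -/
theorem pow_bound (c B Y : ℕ) (hc : c ≤ B) (hB : 2 ^ 200 ≤ B) (hY : B ^ 59 < (Y + 1) ^ 100)
    (hY1 : 1 ≤ Y) : c * B ^ c ≤ Y ^ (4 * c + 1) := by
  -- first `B ≤ Y ^ 2`
  have h1 : B ≤ Y ^ 2 := by
    by_contra hcon
    push Not at hcon
    -- `(Y + 1) ≤ 2 Y`, `(2 Y) ^ 100 = 2 ^ 100 * (Y ^ 2) ^ 50 ≤ 2 ^ 100 * B ^ 50`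
    have h2 : (Y + 1) ^ 100 ≤ (2 * Y) ^ 100 := Nat.pow_le_pow_left (by omega) _
    have h3 : (2 * Y) ^ 100 = 2 ^ 100 * (Y ^ 2) ^ 50 := by
      rw [mul_pow, ← pow_mul]
    have h4 : (Y ^ 2) ^ 50 ≤ B ^ 50 := Nat.pow_le_pow_left hcon.le _
    have h5 : (2 : ℕ) ^ 100 ≤ B ^ 9 := by
      calc (2 : ℕ) ^ 100 ≤ 2 ^ 200 := Nat.pow_le_pow_right (by norm_num) (by norm_num)
        _ ≤ B := hB
        _ = B ^ 1 := (pow_one B).symm
        _ ≤ B ^ 9 := Nat.pow_le_pow_right (by omega) (by norm_num)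
    have h6 : (2 : ℕ) ^ 100 * (Y ^ 2) ^ 50 ≤ B ^ 9 * B ^ 50 := Nat.mul_le_mul h5 h4
    have h7 : B ^ 9 * B ^ 50 = B ^ 59 := by ring
    rw [h7] at h6
    rw [h3] at h2
    exact absurd (hY.trans_le (h2.trans h6)) (lt_irrefl _)
  rcases Nat.eq_zero_or_pos c with h0 | h0
  · subst h0
    simp
  · calc c * B ^ c ≤ B * B ^ c := Nat.mul_le_mul_right _ hc
      _ = B ^ (c + 1) := by ring
      _ ≤ B ^ (2 * c) := Nat.pow_le_pow_right (by omega) (by omega)
      _ ≤ (Y ^ 2) ^ (2 * c) := Nat.pow_le_pow_left h1 _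
      _ = Y ^ (4 * c) := by
        rw [← pow_mul]
        congr 1
        ring
      _ ≤ Y ^ (4 * c + 1) := Nat.pow_le_pow_right hY1 (by omega)

end I_DRS

open I_DRS in
/-- **[DRS]** one step of the descent. -/
theorem DRS_pf (hPC : S_PC) (hHT : S_HT) (hCLY : S_CLY) (hDRC : S_DRC) (hPSD : S_PSD) :
    S_DRS := by
  classical
  intro E n w C0 hw hn
  obtain ⟨c1, hc1⟩ := hHT E n w C0
  obtain ⟨M, B0, hM⟩ := hDRC w C0 (4 ^ (100 * (4 * c1 + 1))) hw
  -- the constants
  refine ⟨E + n * M, (B0 + c1 + 2 ^ 200) ^ 2 +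
    ((4 * n * (E + n * M)) ^ 100 * 4 ^ (100 * (4 * c1 + 1)) + 1), ?_⟩
  intro B ι K t y h hB hK hinj hh hbx hzero hcard
  have hMn : M ≤ n * M := Nat.le_mul_of_pos_left M (by omega)
  -- `|K| ≤ B`
  have hKB : K.card ≤ B := by
    have h1 : (K.image t).card = K.card := Finset.card_image_of_injOn hinj
    rw [← h1]
    have h2 : K.image t ⊆ Finset.Icc (1 : ℤ) B := by
      intro z hz
      rw [Finset.mem_image] at hz
      obtain ⟨i, hi, rfl⟩ := hz
      rw [Finset.mem_Icc]
      exact ⟨(hK i hi).1, (hK i hi).2.1⟩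
    have h3 := Finset.card_le_card h2
    simpa using h3
  -- `B` is large
  have hBlarge : B0 + c1 + 2 ^ 200 ≤ B := by
    by_contra hcon
    push Not at hcon
    have h1 : K.card ^ 5 ≤ B ^ 5 := Nat.pow_le_pow_left hKB 5
    have h2 : ((B0 + c1 + 2 ^ 200) ^ 2 +
      ((4 * n * (E + n * M)) ^ 100 * 4 ^ (100 * (4 * c1 + 1)) + 1)) * B ^ 3 ≤ B ^ 2 * B ^ 3 := by
      calc _ ≤ K.card ^ 5 := hcard
        _ ≤ B ^ 5 := h1
        _ = B ^ 2 * B ^ 3 := by ring
    have h3 := Nat.le_of_mul_le_mul_right h2 (by positivity)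
    have h4 : B ^ 2 ≤ (B0 + c1 + 2 ^ 200) ^ 2 := Nat.pow_le_pow_left hcon.le 2
    omega
  -- the relation of small height
  obtain ⟨g, hg0, hgbx, hgzero, hgsmall⟩ := hc1 B ι K t y h hB
    (fun i hi => ⟨by
      rw [abs_of_pos (by linarith [(hK i hi).1])]
      exact (hK i hi).2.1, (hK i hi).2.2⟩) hh hbx hzero
  by_cases hd : derivative g = 0
  · refine ⟨K, Finset.Subset.refl _, by omega, g, hg0, ?_, hgzero⟩
    exact Bx.mono (bx_of_derivative_eq_zero hgbx hd) (Nat.le_add_right _ _) le_rfl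
  -- splitting into the zeros of the derivative and the rest
  set K0 := K.filter (fun i => (derivative g).evalEval (t i) (y i) = 0) with hK0
  set K1 := K.filter (fun i => ¬ (derivative g).evalEval (t i) (y i) = 0) with hK1
  have hsum : K0.card + K1.card = K.card := Finset.card_filter_add_card_filter_not _
  rcases Nat.lt_or_ge (2 * K0.card) K.card with hlt | hge
  swap
  · refine ⟨K0, Finset.filter_subset _ _, by omega, derivative g, hd, ?_, ?_⟩
    · exact Bx.mono (bx_derivative hgbx) (Nat.le_add_right _ _) le_rfl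
    · intro i hi
      exact (Finset.mem_filter.mp hi).2
  have hK1card : K.card ≤ 2 * K1.card := by omega
  -- the prime
  obtain ⟨Y, hY1, hYle, hYlt⟩ := exists_root B hB
  obtain ⟨q, hq, hYq, hqY, S', hS'K1, hS'card, hS'q⟩ := hPC ι K1
    (fun i => (derivative g).evalEval (t i) (y i)) Y (4 * c1 + 1) hY1 (by omega)
    (by
      intro i hi
      refine ⟨(Finset.mem_filter.mp hi).2, ?_⟩
      refine (hgsmall i (Finset.mem_filter.mp hi).1).trans ?_
      have := pow_bound c1 B Y (by omega) (by omega) hYlt hY1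
      exact_mod_cast this)
  have hS'K : S' ⊆ K := hS'K1.trans (Finset.filter_subset _ _)
  -- a class
  obtain ⟨K2, hK2S', hK2card, hK2q⟩ := hCLY ι S' t y n q g hq hgbx.1
    (fun i hi => ⟨hgzero i (hS'K hi), hS'q i hi⟩)
  have hK2K : K2 ⊆ K := hK2S'.trans hS'K
  have hq1 : B ^ 59 < q ^ 100 := hYlt.trans_le (Nat.pow_le_pow_left hYq 100)
  have hq2 : q ^ 100 ≤ 4 ^ (100 * (4 * c1 + 1)) * B ^ 59 := by
    calc q ^ 100 ≤ (4 ^ (4 * c1 + 1) * Y) ^ 100 := Nat.pow_le_pow_left hqY 100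
      _ = 4 ^ (100 * (4 * c1 + 1)) * Y ^ 100 := by
        rw [mul_pow, ← pow_mul]
        congr 2
        ring
      _ ≤ _ := Nat.mul_le_mul_left _ hYle
  obtain ⟨al, be, halbe, hal, hbe, hrel⟩ := hM B q ι K2 t y g (by omega) hq hq1 hq2
    (by
      intro i hi
      refine ⟨?_, (hK i (hK2K hi)).2.2, hgzero i (hK2K hi), hS'q i (hK2S' hi)⟩
      rw [abs_of_pos (by linarith [(hK i (hK2K hi)).1])]
      exact (hK i (hK2K hi)).2.1) hK2q
  -- the class is large
  have hbig : E + n * M < K2.card := by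
    by_contra hcon
    push Not at hcon
    have h1 : K.card ≤ (4 * n * (E + n * M)) * q := by
      calc K.card ≤ 2 * K1.card := hK1card
        _ ≤ 2 * (2 * S'.card) := Nat.mul_le_mul_left _ hS'card
        _ ≤ 2 * (2 * (n * q * K2.card)) := by
          exact Nat.mul_le_mul_left _ (Nat.mul_le_mul_left _ hK2card)
        _ ≤ 2 * (2 * (n * q * (E + n * M))) := by
          exact Nat.mul_le_mul_left _ (Nat.mul_le_mul_left _ (Nat.mul_le_mul_left _ hcon))
        _ = _ := by ring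
    have h2 : K.card ^ 100 ≤ ((4 * n * (E + n * M)) ^ 100 * 4 ^ (100 * (4 * c1 + 1))) * B ^ 59 := by
      calc K.card ^ 100 ≤ ((4 * n * (E + n * M)) * q) ^ 100 := Nat.pow_le_pow_left h1 100
        _ = (4 * n * (E + n * M)) ^ 100 * q ^ 100 := mul_pow _ _ _
        _ ≤ (4 * n * (E + n * M)) ^ 100 * (4 ^ (100 * (4 * c1 + 1)) * B ^ 59) :=
          Nat.mul_le_mul_left _ hq2
        _ = _ := by ring
    generalize hT : (4 * n * (E + n * M)) ^ 100 * 4 ^ (100 * (4 * c1 + 1)) = T at h2 hcard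
    have h3 : ((T + 1) * B ^ 3) ^ 20 ≤ K.card ^ 100 := by
      have h4 : (T + 1) * B ^ 3 ≤ K.card ^ 5 := by
        refine le_trans ?_ hcard
        exact Nat.mul_le_mul_right _ (Nat.le_add_left _ _)
      calc ((T + 1) * B ^ 3) ^ 20 ≤ (K.card ^ 5) ^ 20 := Nat.pow_le_pow_left h4 20
        _ = K.card ^ 100 := by rw [← pow_mul]
    have h5 : (T + 1) * B ^ 59 ≤ ((T + 1) * B ^ 3) ^ 20 := by
      rw [mul_pow, ← pow_mul]
      refine Nat.mul_le_mul ?_ (Nat.pow_le_pow_right hB (by norm_num))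
      calc T + 1 = (T + 1) ^ 1 := (pow_one _).symm
        _ ≤ (T + 1) ^ 20 := Nat.pow_le_pow_right (Nat.succ_pos _) (by norm_num)
    have h6 : (T + 1) * B ^ 59 ≤ T * B ^ 59 := h5.trans (h3.trans h2)
    have h7 := Nat.le_of_mul_le_mul_right h6 (by positivity)
    omega
  have hK2inj : Set.InjOn t K2 := hinj.mono (by exact_mod_cast hK2K)
  -- `be` is not zero
  have hbe0 : be ≠ 0 := by
    intro hb
    have ha : al ≠ 0 := by
      rcases halbe with h1 | h1
      · exact h1
      · exact absurd hb h1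
    have := card_le_of_roots K2 t hK2inj al ha (by
      intro i hi
      have h2 := hrel i hi
      rw [hb] at h2
      simpa using h2)
    omega
  rcases hPSD E n M g al be hg0 (by omega) hgbx hbe0 hal hbe with
    ⟨r, hr0, hrdeg, hr⟩ | ⟨h2, hh20, hh2bx, hh2⟩
  · have := card_le_of_roots K2 t hK2inj r hr0 (by
      intro i hi
      exact hr _ _ (hgzero i (hK2K hi)) (hrel i hi))
    omega
  · -- one of the two factors
    set KA := K.filter (fun i => al.eval (t i) + be.eval (t i) * y i = 0) with hKA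
    set KB := K.filter (fun i => ¬ (al.eval (t i) + be.eval (t i) * y i = 0)) with hKB'
    have hsum2 : KA.card + KB.card = K.card := Finset.card_filter_add_card_filter_not _
    rcases Nat.lt_or_ge (2 * KA.card) K.card with hlt2 | hge2
    · refine ⟨KB, Finset.filter_subset _ _, by omega, h2, hh20, hh2bx, ?_⟩
      intro i hi
      rcases hh2 _ _ (hgzero i (Finset.mem_filter.mp hi).1) with h3 | h3
      · exact absurd h3 (Finset.mem_filter.mp hi).2
      · exact h3
    · refine ⟨KA, Finset.filter_subset _ _, by omega, C al + C be * X, lin_ne_zero al be hbe0,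
        ?_, ?_⟩
      · exact Bx.mono (lin_bx al be hal hbe) (by omega) (by omega)
      · intro i hi
        rw [lin_evalEval]
        exact (Finset.mem_filter.mp hi).2

end Pool.Agent.Work.MP_e0c7e8_nt.BG
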