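import Pool.Agent.Work.MP_e0c7e8_nt.BG.Stmts

/-!
# Item ELM: elimination
-/

set_option autoImplicit false

namespace Pool.Agent.Work.MP_e0c7e8_nt.BG

open Finset Polynomial

namespace I_ELM

lemma ev_add {A : Type} [Field A] [CharZero A] (F G : Ix →₀ ℚ) (P : Pt A) :
    ev (F + G) P = ev F P + ev G P := by
  unfold ev
  rw [Finsupp.sum_add_index']
  · intro u
    simp
  · intro u r s
    rw [Rat.cast_add, add_mul]

lemma ev_smul {A : Type} [Field A] [CharZero A] (c : ℚ) (F : Ix →₀ ℚ) (P : Pt A) :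
    ev (c • F) P = (c : A) * ev F P := by
  unfold ev
  rw [Finsupp.sum_smul_index', Finsupp.mul_sum]
  · refine Finsupp.sum_congr (fun u _ => ?_)
    rw [smul_eq_mul, Rat.cast_mul, mul_assoc]
  · intro u
    simp

lemma ev_sub {A : Type} [Field A] [CharZero A] (F G : Ix →₀ ℚ) (P : Pt A) :
    ev (F - G) P = ev F P - ev G P := by
  have h : F - G = F + (-1 : ℚ) • G := by
    rw [neg_one_smul, sub_eq_add_neg]
  rw [h, ev_add, ev_smul]
  push_cast
  ring

lemma ev_zero {A : Type} [Field A] (P : Pt A) : ev 0 P = 0 := by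
  unfold ev
  rw [Finsupp.sum_zero_index]

lemma mo_cast {A : Type} [Field A] [CharZero A] (u : Ix) (P : Pt ℤ) :
    ((mo u (P.map (fun z : ℤ => (z : ℚ))) : ℚ) : A) = mo u (P.map (fun z : ℤ => (z : A))) := by
  simp [mo, Pt.map]

lemma ev_cast {A : Type} [Field A] [CharZero A] (F : Ix →₀ ℚ) (P : Pt ℤ) :
    ((ev F (P.map (fun z : ℤ => (z : ℚ))) : ℚ) : A) = ev F (P.map (fun z : ℤ => (z : A))) := by
  unfold ev Finsupp.sum
  rw [Rat.cast_sum]
  refine Finset.sum_congr rfl (fun u _ => ?_)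
  rw [Rat.cast_mul, mo_cast]
  simp

lemma on_cast {A : Type} [Field A] (k : ℕ) (p : Co) (P : Pt ℤ) (h : On k p P) :
    On k p (P.map (fun z : ℤ => (z : A))) := by
  obtain ⟨h0, h3, h4⟩ := h
  refine ⟨?_, ?_, ?_⟩
  · have := congrArg (fun z : ℤ => (z : A)) h0
    simpa [Pt.map] using this
  · have := congrArg (fun z : ℤ => (z : A)) h3
    simpa [Pt.map] using this
  · have := congrArg (fun z : ℤ => (z : A)) h4
    simpa [Pt.map] using this

/-- The monomials `T^i S^j`. -/
def EB (m : ℕ) : Finset Ix :=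
  range (m + 1) ×ˢ range (m + 1) ×ˢ range 1 ×ˢ range 1 ×ˢ range 1

lemma card_EB (m : ℕ) : (EB m).card = (m + 1) ^ 2 := by
  unfold EB
  simp only [Finset.card_product, Finset.card_range]
  ring

lemma card_Box (k m : ℕ) : (Box k m).card = 2 * k ^ 2 * (m + 1) ^ 2 := by
  unfold Box
  simp only [Finset.card_product, Finset.card_range]
  ring

lemma EB_sub (k m : ℕ) (hk : 1 ≤ k) : EB m ⊆ Box k m := by
  unfold EB Box
  apply Finset.product_subset_product (Finset.Subset.refl _)
  apply Finset.product_subset_product (Finset.Subset.refl _)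
  apply Finset.product_subset_product (Finset.range_mono (by omega))
  exact Finset.product_subset_product (Finset.range_mono hk) (Finset.range_mono hk)

lemma finrank_supported (s : Finset Ix) :
    Module.finrank ℚ (Finsupp.supported ℚ ℚ (s : Set Ix)) = s.card := by
  rw [(Finsupp.supportedEquivFinsupp (M := ℚ) (R := ℚ) (s : Set Ix)).finrank_eq,
    Module.finrank_finsupp_self]
  simp

instance (s : Finset Ix) : FiniteDimensional ℚ (Finsupp.supported ℚ ℚ (s : Set Ix)) :=
  Module.Finite.equiv (Finsupp.supportedEquivFinsupp (M := ℚ) (R := ℚ) (s : Set Ix)).symm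

/-- The multiplication by `g`. -/
lemma exists_mul (k : ℕ) (p : Co) (m m' : ℕ) (g : Ix →₀ ℚ)
    (hmul : ∀ F : Ix →₀ ℚ, F.support ⊆ Box k m → ∃ H : Ix →₀ ℚ, H.support ⊆ Box k m' ∧
      ∀ P : Pt Om, On k p P → ev H P = ev F P * ev g P)
    (huniq : ∀ F : Ix →₀ ℚ, F.support ⊆ Box k m' → (∀ P : Pt Om, On k p P → ev F P = 0) → F = 0) :
    ∃ μ : Finsupp.supported ℚ ℚ (Box k m : Set Ix) →ₗ[ℚ]
      Finsupp.supported ℚ ℚ (Box k m' : Set Ix),
      ∀ (F : Finsupp.supported ℚ ℚ (Box k m : Set Ix)) (P : Pt Om), On k p P →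
        ev (μ F : Ix →₀ ℚ) P = ev (F : Ix →₀ ℚ) P * ev g P := by
  have h1 : ∀ F : Finsupp.supported ℚ ℚ (Box k m : Set Ix),
      ∃ H : Finsupp.supported ℚ ℚ (Box k m' : Set Ix),
        ∀ P : Pt Om, On k p P → ev (H : Ix →₀ ℚ) P = ev (F : Ix →₀ ℚ) P * ev g P := by
    intro F
    obtain ⟨H, hH1, hH2⟩ := hmul F (by
      have := (Finsupp.mem_supported ℚ (F : Ix →₀ ℚ)).1 F.2
      exact_mod_cast this)
    exact ⟨⟨H, (Finsupp.mem_supported ℚ H).2 (by exact_mod_cast hH1)⟩, hH2⟩
  choose μ hμ using h1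
  have h2 : ∀ G : Finsupp.supported ℚ ℚ (Box k m' : Set Ix),
      (∀ P : Pt Om, On k p P → ev (G : Ix →₀ ℚ) P = 0) → G = 0 := by
    intro G hG
    apply Subtype.ext
    apply huniq G _ hG
    have := (Finsupp.mem_supported ℚ (G : Ix →₀ ℚ)).1 G.2
    exact_mod_cast this
  refine ⟨{ toFun := μ, map_add' := ?_, map_smul' := ?_ }, hμ⟩
  · intro F G
    rw [← sub_eq_zero]
    apply h2
    intro P hP
    rw [Submodule.coe_sub, Submodule.coe_add, ev_sub, ev_add, hμ _ P hP, hμ _ P hP, hμ _ P hP,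
      Submodule.coe_add, ev_add]
    ring
  · intro c F
    rw [← sub_eq_zero]
    apply h2
    intro P hP
    rw [RingHom.id_apply, Submodule.coe_sub, Submodule.coe_smul, ev_sub, ev_smul, hμ _ P hP,
      hμ _ P hP, Submodule.coe_smul, ev_smul]
    ring

lemma exists_H (k m m' : ℕ) (hk : 1 ≤ k) (p : Co) (g : Ix →₀ ℚ)
    (hmul : ∀ F : Ix →₀ ℚ, F.support ⊆ Box k m → ∃ H : Ix →₀ ℚ, H.support ⊆ Box k m' ∧
      ∀ P : Pt Om, On k p P → ev H P = ev F P * ev g P)
    (huniq : ∀ F : Ix →₀ ℚ, F.support ⊆ Box k m' → (∀ P : Pt Om, On k p P → ev F P = 0) → F = 0)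
    (hinj : ∀ F : Ix →₀ ℚ, F.support ⊆ Box k m → F ≠ 0 →
      ∃ P : Pt Om, On k p P ∧ ev F P ≠ 0 ∧ ev g P ≠ 0)
    (hnum : 2 * k ^ 2 * (m' + 1) ^ 2 < 2 * k ^ 2 * (m + 1) ^ 2 + (m' + 1) ^ 2) :
    ∃ F H : Ix →₀ ℚ, H ≠ 0 ∧ H.support ⊆ EB m' ∧
      ∀ P : Pt Om, On k p P → ev H P = ev F P * ev g P := by
  obtain ⟨μ, hμ⟩ := exists_mul k p m m' g hmul huniq
  have hμinj : Function.Injective μ := by
    rw [← LinearMap.ker_eq_bot, LinearMap.ker_eq_bot']
    intro F hF
    by_contra hF0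
    have h1 : (F : Ix →₀ ℚ) ≠ 0 := fun h => hF0 (Subtype.ext h)
    obtain ⟨P, hP, hP1, hP2⟩ := hinj F (by
      have := (Finsupp.mem_supported ℚ (F : Ix →₀ ℚ)).1 F.2
      exact_mod_cast this) h1
    have h2 := hμ F P hP
    rw [hF, Submodule.coe_zero, ev_zero] at h2
    exact mul_ne_zero hP1 hP2 h2.symm
  obtain ⟨Es, hEs⟩ : ∃ Es : Submodule ℚ (Finsupp.supported ℚ ℚ (Box k m' : Set Ix)),
    Es = Submodule.comap (Finsupp.supported ℚ ℚ (Box k m' : Set Ix)).subtype
      (Finsupp.supported ℚ ℚ (EB m' : Set Ix)) := ⟨_, rfl⟩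
  have hEle : Finsupp.supported ℚ ℚ (EB m' : Set Ix) ≤
      Finsupp.supported ℚ ℚ (Box k m' : Set Ix) :=
    Finsupp.supported_mono (by exact_mod_cast EB_sub k m' hk)
  have f1 : Module.finrank ℚ Es = (m' + 1) ^ 2 := by
    rw [hEs, (Submodule.comapSubtypeEquivOfLe hEle).finrank_eq, finrank_supported, card_EB]
  have f2 : Module.finrank ℚ (LinearMap.range μ) = 2 * k ^ 2 * (m + 1) ^ 2 := by
    rw [LinearMap.finrank_range_of_inj hμinj, finrank_supported, card_Box]
  have f3 : Module.finrank ℚ (Finsupp.supported ℚ ℚ (Box k m' : Set Ix)) =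
      2 * k ^ 2 * (m' + 1) ^ 2 := by
    rw [finrank_supported, card_Box]
  have hnd : ¬ Disjoint (LinearMap.range μ) Es := by
    intro hd
    have h1 := Submodule.finrank_add_finrank_le_of_disjoint hd
    rw [f1, f2, f3] at h1
    omega
  rw [Submodule.disjoint_def] at hnd
  push Not at hnd
  obtain ⟨G, ⟨F, hF⟩, hG2, hG3⟩ := hnd
  refine ⟨F, G, fun h => hG3 (Subtype.ext h), ?_, ?_⟩
  · have h1 : (G : Ix →₀ ℚ) ∈ Finsupp.supported ℚ ℚ (EB m' : Set Ix) := by
      rw [hEs] at hG2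
      exact hG2
    have := (Finsupp.mem_supported ℚ (G : Ix →₀ ℚ)).1 h1
    exact_mod_cast this
  · intro P hP
    rw [← hF]
    exact hμ F P hP

/-- Clear denominators. -/
lemma exists_h (m : ℕ) (H : Ix →₀ ℚ) (hH0 : H ≠ 0) (hH : H.support ⊆ EB m) :
    ∃ h : ℤ[X][X], h ≠ 0 ∧ Bx m m h ∧ ∀ P : Pt ℤ,
      ev H (P.map (fun z : ℤ => (z : ℚ))) = 0 → h.evalEval P.T P.S = 0 := by
  classical
  obtain ⟨N, hN0, z, hz⟩ : ∃ N : ℕ, N ≠ 0 ∧ ∃ z : Ix → ℤ, ∀ u, (z u : ℚ) = N * H u := by
    refine ⟨∏ u ∈ H.support, (H u).den, ?_, ?_⟩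
    · exact Finset.prod_ne_zero_iff.2 (fun u _ => (H u).den_nz)
    · have h1 : ∀ u, ∃ z : ℤ, (z : ℚ) = ((∏ u ∈ H.support, (H u).den : ℕ) : ℚ) * H u := by
        intro u
        by_cases hu : u ∈ H.support
        · obtain ⟨e, he⟩ := Finset.dvd_prod_of_mem (fun u => (H u).den) hu
          refine ⟨e * (H u).num, ?_⟩
          rw [he]
          push_cast
          have h2 : ((H u).den : ℚ) * H u = (H u).num := by
            rw [mul_comm]
            exact Rat.mul_den_eq_num _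
          rw [mul_right_comm, h2, mul_comm]
        · refine ⟨0, ?_⟩
          rw [Finsupp.notMem_support_iff.1 hu]
          simp
      choose z hz using h1
      exact ⟨z, hz⟩
  set h : ℤ[X][X] := ∑ i ∈ range (m + 1), ∑ j ∈ range (m + 1),
    Polynomial.monomial j (Polynomial.monomial i (z (i, j, 0, 0, 0))) with hh
  have hcoeff : ∀ i j, (h.coeff j).coeff i =
      if i ≤ m ∧ j ≤ m then z (i, j, 0, 0, 0) else 0 := by
    intro i j
    rw [hh, Polynomial.finsetSum_coeff, Polynomial.finsetSum_coeff]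
    have h1 : ∀ i' ∈ range (m + 1), ((∑ j' ∈ range (m + 1),
        Polynomial.monomial j' (Polynomial.monomial i' (z (i', j', 0, 0, 0)))).coeff j).coeff i =
        if i' = i then (if j ≤ m then z (i, j, 0, 0, 0) else 0) else 0 := by
      intro i' _
      rw [Polynomial.finsetSum_coeff, Polynomial.finsetSum_coeff]
      have h2 : ∀ j' ∈ range (m + 1), ((Polynomial.monomial j'
          (Polynomial.monomial i' (z (i', j', 0, 0, 0))) : ℤ[X][X]).coeff j).coeff i =
          if j' = j then (if i' = i then z (i, j, 0, 0, 0) else 0) else 0 := by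
        intro j' _
        rw [Polynomial.coeff_monomial]
        by_cases hj : j' = j
        · subst hj
          rw [if_pos rfl, if_pos rfl, Polynomial.coeff_monomial]
          by_cases hi : i' = i
          · subst hi
            rw [if_pos rfl]
          · rw [if_neg hi, if_neg hi]
        · rw [if_neg hj, if_neg hj, Polynomial.coeff_zero]
      rw [Finset.sum_congr rfl h2, Finset.sum_ite_eq']
      by_cases hj : j ≤ m
      · rw [if_pos (by rw [Finset.mem_range]; omega), if_pos hj]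
      · rw [if_neg (by rw [Finset.mem_range]; omega), if_neg hj]
        simp
    rw [Finset.sum_congr rfl h1, Finset.sum_ite_eq']
    by_cases hi : i ≤ m
    · rw [if_pos (by rw [Finset.mem_range]; omega)]
      by_cases hj : j ≤ m
      · rw [if_pos hj, if_pos ⟨hi, hj⟩]
      · rw [if_neg hj, if_neg (fun h => hj h.2)]
    · rw [if_neg (by rw [Finset.mem_range]; omega), if_neg (fun h => hi h.1)]
  have hsum : ∀ P : Pt ℤ, ((h.evalEval P.T P.S : ℤ) : ℚ) =
      N * ev H (P.map (fun z : ℤ => (z : ℚ))) := by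
    intro P
    have h1 : h.evalEval P.T P.S = ∑ i ∈ range (m + 1), ∑ j ∈ range (m + 1),
        z (i, j, 0, 0, 0) * P.T ^ i * P.S ^ j := by
      rw [hh, ← Polynomial.coe_evalEvalRingHom, map_sum]
      refine Finset.sum_congr rfl (fun i _ => ?_)
      rw [map_sum]
      refine Finset.sum_congr rfl (fun j _ => ?_)
      rw [Polynomial.coe_evalEvalRingHom]
      unfold Polynomial.evalEval
      rw [Polynomial.eval_monomial, Polynomial.eval_mul, Polynomial.eval_monomial,
        Polynomial.eval_pow, Polynomial.eval_C]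
    have h2 : ev H (P.map (fun z : ℤ => (z : ℚ))) = ∑ i ∈ range (m + 1), ∑ j ∈ range (m + 1),
        H (i, j, 0, 0, 0) * ((P.T : ℚ) ^ i * (P.S : ℚ) ^ j) := by
      unfold ev
      rw [Finsupp.sum_of_support_subset H hH _ (by intro u _; simp)]
      unfold EB
      rw [Finset.sum_product]
      refine Finset.sum_congr rfl (fun i _ => ?_)
      rw [Finset.sum_product]
      refine Finset.sum_congr rfl (fun j _ => ?_)
      rw [Finset.sum_product, Finset.sum_range_one, Finset.sum_product, Finset.sum_range_one,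
        Finset.sum_range_one]
      simp [mo, Pt.map]
    rw [h1, h2, Finset.mul_sum, Int.cast_sum]
    refine Finset.sum_congr rfl (fun i _ => ?_)
    rw [Finset.mul_sum, Int.cast_sum]
    refine Finset.sum_congr rfl (fun j _ => ?_)
    push_cast
    rw [hz]
    ring
  refine ⟨h, ?_, ⟨?_, ?_⟩, ?_⟩
  · obtain ⟨u, hu⟩ := Finsupp.support_nonempty_iff.2 hH0
    have hu2 := hH hu
    obtain ⟨i, j, e, c, c'⟩ := u
    unfold EB at hu2
    simp only [Finset.mem_product, Finset.mem_range] at hu2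
    obtain ⟨hi, hj, he, hc, hc'⟩ := hu2
    have he0 : e = 0 := by omega
    have hc0 : c = 0 := by omega
    have hc0' : c' = 0 := by omega
    subst he0
    subst hc0
    subst hc0'
    intro h0
    have h1 := hcoeff i j
    rw [h0, if_pos ⟨by omega, by omega⟩] at h1
    simp only [Polynomial.coeff_zero] at h1
    have h2 := hz (i, j, 0, 0, 0)
    rw [← h1] at h2
    push_cast at h2
    have h3 : (N : ℚ) ≠ 0 := by exact_mod_cast hN0
    rcases mul_eq_zero.1 h2.symm with h4 | h4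
    · exact h3 h4
    · exact (Finsupp.mem_support_iff.1 hu) h4
  · rw [Polynomial.natDegree_le_iff_coeff_eq_zero]
    intro j hj
    ext i
    rw [hcoeff, if_neg (by omega), Polynomial.coeff_zero]
  · intro j
    rw [Polynomial.natDegree_le_iff_coeff_eq_zero]
    intro i hi
    rw [hcoeff, if_neg (by omega)]
  · intro P hP
    have h1 := hsum P
    rw [hP, mul_zero] at h1
    exact_mod_cast h1

end I_ELM

theorem ELM_pf (hMUL : S_MUL) (hNZ2 : S_NZ2) : S_ELM := by
  intro k hk M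
  obtain ⟨c1, hc1⟩ := hMUL k hk
  set d : ℕ := M + c1 with hd
  set m : ℕ := 4 * k ^ 2 * (d + 1) - 1 with hm
  have hkk : 1 ≤ k ^ 2 := Nat.one_le_pow _ _ hk
  have hm1 : m + 1 = 4 * k ^ 2 * (d + 1) := by
    have : 1 ≤ 4 * k ^ 2 * (d + 1) := Nat.mul_pos (by omega) (by omega)
    omega
  refine ⟨m + M + c1, ?_⟩
  intro p hp g hg0 hg
  have hnum : 2 * k ^ 2 * (m + M + c1 + 1) ^ 2 <
      2 * k ^ 2 * (m + 1) ^ 2 + (m + M + c1 + 1) ^ 2 := by
    have e1 : m + M + c1 + 1 = (m + 1) + d := by omega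
    rw [e1]
    generalize hx : m + 1 = x at *
    rw [hm1]
    generalize hq : k ^ 2 = q at *
    have hq1 : 1 ≤ q := hkk
    nlinarith [mul_pos (show 0 < q by omega) (show 0 < q by omega),
      mul_nonneg (Nat.zero_le q) (Nat.zero_le d), Nat.zero_le (q * d * d),
      Nat.zero_le (q * q * d * d), Nat.zero_le (q * q * d)]
  obtain ⟨F, H, hH0, hH, hFH⟩ := I_ELM.exists_H k m (m + M + c1) hk p g
    (fun F hF => hc1 p hp m M F g hF hg)
    (fun F hF hF2 => by
      by_contra hF0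
      obtain ⟨P, hP, hP1, _⟩ := hNZ2 k p (m + M + c1) F F hk hp hF0 hF0 hF hF
      exact hP1 (hF2 P hP))
    (fun F hF hF0 => by
      have hmono : ∀ a b : ℕ, a ≤ b → Box k a ⊆ Box k b := by
        intro a b hab
        unfold Box
        exact Finset.product_subset_product (Finset.range_mono (by omega))
          (Finset.product_subset_product (Finset.range_mono (by omega)) (Finset.Subset.refl _))
      exact hNZ2 k p (m + M) F g hk hp hF0 hg0 (hF.trans (hmono _ _ (by omega)))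
        (hg.trans (hmono _ _ (by omega))))
    hnum
  obtain ⟨h, hh0, hhB, hh⟩ := I_ELM.exists_h (m + M + c1) H hH0 hH
  refine ⟨h, hh0, hhB, ?_⟩
  intro P hP hgP
  apply hh P
  have h1 := hFH _ (I_ELM.on_cast (A := Om) k p P hP)
  rw [← I_ELM.ev_cast (A := Om) H P, ← I_ELM.ev_cast (A := Om) g P, hgP, Rat.cast_zero,
    mul_zero] at h1
  exact_mod_cast h1

end Pool.Agent.Work.MP_e0c7e8_nt.BG
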