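import Pool.Agent.Work.MP_e0c7e8_nt.BG.Stmts

/-! Item END of the block BG. -/

set_option autoImplicit false

namespace Pool.Agent.Work.MP_e0c7e8_nt.BG

open Finset Polynomial

/-- The embedding of the integer polynomials. -/
noncomputable def I_END.phi : ℤ[X] →+* RatFunc ℚ :=
  (algebraMap ℚ[X] (RatFunc ℚ)).comp (Polynomial.mapRingHom (Int.castRingHom ℚ))

theorem I_END.phi_inj : Function.Injective I_END.phi := by
  unfold I_END.phi
  rw [RingHom.coe_comp]
  exact (RatFunc.algebraMap_injective ℚ).comp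
    (Polynomial.map_injective _ (RingHom.injective_int (Int.castRingHom ℚ)))

theorem I_END.phi_C (z : ℤ) : I_END.phi (C z) = RatFunc.C (z : ℚ) := by
  unfold I_END.phi
  simp

theorem I_END.ident (MS : S_MS) (k : ℕ) (hk : 4 ≤ k) (z : ℤ) (hz : z ≠ 0)
    (al be al2 be2 : ℤ[X]) (hbe : be ≠ 0) (hbe2 : be2 ≠ 0)
    (h : al2 ^ 2 * be ^ k + C z * be2 ^ 2 * be ^ k -
      4 * (-(X * al)) ^ k * be2 ^ 2 = 0) :
    ∃ c : ℚ, ∀ t : ℤ, -((t : ℚ) * (al.eval t : ℤ)) = c * (be.eval t : ℤ) := by
  have h1 := congrArg I_END.phi h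
  have hB : I_END.phi be ≠ 0 := fun h0 => hbe (I_END.phi_inj (by rw [h0, map_zero]))
  have hB2 : I_END.phi be2 ≠ 0 := fun h0 => hbe2 (I_END.phi_inj (by rw [h0, map_zero]))
  simp only [map_sub, map_add, map_mul, map_pow, map_zero] at h1
  rw [I_END.phi_C] at h1
  have h4 : I_END.phi 4 = 4 := map_ofNat _ 4
  have h6 : I_END.phi (-(X * al)) = -(I_END.phi X * I_END.phi al) := by
    rw [map_neg, map_mul]
  simp only [map_neg, map_mul] at h1
  rw [← h6, h4] at h1
  have hδ : (z : ℚ) ≠ 0 := by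
    rw [Int.cast_ne_zero]
    exact hz
  obtain ⟨c, hc⟩ := MS k hk (z : ℚ) (I_END.phi al2 / I_END.phi be2)
    (I_END.phi (-(X * al)) / I_END.phi be) hδ (by
      have hBk : I_END.phi be ^ k ≠ 0 := pow_ne_zero k hB
      have hB22 : I_END.phi be2 ^ 2 ≠ 0 := pow_ne_zero 2 hB2
      rw [div_pow, div_pow]
      field_simp
      linear_combination h1)
  rw [div_eq_iff hB] at hc
  refine ⟨c, fun t => ?_⟩
  have h2 : algebraMap ℚ[X] (RatFunc ℚ) ((-(X * al)).map (Int.castRingHom ℚ)) =
      algebraMap ℚ[X] (RatFunc ℚ) (C c * be.map (Int.castRingHom ℚ)) := by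
    rw [map_mul, RatFunc.algebraMap_C]
    exact hc
  have h3 := RatFunc.algebraMap_injective ℚ h2
  have h5 := congrArg (Polynomial.eval (t : ℚ)) h3
  rw [Polynomial.eval_mul, Polynomial.eval_C, Polynomial.eval_intCast_map,
    Polynomial.eval_intCast_map] at h5
  simp only [Int.cast_id, Polynomial.eval_neg, Polynomial.eval_mul, Polynomial.eval_X,
    eq_intCast, Int.cast_neg, Int.cast_mul] at h5
  exact h5

theorem I_END.deg (k E : ℕ) (z : ℤ) (al be al2 be2 : ℤ[X]) (h1 : al.natDegree ≤ E)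
    (h2 : be.natDegree ≤ E) (h3 : al2.natDegree ≤ E) (h4 : be2.natDegree ≤ E) :
    (al2 ^ 2 * be ^ k + C z * be2 ^ 2 * be ^ k - 4 * (-(X * al)) ^ k * be2 ^ 2).natDegree ≤
      k * (1 + E) + 2 * E := by
  have e1 : (al2 ^ 2).natDegree ≤ 2 * E := natDegree_pow_le_of_le 2 h3
  have e2 : (be ^ k).natDegree ≤ k * E := natDegree_pow_le_of_le k h2
  have e3 : (be2 ^ 2).natDegree ≤ 2 * E := natDegree_pow_le_of_le 2 h4
  have e4 : (-(X * al)).natDegree ≤ 1 + E := by
    rw [natDegree_neg]
    exact natDegree_mul_le_of_le natDegree_X_le h1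
  have e5 : ((-(X * al)) ^ k).natDegree ≤ k * (1 + E) := natDegree_pow_le_of_le k e4
  have e6 : ((4 : ℤ[X]) * (-(X * al)) ^ k).natDegree ≤ 0 + k * (1 + E) := by
    apply natDegree_mul_le_of_le _ e5
    have : (4 : ℤ[X]) = C 4 := by simp
    rw [this, natDegree_C]
  have hkE : k * E ≤ k * (1 + E) := Nat.mul_le_mul_left k (by omega)
  refine (natDegree_sub_le _ _).trans (max_le ?_ ?_)
  · refine (natDegree_add_le _ _).trans (max_le ?_ ?_)
    · exact (natDegree_mul_le_of_le e1 e2).trans (by omega)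
    · have e7 : (C z * be2 ^ 2).natDegree ≤ 0 + 2 * E :=
        natDegree_mul_le_of_le (natDegree_C z).le e3
      exact (natDegree_mul_le_of_le e7 e2).trans (by omega)
  · exact (natDegree_mul_le_of_le e6 e3).trans (by omega)

theorem END_pf (MS : S_MS) : S_END := by
  classical
  intro k E hk
  refine ⟨k * (1 + E) + 2 * E + 1, ?_⟩
  intro D a ι K t y x al be al2 be2 hD ha hinj heq hbe hbe2 dal dbe dal2 dbe2 hlin hcard
  have hz : al2 ^ 2 * be ^ k + C (D * a ^ 2) * be2 ^ 2 * be ^ k -
      4 * (-(X * al)) ^ k * be2 ^ 2 = 0 := by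
    apply Polynomial.eq_zero_of_natDegree_lt_card_of_eval_eq_zero' _ (K.image t)
    · intro s hs
      obtain ⟨i, hi, rfl⟩ := Finset.mem_image.mp hs
      obtain ⟨l1, l2⟩ := hlin i hi
      have l1' : -(t i * al.eval (t i)) = be.eval (t i) * (t i * y i) := by
        linear_combination (-(t i)) * l1
      have l2' : al2.eval (t i) = - (be2.eval (t i) * x i) := by
        linear_combination l2
      have e := heq i hi
      have e4 : (eval (t i) (4 : ℤ[X])) = 4 := by
        have : (4 : ℤ[X]) = C 4 := by simp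
        rw [this, eval_C]
      rw [eval_sub, eval_add, eval_mul, eval_mul, eval_mul, eval_mul, eval_mul, eval_pow,
        eval_pow, eval_pow, eval_pow, eval_neg, eval_mul, eval_X, eval_C, e4, l1', l2', mul_pow]
      linear_combination (be2.eval (t i)) ^ 2 * (be.eval (t i)) ^ k * e
    · rw [Finset.card_image_of_injOn hinj]
      exact lt_of_le_of_lt (I_END.deg k E (D * a ^ 2) al be al2 be2 dal dbe dal2 dbe2)
        (by omega)
  obtain ⟨c, hc⟩ := I_END.ident MS k hk (D * a ^ 2)
    (mul_ne_zero hD.ne' (pow_ne_zero 2 ha)) al be al2 be2 hbe hbe2 hz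
  refine ⟨K.filter (fun i => be.eval (t i) ≠ 0), Finset.filter_subset _ _, ?_, ?_⟩
  · have h1 : (K.filter (fun i => ¬ (be.eval (t i) ≠ 0))).card ≤ E := by
      have h2 : ((K.filter (fun i => ¬ (be.eval (t i) ≠ 0))).image t) ⊆ be.roots.toFinset := by
        intro s hs
        obtain ⟨i, hi, rfl⟩ := Finset.mem_image.mp hs
        rw [Multiset.mem_toFinset, mem_roots hbe]
        have := (Finset.mem_filter.mp hi).2
        exact not_not.mp this
      rw [← Finset.card_image_of_injOn (f := t)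
        (hinj.mono (fun i hi => (Finset.mem_filter.mp hi).1))]
      calc _ ≤ be.roots.toFinset.card := Finset.card_le_card h2
        _ ≤ Multiset.card be.roots := Multiset.toFinset_card_le _
        _ ≤ be.natDegree := card_roots' be
        _ ≤ E := dbe
    have h3 := Finset.card_filter_add_card_filter_not (s := K)
      (fun i => be.eval (t i) ≠ 0)
    omega
  · have key : ∀ i ∈ K.filter (fun i => be.eval (t i) ≠ 0), ((t i * y i : ℤ) : ℚ) = c := by
      intro i hi
      obtain ⟨hiK, hi0⟩ := Finset.mem_filter.mp hi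
      have l1 := (hlin i hiK).1
      have e := hc (t i)
      have hb : ((be.eval (t i) : ℤ) : ℚ) ≠ 0 := by exact_mod_cast hi0
      have l1' : ((al.eval (t i) : ℤ) : ℚ) + ((be.eval (t i) : ℤ) : ℚ) * (y i : ℚ) = 0 := by
        exact_mod_cast l1
      apply mul_right_cancel₀ hb
      rw [← e]
      push_cast
      linear_combination (t i : ℚ) * l1'
    rcases (K.filter (fun i => be.eval (t i) ≠ 0)).eq_empty_or_nonempty with h0 | ⟨i0, hi0⟩
    · refine ⟨0, ?_⟩
      intro i hi
      rw [h0] at hi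
      exact absurd hi (Finset.notMem_empty i)
    · refine ⟨t i0 * y i0, ?_⟩
      intro i hi
      have e1 := key i hi
      have e2 := key i0 hi0
      exact_mod_cast e1.trans e2.symm

end Pool.Agent.Work.MP_e0c7e8_nt.BG
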