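import Pool.Agent.Work.MP_e0c7e8_nt.BG.StmtsI

/-!
# Item FF: few exceptions in intervals
-/

set_option autoImplicit false

namespace Pool.Agent.Work.MP_e0c7e8_nt.BG

open Finset Pool.Agent.Work.MP_e0c7e8_nt.SM

namespace I_FF

lemma card_le {X : ℝ} (hX : 1 ≤ X) {S : Finset ℤ} (h : ∀ d ∈ S, |(d : ℝ)| ≤ X) :
    (S.card : ℝ) ≤ 3 * X := by
  have hsub : S ⊆ Icc (-(⌊X⌋ : ℤ)) ⌊X⌋ := by
    intro d hd
    have h1 := h d hd
    rw [abs_le] at h1
    rw [mem_Icc]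
    constructor
    · have : ((-d : ℤ) : ℝ) ≤ X := by push_cast; linarith
      have := Int.le_floor.2 this
      linarith
    · exact Int.le_floor.2 h1.2
  have h2 := Finset.card_le_card hsub
  rw [Int.card_Icc] at h2
  have h3 : (0 : ℤ) ≤ ⌊X⌋ := Int.floor_nonneg.2 (by linarith)
  have h4 : ((⌊X⌋ + 1 - -⌊X⌋).toNat : ℤ) = 2 * ⌊X⌋ + 1 := by
    rw [Int.toNat_of_nonneg (by linarith)]
    ring
  have h5 : ((S.card : ℕ) : ℤ) ≤ 2 * ⌊X⌋ + 1 := by
    rw [← h4]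
    exact_mod_cast h2
  have h6 : (S.card : ℝ) ≤ 2 * (⌊X⌋ : ℝ) + 1 := by exact_mod_cast h5
  have h7 := Int.floor_le X
  linarith

lemma nsq_filter {S : Finset ℤ} (h : NSq S) (P : ℤ → Prop) [DecidablePred P] :
    NSq (S.filter P) := by
  intro d hd e he hne
  exact h d (mem_filter.1 hd).1 e (mem_filter.1 he).1 hne

/-- From windows `[X ^ (1/2), X]` to intervals `[Y, X]`. -/
lemma count (Bad : ℤ → Prop) (J : ℕ) (X0 : ℝ) (hX0 : 3 ≤ X0)
    (hw : ∀ (X : ℝ) (S : Finset ℤ), X0 ≤ X →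
      (∀ d ∈ S, Bad d ∧ X ^ ((1 : ℝ) / 2) ≤ |(d : ℝ)| ∧ |(d : ℝ)| ≤ X) → NSq S → S.card ≤ J) :
    ∃ C : ℝ, 0 < C ∧ ∀ (X Y : ℝ) (S : Finset ℤ), 2 ≤ Y → Y ≤ X →
      (∀ d ∈ S, Bad d ∧ Y ≤ |(d : ℝ)| ∧ |(d : ℝ)| ≤ X) → NSq S →
      (S.card : ℝ) ≤ C * (1 + Real.log (Real.log X / Real.log Y)) := by
  classical
  have hP : ∀ (Y : ℝ), 2 ≤ Y → ∀ (n : ℕ) (X : ℝ) (S : Finset ℤ), 1 ≤ X → X ≤ Y ^ ((2 : ℝ) ^ n) →
      (∀ d ∈ S, Bad d ∧ Y ≤ |(d : ℝ)| ∧ |(d : ℝ)| ≤ X) → NSq S →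
      (S.card : ℝ) ≤ (n + 1) * J + 3 * X0 := by
    intro Y hY n
    have hY0 : (0 : ℝ) < Y := by linarith
    induction n with
    | zero =>
      intro X S hX1 hX hS hN
      rw [pow_zero, Real.rpow_one] at hX
      by_cases hXX : X ≤ X0
      · have := card_le hX1 (fun d hd => (hS d hd).2.2)
        have h0 : (0 : ℝ) ≤ (((0 : ℕ) : ℝ) + 1) * J := by positivity
        linarith
      · push Not at hXX
        have h1 : S.card ≤ J := by
          apply hw X S hXX.le _ hN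
          intro d hd
          refine ⟨(hS d hd).1, ?_, (hS d hd).2.2⟩
          calc X ^ ((1 : ℝ) / 2) ≤ X ^ (1 : ℝ) :=
                Real.rpow_le_rpow_of_exponent_le hX1 (by norm_num)
            _ = X := Real.rpow_one X
            _ ≤ Y := hX
            _ ≤ |(d : ℝ)| := (hS d hd).2.1
        have h2' : (S.card : ℝ) ≤ J := by exact_mod_cast h1
        push_cast
        linarith
    | succ n ih =>
      intro X S hX1 hX hS hN
      by_cases hXX : X ≤ X0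
      · have := card_le hX1 (fun d hd => (hS d hd).2.2)
        have h0 : (0 : ℝ) ≤ (((n + 1 : ℕ) : ℝ) + 1) * J := by positivity
        linarith
      · push Not at hXX
        have hhalf : X ^ ((1 : ℝ) / 2) ≤ Y ^ ((2 : ℝ) ^ n) := by
          have h := Real.rpow_le_rpow (by linarith) hX (by norm_num : (0 : ℝ) ≤ 1 / 2)
          rw [← Real.rpow_mul hY0.le] at h
          have e : (2 : ℝ) ^ (n + 1) * (1 / 2) = 2 ^ n := by rw [pow_succ]; ring
          rwa [e] at h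
        have h1 : (1 : ℝ) ≤ X ^ ((1 : ℝ) / 2) := Real.one_le_rpow hX1 (by norm_num)
        set S1 := S.filter (fun d : ℤ => X ^ ((1 : ℝ) / 2) ≤ |(d : ℝ)|) with hS1
        set S2 := S.filter (fun d : ℤ => ¬ X ^ ((1 : ℝ) / 2) ≤ |(d : ℝ)|) with hS2
        have hcard : S.card = S1.card + S2.card := by
          rw [hS1, hS2, Finset.card_filter_add_card_filter_not]
        have hc1 : S1.card ≤ J := by
          apply hw X S1 hXX.le
          · intro d hd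
            rw [hS1, mem_filter] at hd
            exact ⟨(hS d hd.1).1, hd.2, (hS d hd.1).2.2⟩
          · exact nsq_filter hN _
        have hc2 : (S2.card : ℝ) ≤ (n + 1) * J + 3 * X0 := by
          apply ih (X ^ ((1 : ℝ) / 2)) S2 h1 hhalf
          · intro d hd
            rw [hS2, mem_filter] at hd
            exact ⟨(hS d hd.1).1, (hS d hd.1).2.1, (not_le.1 hd.2).le⟩
          · exact nsq_filter hN _
        rw [hcard]
        push_cast
        have hc1' : (S1.card : ℝ) ≤ J := by exact_mod_cast hc1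
        linarith
  refine ⟨2 * J + 3 * X0, by positivity, ?_⟩
  intro X Y S hY hYX hS hN
  have hlogY : 0 < Real.log Y := Real.log_pos (by linarith)
  have hlogXY : Real.log Y ≤ Real.log X := Real.log_le_log (by linarith) hYX
  have hlogX : 0 < Real.log X := lt_of_lt_of_le hlogY hlogXY
  have hratio : 1 ≤ Real.log X / Real.log Y := by rw [one_le_div hlogY]; exact hlogXY
  have hll : 0 ≤ Real.log (Real.log X / Real.log Y) := Real.log_nonneg hratio
  obtain ⟨n, hn⟩ : ∃ n : ℕ, n = ⌈Real.log (Real.log X / Real.log Y) / Real.log 2⌉₊ := ⟨_, rfl⟩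
  have hlog2 : 0 < Real.log 2 := Real.log_pos (by norm_num)
  have hn1 : Real.log (Real.log X / Real.log Y) ≤ n * Real.log 2 := by
    rw [← div_le_iff₀ hlog2, hn]
    exact Nat.le_ceil _
  have hn2 : (n : ℝ) ≤ 2 * Real.log (Real.log X / Real.log Y) + 1 := by
    have h := Nat.ceil_lt_add_one
      (show 0 ≤ Real.log (Real.log X / Real.log Y) / Real.log 2 by positivity)
    rw [← hn] at h
    have h2 : Real.log (Real.log X / Real.log Y) / Real.log 2 ≤
        2 * Real.log (Real.log X / Real.log Y) := by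
      rw [div_le_iff₀ hlog2]
      have := Real.log_two_gt_d9
      nlinarith
    linarith
  have hbound : X ≤ Y ^ ((2 : ℝ) ^ n) := by
    have h1 : Real.log X / Real.log Y ≤ 2 ^ n := by
      rw [← Real.log_le_log_iff (by positivity) (by positivity), Real.log_pow]
      exact hn1
    have h2 : Real.log X ≤ Real.log (Y ^ ((2 : ℝ) ^ n)) := by
      rw [Real.log_rpow (by linarith)]
      rwa [div_le_iff₀ hlogY] at h1
    exact (Real.log_le_log_iff (by linarith) (Real.rpow_pos_of_pos (by linarith) _)).1 h2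
  have h := hP Y hY n X S (by linarith) hbound hS hN
  have hJ : (0 : ℝ) ≤ J := by positivity
  calc (S.card : ℝ) ≤ (n + 1) * J + 3 * X0 := h
    _ ≤ (2 * Real.log (Real.log X / Real.log Y) + 1 + 1) * J + 3 * X0 := by nlinarith
    _ ≤ (2 * J + 3 * X0) * (1 + Real.log (Real.log X / Real.log Y)) := by
        have : 0 ≤ 3 * X0 * Real.log (Real.log X / Real.log Y) := by positivity
        nlinarith

/-- Large `m`-torsion gives few ideals. -/
lemma few {C0 : ℝ} {m : ℕ} {d : ℤ}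
    (hpw : |(d : ℝ)| ^ ((1 : ℝ) / (2 * m) + 3 / (2000 * m ^ 2)) ≤
      MM d ⌊|(d : ℝ)| ^ ((1 : ℝ) / (2 * m) + 1 / (500 * m ^ 2))⌋₊ →
      (Nat.card {y : ClassGroup ↥(Od d) // y ^ m = 1} : ℝ) ≤
        C0 * |(d : ℝ)| ^ ((1 : ℝ) / 2 - 1 / (2 * m) - 1 / (800 * m ^ 2)))
    (hbad : C0 * |(d : ℝ)| ^ ((1 : ℝ) / 2 - 1 / (2 * m) - 1 / (800 * m ^ 2)) <
      (Nat.card {y : ClassGroup ↥(Od d) // y ^ m = 1} : ℝ)) :
    (MM d ⌊|(d : ℝ)| ^ ((1 : ℝ) / (2 * m) + 1 / (500 * m ^ 2))⌋₊ : ℝ) ≤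
      |(d : ℝ)| ^ ((1 : ℝ) / (2 * m) + 3 / (2000 * m ^ 2)) := by
  by_contra hcon
  push Not at hcon
  exact absurd (hpw hcon.le) (not_le.2 hbad)

end I_FF

open I_FF in
theorem FF_pf (h1 : S_PW) (h2 : S_X3B) (h3 : ClaimX4) (h4 : S_TWO) : S_FF := by
  intro a m hm
  have hm0 : (0 : ℝ) < m := by
    have : 0 < m := by omega
    exact_mod_cast this
  have hm5 : (5 : ℝ) ≤ m := by exact_mod_cast hm
  obtain ⟨C0, hC0, hpw⟩ := h1 m hm
  obtain ⟨C2, hC2, htwo⟩ := h4 a (1 / (4000 * m ^ 2)) (by positivity)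
  have hβ0 : (0 : ℝ) < (1 : ℝ) / (2 * m) + 1 / (500 * m ^ 2) := by positivity
  have hinv : (1 : ℝ) / (2 * m) ≤ 1 / 2 := by
    apply one_div_le_one_div_of_le (by norm_num)
    linarith
  have hinv2 : (1 : ℝ) / (500 * m ^ 2) ≤ 1 / 2 := by
    apply one_div_le_one_div_of_le (by norm_num)
    nlinarith
  have hβ1 : (1 : ℝ) / (2 * m) + 1 / (500 * m ^ 2) ≤ 1 := by linarith
  have hδ0 : (0 : ℝ) < 1 / (2000 * m ^ 2) := by positivity
  have hδβ : (1 : ℝ) / (2000 * m ^ 2) ≤ 1 / (2 * m) + 1 / (500 * m ^ 2) := by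
    have h5 : (1 : ℝ) / (2000 * m ^ 2) ≤ 1 / (500 * m ^ 2) := by
      apply one_div_le_one_div_of_le (by positivity)
      nlinarith
    have h6 : (0 : ℝ) < 1 / (2 * m) := by positivity
    linarith
  obtain ⟨K, hK, c, hc, hc2, X1, hX1, h3b⟩ := h2 _ _ hβ0 hβ1 hδ0 hδβ
  obtain ⟨J, X2, hX2, h4'⟩ := h3 K hK c hc hc2
  have hexp : (1 : ℝ) / (2 * m) + 1 / (500 * m ^ 2) - 1 / (2000 * m ^ 2) =
      1 / (2 * m) + 3 / (2000 * m ^ 2) := by
    field_simp
    ring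
  obtain ⟨C, hC, hcount⟩ := count (fun d : ℤ => d < 0 ∧ (d % 4 = 0 ∨ d % 4 = 1) ∧
    C0 * |(d : ℝ)| ^ ((1 : ℝ) / 2 - 1 / (2 * m) - 1 / (800 * m ^ 2)) <
      (Nat.card {y : ClassGroup ↥(Od d) // y ^ m = 1} : ℝ)) J (max 3 (max X1 X2))
    (le_max_left _ _) (by
      intro X S hX hS hN
      have hXX1 : X1 ≤ X := ((le_max_left _ _).trans (le_max_right _ _)).trans hX
      have hXX2 : X2 ≤ X := ((le_max_right _ _).trans (le_max_right _ _)).trans hX
      apply h4' X S hXX2 _ hN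
      intro d hd
      obtain ⟨⟨hd0, hd4, hbad⟩, hlow, hup⟩ := hS d hd
      refine ⟨hd0.ne, hup, h3b X d hXX1 hlow hup ?_⟩
      rw [hexp]
      exact few (hpw d hd0 hd4) hbad)
  refine ⟨C + C2 * C0, by positivity, ?_⟩
  intro X Y hY hYX S hS hN
  have hlogY : 0 < Real.log Y := Real.log_pos (by linarith)
  have hlogXY : Real.log Y ≤ Real.log X := Real.log_le_log (by linarith) hYX
  have hll : 0 ≤ Real.log (Real.log X / Real.log Y) :=
    Real.log_nonneg (by rw [one_le_div hlogY]; exact hlogXY)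
  have hmain := hcount X Y S hY hYX ?_ hN
  · refine hmain.trans ?_
    apply mul_le_mul_of_nonneg_right _ (by linarith)
    have : 0 ≤ C2 * C0 := by positivity
    linarith
  intro d hd
  obtain ⟨hd0, hd4, hdY, hdX, hbig⟩ := hS d hd
  refine ⟨⟨hd0, hd4, ?_⟩, hdY, hdX⟩
  have hb0 : (0 : ℝ) < |(d : ℝ)| := by linarith
  have e1 := htwo m d (by omega) hd0 hd4
  by_contra hcon
  push Not at hcon
  have e2 : (Nat.card {x : ClassGroup ↥(Od d) // x ^ (2 ^ a * m) = 1} : ℝ) ≤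
      (C + C2 * C0) * |(d : ℝ)| ^ ((1 : ℝ) / 2 - 1 / (2 * m) - 1 / (1000 * m ^ 2)) := by
    refine e1.trans ?_
    have e3 : C2 * |(d : ℝ)| ^ ((1 : ℝ) / (4000 * m ^ 2)) *
        (Nat.card {x : ClassGroup ↥(Od d) // x ^ m = 1} : ℝ) ≤
        C2 * |(d : ℝ)| ^ ((1 : ℝ) / (4000 * m ^ 2)) *
        (C0 * |(d : ℝ)| ^ ((1 : ℝ) / 2 - 1 / (2 * m) - 1 / (800 * m ^ 2))) :=
      mul_le_mul_of_nonneg_left hcon (by positivity)
    refine e3.trans ?_
    have e4 : C2 * |(d : ℝ)| ^ ((1 : ℝ) / (4000 * m ^ 2)) *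
        (C0 * |(d : ℝ)| ^ ((1 : ℝ) / 2 - 1 / (2 * m) - 1 / (800 * m ^ 2))) =
        C2 * C0 * (|(d : ℝ)| ^ ((1 : ℝ) / (4000 * m ^ 2)) *
        |(d : ℝ)| ^ ((1 : ℝ) / 2 - 1 / (2 * m) - 1 / (800 * m ^ 2))) := by ring
    rw [e4, ← Real.rpow_add hb0]
    have e5 : (1 : ℝ) / (4000 * m ^ 2) + (1 / 2 - 1 / (2 * m) - 1 / (800 * m ^ 2)) =
        1 / 2 - 1 / (2 * m) - 1 / (1000 * m ^ 2) := by
      field_simp
      ring
    rw [e5]
    apply mul_le_mul_of_nonneg_right _ (by positivity)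
    linarith
  exact absurd hbig (not_lt.2 e2)

end Pool.Agent.Work.MP_e0c7e8_nt.BG
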