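import Pool.Agent.Work.MP_e0c7e8_nt.BG.StmtsI

/-!
# Item FS: smooth discriminants
-/

set_option autoImplicit false

namespace Pool.Agent.Work.MP_e0c7e8_nt.BG

open Finset Polynomial Pool.Agent.Work.MP_e0c7e8_nt.SM

theorem FS_pf (hPW : S_PW) (hL5B : S_L5B) (hTWO : S_TWO) (hC1a : ClaimC1a) (hC1c : ClaimC1c) :
    S_FS := by
  intro a m hm
  have hm5 : (5 : ℝ) ≤ m := by exact_mod_cast hm
  have hm0 : (0 : ℝ) < m := by linarith
  set β : ℝ := (1 : ℝ) / (2 * m) + 1 / (500 * m ^ 2) with hβ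
  set δ : ℝ := 1 / (2000 * m ^ 2) with hδ
  set η : ℝ := 1 / (500 * m ^ 2) with hη
  have hδ0 : 0 < δ := by positivity
  have hη0 : 0 < η := by positivity
  have hβη : β - η = (1 : ℝ) / (2 * m) := by
    rw [hβ]; ring
  have hβδ : β - δ = (1 : ℝ) / (2 * m) + 3 / (2000 * m ^ 2) := by
    rw [hβ, hδ, hη]; field_simp; ring
  have hβ1 : β ≤ 1 / 2 := by
    have h1 : (1 : ℝ) / (2 * m) ≤ 1 / 4 := by
      apply one_div_le_one_div_of_le (by norm_num); linarith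
    have h2 : (1 : ℝ) / (500 * m ^ 2) ≤ 1 / 4 := by
      apply one_div_le_one_div_of_le (by norm_num); nlinarith
    rw [hβ]; linarith
  obtain ⟨C0, hC0, hPW⟩ := hPW m hm
  obtain ⟨c, hc0, X0, hX0, hX⟩ := hL5B β η (δ / 2) (by positivity) hβ1 hη0 (by positivity)
  obtain ⟨C1, hC1, hcl⟩ := hC1c 1 one_pos
  obtain ⟨C2, hC2, hTWO⟩ := hTWO a (1 / (4000 * m ^ 2)) (by positivity)
  obtain ⟨X1, hX1⟩ : ∃ X1 : ℝ, X1 = X0 + (1 / c) ^ (1 / (δ / 2)) + 1 := ⟨_, rfl⟩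
  have hcpow : 0 < (1 / c) ^ (1 / (δ / 2)) := by positivity
  have hX1pos : 0 < X1 := by rw [hX1]; positivity
  refine ⟨C2 * C0 + C1 * X1 ^ ((1 : ℝ) / 2 + 1), by positivity, fun d hd hd4 hP => ?_⟩
  have hd2 : (2 : ℝ) ≤ |(d : ℝ)| := by
    have h1 : (2 : ℤ) ≤ |d| := by
      rw [abs_of_neg hd]; omega
    calc (2 : ℝ) ≤ ((|d| : ℤ) : ℝ) := by exact_mod_cast h1
      _ = |(d : ℝ)| := by push_cast; rfl
  have hd1 : (1 : ℝ) ≤ |(d : ℝ)| := by linarith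
  have hd0 : (0 : ℝ) < |(d : ℝ)| := by linarith
  have hE : 0 ≤ (1 : ℝ) / 2 - 1 / (2 * m) - 1 / (1000 * m ^ 2) := by
    have h1 : (1 : ℝ) / (2 * m) ≤ 1 / 4 := by
      apply one_div_le_one_div_of_le (by norm_num); linarith
    have h2 : (1 : ℝ) / (1000 * m ^ 2) ≤ 1 / 4 := by
      apply one_div_le_one_div_of_le (by norm_num); nlinarith
    linarith
  have hpow1 : (1 : ℝ) ≤ |(d : ℝ)| ^ ((1 : ℝ) / 2 - 1 / (2 * m) - 1 / (1000 * m ^ 2)) :=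
    Real.one_le_rpow hd1 hE
  rcases lt_or_ge |(d : ℝ)| X1 with hlt | hge
  · -- small discriminants
    obtain ⟨hfin, hcard⟩ := hC1a d hd hd4
    have h1 : Nat.card {x : ClassGroup ↥(Od d) // x ^ (2 ^ a * m) = 1} ≤
        Nat.card (ClassGroup ↥(Od d)) := by
      have := hfin
      exact Nat.card_le_card_of_injective _ Subtype.val_injective
    have h2 : (Nat.card {x : ClassGroup ↥(Od d) // x ^ (2 ^ a * m) = 1} : ℝ) ≤
        C1 * |(d : ℝ)| ^ ((1 : ℝ) / 2 + 1) := by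
      calc (Nat.card {x : ClassGroup ↥(Od d) // x ^ (2 ^ a * m) = 1} : ℝ)
          ≤ (Nat.card (ClassGroup ↥(Od d)) : ℝ) := by exact_mod_cast h1
        _ ≤ ((∑ a ∈ Icc 1 (Nat.sqrt (d.natAbs / 3)), SM.wt d a : ℕ) : ℝ) := by
            exact_mod_cast hcard
        _ = (∑ a ∈ Icc 1 (Nat.sqrt (d.natAbs / 3)), SM.wt d a : ℝ) := by push_cast; rfl
        _ ≤ C1 * |(d : ℝ)| ^ ((1 : ℝ) / 2 + 1) := hcl d hd hd4
    have h3 : |(d : ℝ)| ^ ((1 : ℝ) / 2 + 1) ≤ X1 ^ ((1 : ℝ) / 2 + 1) :=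
      Real.rpow_le_rpow hd0.le hlt.le (by norm_num)
    have h4 : C1 * |(d : ℝ)| ^ ((1 : ℝ) / 2 + 1) ≤ C1 * X1 ^ ((1 : ℝ) / 2 + 1) :=
      mul_le_mul_of_nonneg_left h3 hC1.le
    have h5 : 0 ≤ C2 * C0 := by positivity
    calc _ ≤ C1 * X1 ^ ((1 : ℝ) / 2 + 1) := h2.trans h4
      _ ≤ C2 * C0 + C1 * X1 ^ ((1 : ℝ) / 2 + 1) := by linarith
      _ ≤ _ := le_mul_of_one_le_right (by positivity) hpow1
  · -- large discriminants
    have hbig : |(d : ℝ)| ^ ((1 : ℝ) / (2 * m) + 3 / (2000 * m ^ 2)) ≤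
        MM d ⌊|(d : ℝ)| ^ ((1 : ℝ) / (2 * m) + 1 / (500 * m ^ 2))⌋₊ := by
      have hsm := hX d hd (by rw [hX1] at hge; linarith) (by
        obtain ⟨q, hq, hp⟩ := hP
        refine ⟨q, ?_, ?_⟩
        · rw [hβη]
          refine hq.trans (le_of_eq ?_)
          rw [← Real.rpow_natCast, ← Real.rpow_mul hd0.le]
          congr 1
          push_cast
          field_simp
        · intro p hpp hne ho
          rw [hβη]
          exact hp p hpp hne ho)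
      refine le_trans ?_ hsm
      rw [← hβδ]
      have e1 : |(d : ℝ)| ^ (β - δ / 2) = |(d : ℝ)| ^ (δ / 2) * |(d : ℝ)| ^ (β - δ) := by
        rw [← Real.rpow_add hd0]
        congr 1
        ring
      have e2 : 1 ≤ c * |(d : ℝ)| ^ (δ / 2) := by
        have h6 : (1 / c) ^ (1 / (δ / 2)) ≤ |(d : ℝ)| := by rw [hX1] at hge; linarith
        have h7 : ((1 / c) ^ (1 / (δ / 2))) ^ (δ / 2) ≤ |(d : ℝ)| ^ (δ / 2) :=
          Real.rpow_le_rpow hcpow.le h6 (by positivity)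
        rw [← Real.rpow_mul (by positivity), one_div_mul_cancel (by positivity), Real.rpow_one,
          div_le_iff₀ hc0] at h7
        linarith
      rw [e1, ← mul_assoc]
      exact le_mul_of_one_le_left (Real.rpow_nonneg hd0.le _) e2
    have h1 := hPW d hd hd4 hbig
    have h2 := hTWO m d (by omega) hd hd4
    have hsum : |(d : ℝ)| ^ ((1 : ℝ) / (4000 * m ^ 2)) *
        |(d : ℝ)| ^ ((1 : ℝ) / 2 - 1 / (2 * m) - 1 / (800 * m ^ 2)) =
        |(d : ℝ)| ^ ((1 : ℝ) / 2 - 1 / (2 * m) - 1 / (1000 * m ^ 2)) := by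
      rw [← Real.rpow_add hd0]
      congr 1
      field_simp
      ring
    have h5 : 0 ≤ C1 * X1 ^ ((1 : ℝ) / 2 + 1) := by positivity
    calc (Nat.card {x : ClassGroup ↥(Od d) // x ^ (2 ^ a * m) = 1} : ℝ)
        ≤ C2 * |(d : ℝ)| ^ ((1 : ℝ) / (4000 * m ^ 2)) *
            Nat.card {x : ClassGroup ↥(Od d) // x ^ m = 1} := h2
      _ ≤ C2 * |(d : ℝ)| ^ ((1 : ℝ) / (4000 * m ^ 2)) *
            (C0 * |(d : ℝ)| ^ ((1 : ℝ) / 2 - 1 / (2 * m) - 1 / (800 * m ^ 2))) :=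
          mul_le_mul_of_nonneg_left h1 (by positivity)
      _ = C2 * C0 * (|(d : ℝ)| ^ ((1 : ℝ) / (4000 * m ^ 2)) *
            |(d : ℝ)| ^ ((1 : ℝ) / 2 - 1 / (2 * m) - 1 / (800 * m ^ 2))) := by ring
      _ = C2 * C0 * |(d : ℝ)| ^ ((1 : ℝ) / 2 - 1 / (2 * m) - 1 / (1000 * m ^ 2)) := by rw [hsum]
      _ ≤ _ := mul_le_mul_of_nonneg_right (by linarith) (by positivity)

end Pool.Agent.Work.MP_e0c7e8_nt.BG
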