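import Pool.Agent.Work.MP_e0c7e8_nt.BG.Stmts

/-!
Item HT: a relation of small height.
-/

set_option autoImplicit false

namespace Pool.Agent.Work.MP_e0c7e8_nt.BG

open Finset Polynomial

namespace I_HT

attribute [local instance] Matrix.seminormedAddCommGroup

/-- The monomials at a point. -/
def vv (E n : ℕ) (t y : ℤ) : Fin (E + 1) × Fin (n + 1) → ℤ :=
  fun j => t ^ (j.1 : ℕ) * y ^ (j.2 : ℕ)

/-- The polynomial with given coefficients. -/
noncomputable def GG (E n : ℕ) (x : Fin (E + 1) × Fin (n + 1) → ℤ) : ℤ[X][X] :=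
  ∑ j, monomial (j.2 : ℕ) (monomial (j.1 : ℕ) (x j))

theorem evalEval_monomial (a b : ℕ) (c t y : ℤ) :
    (monomial b (monomial a c) : ℤ[X][X]).evalEval t y = c * (t ^ a * y ^ b) := by
  unfold evalEval
  rw [eval_monomial, eval_mul, eval_monomial, eval_pow, eval_C]
  ring

theorem GG_eval (E n : ℕ) (x : Fin (E + 1) × Fin (n + 1) → ℤ) (t y : ℤ) :
    (GG E n x).evalEval t y = ∑ j, x j * vv E n t y j := by
  unfold GG
  rw [evalEval_finsetSum]
  exact Finset.sum_congr rfl fun j _ => evalEval_monomial _ _ _ _ _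

theorem GG_coeff (E n : ℕ) (x : Fin (E + 1) × Fin (n + 1) → ℤ) (i : Fin (E + 1) × Fin (n + 1)) :
    ((GG E n x).coeff (i.2 : ℕ)).coeff (i.1 : ℕ) = x i := by
  unfold GG
  rw [finsetSum_coeff, finsetSum_coeff, Finset.sum_eq_single i]
  · rw [coeff_monomial, if_pos rfl, coeff_monomial, if_pos rfl]
  · intro j _ hj
    rw [coeff_monomial]
    split_ifs with h1
    · rw [coeff_monomial, if_neg]
      intro h2
      exact hj (Prod.ext (Fin.ext h2) (Fin.ext h1))
    · rw [coeff_zero]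
  · intro h
    exact absurd (Finset.mem_univ i) h

theorem GG_Bx (E n : ℕ) (x : Fin (E + 1) × Fin (n + 1) → ℤ) : Bx E n (GG E n x) := by
  constructor
  · unfold GG
    refine natDegree_sum_le_of_forall_le _ _ fun j _ => ?_
    exact (natDegree_monomial_le _).trans (by have := j.2.2; omega)
  · intro k
    unfold GG
    rw [finsetSum_coeff]
    refine natDegree_sum_le_of_forall_le _ _ fun j _ => ?_
    rw [coeff_monomial]
    split_ifs
    · exact (natDegree_monomial_le _).trans (by have := j.1.2; omega)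
    · simp

/-- The coefficients of a polynomial. -/
noncomputable def cf (E n : ℕ) (h : ℤ[X][X]) : Fin (E + 1) × Fin (n + 1) → ℤ :=
  fun j => (h.coeff (j.2 : ℕ)).coeff (j.1 : ℕ)

theorem GG_cf (E n : ℕ) (h : ℤ[X][X]) (hB : Bx E n h) : GG E n (cf E n h) = h := by
  refine Polynomial.ext fun b => Polynomial.ext fun a => ?_
  by_cases hb : b < n + 1
  · by_cases ha : a < E + 1
    · exact GG_coeff E n (cf E n h) (⟨a, ha⟩, ⟨b, hb⟩)
    · rw [coeff_eq_zero_of_natDegree_lt (lt_of_le_of_lt ((GG_Bx E n _).2 b) (by omega)),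
        coeff_eq_zero_of_natDegree_lt (lt_of_le_of_lt (hB.2 b) (by omega))]
  · rw [coeff_eq_zero_of_natDegree_lt (lt_of_le_of_lt (GG_Bx E n _).1 (by omega)),
      coeff_eq_zero_of_natDegree_lt (lt_of_le_of_lt hB.1 (by omega))]

theorem derivative_eval (E n : ℕ) (x : Fin (E + 1) × Fin (n + 1) → ℤ) (t y : ℤ) :
    (derivative (GG E n x)).evalEval t y =
      ∑ j, x j * ((j.2 : ℕ) : ℤ) * (t ^ (j.1 : ℕ) * y ^ ((j.2 : ℕ) - 1)) := by
  unfold GG
  rw [derivative_sum, evalEval_finsetSum]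
  refine Finset.sum_congr rfl fun j _ => ?_
  rw [derivative_monomial]
  have h : (monomial (j.1 : ℕ) (x j) : ℤ[X]) * ((j.2 : ℕ) : ℤ[X]) =
      monomial (j.1 : ℕ) (x j * ((j.2 : ℕ) : ℤ)) := by
    rw [← C_eq_natCast, monomial_mul_C]
  rw [h, evalEval_monomial]

/-- Bounds for the monomials. -/
theorem vv_bd (E n w C0 B : ℕ) (hB : 1 ≤ B) (t y : ℤ) (ht : |t| ≤ B)
    (hy : |y| ≤ C0 * (B : ℤ) ^ w) (a b : ℕ) (ha : a ≤ E) (hb : b ≤ n) :
    |t ^ a * y ^ b| ≤ ((C0 + 1) ^ n * B ^ (E + w * n) : ℕ) := by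
  have hB' : (1 : ℤ) ≤ B := by exact_mod_cast hB
  have h1 : (1 : ℤ) ≤ ((C0 : ℤ) + 1) * (B : ℤ) ^ w := by
    have : (1 : ℤ) ≤ (B : ℤ) ^ w := one_le_pow₀ hB'
    have h0 : (0 : ℤ) ≤ C0 := Nat.cast_nonneg C0
    nlinarith
  have h2 : |y| ≤ ((C0 : ℤ) + 1) * (B : ℤ) ^ w := by
    refine hy.trans ?_
    have : (0 : ℤ) ≤ (B : ℤ) ^ w := by positivity
    nlinarith
  rw [abs_mul, abs_pow, abs_pow]
  calc |t| ^ a * |y| ^ b ≤ (B : ℤ) ^ E * (((C0 : ℤ) + 1) * (B : ℤ) ^ w) ^ n := by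
        refine mul_le_mul ?_ ?_ (by positivity) (by positivity)
        · exact (pow_le_pow_left₀ (abs_nonneg _) ht a).trans (pow_le_pow_right₀ hB' ha)
        · exact (pow_le_pow_left₀ (abs_nonneg _) h2 b).trans (pow_le_pow_right₀ h1 hb)
    _ = ((C0 + 1) ^ n * B ^ (E + w * n) : ℕ) := by
        push_cast
        rw [mul_pow, ← pow_mul, pow_add]
        ring

theorem main (E n w C0 B : ℕ) (ι : Type) (K : Finset ι) (t y : ι → ℤ) (h : ℤ[X][X])
    (hB : 1 ≤ B) (hK : K.Nonempty) (hty : ∀ i ∈ K, |t i| ≤ B ∧ |y i| ≤ C0 * (B : ℤ) ^ w)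
    (hh : h ≠ 0) (hBx : Bx E n h) (hz : ∀ i ∈ K, h.evalEval (t i) (y i) = 0) :
    ∃ x : Fin (E + 1) × Fin (n + 1) → ℤ, x ≠ 0 ∧
      (∀ j, |x j| ≤ (((E + 1) * (n + 1) * ((C0 + 1) ^ n * B ^ (E + w * n))) ^
        ((E + 1) * (n + 1)) : ℕ)) ∧
      ∀ i ∈ K, ∑ j, x j * vv E n (t i) (y i) j = 0 := by
  classical
  let V : K → (Fin (E + 1) × Fin (n + 1) → ℚ) := fun i j => (vv E n (t i) (y i) j : ℚ)
  obtain ⟨κ, a, ha, hsp, hli⟩ := exists_linearIndependent' ℚ V
  have hfin : Finite κ := Finite.of_injective a ha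
  let _ : Fintype κ := Fintype.ofFinite κ
  -- proper subspace
  have hfun : ∀ x : Fin (E + 1) × Fin (n + 1) → ℚ, ∀ U : Set (Fin (E + 1) × Fin (n + 1) → ℚ),
      (∀ u ∈ U, ∑ j, x j * u j = 0) → ∀ u ∈ Submodule.span ℚ U, ∑ j, x j * u j = 0 := by
    intro x U hU u hu
    induction hu using Submodule.span_induction with
    | mem u hu => exact hU u hu
    | zero => simp
    | add u v _ _ h1 h2 =>
      have : ∑ j, x j * (u + v) j = ∑ j, x j * u j + ∑ j, x j * v j := by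
        rw [← Finset.sum_add_distrib]
        exact Finset.sum_congr rfl fun j _ => by rw [Pi.add_apply, mul_add]
      rw [this, h1, h2, add_zero]
    | smul c u _ h1 =>
      have : ∑ j, x j * (c • u) j = c * ∑ j, x j * u j := by
        rw [Finset.mul_sum]
        exact Finset.sum_congr rfl fun j _ => by rw [Pi.smul_apply, smul_eq_mul]; ring
      rw [this, h1, mul_zero]
  have hlt : Fintype.card κ < Fintype.card (Fin (E + 1) × Fin (n + 1)) := by
    have h1 : Submodule.span ℚ (Set.range V) ≠ ⊤ := by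
      intro htop
      apply hh
      have h2 : ∀ u : Fin (E + 1) × Fin (n + 1) → ℚ, ∑ j, (cf E n h j : ℚ) * u j = 0 := by
        intro u
        refine hfun (fun j => (cf E n h j : ℚ)) (Set.range V) ?_ u (by rw [htop]; trivial)
        rintro _ ⟨i, rfl⟩
        have h3 := GG_eval E n (cf E n h) (t i) (y i)
        rw [GG_cf E n h hBx, hz i i.2] at h3
        have h4 : ((∑ j, cf E n h j * vv E n (t i) (y i) j : ℤ) : ℚ) = 0 := by
          rw [← h3]
          simp
        push_cast at h4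
        exact h4
      rw [← GG_cf E n h hBx]
      have h5 : cf E n h = 0 := by
        funext i
        have h6 := h2 (Pi.single i 1)
        rw [Finset.sum_eq_single i] at h6
        · rw [Pi.single_eq_same, mul_one] at h6
          exact_mod_cast h6
        · intro j _ hj
          rw [Pi.single_eq_of_ne hj, mul_zero]
        · intro h7
          exact absurd (Finset.mem_univ i) h7
      rw [h5]
      unfold GG
      simp
    have h2 := Submodule.finrank_lt h1
    rw [← hsp, finrank_span_eq_card hli, Module.finrank_fintype_fun_eq_card] at h2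
    exact h2
  have hpos : 0 < Fintype.card κ := by
    rw [Fintype.card_pos_iff]
    by_contra hne
    rw [not_nonempty_iff] at hne
    obtain ⟨i, hi⟩ := hK
    have h1 : V ⟨i, hi⟩ ∈ Submodule.span ℚ (Set.range V) :=
      Submodule.subset_span ⟨_, rfl⟩
    rw [← hsp, Set.range_eq_empty, Submodule.span_empty, Submodule.mem_bot] at h1
    have h2 := congrFun h1 (0, 0)
    simp [V, vv] at h2
  -- Siegel
  let A : Matrix κ (Fin (E + 1) × Fin (n + 1)) ℤ :=
    Matrix.of fun p j => vv E n (t (a p)) (y (a p)) j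
  obtain ⟨x, hx0, hx1, hx2⟩ := Int.Matrix.exists_ne_zero_int_vec_norm_le A hlt hpos
  obtain ⟨A0, hA0⟩ : ∃ A0 : ℕ, A0 = (C0 + 1) ^ n * B ^ (E + w * n) := ⟨_, rfl⟩
  have hA0p : 1 ≤ A0 := by
    rw [hA0]
    exact Nat.mul_pos (Nat.pow_pos (Nat.succ_pos _)) (Nat.pow_pos hB)
  have hAn : ‖A‖ ≤ A0 := by
    rw [Matrix.norm_le_iff (Nat.cast_nonneg _)]
    intro p j
    rw [Int.norm_eq_abs]
    have h1 := vv_bd E n w C0 B hB (t (a p)) (y (a p)) (hty _ (a p).2).1 (hty _ (a p).2).2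
      j.1 j.2 (by have := j.1.2; omega) (by have := j.2.2; omega)
    rw [← hA0] at h1
    have h2 : ((|vv E n (t (a p)) (y (a p)) j| : ℤ) : ℝ) ≤ ((A0 : ℤ) : ℝ) := by
      exact_mod_cast h1
    rw [Int.cast_abs] at h2
    exact_mod_cast h2
  have hcard : Fintype.card (Fin (E + 1) × Fin (n + 1)) = (E + 1) * (n + 1) := by
    simp
  rw [hcard] at hx2 hlt
  obtain ⟨m, hm⟩ : ∃ m : ℕ, m = Fintype.card κ := ⟨_, rfl⟩
  obtain ⟨N, hN⟩ : ∃ N : ℕ, N = (E + 1) * (n + 1) := ⟨_, rfl⟩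
  rw [← hm] at hx2 hlt
  rw [← hN] at hx2 hlt
  rw [← hN, ← hA0]
  have hbase : ((N : ℝ) * max 1 ‖A‖) ^ ((m : ℝ) / (N - m)) ≤ ((N * A0) ^ N : ℕ) := by
    have e1 : (1 : ℝ) ≤ N := by
      have : 1 ≤ N := by omega
      exact_mod_cast this
    have e2 : (1 : ℝ) ≤ (N : ℝ) * max 1 ‖A‖ := by
      have := le_max_left (1 : ℝ) ‖A‖
      nlinarith
    have e3 : (N : ℝ) * max 1 ‖A‖ ≤ N * A0 :=
      mul_le_mul_of_nonneg_left (max_le (by exact_mod_cast hA0p) hAn) (Nat.cast_nonneg _)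
    have e4 : (m : ℝ) / (N - m) ≤ N := by
      have f1 : (m : ℝ) + 1 ≤ N := by exact_mod_cast hlt
      have f2 : (0 : ℝ) ≤ m := Nat.cast_nonneg m
      rw [div_le_iff₀ (by linarith)]
      nlinarith
    calc ((N : ℝ) * max 1 ‖A‖) ^ ((m : ℝ) / (N - m))
        ≤ ((N : ℝ) * max 1 ‖A‖) ^ (N : ℝ) := Real.rpow_le_rpow_of_exponent_le e2 e4
      _ ≤ ((N : ℝ) * A0) ^ (N : ℝ) := Real.rpow_le_rpow (by linarith) e3 (by linarith)
      _ = ((N * A0) ^ N : ℕ) := by
          rw [Real.rpow_natCast]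
          push_cast
          rfl
  refine ⟨x, hx0, fun j => ?_, ?_⟩
  · have h1 := (norm_le_pi_norm x j).trans (hx2.trans hbase)
    rw [Int.norm_eq_abs, ← Int.cast_abs] at h1
    exact_mod_cast h1
  · intro i hi
    have h1 := hfun (fun j => (x j : ℚ)) (Set.range (V ∘ a)) (by
      rintro _ ⟨p, rfl⟩
      have h2 := congrFun hx1 p
      have h3 : ((∑ j, vv E n (t (a p)) (y (a p)) j * x j : ℤ) : ℚ) = 0 := by
        have : ∑ j, vv E n (t (a p)) (y (a p)) j * x j = 0 := h2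
        rw [this]
        simp
      push_cast at h3
      rw [← h3]
      exact Finset.sum_congr rfl fun j _ => mul_comm _ _) (V ⟨i, hi⟩) (by
      rw [hsp]
      exact Submodule.subset_span ⟨_, rfl⟩)
    have h4 : ((∑ j, x j * vv E n (t i) (y i) j : ℤ) : ℚ) = 0 := by
      push_cast
      exact h1
    exact_mod_cast h4

end I_HT

open I_HT

theorem HT_pf : S_HT := by
  intro E n w C0
  obtain ⟨N, hN⟩ : ∃ N : ℕ, N = (E + 1) * (n + 1) := ⟨_, rfl⟩
  refine ⟨N * n * (C0 + 1) ^ n * (N * (C0 + 1) ^ n) ^ N + (E + w * n) * (N + 1), ?_⟩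
  intro B ι K t y h hB hty hh hBx hz
  rcases K.eq_empty_or_nonempty with hK | hK
  · subst hK
    exact ⟨h, hh, hBx, hz, fun i hi => absurd hi (Finset.notMem_empty i)⟩
  obtain ⟨x, hx0, hxb, hx⟩ := main E n w C0 B ι K t y h hB hK hty hh hBx hz
  rw [← hN] at hxb
  refine ⟨GG E n x, ?_, GG_Bx E n x, ?_, ?_⟩
  · intro h0
    apply hx0
    funext j
    rw [← GG_coeff E n x j, h0]
    simp
  · intro i hi
    rw [GG_eval]
    exact hx i hi
  · intro i hi
    rw [derivative_eval]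
    obtain ⟨A0, hA0⟩ : ∃ A0 : ℕ, A0 = (C0 + 1) ^ n * B ^ (E + w * n) := ⟨_, rfl⟩
    rw [← hA0] at hxb
    have h1 : ∀ j : Fin (E + 1) × Fin (n + 1),
        |x j * ((j.2 : ℕ) : ℤ) * (t i ^ (j.1 : ℕ) * y i ^ ((j.2 : ℕ) - 1))| ≤
          (((N * A0) ^ N * n * A0 : ℕ) : ℤ) := by
      intro j
      rw [abs_mul, abs_mul]
      have e1 := vv_bd E n w C0 B hB (t i) (y i) (hty i hi).1 (hty i hi).2
        j.1 ((j.2 : ℕ) - 1) (by have := j.1.2; omega) (by have := j.2.2; omega)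
      rw [← hA0] at e1
      have e2 : |(((j.2 : ℕ) : ℤ))| ≤ (n : ℤ) := by
        rw [abs_of_nonneg (by positivity)]
        have := j.2.2
        have h3 : (j.2 : ℕ) ≤ n := by omega
        exact_mod_cast h3
      push_cast
      refine mul_le_mul (mul_le_mul ?_ e2 (abs_nonneg _) (by positivity)) e1 (abs_nonneg _)
        (by positivity)
      exact_mod_cast hxb j
    have h2 : |∑ j : Fin (E + 1) × Fin (n + 1),
        x j * ((j.2 : ℕ) : ℤ) * (t i ^ (j.1 : ℕ) * y i ^ ((j.2 : ℕ) - 1))| ≤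
        ((N * ((N * A0) ^ N * n * A0) : ℕ) : ℤ) := by
      refine (Finset.abs_sum_le_sum_abs _ _).trans ((Finset.sum_le_card_nsmul _ _ _
        fun j _ => h1 j).trans ?_)
      rw [Finset.card_univ, Fintype.card_prod, Fintype.card_fin, Fintype.card_fin, ← hN,
        nsmul_eq_mul]
      push_cast
      exact le_rfl
    refine h2.trans ?_
    have h3 : N * ((N * A0) ^ N * n * A0) ≤
        (N * n * (C0 + 1) ^ n * (N * (C0 + 1) ^ n) ^ N + (E + w * n) * (N + 1)) *
        B ^ (N * n * (C0 + 1) ^ n * (N * (C0 + 1) ^ n) ^ N + (E + w * n) * (N + 1)) := by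
      have e1 : N * ((N * A0) ^ N * n * A0) =
          (N * n * (C0 + 1) ^ n * (N * (C0 + 1) ^ n) ^ N) * B ^ ((E + w * n) * (N + 1)) := by
        rw [hA0]
        rw [show N * ((C0 + 1) ^ n * B ^ (E + w * n)) = (N * (C0 + 1) ^ n) * B ^ (E + w * n) by
          ring, mul_pow, ← pow_mul, mul_add (E + w * n) N 1, mul_one, pow_add]
        ring
      rw [e1]
      exact Nat.mul_le_mul (Nat.le_add_right _ _)
        (Nat.pow_le_pow_right hB (Nat.le_add_left _ _))
    exact_mod_cast h3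

end Pool.Agent.Work.MP_e0c7e8_nt.BG
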