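import Pool.Agent.Work.MP_e0c7e8_nt.BG.StmtsI
import Pool.Agent.Work.MP_e0c7e8_nt.SM.ItemC2b2

/-!
# Item IDA: norm and conjugate of the ideals
-/

set_option autoImplicit false

namespace Pool.Agent.Work.MP_e0c7e8_nt.BG

open Finset Pool.Agent.Work.MP_e0c7e8_nt.SM

namespace I_IDA

/-- the ideal at one prime -/
noncomputable def loc (d : ℤ) (n : ℕ → ℤ) (S : Finset ℕ) (p : ℕ) : Ideal ↥(Od d) :=
  if p ∈ S then Pi1 d p (n p) else Pi2 d p (n p)

lemma JJ_eq (d : ℤ) (n : ℕ → ℤ) (A : AI) :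
    JJ d n A = ∏ p ∈ A.1.primeFactors, loc d n A.2 p ^ A.1.factorization p := rfl

lemma loc_mul {d : ℤ} {n : ℕ → ℤ} (T S : Finset ℕ) (p : ℕ) (hp : p ∈ T)
    (h : Pi1 d p (n p) * Pi2 d p (n p) = Ideal.span {(p : ↥(Od d))}) :
    loc d n S p * loc d n (T \ S) p = Ideal.span {(p : ↥(Od d))} := by
  unfold loc
  by_cases hS : p ∈ S
  · have : p ∉ T \ S := by simp [hS]
    rw [if_pos hS, if_neg this, h]
  · have : p ∈ T \ S := by simp [hS, hp]
    rw [if_neg hS, if_pos this, mul_comm, h]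

lemma loc_map {d : ℤ} {n : ℕ → ℤ} (σ : ↥(Od d) ≃+* ↥(Od d))
    (hσ : σ (th d) = (d : ↥(Od d)) - th d) (T S : Finset ℕ) (p : ℕ) (hp : p ∈ T) :
    (loc d n S p).map (σ : ↥(Od d) →+* ↥(Od d)) = loc d n (T \ S) p := by
  unfold loc
  by_cases hS : p ∈ S
  · have : p ∉ T \ S := by simp [hS]
    rw [if_pos hS, if_neg this, ItemC2b2.map_Pi1 σ hσ]
  · have : p ∈ T \ S := by simp [hS, hp]
    rw [if_neg hS, if_pos this, ItemC2b2.map_Pi2 σ hσ]

end I_IDA

open I_IDA in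
theorem IDA_pf (h1 : ClaimC2b1) : S_IDA := by
  intro d n hd hd4 hn A hA
  obtain ⟨hA1, hA2, hA3⟩ := hA
  have hcj : JJ d n (cj A) =
      ∏ p ∈ A.1.primeFactors, loc d n (A.1.primeFactors \ A.2) p ^ A.1.factorization p := rfl
  refine ⟨?_, ?_⟩
  · rw [JJ_eq, hcj, ← Finset.prod_mul_distrib]
    have h2 : ∀ p ∈ A.1.primeFactors, loc d n A.2 p ^ A.1.factorization p *
        loc d n (A.1.primeFactors \ A.2) p ^ A.1.factorization p =
        Ideal.span {((p : ↥(Od d)) ^ A.1.factorization p)} := by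
      intro p hp
      have hpp := Nat.prime_of_mem_primeFactors hp
      obtain ⟨h3, h4⟩ := hn p hpp (hA2 p hp)
      rw [← mul_pow, loc_mul A.1.primeFactors A.2 p hp (h1 d p (n p) hd hd4 hpp h3 h4),
        Ideal.span_singleton_pow]
    rw [Finset.prod_congr rfl h2, Ideal.prod_span_singleton]
    congr 2
    have h5 : ∏ p ∈ A.1.primeFactors, p ^ A.1.factorization p = A.1 :=
      Nat.prod_factorization_pow_eq_self (by omega)
    have h6 := congrArg (fun m : ℕ => (m : ↥(Od d))) h5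
    rw [Nat.cast_prod] at h6
    rw [← h6]
    refine Finset.prod_congr rfl fun p _ => ?_
    rw [Nat.cast_pow]
  · intro σ hσ
    rw [JJ_eq, hcj, ← Ideal.mapHom_apply, map_prod]
    refine Finset.prod_congr rfl fun p hp => ?_
    rw [map_pow, Ideal.mapHom_apply, loc_map σ hσ A.1.primeFactors A.2 p hp]

end Pool.Agent.Work.MP_e0c7e8_nt.BG
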