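import Pool.Agent.Work.MP_e0c7e8_nt.BG.StmtsI
import Pool.Agent.Work.MP_e0c7e8_nt.SM.ItemC2b2

set_option autoImplicit false

namespace Pool.Agent.Work.MP_e0c7e8_nt.BG

open Finset Pool.Agent.Work.MP_e0c7e8_nt.SM

namespace I_IDC

open ItemC2b2

theorem key (h0 : ClaimC0) (h1 : ClaimC2b1) (d : ℤ) (S : Finset ℕ) (n : ℕ → ℤ) (f g : ℕ → ℕ)
    (u : ℤ) (hd : d < 0) (hd4 : d % 4 = 0 ∨ d % 4 = 1)
    (hS : ∀ p ∈ S, p.Prime ∧ (p : ℤ) ∣ FF d (n p) ∧ ¬ (p : ℤ) ∣ 2 * n p + d)
    (hprod : ∏ p ∈ S, (Pi1 d p (n p) ^ f p * Pi2 d p (n p) ^ g p) =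
      Ideal.span {(u : ↥(Od d))}) : ∀ p ∈ S, f p = g p := by
  obtain ⟨hrep, hns, hnb, hth, σ, hσθ, hσn⟩ := h0 d hd hd4
  -- the integer m
  obtain ⟨m, hm⟩ : ∃ m : ℕ, m = ∏ p ∈ S, p ^ (f p + g p) := ⟨_, rfl⟩
  have hmpos : 0 < m := by
    rw [hm]
    exact Finset.prod_pos (fun p hp => pow_pos (hS p hp).1.pos _)
  -- the norm ideal
  have hA : Ideal.span {(u : ↥(Od d))} * Ideal.map (σ : ↥(Od d) →+* ↥(Od d))
      (Ideal.span {(u : ↥(Od d))}) = Ideal.span {(m : ↥(Od d))} := by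
    rw [← hprod]
    have e1 : Ideal.map (σ : ↥(Od d) →+* ↥(Od d))
        (∏ p ∈ S, (Pi1 d p (n p) ^ f p * Pi2 d p (n p) ^ g p)) =
        ∏ p ∈ S, (Pi2 d p (n p) ^ f p * Pi1 d p (n p) ^ g p) := by
      have e0 := map_prod (Ideal.mapHom (σ : ↥(Od d) →+* ↥(Od d)))
        (fun p => Pi1 d p (n p) ^ f p * Pi2 d p (n p) ^ g p) S
      change Ideal.map (σ : ↥(Od d) →+* ↥(Od d)) _ = ∏ p ∈ S, Ideal.map
        (σ : ↥(Od d) →+* ↥(Od d)) (Pi1 d p (n p) ^ f p * Pi2 d p (n p) ^ g p) at e0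
      rw [e0]
      refine Finset.prod_congr rfl ?_
      intro p _
      rw [Ideal.map_mul, Ideal.map_pow, Ideal.map_pow, map_Pi1 σ hσθ, map_Pi2 σ hσθ]
    rw [e1, ← Finset.prod_mul_distrib]
    have e2 : ∀ p ∈ S, Pi1 d p (n p) ^ f p * Pi2 d p (n p) ^ g p *
        (Pi2 d p (n p) ^ f p * Pi1 d p (n p) ^ g p) =
        Ideal.span {(p : ↥(Od d)) ^ (f p + g p)} := by
      intro p hp
      obtain ⟨hp1, hp2, hp3⟩ := hS p hp
      rw [← Ideal.span_singleton_pow, ← h1 d p (n p) hd hd4 hp1 hp2 hp3]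
      ring
    rw [Finset.prod_congr rfl e2, Ideal.prod_span_singleton, hm]
    push_cast
    rfl
  have hσu : σ (u : ↥(Od d)) = (u : ↥(Od d)) := map_intCast σ u
  rw [Ideal.map_span, Set.image_singleton, Ideal.span_singleton_mul_span_singleton] at hA
  have hA' : Ideal.span {((u * u : ℤ) : ↥(Od d))} = Ideal.span {(m : ↥(Od d))} := by
    rw [← hA, Int.cast_mul]
    congr 1
    have : (σ : ↥(Od d) →+* ↥(Od d)) (u : ↥(Od d)) = (u : ↥(Od d)) := hσu
    rw [this]
  have hdv1 : (u * u : ℤ) ∣ (m : ℤ) := by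
    apply dvd_of_dvd hd hrep hnb
    have : (m : ↥(Od d)) ∈ Ideal.span {((u * u : ℤ) : ↥(Od d))} := by
      rw [hA']; exact Ideal.mem_span_singleton_self _
    have := Ideal.mem_span_singleton.1 this
    rwa [Int.cast_natCast]
  have hdv2 : (m : ℤ) ∣ u * u := by
    apply dvd_of_dvd hd hrep hnb
    have : ((u * u : ℤ) : ↥(Od d)) ∈ Ideal.span {(m : ↥(Od d))} := by
      rw [← hA']; exact Ideal.mem_span_singleton_self _
    have := Ideal.mem_span_singleton.1 this
    rwa [Int.cast_natCast]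
  have hum : u * u = (m : ℤ) :=
    Int.dvd_antisymm (mul_self_nonneg u) (by positivity) hdv1 hdv2
  have humn : u.natAbs ^ 2 = m := by
    have h2 : ((u.natAbs ^ 2 : ℕ) : ℤ) = (m : ℤ) := by
      push_cast
      rw [sq_abs, ← hum]
      ring
    exact_mod_cast h2
  have hu0 : u.natAbs ≠ 0 := by
    intro h2
    rw [h2] at humn
    simp at humn
    omega
  -- the key step
  have hθ2 : th d * th d = (d : ↥(Od d)) * th d - (((d ^ 2 - d) / 4 : ℤ) : ↥(Od d)) := by
    linear_combination -hth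
  intro p hp
  obtain ⟨hp1, hp2, hp3⟩ := hS p hp
  have hPP := h1 d p (n p) hd hd4 hp1 hp2 hp3
  obtain ⟨F, hF⟩ := hp2
  have hFF : ((n p : ℤ) : ↥(Od d)) ^ 2 + (d : ↥(Od d)) * ((n p : ℤ) : ↥(Od d)) +
      (((d ^ 2 - d) / 4 : ℤ) : ↥(Od d)) = (p : ↥(Od d)) * (F : ↥(Od d)) := by
    have := congrArg (fun z : ℤ => (z : ↥(Od d))) hF
    unfold FF at this
    push_cast at this
    exact this
  -- M
  obtain ⟨M, hM⟩ : ∃ M : ℕ, M = ∏ q ∈ S.erase p, q ^ (f q + g q) := ⟨_, rfl⟩
  have hmM : m = p ^ (f p + g p) * M := by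
    rw [hm, hM, ← Finset.mul_prod_erase S _ hp]
  have hpMn : ¬ p ∣ M := by
    intro hcon
    rw [hM, (Nat.Prime.prime hp1).dvd_finsetProd_iff] at hcon
    obtain ⟨q, hq, hpq⟩ := hcon
    obtain ⟨hq1, hq2⟩ := Finset.mem_erase.1 hq
    have := (Nat.prime_dvd_prime_iff_eq hp1 (hS q hq2).1).1 (hp1.dvd_of_dvd_pow hpq)
    exact hq1 this.symm
  have hpM : ¬ (p : ℤ) ∣ (M : ℤ) := by
    rw [Int.natCast_dvd_natCast]
    exact hpMn
  have hMmem : (M : ↥(Od d)) ∈
      ∏ q ∈ S.erase p, (Pi1 d q (n q) ^ f q * Pi2 d q (n q) ^ g q) := by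
    rw [hM]
    push_cast
    refine Ideal.prod_mem_prod ?_
    intro q _
    rw [pow_add]
    refine Ideal.mul_mem_mul (Ideal.pow_mem_pow ?_ _) (Ideal.pow_mem_pow ?_ _)
    · exact Ideal.subset_span (by simp)
    · exact Ideal.subset_span (by simp)
  have hp0 : (p : ↥(Od d)) ≠ 0 := by
    intro h2
    have h3 : ((p : ℤ) : ↥(Od d)) = ((0 : ℤ) : ↥(Od d)) := by
      push_cast
      exact h2
    have h4 := int_inj h3
    have := hp1.pos
    omega
  have hval : 2 * u.natAbs.factorization p = f p + g p := by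
    have h2 := congrArg (fun z : ℕ => z.factorization p) (humn.trans hmM)
    have hM0 : M ≠ 0 := by
      rintro rfl
      exact hpMn (dvd_zero p)
    have h3 : (p ^ (f p + g p)).factorization p = f p + g p := by
      rw [hp1.factorization_pow, Finsupp.single_eq_same]
    simp only [Nat.factorization_pow, Nat.factorization_mul (pow_ne_zero _ hp1.ne_zero) hM0,
      Finsupp.add_apply, Finsupp.smul_apply, smul_eq_mul] at h2
    rw [h2, Nat.factorization_eq_zero_of_not_dvd hpMn]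
    simp [hp1.factorization_self]
  have hpu : ∀ c : ℕ, 2 * c + 1 ≤ f p + g p → (p : ↥(Od d)) ^ (c + 1) ∣ (u : ↥(Od d)) := by
    intro c hc
    have h2 : p ^ (c + 1) ∣ u.natAbs :=
      (hp1.pow_dvd_iff_le_factorization hu0).2 (by omega)
    have h3 : ((p ^ (c + 1) : ℕ) : ℤ) ∣ u := Int.natCast_dvd.2 h2
    obtain ⟨w, hw⟩ := h3
    refine ⟨(w : ↥(Od d)), ?_⟩
    conv_lhs => rw [hw]
    push_cast
    rfl
  have hmem : ∀ x : ↥(Od d), ∀ c k : ℕ, 2 * c + 1 ≤ f p + g p →
      (p : ↥(Od d)) ^ c * x ^ k ∈ Pi1 d p (n p) ^ f p * Pi2 d p (n p) ^ g p →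
      (p : ↥(Od d)) ∣ x ^ k * ((M : ℤ) : ↥(Od d)) := by
    intro x c k hpos hx
    have h2 : (p : ↥(Od d)) ^ c * x ^ k * (M : ↥(Od d)) ∈ Ideal.span {(u : ↥(Od d))} := by
      rw [← hprod, ← Finset.mul_prod_erase S _ hp]
      exact Ideal.mul_mem_mul hx hMmem
    have h3 := (hpu c hpos).trans (Ideal.mem_span_singleton.1 h2)
    rw [pow_succ, mul_assoc] at h3
    rw [Int.cast_natCast]
    exact (mul_dvd_mul_iff_left (pow_ne_zero c hp0)).1 h3
  rcases lt_trichotomy (f p) (g p) with hfg | hfg | hfg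
  · exfalso
    obtain ⟨k, hk⟩ : ∃ k, g p = f p + (k + 1) := ⟨g p - f p - 1, by omega⟩
    refine not_dvd hd hrep hnb p hp1 (n p + d) (-1) (2 * n p + d) F (M : ℤ) (Or.inr rfl) hp3 hpM
      ((n p : ↥(Od d)) + d - th d) ?_ ?_ k ?_
    · push_cast; ring
    · push_cast
      linear_combination hθ2 - hFF
    · refine hmem _ (f p) _ (by omega) ?_
      rw [hk, pow_add, ← mul_assoc, ← mul_pow, hPP]
      exact Ideal.mul_mem_mul (Ideal.pow_mem_pow (Ideal.mem_span_singleton_self _) _)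
        (Ideal.pow_mem_pow (Ideal.subset_span (by simp)) _)
  · exact hfg
  · exfalso
    obtain ⟨k, hk⟩ : ∃ k, f p = g p + (k + 1) := ⟨f p - g p - 1, by omega⟩
    refine not_dvd hd hrep hnb p hp1 (n p) 1 (2 * n p + d) F (M : ℤ) (Or.inl rfl) hp3 hpM
      ((n p : ↥(Od d)) + th d) ?_ ?_ k ?_
    · push_cast; ring
    · push_cast
      linear_combination hθ2 - hFF
    · refine hmem _ (g p) _ (by omega) ?_
      have h5 : Pi1 d p (n p) ^ f p * Pi2 d p (n p) ^ g p =
          (Pi1 d p (n p) * Pi2 d p (n p)) ^ g p * Pi1 d p (n p) ^ (k + 1) := by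
        rw [hk, pow_add, mul_pow]
        ring
      rw [h5, hPP]
      exact Ideal.mul_mem_mul (Ideal.pow_mem_pow (Ideal.mem_span_singleton_self _) _)
        (Ideal.pow_mem_pow (Ideal.subset_span (by simp)) _)

theorem JJ_pow (d : ℤ) (n : ℕ → ℤ) (A : AI) (k : ℕ) (S : Finset ℕ)
    (hS : A.1.primeFactors ⊆ S) : JJ d n A ^ k = ∏ p ∈ S,
      (Pi1 d p (n p) ^ (if p ∈ A.2 then k * A.1.factorization p else 0) *
        Pi2 d p (n p) ^ (if p ∈ A.2 then 0 else k * A.1.factorization p)) := by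
  unfold JJ
  rw [← Finset.prod_pow]
  have h1 : ∀ p, ((if p ∈ A.2 then Pi1 d p (n p) else Pi2 d p (n p)) ^ A.1.factorization p) ^ k =
      (Pi1 d p (n p) ^ (if p ∈ A.2 then k * A.1.factorization p else 0) *
        Pi2 d p (n p) ^ (if p ∈ A.2 then 0 else k * A.1.factorization p)) := by
    intro p
    by_cases hp : p ∈ A.2
    · simp only [hp, if_true]
      rw [pow_zero, mul_one, ← pow_mul, Nat.mul_comm]
    · simp only [hp, if_false]
      rw [pow_zero, one_mul, ← pow_mul, Nat.mul_comm]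
  simp only [h1]
  refine Finset.prod_subset hS fun p _ hp => ?_
  have h2 : A.1.factorization p = 0 := by
    rw [← Nat.support_factorization, Finsupp.notMem_support_iff] at hp
    exact hp
  rw [h2, mul_zero]
  simp

end I_IDC

theorem IDC_pf (h0 : ClaimC0) (h1 : ClaimC2b1) : S_IDC := by
  intro d n hd hd4 hn A A' hA hA' k u hk hJ
  obtain ⟨a1, a2, a3⟩ := hA
  obtain ⟨b1, b2, b3⟩ := hA'
  set S : Finset ℕ := A.1.primeFactors ∪ A'.1.primeFactors with hSdef
  have hSp : ∀ p ∈ S, p.Prime ∧ (p : ℤ) ∣ FF d (n p) ∧ ¬ (p : ℤ) ∣ 2 * n p + d := by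
    intro p hp
    have hpp : p.Prime := by
      rw [hSdef, Finset.mem_union] at hp
      rcases hp with hp | hp
      · exact Nat.prime_of_mem_primeFactors hp
      · exact Nat.prime_of_mem_primeFactors hp
    have hchi : chi d p = 1 := by
      rw [hSdef, Finset.mem_union] at hp
      rcases hp with hp | hp
      · exact a2 p hp
      · exact b2 p hp
    exact ⟨hpp, hn p hpp hchi⟩
  have hJ2 := hJ
  rw [I_IDC.JJ_pow d n A k S Finset.subset_union_left,
    I_IDC.JJ_pow d n (cj A') k S Finset.subset_union_right, ← Finset.prod_mul_distrib] at hJ2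
  have hJ3 : ∏ p ∈ S, (Pi1 d p (n p) ^ ((if p ∈ A.2 then k * A.1.factorization p else 0) +
        (if p ∈ (cj A').2 then k * A'.1.factorization p else 0)) *
      Pi2 d p (n p) ^ ((if p ∈ A.2 then 0 else k * A.1.factorization p) +
        (if p ∈ (cj A').2 then 0 else k * A'.1.factorization p))) =
      Ideal.span {(u : ↥(Od d))} := by
    rw [← hJ2]
    refine Finset.prod_congr rfl fun p _ => ?_
    rw [pow_add, pow_add]
    show _ = Pi1 d p (n p) ^ (if p ∈ A.2 then k * A.1.factorization p else 0) *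
      Pi2 d p (n p) ^ (if p ∈ A.2 then 0 else k * A.1.factorization p) *
      (Pi1 d p (n p) ^ (if p ∈ (cj A').2 then k * A'.1.factorization p else 0) *
      Pi2 d p (n p) ^ (if p ∈ (cj A').2 then 0 else k * A'.1.factorization p))
    ring
  have hkey := I_IDC.key h0 h1 d S n _ _ u hd hd4 hSp hJ3
  have hfac : ∀ (N p : ℕ), p ∈ N.primeFactors ↔ 0 < N.factorization p := by
    intro N p
    rw [← Nat.support_factorization, Finsupp.mem_support_iff]
    omega
  have hcj : ∀ p, p ∈ (cj A').2 ↔ p ∈ A'.1.primeFactors ∧ p ∉ A'.2 := by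
    intro p
    unfold cj
    exact Finset.mem_sdiff
  have hmain : ∀ p ∈ S, A.1.factorization p = A'.1.factorization p ∧ (p ∈ A.2 ↔ p ∈ A'.2) := by
    intro p hp
    have h2 := hkey p hp
    rw [hSdef, Finset.mem_union, hfac, hfac] at hp
    by_cases c1 : p ∈ A.2
    · have c3 : 0 < A.1.factorization p := (hfac _ _).1 (a3 c1)
      have c4 : 0 < k * A.1.factorization p := Nat.mul_pos hk c3
      by_cases c2 : p ∈ (cj A').2
      · simp only [c1, c2, if_true] at h2
        omega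
      · simp only [c1, c2, if_true, if_false] at h2
        have h3 : k * A.1.factorization p = k * A'.1.factorization p := by omega
        have h4 := Nat.eq_of_mul_eq_mul_left hk h3
        refine ⟨h4, ?_⟩
        rw [hcj] at c2
        have h5 : p ∈ A'.1.primeFactors := (hfac _ _).2 (by omega)
        tauto
    · by_cases c2 : p ∈ (cj A').2
      · simp only [c1, c2, if_true, if_false] at h2
        have h3 : k * A.1.factorization p = k * A'.1.factorization p := by omega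
        have h4 := Nat.eq_of_mul_eq_mul_left hk h3
        refine ⟨h4, ?_⟩
        rw [hcj] at c2
        tauto
      · simp only [c1, c2, if_false] at h2
        exfalso
        rcases hp with hp | hp
        · have := Nat.mul_pos hk hp
          omega
        · have := Nat.mul_pos hk hp
          omega
  have hA1 : A.1 = A'.1 := by
    refine Nat.eq_of_factorization_eq (by omega) (by omega) fun p => ?_
    by_cases hp : p ∈ S
    · exact (hmain p hp).1
    · rw [hSdef, Finset.mem_union, hfac, hfac] at hp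
      omega
  have hA2 : A.2 = A'.2 := by
    ext p
    by_cases hp : p ∈ S
    · exact (hmain p hp).2
    · rw [hSdef, Finset.mem_union] at hp
      constructor
      · intro h2
        exact absurd (Or.inl (a3 h2)) hp
      · intro h2
        exact absurd (Or.inr (b3 h2)) hp
  exact Prod.ext hA1 hA2

end Pool.Agent.Work.MP_e0c7e8_nt.BG
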