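import Pool.Agent.Work.MP_e0c7e8_nt.BG.Stmts

/-!
# Item IFT: implicit functions over a finite ring of functions

Note 3719 on MP_e0c7e8_nt.
-/

set_option autoImplicit false

namespace Pool.Agent.Work.MP_e0c7e8_nt.BG

open Finset Polynomial

namespace I_IFT

variable {A : Type} [CommRing A]

/-- A unit plus a nilpotent is a unit. -/
lemma unit_add {u n : A} (hu : IsUnit u) (hn : IsNilpotent n) : IsUnit (u + n) := by
  obtain ⟨w, rfl⟩ := hu
  have h : (w : A) + n = (w : A) * (1 + (↑w⁻¹ : A) * n) := by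
    rw [mul_add, mul_one, ← mul_assoc, Units.mul_inv, one_mul]
  rw [h]
  refine w.isUnit.mul ?_
  exact IsNilpotent.isUnit_one_add ((Commute.all _ _).isNilpotent_mul_left hn)

lemma nil_of_dvd {q z : A} (hq : IsNilpotent q) (h : q ∣ z) : IsNilpotent z := by
  obtain ⟨w, rfl⟩ := h
  exact (Commute.all _ _).isNilpotent_mul_right hq

/-- Two points that are congruent modulo a nilpotent element and have the same value. -/
lemma eq_of_eval {q : A} (hq : IsNilpotent q) (P : Polynomial A) {u v : A} (huv : q ∣ u - v)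
    (hv : IsUnit (P.derivative.eval v)) (h : P.eval u = P.eval v) : u = v := by
  obtain ⟨k, hk⟩ := Polynomial.binomExpansion P v (u - v)
  rw [add_sub_cancel, h] at hk
  have h1 : (P.derivative.eval v + k * (u - v)) * (u - v) = 0 := by
    linear_combination -hk
  have h2 : IsUnit (P.derivative.eval v + k * (u - v)) :=
    unit_add hv (nil_of_dvd hq (huv.mul_left k))
  have h3 := (h2.mul_right_eq_zero).1 h1
  exact sub_eq_zero.1 h3

lemma unit_of_congr {q : A} (hq : IsNilpotent q) (P : Polynomial A) {u v : A} (huv : q ∣ u - v)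
    (hv : IsUnit (P.eval v)) : IsUnit (P.eval u) := by
  have h1 : q ∣ P.eval u - P.eval v := huv.trans (Polynomial.sub_dvd_eval_sub u v P)
  have h2 := unit_add hv (nil_of_dvd hq h1)
  rwa [add_sub_cancel] at h2

lemma eval_mem {K : Type} [CommRing K] [Algebra K A] (R : Subalgebra K A) (P : Polynomial A)
    (hP : ∀ j, P.coeff j ∈ R) {u : A} (hu : u ∈ R) : P.eval u ∈ R := by
  rw [Polynomial.eval_eq_sum, Polynomial.sum]
  exact Subalgebra.sum_mem _ fun j _ => R.mul_mem (hP j) (R.pow_mem hu j)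

/-- The general statement. -/
lemma main {K : Type} [CommRing K] [Algebra K A] (R : Subalgebra K A) (hR : Finite R) {q : A}
    (hq : IsNilpotent q) (P : Polynomial A) (hP : ∀ j, P.coeff j ∈ R) (f f0 : A)
    (hf : P.eval f = 0) (hf0 : f0 ∈ R) (hff : q ∣ f - f0) (hd : IsUnit (P.derivative.eval f)) :
    f ∈ R := by
  classical
  let M := {z : A // z ∈ R ∧ q ∣ z}
  have : Finite M := Finite.of_injective (fun z : M => (⟨z.1, z.2.1⟩ : R)) (by
    intro z z' h
    apply Subtype.ext
    exact congrArg (fun x : R => (x : A)) h)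
  have hdv : ∀ z : M, q ∣ f0 + z.1 - f := by
    intro z
    have h : f0 + z.1 - f = z.1 - (f - f0) := by ring
    rw [h]
    exact dvd_sub z.2.2 hff
  have hun : ∀ z : M, IsUnit (P.derivative.eval (f0 + z.1)) := fun z =>
    unit_of_congr hq _ (hdv z) hd
  let φ : M → M := fun z => ⟨P.eval (f0 + z.1), eval_mem R P hP (R.add_mem hf0 z.2.1), by
    have h1 : q ∣ P.eval (f0 + z.1) - P.eval f :=
      (hdv z).trans (Polynomial.sub_dvd_eval_sub _ _ P)
    rwa [hf, sub_zero] at h1⟩
  have hinj : Function.Injective φ := by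
    intro z z' h
    have h1 : P.eval (f0 + z.1) = P.eval (f0 + z'.1) := congrArg (fun x : M => x.1) h
    have h2 : f0 + z.1 = f0 + z'.1 := by
      refine eq_of_eval hq P ?_ (hun z') h1
      have h : f0 + z.1 - (f0 + z'.1) = z.1 - z'.1 := by ring
      rw [h]
      exact dvd_sub z.2.2 z'.2.2
    exact Subtype.ext (add_left_cancel h2)
  have hsur : Function.Surjective φ := Finite.injective_iff_surjective.1 hinj
  obtain ⟨z, hz⟩ := hsur ⟨0, R.zero_mem, dvd_zero _⟩
  have hz0 : P.eval (f0 + z.1) = 0 := congrArg (fun x : M => x.1) hz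
  have h2 : f0 + z.1 = f := by
    refine eq_of_eval hq P (hdv z) hd ?_
    rw [hz0, hf]
  rw [← h2]
  exact R.add_mem hf0 z.2.1

end I_IFT

theorem IFT_pf : S_IFT := by
  intro q s κ R hqp hR f P hP hf hr hd
  obtain ⟨r, hr⟩ := hr
  have hq : IsNilpotent ((q : ℕ) : κ → ZMod (q ^ s)) := by
    refine ⟨s, ?_⟩
    rw [← Nat.cast_pow]
    funext i
    rw [Pi.natCast_apply, ZMod.natCast_self]
    rfl
  refine I_IFT.main R hR hq P hP _ ((r : ℤ) : κ → ZMod (q ^ s)) hf ?_ ?_ ?_
  · exact R.intCast_mem r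
  · choose c hc using hr
    refine ⟨fun i => ((c i : ℤ) : ZMod (q ^ s)), ?_⟩
    funext i
    have h := congrArg (fun z : ℤ => (z : ZMod (q ^ s))) (hc i)
    simpa using h
  · rw [Pi.isUnit_iff]
    exact hd

end Pool.Agent.Work.MP_e0c7e8_nt.BG
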