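import Pool.Agent.Work.MP_e0c7e8_nt.BG.Stmts

/-! Item IND: linear independence of the products `al^i be^j`. -/

set_option autoImplicit false

namespace Pool.Agent.Work.MP_e0c7e8_nt.BG

open Finset Polynomial

namespace I_IND

theorem prim (k : ℕ) (hk : 1 ≤ k) : ∃ ζ : RatFunc ℂ, IsPrimitiveRoot ζ k :=
  ⟨RatFunc.C (Complex.exp (2 * Real.pi * Complex.I / k)),
    (Complex.isPrimitiveRoot_exp k (by omega)).map_of_injective (RatFunc.C (K := ℂ)).injective⟩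

theorem tt_ne : (tt : Om) ≠ 0 := by
  unfold tt
  rw [Ne, map_eq_zero]
  exact RatFunc.X_ne_zero

theorem S_eq {P : Pt Om} {ν : ℂ} (h : P.S * tt = cc ν) :
    P.S = algebraMap (RatFunc ℂ) Om (RatFunc.C ν / RatFunc.X) := by
  rw [map_div₀]
  rw [eq_div_iff]
  · exact h
  · exact tt_ne

/-- The `k`-th power of a coordinate is rational. -/
theorem rat (k : ℕ) (a b c : ℤ) (ha : a ≠ 0) (x0 ν : ℂ) (P : Pt Om) (hT : P.T = tt)
    (hS : P.S * tt = cc ν) (hx : P.x = cc x0) (z : Om)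
    (h : (a : Om) ^ 2 * z ^ k = (b : Om) ^ 2 * P.T ^ k - (b : Om) * (c : Om) * P.x +
      (c : Om) ^ 2 * P.S ^ k) : ∃ r : RatFunc ℂ, z ^ k = algebraMap (RatFunc ℂ) Om r := by
  refine ⟨((b : RatFunc ℂ) ^ 2 * RatFunc.X ^ k - (b : RatFunc ℂ) * (c : RatFunc ℂ) *
    RatFunc.C x0 + (c : RatFunc ℂ) ^ 2 * (RatFunc.C ν / RatFunc.X) ^ k) / (a : RatFunc ℂ) ^ 2, ?_⟩
  have ha' : (a : Om) ^ 2 ≠ 0 := by
    apply pow_ne_zero
    exact_mod_cast ha
  rw [map_div₀, eq_div_iff, mul_comm]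
  · rw [map_pow, map_intCast, h, hT, hx, S_eq hS]
    simp only [map_add, map_sub, map_mul, map_pow, map_intCast, tt, cc]
  · rw [map_pow, map_intCast]
    exact ha'

end I_IND

theorem IND_pf (hB : S_BES) (hP : S_PRM) : S_IND := by
  intro k p x0 ν P hk hp hx0 hν hOn hT hS hx
  have hprm := hP k p x0 ν P hk hp hx0 hν hOn hT hS hx
  obtain ⟨r3, hr3⟩ := I_IND.rat k p.a p.b p.c hp.a x0 ν P hT hS hx P.al hOn.e3
  obtain ⟨r4, hr4⟩ := I_IND.rat k p.a p.b' p.c' hp.a x0 ν P hT hS hx P.be hOn.e4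
  have hal : ∀ i : ℕ, i < k → P.al ^ i ≠ 0 := by
    intro i hi
    rcases Nat.eq_zero_or_pos i with h0 | h0
    · rw [h0, pow_zero]
      exact one_ne_zero
    · apply pow_ne_zero
      intro h
      have h1 := hprm 1 0 0 0 0 (by omega) (by omega) (by omega) (by omega) (by
        rw [h, map_zero, pow_one, zero_mul, zero_mul])
      exact absurd h1.1 (by norm_num)
  have hbe : ∀ i : ℕ, i < k → P.be ^ i ≠ 0 := by
    intro i hi
    rcases Nat.eq_zero_or_pos i with h0 | h0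
    · rw [h0, pow_zero]
      exact one_ne_zero
    · apply pow_ne_zero
      intro h
      have h1 := hprm 0 1 0 0 0 (by omega) (by omega) (by omega) (by omega) (by
        rw [h, map_zero, pow_one, mul_zero, zero_mul])
      exact absurd h1.2 (by norm_num)
  apply hB (RatFunc ℂ) Om k hk (I_IND.prim k hk) (Fin k × Fin k)
  · intro u
    exact mul_ne_zero (hal _ u.1.2) (hbe _ u.2.2)
  · intro u
    refine ⟨r3 ^ (u.1 : ℕ) * r4 ^ (u.2 : ℕ), ?_⟩
    rw [map_mul, map_pow, map_pow, ← hr3, ← hr4, mul_pow, ← pow_mul, ← pow_mul, ← pow_mul,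
      ← pow_mul, mul_comm (u.1 : ℕ) k, mul_comm (u.2 : ℕ) k]
  · intro u v huv r h
    apply huv
    obtain ⟨h1, h2⟩ := hprm u.1 u.2 v.1 v.2 r u.1.2 u.2.2 v.1.2 v.2.2 h
    exact Prod.ext (Fin.ext h1) (Fin.ext h2)

end Pool.Agent.Work.MP_e0c7e8_nt.BG
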