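import Pool.Agent.Work.MP_e0c7e8_nt.BG.Stmts

/-!
# Item INR: in one class modulo `q` all monomials are in the ring of two functions

Note 3719 on MP_e0c7e8_nt.
-/

set_option autoImplicit false

namespace Pool.Agent.Work.MP_e0c7e8_nt.BG

open Finset Polynomial

namespace I_INR

/-- The reduction of an integer valued function. -/
def bar (m : ℕ) {κ : Type} (f : κ → ℤ) : κ → ZMod m := fun i => ((f i : ℤ) : ZMod m)

lemma bar_add (m : ℕ) {κ : Type} (f g : κ → ℤ) : bar m (f + g) = bar m f + bar m g := by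
  funext i
  simp [bar]

lemma bar_sub (m : ℕ) {κ : Type} (f g : κ → ℤ) : bar m (f - g) = bar m f - bar m g := by
  funext i
  simp [bar]

lemma bar_mul (m : ℕ) {κ : Type} (f g : κ → ℤ) : bar m (f * g) = bar m f * bar m g := by
  funext i
  simp [bar]

lemma bar_pow (m : ℕ) {κ : Type} (f : κ → ℤ) (n : ℕ) : bar m (f ^ n) = bar m f ^ n := by
  funext i
  simp [bar]

lemma bar_const (m : ℕ) {κ : Type} (c : ℤ) : bar m (fun _ : κ => c) = ((c : ℤ) : κ → ZMod m) := by
  funext i
  simp [bar]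

lemma unit_of_not_dvd {q s : ℕ} (hq : q.Prime) {z : ℤ} (hz : ¬ (q : ℤ) ∣ z) :
    IsUnit ((z : ℤ) : ZMod (q ^ s)) := by
  rw [ZMod.coe_int_isUnit_iff_isCoprime]
  push_cast
  refine IsCoprime.pow_left ?_
  have hp : Prime (q : ℤ) := Nat.prime_iff_prime_int.1 hq
  exact (hp.coprime_iff_not_dvd).2 hz

/-- Roots of `A Z^n = B`. -/
lemma root (hIFT : S_IFT) {q s : ℕ} {κ : Type} (R : Subalgebra (ZMod (q ^ s)) (κ → ZMod (q ^ s)))
    (hq : q.Prime) (hR : Finite R) (n : ℕ) (hn : 1 ≤ n) (hnq : n < q) (f A B : κ → ℤ) (r : ℤ)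
    (hA : bar (q ^ s) A ∈ R) (hB : bar (q ^ s) B ∈ R) (hAB : ∀ i, A i * f i ^ n = B i)
    (hqA : ∀ i, ¬ (q : ℤ) ∣ A i) (hqf : ∀ i, ¬ (q : ℤ) ∣ f i) (hr : ∀ i, (q : ℤ) ∣ f i - r) :
    bar (q ^ s) f ∈ R := by
  have hp : Prime (q : ℤ) := Nat.prime_iff_prime_int.1 hq
  refine hIFT q s κ R hq hR f (C (bar (q ^ s) A) * X ^ n - C (bar (q ^ s) B)) ?_ ?_ ⟨r, hr⟩ ?_
  · intro j
    rw [coeff_sub, coeff_C_mul, coeff_X_pow, coeff_C]
    refine R.sub_mem ?_ ?_
    · split_ifs
      · rw [mul_one]; exact hA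
      · rw [mul_zero]; exact R.zero_mem
    · split_ifs
      · exact hB
      · exact R.zero_mem
  · rw [eval_sub, eval_mul, eval_pow, eval_C, eval_C, eval_X]
    funext i
    have h := congrArg (fun z : ℤ => (z : ZMod (q ^ s))) (hAB i)
    simp only [Pi.sub_apply, Pi.mul_apply, Pi.pow_apply, Pi.zero_apply, bar]
    push_cast at h
    rw [h, sub_self]
  · intro i
    rw [derivative_sub, derivative_C_mul_X_pow, derivative_C, sub_zero, eval_mul, eval_pow, eval_X,
      eval_C]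
    have h : (bar (q ^ s) A * (n : κ → ZMod (q ^ s)) *
        (fun i => ((f i : ℤ) : ZMod (q ^ s))) ^ (n - 1)) i
        = ((A i * n * f i ^ (n - 1) : ℤ) : ZMod (q ^ s)) := by
      simp [bar]
    rw [h]
    refine unit_of_not_dvd hq ?_
    intro hd
    rcases hp.dvd_or_dvd hd with h1 | h1
    · rcases hp.dvd_or_dvd h1 with h2 | h2
      · exact hqA i h2
      · have h3 : q ∣ n := by exact_mod_cast h2
        exact absurd (Nat.le_of_dvd (by omega) h3) (by omega)
    · exact hqf i (hp.dvd_of_dvd_pow h1)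

end I_INR

open I_INR in
theorem INR_pf (hCD2 : S_CD2) (hIFT : S_IFT) : S_INR := by
  intro k q s p κ P P0 hk hq hkq hqa hOn hnd hcg u
  have hp : Prime (q : ℤ) := Nat.prime_iff_prime_int.1 hq
  set R := RS q s {fun i => (P i).T - P0.T, fun i => (P i).S - P0.S} with hRdef
  have hR : Finite R := (hCD2 q s κ _ _ hq.one_lt.le (fun i => ⟨(hcg i).1, (hcg i).2.1⟩)).1
  have hconst : ∀ c : ℤ, bar (q ^ s) (fun _ : κ => c) ∈ R := by
    intro c
    rw [bar_const]
    exact R.intCast_mem c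
  have hT : bar (q ^ s) (fun i => (P i).T) ∈ R := by
    have h1 : bar (q ^ s) (fun i => (P i).T - P0.T) ∈ R :=
      Algebra.subset_adjoin ⟨fun i => (P i).T - P0.T, by simp, rfl⟩
    have h2 := R.add_mem h1 (hconst P0.T)
    rw [← bar_add] at h2
    convert h2 using 2
    funext i
    simp
  have hS : bar (q ^ s) (fun i => (P i).S) ∈ R := by
    have h1 : bar (q ^ s) (fun i => (P i).S - P0.S) ∈ R :=
      Algebra.subset_adjoin ⟨fun i => (P i).S - P0.S, by simp, rfl⟩
    have h2 := R.add_mem h1 (hconst P0.S)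
    rw [← bar_add] at h2
    convert h2 using 2
    funext i
    simp
  have hx : bar (q ^ s) (fun i => (P i).x) ∈ R := by
    refine root hIFT R hq hR 2 (by norm_num) (by omega) (fun i => (P i).x) (fun _ => 1)
      (fun i => 4 * ((P i).T * (P i).S) ^ k - p.D * p.a ^ 2) P0.x (hconst 1) ?_ ?_ ?_ ?_ ?_
    · have h : (fun i => 4 * ((P i).T * (P i).S) ^ k - p.D * p.a ^ 2) =
          (fun _ : κ => (4 : ℤ)) * ((fun i => (P i).T) * (fun i => (P i).S)) ^ k -
            (fun _ : κ => (p.D * p.a ^ 2 : ℤ)) := by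
        funext i
        simp
      rw [h, bar_sub, bar_mul, bar_pow, bar_mul]
      exact R.sub_mem (R.mul_mem (hconst 4) (R.pow_mem (R.mul_mem hT hS) k)) (hconst _)
    · intro i
      have h := (hOn i).e0
      simp only [Int.cast_id] at h
      linear_combination h
    · intro i h
      have h1 : q ∣ 1 := by exact_mod_cast h
      exact hq.one_lt.ne' (Nat.dvd_one.1 h1)
    · exact fun i => (hnd i).1
    · exact fun i => (hcg i).2.2.1
  have hqa2 : ¬ (q : ℤ) ∣ p.a ^ 2 := fun h => hqa (hp.dvd_of_dvd_pow h)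
  have hal : bar (q ^ s) (fun i => (P i).al) ∈ R := by
    refine root hIFT R hq hR k hk (by omega) (fun i => (P i).al) (fun _ => p.a ^ 2)
      (fun i => p.b ^ 2 * (P i).T ^ k - p.b * p.c * (P i).x + p.c ^ 2 * (P i).S ^ k) P0.al
      (hconst _) ?_ ?_ (fun _ => hqa2) (fun i => (hnd i).2.1) (fun i => (hcg i).2.2.2.1)
    · have h : (fun i => p.b ^ 2 * (P i).T ^ k - p.b * p.c * (P i).x + p.c ^ 2 * (P i).S ^ k) =
          (fun _ : κ => p.b ^ 2) * (fun i => (P i).T) ^ k -
            (fun _ : κ => p.b * p.c) * (fun i => (P i).x) +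
            (fun _ : κ => p.c ^ 2) * (fun i => (P i).S) ^ k := by
        funext i
        simp
      rw [h, bar_add, bar_sub, bar_mul, bar_mul, bar_mul, bar_pow, bar_pow]
      exact R.add_mem (R.sub_mem (R.mul_mem (hconst _) (R.pow_mem hT k))
        (R.mul_mem (hconst _) hx)) (R.mul_mem (hconst _) (R.pow_mem hS k))
    · intro i
      have h := (hOn i).e3
      simp only [Int.cast_id] at h
      exact h
  have hbe : bar (q ^ s) (fun i => (P i).be) ∈ R := by
    refine root hIFT R hq hR k hk (by omega) (fun i => (P i).be) (fun _ => p.a ^ 2)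
      (fun i => p.b' ^ 2 * (P i).T ^ k - p.b' * p.c' * (P i).x + p.c' ^ 2 * (P i).S ^ k) P0.be
      (hconst _) ?_ ?_ (fun _ => hqa2) (fun i => (hnd i).2.2) (fun i => (hcg i).2.2.2.2)
    · have h : (fun i => p.b' ^ 2 * (P i).T ^ k - p.b' * p.c' * (P i).x + p.c' ^ 2 * (P i).S ^ k) =
          (fun _ : κ => p.b' ^ 2) * (fun i => (P i).T) ^ k -
            (fun _ : κ => p.b' * p.c') * (fun i => (P i).x) +
            (fun _ : κ => p.c' ^ 2) * (fun i => (P i).S) ^ k := by
        funext i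
        simp
      rw [h, bar_add, bar_sub, bar_mul, bar_mul, bar_mul, bar_pow, bar_pow]
      exact R.add_mem (R.sub_mem (R.mul_mem (hconst _) (R.pow_mem hT k))
        (R.mul_mem (hconst _) hx)) (R.mul_mem (hconst _) (R.pow_mem hS k))
    · intro i
      have h := (hOn i).e4
      simp only [Int.cast_id] at h
      exact h
  have hu : (fun i => ((mo u (P i) : ℤ) : ZMod (q ^ s))) =
      bar (q ^ s) (fun i => (P i).T) ^ u.1 * bar (q ^ s) (fun i => (P i).S) ^ u.2.1 *
      bar (q ^ s) (fun i => (P i).x) ^ u.2.2.1 * bar (q ^ s) (fun i => (P i).al) ^ u.2.2.2.1 *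
      bar (q ^ s) (fun i => (P i).be) ^ u.2.2.2.2 := by
    funext i
    simp [mo, bar]
  rw [hu]
  exact R.mul_mem (R.mul_mem (R.mul_mem (R.mul_mem (R.pow_mem hT _) (R.pow_mem hS _))
    (R.pow_mem hx _)) (R.pow_mem hal _)) (R.pow_mem hbe _)

end Pool.Agent.Work.MP_e0c7e8_nt.BG
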