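import Pool.Agent.Work.MP_e0c7e8_nt.BG.Stmts

/-!
Block BG of MP_e0c7e8_nt, item MS: the Mason-Stothers step.
-/

set_option autoImplicit false

namespace Pool.Agent.Work.MP_e0c7e8_nt.BG

open Finset Polynomial

namespace I_MS

/-- The polynomial statement. -/
theorem polys (k : ℕ) (hk : 4 ≤ k) (δ : ℚ) (hδ : δ ≠ 0) (P Q U V : ℚ[X]) (hQ : Q.Monic)
    (hV : V.Monic) (hPQ : IsCoprime P Q) (hUV : IsCoprime U V) (hU0 : U ≠ 0)
    (h : P ^ 2 * V ^ k + C δ * Q ^ 2 * V ^ k = 4 * U ^ k * Q ^ 2) :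
    U.natDegree = 0 ∧ V.natDegree = 0 := by
  have hk0 : k ≠ 0 := by omega
  have h4 : IsUnit (4 : ℚ[X]) := by
    have : (4 : ℚ[X]) = C 4 := rfl
    rw [this]
    exact Polynomial.isUnit_C.2 (by norm_num)
  have hUVk : IsCoprime (U ^ k) (V ^ k) := hUV.pow
  have c1 : IsCoprime (V ^ k) (4 * U ^ k - C δ * V ^ k) := by
    have e : 4 * U ^ k - C δ * V ^ k = 4 * U ^ k + V ^ k * (- C δ) := by ring
    rw [e]
    apply IsCoprime.add_mul_left_right
    exact (isCoprime_mul_unit_left_right h4 _ _).2 hUVk.symm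
  have e1 : P ^ 2 * V ^ k = Q ^ 2 * (4 * U ^ k - C δ * V ^ k) := by
    linear_combination h
  have d1 : V ^ k ∣ Q ^ 2 := by
    refine c1.dvd_of_dvd_mul_right ?_
    rw [← e1]
    exact dvd_mul_left _ _
  have d2 : Q ^ 2 ∣ V ^ k := by
    have c2 : IsCoprime (Q ^ 2) (P ^ 2) := hPQ.symm.pow
    refine c2.dvd_of_dvd_mul_left ?_
    rw [e1]
    exact dvd_mul_right _ _
  have e2 : Q ^ 2 = V ^ k :=
    eq_of_monic_of_associated (hQ.pow 2) (hV.pow k) (associated_of_dvd_dvd d2 d1)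
  have hVk : V ^ k ≠ 0 := pow_ne_zero _ hV.ne_zero
  have e3 : P ^ 2 = 4 * U ^ k - C δ * V ^ k := by
    rw [e2, mul_comm] at e1
    exact mul_left_cancel₀ hVk e1
  by_cases hP : P = 0
  · rw [hP, zero_pow two_ne_zero] at e3
    have e4 : 4 * U ^ k = C δ * V ^ k := by linear_combination -e3
    have hδu : IsUnit (C δ : ℚ[X]) := Polynomial.isUnit_C.2 hδ.isUnit
    have u1 : V ^ k ∣ U ^ k := by
      refine (IsUnit.dvd_mul_left h4).1 ?_
      rw [e4]
      exact dvd_mul_left _ _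
    have u2 : U ^ k ∣ V ^ k := by
      refine (IsUnit.dvd_mul_left hδu).1 ?_
      rw [← e4]
      exact dvd_mul_left _ _
    have i1 : IsUnit (V ^ k) := hUVk.symm.isUnit_of_dvd' dvd_rfl u1
    have i2 : IsUnit (U ^ k) := hUVk.isUnit_of_dvd' dvd_rfl u2
    exact ⟨Polynomial.natDegree_eq_zero_of_isUnit ((isUnit_pow_iff hk0).1 i2),
      Polynomial.natDegree_eq_zero_of_isUnit ((isUnit_pow_iff hk0).1 i1)⟩
  · have e5 : C δ * V ^ k + C (-4) * U ^ k + C 1 * P ^ 2 = 0 := by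
      rw [e3]
      have : (C (-4) : ℚ[X]) = -4 := by
        rw [map_neg]; rfl
      rw [this, map_one]
      ring
    have hkq : (k : ℚ) ≠ 0 := by exact_mod_cast hk0
    obtain ⟨a1, a2, _⟩ := Polynomial.flt_catalan (p := k) (q := k) (r := 2) hk0 hk0 two_ne_zero
      (by nlinarith) hkq hkq (by norm_num) hV.ne_zero hU0 hP hUV.symm hδ
      (by norm_num : (-4 : ℚ) ≠ 0) one_ne_zero e5
    exact ⟨a2, a1⟩

end I_MS

open I_MS in
theorem MS_pf : S_MS := by
  intro k hk δ ξ r hδ h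
  by_cases hr : r = 0
  · exact ⟨0, by rw [hr, map_zero]⟩
  have hU0 : r.num ≠ 0 := RatFunc.num_ne_zero hr
  have inj := RatFunc.algebraMap_injective ℚ
  have hQ0 : algebraMap ℚ[X] (RatFunc ℚ) ξ.denom ≠ 0 := by
    intro h0
    rw [← map_zero (algebraMap ℚ[X] (RatFunc ℚ))] at h0
    exact ξ.denom_ne_zero (inj h0)
  have hV0 : algebraMap ℚ[X] (RatFunc ℚ) r.denom ≠ 0 := by
    intro h0
    rw [← map_zero (algebraMap ℚ[X] (RatFunc ℚ))] at h0
    exact r.denom_ne_zero (inj h0)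
  have e : ξ.num ^ 2 * r.denom ^ k + C δ * ξ.denom ^ 2 * r.denom ^ k =
      4 * r.num ^ k * ξ.denom ^ 2 := by
    apply inj
    rw [← RatFunc.num_div_denom ξ, ← RatFunc.num_div_denom r, ← RatFunc.algebraMap_C] at h
    rw [RatFunc.num_div_denom ξ, RatFunc.num_div_denom r] at h
    have h1 : ξ = algebraMap _ _ ξ.num / algebraMap _ _ ξ.denom := (RatFunc.num_div_denom ξ).symm
    have h2 : r = algebraMap _ _ r.num / algebraMap _ _ r.denom := (RatFunc.num_div_denom r).symm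
    have h3 : (algebraMap ℚ[X] (RatFunc ℚ) ξ.num / algebraMap _ _ ξ.denom) ^ 2 +
        algebraMap _ _ (C δ) = 4 * (algebraMap _ _ r.num / algebraMap _ _ r.denom) ^ k := by
      rw [← h1, ← h2]; exact h
    rw [div_pow, div_pow] at h3
    field_simp at h3
    simp only [map_add, map_mul, map_pow, map_ofNat]
    linear_combination h3
  obtain ⟨u, v⟩ := polys k hk δ hδ _ _ _ _ ξ.monic_denom r.monic_denom ξ.isCoprime_num_denom
    r.isCoprime_num_denom hU0 e
  have v1 : r.denom = 1 := Polynomial.eq_one_of_monic_natDegree_zero r.monic_denom v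
  refine ⟨r.num.coeff 0, ?_⟩
  rw [← RatFunc.algebraMap_C, ← Polynomial.eq_C_of_natDegree_eq_zero u]
  have h2 := (RatFunc.num_div_denom r).symm
  rw [v1, map_one, div_one] at h2
  exact h2

end Pool.Agent.Work.MP_e0c7e8_nt.BG
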