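import Pool.Agent.Work.MP_e0c7e8_nt.BG.Stmts

/-!
# [e0c7e8 BG NUA]: the numerical condition of the box principle
-/

set_option autoImplicit false

namespace Pool.Agent.Work.MP_e0c7e8_nt.BG

open Finset Polynomial

namespace I_NUA

theorem sum1 : ∀ m N : ℕ, m ≤ N → 2 * ∑ j ∈ range (N + 1), (m - j) = m * (m + 1) := by
  intro m
  induction m with
  | zero => intro N _; simp
  | succ m ih =>
    intro N hN
    obtain ⟨N', rfl⟩ : ∃ N', N = N' + 1 := ⟨N - 1, by omega⟩
    rw [Finset.sum_range_succ']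
    have h : ∀ j ∈ range (N' + 1), m + 1 - (j + 1) = m - j := fun j _ => by omega
    rw [Finset.sum_congr rfl h, mul_add, ih N' (by omega), Nat.sub_zero]
    ring

theorem sum2 : ∀ n N : ℕ, n ≤ N →
    3 * ∑ i ∈ range (N + 1), (n - i) * (n - i + 1) = n * (n + 1) * (n + 2) := by
  intro n
  induction n with
  | zero => intro N _; simp
  | succ n ih =>
    intro N hN
    obtain ⟨N', rfl⟩ : ∃ N', N = N' + 1 := ⟨N - 1, by omega⟩
    rw [Finset.sum_range_succ']
    have h : ∀ j ∈ range (N' + 1), (n + 1 - (j + 1)) * (n + 1 - (j + 1) + 1) =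
        (n - j) * (n - j + 1) := fun j _ => by rw [Nat.add_sub_add_right]
    rw [Finset.sum_congr rfl h, mul_add, ih N' (by omega), Nat.sub_zero]
    ring

theorem sum3 (n : ℕ) :
    6 * ∑ i ∈ range (n + 1), ∑ j ∈ range (n + 1), (n - (i + j)) = n * (n + 1) * (n + 2) := by
  have h : ∀ i ∈ range (n + 1), 2 * ∑ j ∈ range (n + 1), (n - (i + j)) =
      (n - i) * (n - i + 1) := by
    intro i _
    rw [← sum1 (n - i) n (Nat.sub_le _ _)]
    congr 1
    exact Finset.sum_congr rfl fun j _ => by omega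
  rw [show (6 : ℕ) = 3 * 2 from rfl, mul_assoc, Finset.mul_sum, Finset.sum_congr rfl h,
    sum2 n n le_rfl]

/-- The exponent sum over the box. -/
theorem sum4 (n : ℕ) : 6 * ∑ u ∈ range (n + 1) ×ˢ range (n + 1) ×ˢ range 2 ×ˢ range 5 ×ˢ range 5,
    (n - (u.1 + u.2.1)) = 50 * (n * (n + 1) * (n + 2)) := by
  rw [Finset.sum_product]
  simp only [Finset.sum_product, Finset.sum_const, Finset.card_product, Finset.card_range,
    smul_eq_mul]
  rw [← sum3 n, Finset.mul_sum, Finset.mul_sum, Finset.mul_sum]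
  apply Finset.sum_congr rfl
  intro i _
  simp only [Finset.mul_sum]
  apply Finset.sum_congr rfl
  intro j _
  ring

theorem prod_le (k B n : ℕ) (hB : 1 ≤ B) :
    ∏ u ∈ range (n + 1) ×ˢ range (n + 1) ×ˢ range 2 ×ˢ range 5 ×ˢ range 5,
      B ^ (n - (u.1 + u.2.1)) ≤ ∏ u ∈ WB k (n + k + 8), (B ^ (n + k + 8 - wt k u) + 1) := by
  classical
  have h1 : ∏ u ∈ (range (n + 1) ×ˢ range (n + 1) ×ˢ range 2 ×ˢ range 5 ×ˢ range 5).filter
      (fun u => u.1 + u.2.1 ≤ n), B ^ (n - (u.1 + u.2.1)) =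
      ∏ u ∈ range (n + 1) ×ˢ range (n + 1) ×ˢ range 2 ×ˢ range 5 ×ˢ range 5,
      B ^ (n - (u.1 + u.2.1)) := by
    apply Finset.prod_subset (Finset.filter_subset _ _)
    intro u hu hu'
    have : ¬ (u.1 + u.2.1 ≤ n) := fun h => hu' (Finset.mem_filter.2 ⟨hu, h⟩)
    rw [show n - (u.1 + u.2.1) = 0 by omega, pow_zero]
  rw [← h1]
  refine le_trans (Finset.prod_le_prod' (g := fun u => B ^ (n + k + 8 - wt k u) + 1) ?_)
    (Finset.prod_le_prod_of_subset_of_one_le' ?_ ?_)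
  · intro u hu
    simp only [Finset.mem_filter, Finset.mem_product, Finset.mem_range] at hu
    obtain ⟨⟨h1, h2, h3, h4, h5⟩, h6⟩ := hu
    have h7 : k * u.2.2.1 ≤ k := by
      calc k * u.2.2.1 ≤ k * 1 := Nat.mul_le_mul_left _ (by omega)
        _ = k := mul_one k
    refine le_trans (Nat.pow_le_pow_right hB ?_) (Nat.le_succ _)
    unfold wt
    omega
  · intro u hu
    simp only [Finset.mem_filter, Finset.mem_product, Finset.mem_range] at hu
    obtain ⟨⟨h1, h2, h3, h4, h5⟩, h6⟩ := hu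
    have h7 : k * u.2.2.1 ≤ k := by
      calc k * u.2.2.1 ≤ k * 1 := Nat.mul_le_mul_left _ (by omega)
        _ = k := mul_one k
    unfold WB Box wt
    simp only [Finset.mem_filter, Finset.mem_product, Finset.mem_range]
    refine ⟨⟨by omega, by omega, h3, h4, h5⟩, by omega⟩
  · intro u _ _
    exact Nat.le_add_left _ _

theorem aux (E S X Y Z : ℕ) (h1 : 6 * E ≤ X) (h2 : 6 * S = 50 * Y)
    (h3 : 5000 * Y = 18 * X + 6 + Z) : 18 * E + 1 ≤ 100 * S := by
  omega

theorem num (k E S : ℕ) (hk : 5 ≤ k)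
    (hE : 6 * E ≤ 300 * k * (300 * k + 1) * (300 * k + 2))
    (hS : 6 * S = 50 * ((53 * k - 9) * (53 * k - 9 + 1) * (53 * k - 9 + 2))) :
    18 * E + 1 ≤ 100 * S := by
  obtain ⟨j, rfl⟩ : ∃ j, k = j + 5 := ⟨k - 5, by omega⟩
  have e1 : 53 * (j + 5) - 9 = 53 * j + 256 := by omega
  rw [e1] at hS
  have h2 : 5000 * ((53 * j + 256) * (53 * j + 256 + 1) * (53 * j + 256 + 2)) =
      18 * (300 * (j + 5) * (300 * (j + 5) + 1) * (300 * (j + 5) + 2)) + 6 +
        (258385000 * j ^ 3 + 3533835000 * j ^ 2 + 16010079200 * j + 24000125994) := by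
    ring
  exact aux E S _ _ _ hE hS h2

end I_NUA

open I_NUA in
theorem NUA_pf : S_NUA := by
  intro k hk
  refine ⟨54 * k - 1, 300 * k, by omega, fun C => ?_⟩
  set E : ℕ := 300 * k * (300 * k + 1) * (300 * k + 2) / 6 with hE
  refine ⟨C + C ^ E + 1, fun B q hB h1 h2 => ?_⟩
  have hB1 : 1 ≤ B := by omega
  have hBC : C ≤ B := by
    have := Nat.zero_le (C ^ E)
    omega
  have hBE : C ^ E < B := by omega
  constructor
  · calc C * B ^ (54 * k - 1) ≤ B * B ^ (54 * k - 1) := Nat.mul_le_mul_right _ hBC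
      _ = B ^ (54 * k) := by
        rw [← pow_succ']
        congr 1
        omega
      _ = (B ^ 18) ^ (3 * k) := by
        rw [← pow_mul]
        congr 1
        omega
      _ < (q ^ 100) ^ (3 * k) := Nat.pow_lt_pow_left h1 (by omega)
      _ = q ^ (300 * k) := by
        rw [← pow_mul]
        congr 1
        omega
  · set n : ℕ := 53 * k - 9 with hn
    have e1 : 54 * k - 1 = n + k + 8 := by omega
    rw [e1]
    refine lt_of_lt_of_le ?_ (prod_le k B n hB1)
    rw [Finset.prod_pow_eq_pow_sum]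
    set S : ℕ := ∑ u ∈ range (n + 1) ×ˢ range (n + 1) ×ˢ range 2 ×ˢ range 5 ×ˢ range 5,
      (n - (u.1 + u.2.1)) with hS
    have hS6 : 6 * S = 50 * (n * (n + 1) * (n + 2)) := sum4 n
    have hE6 : 6 * E ≤ 300 * k * (300 * k + 1) * (300 * k + 2) := Nat.mul_div_le _ _
    have h3 : 18 * E + 1 ≤ 100 * S := num k E S hk hE6 hS6
    apply lt_of_pow_lt_pow_left₀ 100 (Nat.zero_le _)
    calc (q ^ E) ^ 100 = (q ^ 100) ^ E := by rw [← pow_mul, ← pow_mul, mul_comm]
      _ ≤ (C * B ^ 18) ^ E := Nat.pow_le_pow_left h2 E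
      _ = C ^ E * B ^ (18 * E) := by rw [mul_pow, ← pow_mul]
      _ < B * B ^ (18 * E) := Nat.mul_lt_mul_of_pos_right hBE (pow_pos hB1 _)
      _ = B ^ (18 * E + 1) := (pow_succ' B _).symm
      _ ≤ B ^ (100 * S) := Nat.pow_le_pow_right hB1 h3
      _ = (B ^ S) ^ 100 := by rw [← pow_mul, mul_comm]

end Pool.Agent.Work.MP_e0c7e8_nt.BG
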