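import Pool.Agent.Work.MP_e0c7e8_nt.BG.Stmts

/-!
# Item NV: a formal combination does not vanish at most of the points
-/

set_option autoImplicit false

namespace Pool.Agent.Work.MP_e0c7e8_nt.BG

open Finset Polynomial

namespace I_NV

/-- the ring homomorphism of the constants -/
noncomputable def ccH : ℂ →+* Om := (algebraMap (RatFunc ℂ) Om).comp RatFunc.C

theorem cc_eq (z : ℂ) : cc z = ccH z := rfl

/-- the embedding of the polynomials -/
noncomputable def pH : ℂ[X] →+* Om :=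
  (algebraMap (RatFunc ℂ) Om).comp (algebraMap ℂ[X] (RatFunc ℂ))

theorem pH_C (z : ℂ) : pH (C z) = cc z := by
  simp [pH, cc, RatFunc.algebraMap_C]

theorem pH_X : pH X = tt := by
  simp [pH, tt, RatFunc.algebraMap_X]

theorem tt_ne : tt ≠ 0 := by
  unfold tt
  rw [Ne, map_eq_zero_iff _ (algebraMap (RatFunc ℂ) Om).injective]
  exact RatFunc.X_ne_zero

/-- the abscissa of a point is a purely imaginary constant -/
theorem x_const {k : ℕ} {p : Co} {ν : ℚ} (h4 : 4 * ν ^ k < p.D * p.a ^ 2) {P : Pt Om}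
    (hP : On k p P) (hT : P.T = tt) (hS : P.S * tt = (ν : Om)) :
    ∃ r : ℝ, r ≠ 0 ∧ P.x = cc (Complex.I * r) := by
  have hδ : 0 < ((p.D : ℝ) * (p.a : ℝ) ^ 2 - 4 * (ν : ℝ) ^ k) := by
    have : (4 * (ν : ℝ) ^ k) < (p.D : ℝ) * (p.a : ℝ) ^ 2 := by exact_mod_cast h4
    linarith
  set δ : ℝ := (p.D : ℝ) * (p.a : ℝ) ^ 2 - 4 * (ν : ℝ) ^ k with hδd
  have hsq : √δ ^ 2 = δ := Real.sq_sqrt hδ.le
  have hr : √δ ≠ 0 := (Real.sqrt_pos.2 hδ).ne'
  have h0 := hP.e0
  have hTS : P.T * P.S = (ν : Om) := by rw [hT, mul_comm]; exact hS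
  rw [hTS] at h0
  have hc : cc (Complex.I * (√δ : ℝ)) ^ 2 = 4 * (ν : Om) ^ k - (p.D : Om) * (p.a : Om) ^ 2 := by
    rw [cc_eq, ← map_pow]
    have h5 : (Complex.I * ((√δ : ℝ) : ℂ)) ^ 2 =
        4 * (ν : ℂ) ^ k - (p.D : ℂ) * (p.a : ℂ) ^ 2 := by
      rw [mul_pow, Complex.I_sq, ← Complex.ofReal_pow, hsq, hδd]
      push_cast
      ring
    rw [h5]
    simp only [map_sub, map_mul, map_pow, map_ofNat, map_intCast, map_ratCast]
  have h6 : (P.x - cc (Complex.I * (√δ : ℝ))) * (P.x + cc (Complex.I * (√δ : ℝ))) = 0 := by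
    have : (P.x - cc (Complex.I * (√δ : ℝ))) * (P.x + cc (Complex.I * (√δ : ℝ))) =
      P.x ^ 2 - cc (Complex.I * (√δ : ℝ)) ^ 2 := by ring
    rw [this, hc]
    linear_combination h0
  rcases mul_eq_zero.1 h6 with h7 | h7
  · exact ⟨√δ, hr, sub_eq_zero.1 h7⟩
  · refine ⟨-√δ, neg_ne_zero.2 hr, ?_⟩
    have h8 : P.x = -cc (Complex.I * (√δ : ℝ)) := eq_neg_of_add_eq_zero_left h7
    rw [h8, cc_eq, cc_eq, ← map_neg]
    congr 1
    push_cast
    ring

/-- the residue of the two last exponents -/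
def gk {k : ℕ} (hk : 1 ≤ k) (u : Ix) : Fin k × Fin k :=
  (⟨u.2.2.2.1 % k, Nat.mod_lt _ hk⟩, ⟨u.2.2.2.2 % k, Nat.mod_lt _ hk⟩)

theorem gk_congr {k : ℕ} (hk : 1 ≤ k) {u v : Ix} (h : u.2.2 = v.2.2) : gk hk u = gk hk v := by
  have h1 : u.2.2.2.1 = v.2.2.2.1 := by rw [h]
  have h2 : u.2.2.2.2 = v.2.2.2.2 := by rw [h]
  refine Prod.ext (Fin.ext ?_) (Fin.ext ?_)
  · simp [gk, h1]
  · simp [gk, h2]

/-- the polynomial coefficient -/
noncomputable def G {k : ℕ} (hk : 1 ≤ k) (m : ℕ) (F : Ix →₀ ℚ) (ν : ℚ) (x0 : ℂ)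
    (v : Fin k × Fin k) : ℂ[X] :=
  ∑ u ∈ F.support with gk hk u = v,
    C ((F u : ℂ) * (ν : ℂ) ^ u.2.1 * x0 ^ u.2.2.1) * X ^ (u.1 + (m - u.2.1))

theorem ev_eq {k : ℕ} (hk : 1 ≤ k) {m : ℕ} {F : Ix →₀ ℚ} (hF : F.support ⊆ Box k m) {ν : ℚ}
    {x0 : ℂ} {P : Pt Om} (hT : P.T = tt) (hS : P.S * tt = (ν : Om)) (hx : P.x = cc x0) :
    tt ^ m * ev F P =
      ∑ v : Fin k × Fin k, pH (G hk m F ν x0 v) * (P.al ^ (v.1 : ℕ) * P.be ^ (v.2 : ℕ)) := by
  have h1 : ∀ u ∈ F.support, tt ^ m * ((F u : Om) * mo u P) =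
      pH (C ((F u : ℂ) * (ν : ℂ) ^ u.2.1 * x0 ^ u.2.2.1) * X ^ (u.1 + (m - u.2.1))) *
        (P.al ^ ((gk hk u).1 : ℕ) * P.be ^ ((gk hk u).2 : ℕ)) := by
    intro u hu
    have hb := hF hu
    simp only [Box, mem_product, mem_range] at hb
    obtain ⟨-, hj, -, hc, hc'⟩ := hb
    have e1 : ((gk hk u).1 : ℕ) = u.2.2.2.1 := Nat.mod_eq_of_lt hc
    have e2 : ((gk hk u).2 : ℕ) = u.2.2.2.2 := Nat.mod_eq_of_lt hc'
    have e3 : tt ^ m = tt ^ u.2.1 * tt ^ (m - u.2.1) := by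
      rw [← pow_add]
      congr 1
      omega
    rw [e1, e2, map_mul, map_pow, pH_X, pH_C, cc_eq]
    simp only [map_mul, map_pow, map_ratCast]
    rw [← cc_eq, ← hx, mo, hT, e3, ← hS, mul_pow, pow_add]
    ring
  unfold ev
  rw [Finsupp.sum, Finset.mul_sum, Finset.sum_congr rfl h1,
    ← Finset.sum_fiberwise F.support (gk hk)]
  refine Finset.sum_congr rfl fun v _ => ?_
  unfold G
  rw [map_sum, Finset.sum_mul]
  refine Finset.sum_congr rfl fun u hu => ?_
  rw [(Finset.mem_filter.1 hu).2]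

/-- the set of the exponents on a line -/
def Sl (m : ℕ) (F : Ix →₀ ℚ) (u0 : Ix) : Finset Ix :=
  F.support.filter fun u => u.2.2 = u0.2.2 ∧ u.1 + (m - u.2.1) = u0.1 + (m - u0.2.1)

/-- the polynomial in `ν` -/
noncomputable def Q (m : ℕ) (F : Ix →₀ ℚ) (u0 : Ix) : ℚ[X] :=
  ∑ u ∈ Sl m F u0, C (F u) * X ^ u.2.1

theorem Q_ne {k m : ℕ} {F : Ix →₀ ℚ} (hF : F.support ⊆ Box k m) {u0 : Ix}
    (h0 : u0 ∈ F.support) : Q m F u0 ≠ 0 := by
  intro h
  have h1 : (Q m F u0).coeff u0.2.1 = F u0 := by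
    unfold Q
    rw [finsetSum_coeff]
    rw [Finset.sum_eq_single u0]
    · simp
    · intro u hu hne
      rw [coeff_C_mul, coeff_X_pow, if_neg, mul_zero]
      intro hj
      apply hne
      obtain ⟨hu1, hu2, hu3⟩ := Finset.mem_filter.1 hu
      have hb := hF hu1
      have hb0 := hF h0
      simp only [Box, mem_product, mem_range] at hb hb0
      have : u.1 = u0.1 := by omega
      exact Prod.ext this (Prod.ext hj.symm hu2)
    · intro hn
      exact absurd (Finset.mem_filter.2 ⟨h0, rfl, rfl⟩) hn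
  rw [h, coeff_zero] at h1
  exact (Finsupp.mem_support_iff.1 h0) h1.symm

theorem coeff_G {k : ℕ} (hk : 1 ≤ k) (m : ℕ) (F : Ix →₀ ℚ) (ν : ℚ) (x0 : ℂ)
    (v : Fin k × Fin k) (n : ℕ) : (G hk m F ν x0 v).coeff n =
    ∑ u ∈ F.support with (gk hk u = v ∧ u.1 + (m - u.2.1) = n),
      (F u : ℂ) * (ν : ℂ) ^ u.2.1 * x0 ^ u.2.2.1 := by
  unfold G
  rw [finsetSum_coeff, ← Finset.filter_filter,
    Finset.sum_filter (fun u : Ix => u.1 + (m - u.2.1) = n)]
  refine Finset.sum_congr rfl fun u _ => ?_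
  rw [coeff_C_mul, coeff_X_pow]
  by_cases h : u.1 + (m - u.2.1) = n
  · rw [if_pos h, if_pos h.symm, mul_one]
  · rw [if_neg h, if_neg (fun h' => h h'.symm), mul_zero]

end I_NV

open I_NV in
/-- **NV** -/
theorem NV_pf (hI : S_IND) : S_NV := by
  classical
  intro k p m F hk hp hF0 hF
  obtain ⟨u0, hu0⟩ := Finsupp.support_nonempty_iff.2 hF0
  refine ⟨(Q m F u0).roots.toFinset, ?_⟩
  intro ν hν h4 hZ P hP hT hS hev
  obtain ⟨r, hr, hx⟩ := x_const h4 hP hT hS
  have hx0 : Complex.I * (r : ℂ) ≠ 0 :=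
    mul_ne_zero Complex.I_ne_zero (Complex.ofReal_ne_zero.2 hr)
  have hν' : (ν : ℂ) ≠ 0 := by exact_mod_cast hν.ne'
  have hS' : P.S * tt = cc (ν : ℂ) := by rw [hS, cc_eq, map_ratCast]
  have hli := hI k p (Complex.I * r) ν P hk hp hx0 hν' hP hT hS' hx
  have hsum := ev_eq hk hF hT hS hx
  rw [hev, mul_zero] at hsum
  rw [Fintype.linearIndependent_iff] at hli
  have hG : ∀ v, G hk m F ν (Complex.I * r) v = 0 := by
    intro v
    have := hli (fun v => algebraMap ℂ[X] (RatFunc ℂ) (G hk m F ν (Complex.I * r) v)) (by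
      rw [hsum]
      refine Finset.sum_congr rfl fun v _ => ?_
      rw [Algebra.smul_def]
      rfl) v
    exact (map_eq_zero_iff _ (RatFunc.algebraMap_injective ℂ)).1 this
  have hc : (G hk m F ν (Complex.I * r) (gk hk u0)).coeff (u0.1 + (m - u0.2.1)) = 0 := by
    rw [hG, coeff_zero]
  rw [coeff_G] at hc
  -- the evaluation of `Q`
  have hQ : (Q m F u0).eval ν = 0 := by
    have hb0 := hF hu0
    simp only [Box, mem_product, mem_range] at hb0
    have hQ1 : (Q m F u0).eval ν = ∑ u ∈ F.support with (gk hk u = gk hk u0 ∧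
        u.1 + (m - u.2.1) = u0.1 + (m - u0.2.1)),
        if u.2.2.1 = u0.2.2.1 then F u * ν ^ u.2.1 else 0 := by
      unfold Q
      rw [eval_finsetSum, ← Finset.sum_filter]
      refine Finset.sum_congr ?_ fun u _ => by simp
      ext u
      simp only [Sl, mem_filter]
      constructor
      · rintro ⟨h1, h2, h3⟩
        exact ⟨⟨h1, gk_congr hk h2, h3⟩, by rw [h2]⟩
      · rintro ⟨⟨h1, h2, h3⟩, h5⟩
        have hb := hF h1
        simp only [Box, mem_product, mem_range] at hb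
        refine ⟨h1, ?_, h3⟩
        have h6 := congrArg (fun z : Fin k × Fin k => (z.1 : ℕ)) h2
        have h7 := congrArg (fun z : Fin k × Fin k => (z.2 : ℕ)) h2
        simp only [gk] at h6 h7
        rw [Nat.mod_eq_of_lt hb.2.2.2.1, Nat.mod_eq_of_lt hb0.2.2.2.1] at h6
        rw [Nat.mod_eq_of_lt hb.2.2.2.2, Nat.mod_eq_of_lt hb0.2.2.2.2] at h7
        exact Prod.ext h5 (Prod.ext h6 h7)
    have he : ∀ u ∈ F.support.filter (fun u => gk hk u = gk hk u0 ∧
        u.1 + (m - u.2.1) = u0.1 + (m - u0.2.1)), u.2.2.1 = 0 ∨ u.2.2.1 = 1 := by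
      intro u hu
      have hb := hF (Finset.mem_filter.1 hu).1
      simp only [Box, mem_product, mem_range] at hb
      omega
    have he0 : u0.2.2.1 = 0 ∨ u0.2.2.1 = 1 := by omega
    have hcast : ((((Q m F u0).eval ν : ℚ) : ℝ)) = 0 := by
      rw [hQ1]
      rcases he0 with h0 | h0
      · have := congrArg Complex.re hc
        rw [Complex.re_sum, Complex.zero_re] at this
        rw [← this]
        push_cast
        refine Finset.sum_congr rfl fun u hu => ?_
        rcases he u hu with h1 | h1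
        · rw [h1, h0, if_pos rfl, pow_zero, mul_one]
          have : ((F u : ℂ) * (ν : ℂ) ^ u.2.1) = (((F u : ℝ) * (ν : ℝ) ^ u.2.1 : ℝ) : ℂ) := by
            push_cast
            rfl
          rw [this, Complex.ofReal_re]
          push_cast
          rfl
        · rw [h1, h0, if_neg one_ne_zero, pow_one]
          have : ((F u : ℂ) * (ν : ℂ) ^ u.2.1) * (Complex.I * (r : ℂ)) =
              (((F u : ℝ) * (ν : ℝ) ^ u.2.1 * r : ℝ) : ℂ) * Complex.I := by
            push_cast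
            ring
          rw [this, Complex.re_ofReal_mul, Complex.I_re, mul_zero]
          exact Rat.cast_zero
      · have := congrArg Complex.im hc
        rw [Complex.im_sum, Complex.zero_im] at this
        have h9 : (r : ℝ) * ((∑ u ∈ F.support with (gk hk u = gk hk u0 ∧
          u.1 + (m - u.2.1) = u0.1 + (m - u0.2.1)),
          if u.2.2.1 = u0.2.2.1 then F u * ν ^ u.2.1 else 0 : ℚ) : ℝ) = 0 := by
          rw [← this]
          push_cast
          rw [Finset.mul_sum]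
          refine Finset.sum_congr rfl fun u hu => ?_
          rcases he u hu with h1 | h1
          · rw [h1, h0, if_neg zero_ne_one, pow_zero, mul_one, Rat.cast_zero, mul_zero]
            have : ((F u : ℂ) * (ν : ℂ) ^ u.2.1) = (((F u : ℝ) * (ν : ℝ) ^ u.2.1 : ℝ) : ℂ) := by
              push_cast
              rfl
            rw [this, Complex.ofReal_im]
          · rw [h1, h0, if_pos rfl, pow_one]
            have : ((F u : ℂ) * (ν : ℂ) ^ u.2.1) * (Complex.I * (r : ℂ)) =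
                (((F u : ℝ) * (ν : ℝ) ^ u.2.1 * r : ℝ) : ℂ) * Complex.I := by
              push_cast
              ring
            rw [this, Complex.im_ofReal_mul, Complex.I_im, mul_one]
            push_cast
            ring
        exact (mul_eq_zero.1 h9).resolve_left hr
    exact_mod_cast hcast
  apply hZ
  rw [Multiset.mem_toFinset, mem_roots (Q_ne hF hu0)]
  exact hQ

end Pool.Agent.Work.MP_e0c7e8_nt.BG
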