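import Pool.Agent.Work.MP_e0c7e8_nt.BG.Stmts

/-!
# Item NZ2: two formal combinations are different from zero at a common point
-/

set_option autoImplicit false

namespace Pool.Agent.Work.MP_e0c7e8_nt.BG

open Finset Polynomial

namespace I_NZ2

theorem tt_ne_zero : tt ≠ 0 := by
  unfold tt
  intro h
  have h1 : (RatFunc.X : RatFunc ℂ) = 0 := by
    apply (algebraMap (RatFunc ℂ) Om).injective
    rw [h, map_zero]
  exact RatFunc.X_ne_zero h1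

instance : CharZero Om := charZero_of_injective_algebraMap (R := RatFunc ℂ)
  (algebraMap (RatFunc ℂ) Om).injective

/-- There is a point over `(t, ν / t)`. -/
theorem exists_pt (k : ℕ) (p : Co) (hk : 1 ≤ k) (hp : p.Good) (ν : ℚ) :
    ∃ P : Pt Om, On k p P ∧ P.T = tt ∧ P.S * tt = (ν : Om) := by
  have hk0 : 0 < k := hk
  have ha : ((p.a : ℤ) : Om) ≠ 0 := Int.cast_ne_zero.mpr hp.a
  have htt := tt_ne_zero
  obtain ⟨x, hx⟩ := IsAlgClosed.exists_pow_nat_eq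
    (4 * (tt * ((ν : Om) / tt)) ^ k - (p.D : Om) * (p.a : Om) ^ 2) (by norm_num : 0 < 2)
  obtain ⟨al, hal⟩ := IsAlgClosed.exists_pow_nat_eq
    (((p.b : Om) ^ 2 * tt ^ k - (p.b : Om) * (p.c : Om) * x +
      (p.c : Om) ^ 2 * ((ν : Om) / tt) ^ k) / (p.a : Om) ^ 2) hk0
  obtain ⟨be, hbe⟩ := IsAlgClosed.exists_pow_nat_eq
    (((p.b' : Om) ^ 2 * tt ^ k - (p.b' : Om) * (p.c' : Om) * x +
      (p.c' : Om) ^ 2 * ((ν : Om) / tt) ^ k) / (p.a : Om) ^ 2) hk0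
  refine ⟨⟨tt, (ν : Om) / tt, x, al, be⟩, ⟨?_, ?_, ?_⟩, rfl, ?_⟩
  · simp only
    rw [hx]; ring
  · simp only
    rw [hal, mul_div_cancel₀]
    exact pow_ne_zero 2 ha
  · simp only
    rw [hbe, mul_div_cancel₀]
    exact pow_ne_zero 2 ha
  · simp only
    exact div_mul_cancel₀ _ htt

/-- A small rational number outside a finite set. -/
theorem exists_small (k : ℕ) (hk : 1 ≤ k) (Z : Finset ℚ) (M : ℤ) (hM : 1 ≤ M) :
    ∃ ν : ℚ, 0 < ν ∧ 4 * ν ^ k < (M : ℚ) ∧ ν ∉ Z := by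
  have hinj : Function.Injective (fun j : ℕ => (1 : ℚ) / ((j : ℚ) + 5)) := by
    intro i j hij
    have h1 : ((i : ℚ) + 5) ≠ 0 := by positivity
    have h2 : ((j : ℚ) + 5) ≠ 0 := by positivity
    simp only at hij
    rw [div_eq_div_iff h1 h2] at hij
    have h3 : (i : ℚ) = j := by linarith
    exact_mod_cast h3
  have hinf : (Set.range (fun j : ℕ => (1 : ℚ) / ((j : ℚ) + 5))).Infinite :=
    Set.infinite_range_of_injective hinj
  obtain ⟨ν, ⟨j, rfl⟩, hν⟩ := hinf.exists_notMem_finset Z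
  have hpos : (0 : ℚ) < (1 : ℚ) / ((j : ℚ) + 5) := by positivity
  have hle : (1 : ℚ) / ((j : ℚ) + 5) ≤ 1 / 5 := by
    apply one_div_le_one_div_of_le (by norm_num)
    have : (0 : ℚ) ≤ j := Nat.cast_nonneg j
    linarith
  refine ⟨_, hpos, ?_, hν⟩
  have h1 : ((1 : ℚ) / ((j : ℚ) + 5)) ^ k ≤ (1 : ℚ) / ((j : ℚ) + 5) :=
    pow_le_of_le_one hpos.le (by linarith) (by omega)
  have h2 : (1 : ℚ) ≤ (M : ℚ) := by exact_mod_cast hM
  linarith

end I_NZ2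

theorem NZ2_pf (h : S_NV) : S_NZ2 := by
  intro k p m F G hk hp hF hG hFs hGs
  obtain ⟨Z1, h1⟩ := h k p m F hk hp hF hFs
  obtain ⟨Z2, h2⟩ := h k p m G hk hp hG hGs
  have hM : 1 ≤ p.D * p.a ^ 2 := by
    have h3 : 0 < p.a ^ 2 := by have := hp.a; positivity
    have h4 : 0 < p.D * p.a ^ 2 := mul_pos hp.D h3
    omega
  obtain ⟨ν, hν0, hν1, hν2⟩ := I_NZ2.exists_small k hk (Z1 ∪ Z2) (p.D * p.a ^ 2) hM
  rw [Finset.mem_union, not_or] at hν2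
  have hν1' : 4 * ν ^ k < (p.D : ℚ) * (p.a : ℚ) ^ 2 := by
    push_cast at hν1
    exact hν1
  obtain ⟨P, hP, hT, hS⟩ := I_NZ2.exists_pt k p hk hp ν
  exact ⟨P, hP, h1 ν hν0 hν1' hν2.1 P hP hT hS, h2 ν hν0 hν1' hν2.2 P hP hT hS⟩

end Pool.Agent.Work.MP_e0c7e8_nt.BG
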