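import Pool.Agent.Work.MP_e0c7e8_nt.BG.StmtsI

/-! Item PAT: many norms with one pattern. -/

set_option autoImplicit false

namespace Pool.Agent.Work.MP_e0c7e8_nt.BG

open Finset Pool.Agent.Work.MP_e0c7e8_nt.SM

namespace I_PAT

/-- The admissible indices of norm at most `B`. -/
noncomputable def idx (d : ℤ) (B : ℕ) : Finset AI := by
  classical
  exact (((Icc 1 B).filter (fun a => ∀ p ∈ a.primeFactors, chi d p = 1)).sigma
    (fun a => a.primeFactors.powerset)).map (Equiv.sigmaEquivProd ℕ (Finset ℕ)).toEmbedding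

theorem card_idx (d : ℤ) (B : ℕ) : (idx d B).card = MM d B := by
  classical
  unfold idx MM
  rw [Finset.card_map, Finset.card_sigma, Finset.sum_filter]
  refine Finset.sum_congr rfl fun a _ => ?_
  unfold TT
  rw [Finset.card_powerset]

theorem mem_idx {d : ℤ} {B : ℕ} {A : AI} (h : A ∈ idx d B) : Adm d A ∧ A.1 ≤ B := by
  classical
  unfold idx at h
  rw [Finset.mem_map] at h
  obtain ⟨⟨a, U⟩, h1, h2⟩ := h
  rw [Finset.mem_sigma, Finset.mem_filter, Finset.mem_Icc, Finset.mem_powerset] at h1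
  have h3 : A = (a, U) := h2.symm
  rw [h3]
  exact ⟨⟨h1.1.1.1, h1.1.2, h1.2⟩, h1.1.1.2⟩

theorem pow_image {G : Type} [CommGroup G] [Finite G] (k : ℕ) {α : Type} (S : Finset α)
    (g : α → G) : ∃ N : ℕ, ((fun A => g A ^ k) '' (S : Set α)).ncard ≤ N ∧
      Nat.card {y : G // y ^ k = 1} * N = Nat.card G := by
  refine ⟨Nat.card (powMonoidHom k : G →* G).range, ?_, ?_⟩
  · change _ ≤ Nat.card (((powMonoidHom k : G →* G).range : Set G) : Type)
    rw [Nat.card_coe_set_eq]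
    apply Set.ncard_le_ncard _ (Set.toFinite _)
    rintro y ⟨A, _, rfl⟩
    exact ⟨g A, rfl⟩
  · rw [← Subgroup.index_ker, ← Subgroup.card_mul_index (powMonoidHom k : G →* G).ker]
    congr 1

/-- Pigeonhole over the patterns. -/
theorem pattern {α : Type} (S : Finset α) (φ : α → ℤ × ℤ × ℤ × ℤ × ℤ) (V : ℕ)
    (h : ∀ A ∈ S, |(φ A).1| ≤ V ∧ |(φ A).2.1| ≤ V ∧ |(φ A).2.2.1| ≤ V ∧ |(φ A).2.2.2.1| ≤ V ∧
      |(φ A).2.2.2.2| ≤ V) (hS : S.Nonempty) :
    ∃ y, ∃ F ⊆ S, F.Nonempty ∧ (∀ A ∈ F, φ A = y) ∧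
      (S.card : ℝ) ≤ (2 * (V : ℝ) + 1) ^ 5 * F.card := by
  classical
  set T : Finset (ℤ × ℤ × ℤ × ℤ × ℤ) := Icc (-(V : ℤ)) V ×ˢ Icc (-(V : ℤ)) V ×ˢ
    Icc (-(V : ℤ)) V ×ˢ Icc (-(V : ℤ)) V ×ˢ Icc (-(V : ℤ)) V with hT
  have hT1 : (Icc (-(V : ℤ)) V).card = 2 * V + 1 := by
    rw [Int.card_Icc]
    omega
  have hTc : T.card = (2 * V + 1) ^ 5 := by
    rw [hT]
    simp only [Finset.card_product, hT1]
    ring
  have hmaps : ∀ A ∈ S, φ A ∈ T := by
    intro A hA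
    obtain ⟨h1, h2, h3, h4, h5⟩ := h A hA
    simp only [hT, Finset.mem_product, Finset.mem_Icc]
    exact ⟨abs_le.1 h1, abs_le.1 h2, abs_le.1 h3, abs_le.1 h4, abs_le.1 h5⟩
  have hTne : T.Nonempty := by
    obtain ⟨A, hA⟩ := hS
    exact ⟨_, hmaps A hA⟩
  have hTpos : (0 : ℝ) < T.card := by
    exact_mod_cast hTne.card_pos
  obtain ⟨y, _, hy⟩ := Finset.exists_le_card_fiber_of_nsmul_le_card_of_maps_to (M := ℝ)
    (b := (S.card : ℝ) / T.card) hmaps hTne (by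
      rw [nsmul_eq_mul, mul_div_cancel₀]
      exact hTpos.ne')
  refine ⟨y, S.filter (fun A => φ A = y), Finset.filter_subset _ _, ?_, ?_, ?_⟩
  · rw [← Finset.card_pos]
    have h1 : (0 : ℝ) < (S.card : ℝ) / T.card := by
      apply div_pos _ hTpos
      exact_mod_cast hS.card_pos
    exact_mod_cast h1.trans_le hy
  · intro A hA
    exact (Finset.mem_filter.1 hA).2
  · rw [div_le_iff₀ hTpos] at hy
    have h2 : ((T.card : ℕ) : ℝ) = (2 * (V : ℝ) + 1) ^ 5 := by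
      rw [hTc]
      push_cast
      ring
    rw [h2] at hy
    linarith

/-- Few indices with the same norm. -/
theorem few (F : Finset AI) (hF : ∀ A ∈ F, A.2 ⊆ A.1.primeFactors) (M : ℝ)
    (hM : ∀ A ∈ F, (2 : ℝ) ^ A.1.primeFactors.card ≤ M) :
    (F.card : ℝ) ≤ M * (F.image Prod.fst).card := by
  classical
  rcases F.eq_empty_or_nonempty with h0 | ⟨A0, hA0⟩
  · rw [h0]
    simp
  have hM0 : 0 ≤ M := le_trans (by positivity) (hM A0 hA0)
  have h1 : F.card ≤ ⌊M⌋₊ * (F.image Prod.fst).card := by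
    apply Finset.card_le_mul_card_image
    intro a ha
    obtain ⟨A, hA, hAa⟩ := Finset.mem_image.1 ha
    apply Nat.le_floor
    have h2 : (F.filter (fun B => B.1 = a)).card ≤ 2 ^ a.primeFactors.card := by
      rw [← Finset.card_powerset]
      apply Finset.card_le_card_of_injOn Prod.snd
      · intro B hB
        rw [Finset.mem_coe, Finset.mem_filter] at hB
        rw [Finset.mem_coe, Finset.mem_powerset, ← hB.2]
        exact hF B hB.1
      · intro B hB B' hB' h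
        rw [Finset.mem_coe, Finset.mem_filter] at hB hB'
        exact Prod.ext (hB.2.trans hB'.2.symm) h
    have h3 := hM A hA
    rw [hAa] at h3
    refine le_trans ?_ h3
    exact_mod_cast h2
  calc (F.card : ℝ) ≤ ((⌊M⌋₊ * (F.image Prod.fst).card : ℕ) : ℝ) := by exact_mod_cast h1
    _ = (⌊M⌋₊ : ℝ) * (F.image Prod.fst).card := by push_cast; ring
    _ ≤ M * (F.image Prod.fst).card :=
        mul_le_mul_of_nonneg_right (Nat.floor_le hM0) (by positivity)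

theorem sq_bound {a D : ℤ} {B V k : ℕ} (hD : 0 < D) (h : a ^ 2 * D ≤ 4 * (B : ℤ) ^ (2 * k))
    (hB : 4 * (B : ℤ) ^ (2 * k) ≤ (V : ℤ) ^ 2 * D) : |a| ≤ V := by
  have h1 : a ^ 2 * D ≤ (V : ℤ) ^ 2 * D := h.trans hB
  have h2 : a ^ 2 ≤ (V : ℤ) ^ 2 := le_of_mul_le_mul_right h1 hD
  exact abs_le_of_sq_le_sq h2 (by positivity)

/-- What is known about the point of an index. -/
structure Gd (k : ℕ) (d : ℤ) (B V : ℕ) (A : AI) (p : Co) (P : Pt ℤ) : Prop where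
  good : p.Good
  D : p.D = -d
  on : On k p P
  T : P.T = A.1
  S1 : 1 ≤ P.S
  S2 : P.S ≤ B
  al1 : 1 ≤ P.al
  al2 : P.al ≤ B
  be1 : 1 ≤ P.be
  be2 : P.be ≤ B
  a : |p.a| ≤ V
  b : |p.b| ≤ V
  c : |p.c| ≤ V
  b' : |p.b'| ≤ V
  c' : |p.c'| ≤ V

end I_PAT

theorem PAT_pf (hE : S_EQS) (hQ : S_CLQ) (hN : ClaimN1) : S_PAT := by
  classical
  intro k hk ι hι
  obtain ⟨C1, hC1, hN1⟩ := hN 2 (by norm_num) ι hι
  refine ⟨486 * C1, by positivity, ?_⟩
  intro d B V hd h4 hB hV hBV hfin hcard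
  obtain ⟨cl, hcl⟩ := hE d hd h4
  obtain ⟨N, hN2, hN3⟩ := I_PAT.pow_image (G := ClassGroup ↥(Od d)) k (I_PAT.idx d B) cl
  have hker : 0 < Nat.card {y : ClassGroup ↥(Od d) // y ^ k = 1} := by
    have : Nonempty {y : ClassGroup ↥(Od d) // y ^ k = 1} := ⟨⟨1, one_pow k⟩⟩
    exact Nat.card_pos
  have h6 : 6 * N < (I_PAT.idx d B).card := by
    rw [I_PAT.card_idx]
    rw [← hN3] at hcard
    have h1 : Nat.card {y : ClassGroup ↥(Od d) // y ^ k = 1} * (6 * N) <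
        Nat.card {y : ClassGroup ↥(Od d) // y ^ k = 1} * MM d B := by
      calc Nat.card {y : ClassGroup ↥(Od d) // y ^ k = 1} * (6 * N)
          = 6 * (Nat.card {y : ClassGroup ↥(Od d) // y ^ k = 1} * N) := by ring
        _ < _ := hcard
    exact lt_of_mul_lt_mul_left h1 (Nat.zero_le _)
  obtain ⟨S', hS'1, hS'2, hS'3⟩ := hQ AI (ClassGroup ↥(Od d)) (I_PAT.idx d B)
    (fun A => cl A ^ k) N hN2 h6
  have hne : S'.Nonempty := by
    rw [← Finset.card_pos]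
    omega
  -- the points
  have hpts : ∀ A : AI, A ∈ S' → ∃ p : Co, ∃ P : Pt ℤ, I_PAT.Gd k d B V A p P := by
    intro A1 hA1
    obtain ⟨A2, hA2, A3, hA3, A4, hA4, n12, n13, n14, n23, n24, n34, f2, f3, f4⟩ := hS'3 A1 hA1
    have m1 := I_PAT.mem_idx (hS'1 hA1)
    have m2 := I_PAT.mem_idx hA2
    have m3 := I_PAT.mem_idx hA3
    have m4 := I_PAT.mem_idx hA4
    obtain ⟨p, P, g1, g2, g3, g4, g5, g6, g7, g8, g9, g10, g11, g12⟩ :=
      hcl k B A1 A2 A3 A4 hk m1.1 m2.1 m3.1 m4.1 m1.2 m2.2 m3.2 m4.2 n12 n13 n14 n23 n24 n34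
        f2 f3 f4
    have hD : 0 < p.D := g1.D
    have hBV' : 4 * (B : ℤ) ^ (2 * k) ≤ (V : ℤ) ^ 2 * p.D := by
      have h1 : ((4 * B ^ (2 * k) : ℕ) : ℤ) ≤ ((V ^ 2 * d.natAbs : ℕ) : ℤ) := by
        exact_mod_cast hBV
      push_cast at h1
      rw [abs_of_neg hd] at h1
      rw [g2]
      exact h1
    refine ⟨p, P, g1, g2, g3, g4, ?_, ?_, ?_, ?_, ?_, ?_, I_PAT.sq_bound hD g8 hBV',
      I_PAT.sq_bound hD g9 hBV', I_PAT.sq_bound hD g10 hBV', I_PAT.sq_bound hD g11 hBV',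
      I_PAT.sq_bound hD g12 hBV'⟩
    · rw [g5]; exact_mod_cast m2.1.1
    · rw [g5]; exact_mod_cast m2.2
    · rw [g6]; exact_mod_cast m3.1.1
    · rw [g6]; exact_mod_cast m3.2
    · rw [g7]; exact_mod_cast m4.1.1
    · rw [g7]; exact_mod_cast m4.2
  have : Inhabited Co := ⟨⟨0, 0, 0, 0, 0, 0⟩⟩
  have : Inhabited (Pt ℤ) := ⟨⟨0, 0, 0, 0, 0⟩⟩
  choose! p P hP using hpts
  obtain ⟨y, F, hF1, hF2, hF3, hF4⟩ := I_PAT.pattern S'
    (fun A => ((p A).a, (p A).b, (p A).c, (p A).b', (p A).c')) V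
    (fun A hA => ⟨(hP A hA).a, (hP A hA).b, (hP A hA).c, (hP A hA).b', (hP A hA).c'⟩) hne
  obtain ⟨A0, hA0⟩ := hF2
  have hp : ∀ A ∈ F, p A = p A0 := by
    intro A hA
    have h1 := (hF3 A hA).trans (hF3 A0 hA0).symm
    have h2 := (hP A (hF1 hA)).D.trans (hP A0 (hF1 hA0)).D.symm
    simp only [Prod.mk.injEq] at h1
    obtain ⟨e1, e2, e3, e4, e5⟩ := h1
    cases hpA : p A with
    | mk D a b c b' c' =>
      cases hpA0 : p A0 with
      | mk D0 a0 b0 c0 b0' c0' =>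
        rw [hpA, hpA0] at e1 e2 e3 e4 e5 h2
        simp only at e1 e2 e3 e4 e5 h2
        rw [e1, e2, e3, e4, e5, h2]
  refine ⟨p A0, F.image Prod.fst, (hP A0 (hF1 hA0)).good, (hP A0 (hF1 hA0)).a, ?_, ?_⟩
  · intro M hM
    obtain ⟨A, hA, hAM⟩ := Finset.mem_image.1 hM
    have m := I_PAT.mem_idx (hS'1 (hF1 hA))
    have g := hP A (hF1 hA)
    rw [← hAM]
    refine ⟨m.1.1, m.2, P A, ?_, g.T, g.S1, g.S2, g.al1, g.al2, g.be1, g.be2⟩
    rw [← hp A hA]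
    exact g.on
  · -- the count
    have hB0 : (0 : ℝ) < (B : ℝ) := by exact_mod_cast hB
    have h7 : (F.card : ℝ) ≤ (C1 * (B : ℝ) ^ ι) * (F.image Prod.fst).card := by
      apply I_PAT.few
      · intro A hA
        exact (I_PAT.mem_idx (hS'1 (hF1 hA))).1.2.2
      · intro A hA
        have m := I_PAT.mem_idx (hS'1 (hF1 hA))
        refine (hN1 A.1 m.1.1).trans ?_
        apply mul_le_mul_of_nonneg_left _ hC1.le
        apply Real.rpow_le_rpow (by positivity) _ hι.le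
        exact_mod_cast m.2
    have h8 : ((I_PAT.idx d B).card : ℝ) ≤ 2 * S'.card := by exact_mod_cast hS'2
    rw [I_PAT.card_idx] at h8
    have h9 : (2 * (V : ℝ) + 1) ^ 5 ≤ 243 * (V : ℝ) ^ 5 := by
      have hV' : (1 : ℝ) ≤ V := by exact_mod_cast hV
      calc (2 * (V : ℝ) + 1) ^ 5 ≤ (3 * (V : ℝ)) ^ 5 :=
            pow_le_pow_left₀ (by positivity) (by linarith) 5
        _ = 243 * (V : ℝ) ^ 5 := by ring
    calc (MM d B : ℝ) ≤ 2 * S'.card := h8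
      _ ≤ 2 * ((2 * (V : ℝ) + 1) ^ 5 * F.card) := by linarith
      _ ≤ 2 * ((243 * (V : ℝ) ^ 5) * ((C1 * (B : ℝ) ^ ι) * (F.image Prod.fst).card)) := by
          apply mul_le_mul_of_nonneg_left _ (by norm_num)
          apply mul_le_mul h9 h7 (by positivity) (by positivity)
      _ = 486 * C1 * (V : ℝ) ^ 5 * (B : ℝ) ^ ι * (F.image Prod.fst).card := by ring

end Pool.Agent.Work.MP_e0c7e8_nt.BG
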