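import Mathlib
import Pool.Agent.Work.MP_e0c7e8_nt.BG.Stmts

/-!
# Item PRM: root multiplicities in `ℂ[t]`
-/

set_option autoImplicit false

namespace Pool.Agent.Work.MP_e0c7e8_nt.BG

open Finset Polynomial

namespace I_PRM

/-- The polynomial `b² t^(2k) - b c x₀ t^k + c² ν^k`. -/
noncomputable def pp (k : ℕ) (b c x0 ν : ℂ) : ℂ[X] :=
  C (b ^ 2) * X ^ (2 * k) - C (b * c * x0) * X ^ k + C (c ^ 2 * ν ^ k)

theorem eval_pp (k : ℕ) (b c x0 ν z : ℂ) :
    (pp k b c x0 ν).eval z = b ^ 2 * (z ^ k) ^ 2 - b * c * x0 * z ^ k + c ^ 2 * ν ^ k := by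
  simp [pp, ← pow_mul, mul_comm 2 k]

theorem pp_ne {k : ℕ} {b c x0 ν : ℂ} (hk : 1 ≤ k) (hc : c ≠ 0) (hν : ν ≠ 0) :
    pp k b c x0 ν ≠ 0 := by
  intro h
  have h1 := eval_pp k b c x0 ν 0
  rw [h] at h1
  simp [show k ≠ 0 by omega] at h1
  rcases h1 with h1 | h1
  · exact hc h1
  · exact hν h1

theorem deriv_pp (k : ℕ) (b c x0 ν z : ℂ) (hk : 1 ≤ k) :
    (derivative (pp k b c x0 ν)).eval z * z =
      k * z ^ k * (2 * b ^ 2 * z ^ k - b * c * x0) := by
  have hz1 : z ^ (k - 1) * z = z ^ k := by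
    rw [← pow_succ]
    congr 1
    omega
  have hz2 : z ^ (2 * k - 1) * z = (z ^ k) ^ 2 := by
    rw [← pow_succ, ← pow_mul]
    congr 1
    omega
  simp only [pp, derivative_add, derivative_sub, derivative_mul, derivative_C, zero_mul,
    derivative_X_pow, zero_add, add_zero, eval_sub, eval_mul, eval_C, eval_pow, eval_X]
  push_cast
  calc _ = b ^ 2 * (2 * k * (z ^ (2 * k - 1) * z)) - b * c * x0 * (k * (z ^ (k - 1) * z)) := by
        ring
    _ = _ := by rw [hz1, hz2]; ring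

/-- A simple nonzero root of the first polynomial that is not a root of the second. -/
theorem exists_root {k : ℕ} {b c b' c' x0 ν : ℂ} (hk : 1 ≤ k) (hb : b ≠ 0) (hc : c ≠ 0)
    (hb' : b' ≠ 0) (hx : x0 ≠ 0) (hν : ν ≠ 0) (hd : x0 ^ 2 - 4 * ν ^ k ≠ 0)
    (hdet : b * c' ≠ b' * c) :
    ∃ z : ℂ, z ≠ 0 ∧ (pp k b c x0 ν).roots.count z = 1 ∧ (pp k b' c' x0 ν).roots.count z = 0 := by
  obtain ⟨s, hs⟩ := IsAlgClosed.exists_pow_nat_eq (x0 ^ 2 - 4 * ν ^ k) (n := 2) (by norm_num)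
  have hs0 : s ≠ 0 := by
    rintro rfl
    apply hd
    rw [← hs]
    norm_num
  -- one of the two values of `u`
  have hu : ∃ e : ℂ, e ^ 2 = s ^ 2 ∧ b' ^ 2 * (c / (2 * b) * (x0 + e)) ^ 2 -
      b' * c' * x0 * (c / (2 * b) * (x0 + e)) + c' ^ 2 * ν ^ k ≠ 0 := by
    by_contra hcon
    push Not at hcon
    have h1 := hcon s rfl
    have h2 := hcon (-s) (by ring)
    have h3 : (c / (2 * b) * (2 * s)) * (b' * (b' * (c / b) - c') * x0) = 0 := by
      have h4 : (b' ^ 2 * (c / (2 * b) * (x0 + s)) ^ 2 -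
          b' * c' * x0 * (c / (2 * b) * (x0 + s)) + c' ^ 2 * ν ^ k) -
          (b' ^ 2 * (c / (2 * b) * (x0 + -s)) ^ 2 -
          b' * c' * x0 * (c / (2 * b) * (x0 + -s)) + c' ^ 2 * ν ^ k) = 0 := by
        rw [h1, h2, sub_zero]
      rw [← h4]
      field_simp
      ring
    have h5 : b' * (b' * (c / b) - c') * x0 = 0 := by
      rcases mul_eq_zero.1 h3 with h | h
      · exfalso
        have : c / (2 * b) * (2 * s) ≠ 0 :=
          mul_ne_zero (div_ne_zero hc (mul_ne_zero two_ne_zero hb)) (mul_ne_zero two_ne_zero hs0)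
        exact this h
      · exact h
    have h6 : b' * (c / b) - c' = 0 := by
      rcases mul_eq_zero.1 h5 with h | h
      · rcases mul_eq_zero.1 h with h | h
        · exact absurd h hb'
        · exact h
      · exact absurd h hx
    apply hdet
    have h7 : c' = b' * (c / b) := by linear_combination -h6
    rw [h7]
    field_simp
  obtain ⟨e, he, hne⟩ := hu
  have he2 : e ^ 2 = x0 ^ 2 - 4 * ν ^ k := he.trans hs
  have he0 : e ≠ 0 := by
    rintro rfl
    apply hd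
    rw [← he2]
    norm_num
  obtain ⟨z, hz⟩ := IsAlgClosed.exists_pow_nat_eq (c / (2 * b) * (x0 + e)) (n := k) (by omega)
  have hu0 : c / (2 * b) * (x0 + e) ≠ 0 := by
    intro h
    have h1 : x0 + e = 0 := by
      rcases mul_eq_zero.1 h with h | h
      · exact absurd h (div_ne_zero hc (mul_ne_zero two_ne_zero hb))
      · exact h
    have h2 : 4 * ν ^ k = 0 := by
      have : e = -x0 := by linear_combination h1
      rw [this] at he2
      linear_combination he2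
    have h3 : ν ^ k ≠ 0 := pow_ne_zero _ hν
    exact h3 (by simpa using h2)
  have hz0 : z ≠ 0 := by
    rintro rfl
    apply hu0
    rw [← hz, zero_pow (by omega)]
  have hroot : (pp k b c x0 ν).eval z = 0 := by
    rw [eval_pp, hz]
    field_simp
    linear_combination c ^ 2 * he2
  have hder : (derivative (pp k b c x0 ν)).eval z ≠ 0 := by
    intro h
    have h1 := deriv_pp k b c x0 ν z hk
    rw [h, zero_mul, hz] at h1
    have h2 : 2 * b ^ 2 * (c / (2 * b) * (x0 + e)) - b * c * x0 = b * c * e := by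
      field_simp
      ring
    rw [h2] at h1
    have h3 : (k : ℂ) ≠ 0 := by
      have : k ≠ 0 := by omega
      exact_mod_cast this
    exact (mul_ne_zero (mul_ne_zero h3 hu0) (mul_ne_zero (mul_ne_zero hb hc) he0)) h1.symm
  refine ⟨z, hz0, ?_, ?_⟩
  · rw [count_roots]
    have h0 := pp_ne (b := b) (x0 := x0) hk hc hν
    apply le_antisymm
    · by_contra hcon
      push Not at hcon
      have := (one_lt_rootMultiplicity_iff_isRoot h0).1 hcon
      exact hder this.2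
    · exact (rootMultiplicity_pos h0).2 hroot
  · rw [count_roots]
    apply rootMultiplicity_eq_zero
    rw [IsRoot.def, eval_pp, hz]
    exact hne

/-- The polynomials in `Om`. -/
noncomputable def φ : ℂ[X] →+* Om := (algebraMap (RatFunc ℂ) Om).comp (algebraMap ℂ[X] (RatFunc ℂ))

theorem φ_inj : Function.Injective φ :=
  (algebraMap (RatFunc ℂ) Om).injective.comp (IsFractionRing.injective ℂ[X] (RatFunc ℂ))

theorem φ_X : φ X = tt := by
  simp [φ, tt]

theorem φ_C (z : ℂ) : φ (C z) = cc z := by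
  simp [φ, cc]

theorem cc_int (n : ℤ) : cc (n : ℂ) = (n : Om) := by
  simp [cc]

/-- Comparison of root multiplicities. -/
theorem compare {k i j i' j' : ℕ} {z : ℂ} {p3 p4 w num den : ℂ[X]} (h3 : p3 ≠ 0) (h4 : p4 ≠ 0)
    (hw : w ≠ 0) (hden : den ≠ 0) (hnum : num ≠ 0) (hi : i < k) (hi' : i' < k)
    (e : p3 ^ i * p4 ^ j * w ^ (i' + j') * den ^ k = num ^ k * (p3 ^ i' * p4 ^ j' * w ^ (i + j)))
    (c3 : p3.roots.count z = 1) (c4 : p4.roots.count z = 0) (cw : w.roots.count z = 0) :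
    i = i' := by
  have hr : (p3 ^ i * p4 ^ j * w ^ (i' + j') * den ^ k).roots.count z =
      (num ^ k * (p3 ^ i' * p4 ^ j' * w ^ (i + j))).roots.count z := by rw [e]
  have n1 : p3 ^ i * p4 ^ j ≠ 0 := mul_ne_zero (pow_ne_zero _ h3) (pow_ne_zero _ h4)
  have n2 : p3 ^ i * p4 ^ j * w ^ (i' + j') ≠ 0 := mul_ne_zero n1 (pow_ne_zero _ hw)
  have n3 : p3 ^ i * p4 ^ j * w ^ (i' + j') * den ^ k ≠ 0 := mul_ne_zero n2 (pow_ne_zero _ hden)
  have n1' : p3 ^ i' * p4 ^ j' ≠ 0 := mul_ne_zero (pow_ne_zero _ h3) (pow_ne_zero _ h4)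
  have n2' : p3 ^ i' * p4 ^ j' * w ^ (i + j) ≠ 0 := mul_ne_zero n1' (pow_ne_zero _ hw)
  have n3' : num ^ k * (p3 ^ i' * p4 ^ j' * w ^ (i + j)) ≠ 0 :=
    mul_ne_zero (pow_ne_zero _ hnum) n2'
  rw [roots_mul n3, roots_mul n2, roots_mul n1, roots_mul n3', roots_mul n2', roots_mul n1',
    roots_pow, roots_pow, roots_pow, roots_pow, roots_pow, roots_pow, roots_pow, roots_pow] at hr
  simp only [Multiset.count_add, Multiset.count_nsmul, c3, c4, cw, mul_one, mul_zero,
    add_zero] at hr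
  have h5 : (i + k * den.roots.count z) % k = (k * num.roots.count z + i') % k := by
    rw [hr]
  rw [Nat.add_mul_mod_self_left, Nat.mul_add_mod, Nat.mod_eq_of_lt hi, Nat.mod_eq_of_lt hi'] at h5
  exact h5

end I_PRM

open I_PRM in
theorem PRM_pf : S_PRM := by
  intro k p x0 ν P hk hp hx hν hP hT hS hX i j i' j' R hi hj hi' hj' hR
  have ha : (p.a : ℂ) ≠ 0 := by exact_mod_cast hp.a
  have hb : (p.b : ℂ) ≠ 0 := by exact_mod_cast hp.b
  have hc : (p.c : ℂ) ≠ 0 := by exact_mod_cast hp.c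
  have hb' : (p.b' : ℂ) ≠ 0 := by exact_mod_cast hp.b'
  have hc' : (p.c' : ℂ) ≠ 0 := by exact_mod_cast hp.c'
  have hD : (p.D : ℂ) ≠ 0 := by exact_mod_cast hp.D.ne'
  have hdet : (p.b : ℂ) * p.c' ≠ p.b' * p.c := by exact_mod_cast hp.det
  have hccinj : Function.Injective cc := by
    intro u v huv
    rw [← φ_C, ← φ_C] at huv
    exact C_injective (φ_inj huv)
  have hTS : P.T * P.S = cc ν := by rw [hT, mul_comm, hS]
  have hd : x0 ^ 2 - 4 * ν ^ k ≠ 0 := by
    have h0 := hP.e0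
    rw [hTS, hX] at h0
    have h1 : φ (C (x0 ^ 2 + (p.D : ℂ) * (p.a : ℂ) ^ 2)) = φ (C (4 * ν ^ k)) := by
      simp only [map_add, map_mul, map_pow, φ_C, cc_int]
      rw [h0]
      congr 1
      have : cc ((4 : ℤ) : ℂ) = ((4 : ℤ) : Om) := cc_int 4
      push_cast at this
      exact this.symm
    have h2 := C_injective (φ_inj h1)
    intro h3
    have h4 : (p.D : ℂ) * (p.a : ℂ) ^ 2 = 0 := by linear_combination h2 - h3
    exact (mul_ne_zero hD (pow_ne_zero _ ha)) h4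
  have key : ∀ (b c : ℤ) (y : Om), (p.a : Om) ^ 2 * y ^ k =
      (b : Om) ^ 2 * P.T ^ k - (b : Om) * (c : Om) * P.x + (c : Om) ^ 2 * P.S ^ k →
      φ (C ((p.a : ℂ) ^ 2) * X ^ k) * y ^ k = φ (pp k b c x0 ν) := by
    intro b c y hy
    have h1 : φ (C ((p.a : ℂ) ^ 2) * X ^ k) * y ^ k = tt ^ k * ((p.a : Om) ^ 2 * y ^ k) := by
      simp only [map_mul, map_pow, φ_C, φ_X, cc_int]
      ring
    have h2 : φ (pp k b c x0 ν) = (b : Om) ^ 2 * tt ^ (2 * k) - (b : Om) * (c : Om) * cc x0 * tt ^ k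
        + (c : Om) ^ 2 * (cc ν) ^ k := by
      simp only [pp, map_add, map_sub, map_mul, map_pow, φ_C, φ_X, cc_int]
    rw [h1, hy, h2, hT, hX, ← hS, mul_pow]
    ring
  have k3 := key p.b p.c P.al hP.e3
  have k4 := key p.b' p.c' P.be hP.e4
  set w : ℂ[X] := C ((p.a : ℂ) ^ 2) * X ^ k with hwdef
  set p3 := pp k p.b p.c x0 ν with hp3
  set p4 := pp k p.b' p.c' x0 ν with hp4
  have hw : w ≠ 0 := mul_ne_zero (C_ne_zero.2 (pow_ne_zero _ ha)) (pow_ne_zero _ X_ne_zero)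
  have h3 : p3 ≠ 0 := pp_ne hk hc hν
  have h4 : p4 ≠ 0 := pp_ne hk hc' hν
  have hden : R.denom ≠ 0 := R.denom_ne_zero
  have hRd : algebraMap (RatFunc ℂ) Om R * φ R.denom = φ R.num := by
    have h1 : R * algebraMap ℂ[X] (RatFunc ℂ) R.denom = algebraMap ℂ[X] (RatFunc ℂ) R.num := by
      have h2 : algebraMap ℂ[X] (RatFunc ℂ) R.denom ≠ 0 := by
        intro h
        exact hden ((map_eq_zero_iff _ (IsFractionRing.injective ℂ[X] (RatFunc ℂ))).1 h)
      have h3 := R.num_div_denom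
      rw [div_eq_iff h2] at h3
      exact h3.symm
    show algebraMap (RatFunc ℂ) Om R * algebraMap (RatFunc ℂ) Om (algebraMap ℂ[X] (RatFunc ℂ) R.denom)
      = algebraMap (RatFunc ℂ) Om (algebraMap ℂ[X] (RatFunc ℂ) R.num)
    rw [← map_mul, h1]
  have hE : φ (p3 ^ i * p4 ^ j * w ^ (i' + j') * R.denom ^ k) =
      φ (R.num ^ k * (p3 ^ i' * p4 ^ j' * w ^ (i + j))) := by
    simp only [map_mul φ, map_pow φ]
    rw [← k3, ← k4, ← hRd]
    have h5 : (P.al ^ i * P.be ^ j) ^ k =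
        (algebraMap (RatFunc ℂ) Om R * (P.al ^ i' * P.be ^ j')) ^ k := by rw [hR]
    calc (φ w * P.al ^ k) ^ i * (φ w * P.be ^ k) ^ j * φ w ^ (i' + j') * φ R.denom ^ k
        = (P.al ^ i * P.be ^ j) ^ k * (φ w ^ i * φ w ^ j * φ w ^ (i' + j') * φ R.denom ^ k) := by
          ring
      _ = _ := by
          rw [h5]
          ring
  have hE' := φ_inj hE
  have hnum : R.num ≠ 0 := by
    intro h
    rw [h, zero_pow (by omega), zero_mul] at hE'
    exact mul_ne_zero (mul_ne_zero (mul_ne_zero (pow_ne_zero _ h3) (pow_ne_zero _ h4))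
      (pow_ne_zero _ hw)) (pow_ne_zero _ hden) hE'
  have cw : ∀ z : ℂ, z ≠ 0 → w.roots.count z = 0 := by
    intro z hz
    rw [count_roots]
    apply rootMultiplicity_eq_zero
    rw [IsRoot.def, hwdef]
    simp only [eval_mul, eval_C, eval_pow, eval_X]
    exact mul_ne_zero (pow_ne_zero _ ha) (pow_ne_zero _ hz)
  constructor
  · obtain ⟨z, hz0, c3, c4⟩ := exists_root hk hb hc hb' hx hν hd hdet
    exact compare h3 h4 hw hden hnum hi hi' hE' c3 c4 (cw z hz0)
  · obtain ⟨z, hz0, c4, c3⟩ := exists_root hk hb' hc' hb hx hν hd hdet.symm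
    refine compare (i := j) (i' := j') (j := i) (j' := i') h4 h3 hw hden hnum hj hj' ?_ c4 c3
      (cw z hz0)
    rw [add_comm j' i', add_comm j i, mul_comm (p4 ^ j), mul_comm (p4 ^ j')]
    exact hE'

end Pool.Agent.Work.MP_e0c7e8_nt.BG
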