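import Pool.Agent.Work.MP_e0c7e8_nt.BG.StmtsI

/-!
# Item PW: real exponents
-/

set_option autoImplicit false

namespace Pool.Agent.Work.MP_e0c7e8_nt.BG

open Finset Pool.Agent.Work.MP_e0c7e8_nt.SM

namespace I_PW

/-- large `D` beats a constant -/
lemma large (κ K : ℝ) (hκ : 0 < κ) : ∃ D0 : ℝ, 1 ≤ D0 ∧ ∀ D : ℝ, D0 ≤ D → K < D ^ κ := by
  have h := (tendsto_rpow_atTop hκ).eventually_gt_atTop K
  obtain ⟨D1, hD1⟩ := Filter.eventually_atTop.1 h
  exact ⟨max 1 D1, le_max_left _ _, fun D hD => hD1 D ((le_max_right _ _).trans hD)⟩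

/-- the numerical part -/
lemma num (k : ℕ) (hk : 5 ≤ k) (C : ℕ) : ∃ D0 : ℝ, 1 ≤ D0 ∧ ∀ (D : ℝ) (M : ℕ), D0 ≤ D →
    D ^ ((1 : ℝ) / (2 * k) + 3 / (2000 * k ^ 2)) ≤ M → ∃ V : ℕ, 1 ≤ V ∧
      1 ≤ ⌊D ^ ((1 : ℝ) / (2 * k) + 1 / (500 * k ^ 2))⌋₊ ∧
      (4 * (⌊D ^ ((1 : ℝ) / (2 * k) + 1 / (500 * k ^ 2))⌋₊ : ℝ) ^ (2 * k) ≤ V ^ 2 * D) ∧
      V ^ 200 ≤ ⌊D ^ ((1 : ℝ) / (2 * k) + 1 / (500 * k ^ 2))⌋₊ ∧
      C * ⌊D ^ ((1 : ℝ) / (2 * k) + 1 / (500 * k ^ 2))⌋₊ ^ 997 < M ^ 1000 := by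
  have hk' : (5 : ℝ) ≤ k := by exact_mod_cast hk
  have hk0 : (0 : ℝ) < k := by linarith
  obtain ⟨D1, hD1, h1⟩ := large (1 / (10 * k)) (2 * 3 ^ 200) (by positivity)
  obtain ⟨D2, hD2, h2⟩ := large (1 / k) C (by positivity)
  refine ⟨max D1 D2, hD1.trans (le_max_left _ _), ?_⟩
  intro D M hD hM
  have hDD1 : D1 ≤ D := (le_max_left _ _).trans hD
  have hDD2 : D2 ≤ D := (le_max_right _ _).trans hD
  have hD1' : (1 : ℝ) ≤ D := hD1.trans hDD1
  have hD0 : (0 : ℝ) < D := by linarith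
  set α : ℝ := (1 : ℝ) / (2 * k) + 1 / (500 * k ^ 2) with hα
  have hα0 : 0 < α := by rw [hα]; positivity
  set B : ℕ := ⌊D ^ α⌋₊ with hB
  have hDα : 1 ≤ D ^ α := Real.one_le_rpow hD1' hα0.le
  have hB1 : 1 ≤ B := by
    rw [hB]; exact Nat.le_floor (by exact_mod_cast hDα)
  have hBle : (B : ℝ) ≤ D ^ α := Nat.floor_le (by positivity)
  have hBge : D ^ α < B + 1 := Nat.lt_floor_add_one _
  have hBge2 : D ^ α / 2 ≤ B := by
    have : (1 : ℝ) ≤ B := by exact_mod_cast hB1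
    linarith
  set β : ℝ := (1 : ℝ) / (500 * k) with hβ
  have hβ0 : 0 < β := by rw [hβ]; positivity
  have hDβ : 1 ≤ D ^ β := Real.one_le_rpow hD1' hβ0.le
  refine ⟨⌈2 * D ^ β⌉₊, ?_, hB1, ?_, ?_, ?_⟩
  · have : (0 : ℝ) < 2 * D ^ β := by positivity
    exact Nat.one_le_iff_ne_zero.2 (Nat.ceil_pos.2 this).ne'
  · have hV : 2 * D ^ β ≤ (⌈2 * D ^ β⌉₊ : ℝ) := Nat.le_ceil _
    calc 4 * (B : ℝ) ^ (2 * k) ≤ 4 * (D ^ α) ^ (2 * k) := by gcongr
      _ = (2 * D ^ β) ^ 2 * D := by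
          rw [← Real.rpow_natCast (D ^ α), ← Real.rpow_mul hD0.le, mul_pow,
            ← Real.rpow_natCast (D ^ β), ← Real.rpow_mul hD0.le]
          have e : α * ((2 * k : ℕ) : ℝ) = β * ((2 : ℕ) : ℝ) + 1 := by
            rw [hα, hβ]
            push_cast
            field_simp
            ring
          rw [e, Real.rpow_add hD0, Real.rpow_one]
          ring
      _ ≤ (⌈2 * D ^ β⌉₊ : ℝ) ^ 2 * D := by gcongr
  · have hV : (⌈2 * D ^ β⌉₊ : ℝ) ≤ 3 * D ^ β := by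
      have := Nat.ceil_lt_add_one (by positivity : (0 : ℝ) ≤ 2 * D ^ β)
      linarith
    have hlt : ((⌈2 * D ^ β⌉₊ : ℕ) : ℝ) ^ 200 ≤ (B : ℝ) := by
      calc ((⌈2 * D ^ β⌉₊ : ℕ) : ℝ) ^ 200 ≤ (3 * D ^ β) ^ 200 := by gcongr
        _ = 3 ^ 200 * D ^ (β * 200) := by
            rw [mul_pow, ← Real.rpow_natCast (D ^ β), ← Real.rpow_mul hD0.le]
            norm_num
        _ ≤ (D ^ ((1 : ℝ) / (10 * k)) / 2) * D ^ (β * 200) := by
            have := h1 D hDD1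
            gcongr
            linarith
        _ = D ^ ((1 : ℝ) / (10 * k) + β * 200) / 2 := by
            rw [Real.rpow_add hD0]; ring
        _ ≤ D ^ α / 2 := by
            have e : (1 : ℝ) / (10 * k) + β * 200 = 1 / (2 * k) := by
              rw [hβ]; field_simp; norm_num
            rw [e]
            have : D ^ ((1 : ℝ) / (2 * k)) ≤ D ^ α := by
              apply Real.rpow_le_rpow_of_exponent_le hD1'
              rw [hα]
              have : (0 : ℝ) ≤ 1 / (500 * k ^ 2) := by positivity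
              linarith
            linarith
        _ ≤ B := hBge2
    exact_mod_cast hlt
  · have hMr : (C : ℝ) * (B : ℝ) ^ 997 < (M : ℝ) ^ 1000 := by
      have hC := h2 D hDD2
      have hDp : (0 : ℝ) < (D ^ α) ^ 997 := by positivity
      calc (C : ℝ) * (B : ℝ) ^ 997 ≤ C * (D ^ α) ^ 997 := by gcongr
        _ < D ^ ((1 : ℝ) / k) * (D ^ α) ^ 997 := by
            exact mul_lt_mul_of_pos_right hC hDp
        _ = D ^ ((1 : ℝ) / k + α * 997) := by
            rw [← Real.rpow_natCast (D ^ α), ← Real.rpow_mul hD0.le, ← Real.rpow_add hD0]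
            norm_num
        _ ≤ D ^ (((1 : ℝ) / (2 * k) + 3 / (2000 * k ^ 2)) * 1000) := by
            apply Real.rpow_le_rpow_of_exponent_le hD1'
            rw [hα]
            have e : ((1 : ℝ) / (2 * k) + 3 / (2000 * k ^ 2)) * 1000
                - (1 / k + (1 / (2 * k) + 1 / (500 * k ^ 2)) * 997)
                = (1 / (2 * k ^ 2)) * (k - 988 / 1000) := by
              field_simp; ring
            have h3 : (0 : ℝ) ≤ (1 / (2 * (k : ℝ) ^ 2)) * (k - 988 / 1000) := by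
              apply mul_nonneg (by positivity)
              linarith
            linarith
        _ = (D ^ ((1 : ℝ) / (2 * k) + 3 / (2000 * k ^ 2))) ^ 1000 := by
            have h4 := Real.rpow_mul_natCast hD0.le
              ((1 : ℝ) / (2 * k) + 3 / (2000 * k ^ 2)) 1000
            push_cast at h4
            exact h4
        _ ≤ (M : ℝ) ^ 1000 := by
            gcongr
    exact_mod_cast hMr

end I_PW

open I_PW in
theorem PW_pf (hBGC : S_BGC) (h1a : ClaimC1a) (h1c : ClaimC1c) : S_PW := by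
  intro k hk
  have hk' : (5 : ℝ) ≤ k := by exact_mod_cast hk
  have hk0 : (0 : ℝ) < k := by linarith
  obtain ⟨C0, hC0⟩ := hBGC k hk
  obtain ⟨C1, hC1, hcl⟩ := h1c (1 / (4000 * (k : ℝ) ^ 2)) (by positivity)
  obtain ⟨D0, hD0, hnum⟩ := num k hk C0
  have hε : (1 : ℝ) / (4000 * (k : ℝ) ^ 2) ≤ 1 / 2 := by
    rw [div_le_div_iff₀ (by positivity) (by norm_num)]
    nlinarith
  refine ⟨6 * C1 + C1 * D0, by positivity, ?_⟩
  intro d hd hd4 hM
  obtain ⟨hfin, hcard⟩ := h1a d hd hd4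
  have hcl' := hcl d hd hd4
  have hD1 : (1 : ℝ) ≤ |(d : ℝ)| := by
    have : (1 : ℤ) ≤ |d| := Int.one_le_abs hd.ne
    exact_mod_cast this
  set D : ℝ := |(d : ℝ)| with hD
  have hDpos : 0 < D := by linarith
  have hcl2 : (Nat.card (ClassGroup ↥(Od d)) : ℝ) ≤ C1 * D ^ ((1 : ℝ) / 2 + 1 / (4000 * (k : ℝ) ^ 2)) := by
    refine le_trans ?_ hcl'
    exact_mod_cast hcard
  have hsub : (Nat.card {y : ClassGroup ↥(Od d) // y ^ k = 1} : ℝ) ≤ Nat.card (ClassGroup ↥(Od d)) := by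
    exact_mod_cast Finite.card_subtype_le _
  have hexp : (0 : ℝ) ≤ (1 : ℝ) / 2 - 1 / (2 * k) - 1 / (800 * k ^ 2) := by
    have e1 : (1 : ℝ) / (2 * k) ≤ 1 / 10 := by
      rw [div_le_div_iff₀ (by positivity) (by norm_num)]; linarith
    have e2 : (1 : ℝ) / (800 * (k : ℝ) ^ 2) ≤ 1 / 10 := by
      rw [div_le_div_iff₀ (by positivity) (by norm_num)]; nlinarith
    linarith
  by_cases hlarge : D0 ≤ D
  · obtain ⟨V, hV1, hB1, hc1, hc2, hc3⟩ := hnum D _ hlarge hM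
    set B : ℕ := ⌊D ^ ((1 : ℝ) / (2 * k) + 1 / (500 * k ^ 2))⌋₊ with hB
    have hnat : ((d.natAbs : ℕ) : ℝ) = D := by
      rw [hD, Nat.cast_natAbs]
      push_cast
      rfl
    have hc1' : 4 * B ^ (2 * k) ≤ V ^ 2 * d.natAbs := by
      rw [← hnat] at hc1
      exact_mod_cast hc1
    have hfinal := hC0 d B V hd hd4 hB1 hV1 hc1' hc2 hc3 hfin
    have hfinal' : (Nat.card {y : ClassGroup ↥(Od d) // y ^ k = 1} : ℝ) * MM d B ≤
        6 * Nat.card (ClassGroup ↥(Od d)) := by exact_mod_cast hfinal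
    set T : ℝ := (Nat.card {y : ClassGroup ↥(Od d) // y ^ k = 1} : ℝ) with hT
    have hT0 : 0 ≤ T := by rw [hT]; positivity
    set γ : ℝ := (1 : ℝ) / (2 * k) + 3 / (2000 * k ^ 2) with hγ
    have hγp : (0 : ℝ) < D ^ γ := by positivity
    have h5 : T * D ^ γ ≤ 6 * C1 * D ^ ((1 : ℝ) / 2 + 1 / (4000 * (k : ℝ) ^ 2)) := by
      calc T * D ^ γ ≤ T * MM d B := by gcongr
        _ ≤ 6 * Nat.card (ClassGroup ↥(Od d)) := hfinal'
        _ ≤ 6 * (C1 * D ^ ((1 : ℝ) / 2 + 1 / (4000 * (k : ℝ) ^ 2))) := by gcongr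
        _ = _ := by ring
    have h6 : D ^ ((1 : ℝ) / 2 + 1 / (4000 * (k : ℝ) ^ 2))
        = D ^ ((1 : ℝ) / 2 - 1 / (2 * k) - 1 / (800 * k ^ 2)) * D ^ γ := by
      rw [← Real.rpow_add hDpos]
      congr 1
      rw [hγ]
      field_simp
      ring
    rw [h6, ← mul_assoc] at h5
    have h7 := le_of_mul_le_mul_right h5 hγp
    refine h7.trans ?_
    gcongr
    have : 0 ≤ C1 * D0 := by positivity
    linarith
  · have hlt : D < D0 := not_le.1 hlarge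
    calc (Nat.card {y : ClassGroup ↥(Od d) // y ^ k = 1} : ℝ)
        ≤ Nat.card (ClassGroup ↥(Od d)) := hsub
      _ ≤ C1 * D ^ ((1 : ℝ) / 2 + 1 / (4000 * (k : ℝ) ^ 2)) := hcl2
      _ ≤ C1 * D ^ (1 : ℝ) := by
          have h8 := Real.rpow_le_rpow_of_exponent_le hD1
            (by linarith : (1 : ℝ) / 2 + 1 / (4000 * (k : ℝ) ^ 2) ≤ 1)
          exact mul_le_mul_of_nonneg_left h8 hC1.le
      _ = C1 * D := by rw [Real.rpow_one]
      _ ≤ (6 * C1 + C1 * D0) * 1 := by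
          have : C1 * D ≤ C1 * D0 := by gcongr
          linarith
      _ ≤ (6 * C1 + C1 * D0) * D ^ ((1 : ℝ) / 2 - 1 / (2 * k) - 1 / (800 * k ^ 2)) := by
          gcongr
          exact Real.one_le_rpow hD1 hexp

end Pool.Agent.Work.MP_e0c7e8_nt.BG
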