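import Pool.Agent.Work.MP_e0c7e8_nt.BG.Stmts

/-!
# Item STA: the auxiliary relation
-/

set_option autoImplicit false

namespace Pool.Agent.Work.MP_e0c7e8_nt.BG

open Finset Polynomial

namespace I_STA

/-- The conditions on the points. -/
def Ok (k B : ℕ) (p : Co) (P : Pt ℤ) : Prop :=
  On k p P ∧ 1 ≤ P.T ∧ P.T ≤ B ∧ 1 ≤ P.S ∧ P.S ≤ B ∧
    1 ≤ P.al ∧ P.al ≤ B ∧ 1 ≤ P.be ∧ P.be ≤ B ∧ P.x ≠ 0

lemma abs_x_le {k B : ℕ} {p : Co} {P : Pt ℤ} (hp : p.Good) (h : Ok k B p P) :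
    |P.x| ≤ 2 * (B : ℤ) ^ k := by
  obtain ⟨hon, h1, h2, h3, h4, -⟩ := h
  have e0 := hon.e0
  simp only [Int.cast_id] at e0
  have hD : 0 ≤ p.D * p.a ^ 2 := by
    have := hp.D
    positivity
  have hTS : (P.T * P.S) ^ k ≤ ((B : ℤ) ^ k) ^ 2 := by
    have h5 : P.T * P.S ≤ (B : ℤ) * B := by
      apply mul_le_mul h2 h4 (by linarith) (by positivity)
    calc (P.T * P.S) ^ k ≤ ((B : ℤ) * B) ^ k := pow_le_pow_left₀ (by nlinarith) h5 k
      _ = ((B : ℤ) ^ k) ^ 2 := by ring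
  have h6 : P.x ^ 2 ≤ (2 * (B : ℤ) ^ k) ^ 2 := by
    have : (2 * (B : ℤ) ^ k) ^ 2 = 4 * ((B : ℤ) ^ k) ^ 2 := by ring
    rw [this]
    linarith
  exact abs_le_of_sq_le_sq h6 (by positivity)

lemma abs_mo_le {k B : ℕ} {p : Co} {P : Pt ℤ} (hp : p.Good) (h : Ok k B p P) (u : Ix)
    (hu : u.2.2.1 < 2) : |mo u P| ≤ 2 * (B : ℤ) ^ wt k u := by
  have hx := abs_x_le hp h
  obtain ⟨hon, h1, h2, h3, h4, h5, h6, h7, h8, h9⟩ := h
  have hB : (1 : ℤ) ≤ B := h1.trans h2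
  have hxe : |P.x| ^ u.2.2.1 ≤ 2 * (B : ℤ) ^ (k * u.2.2.1) := by
    interval_cases hh : u.2.2.1
    · simp
    · rw [pow_one, mul_one]
      exact hx
  have a1 : |P.T| ^ u.1 ≤ (B : ℤ) ^ u.1 := by
    rw [abs_of_nonneg (by linarith)]
    exact pow_le_pow_left₀ (by linarith) h2 _
  have a2 : |P.S| ^ u.2.1 ≤ (B : ℤ) ^ u.2.1 := by
    rw [abs_of_nonneg (by linarith)]
    exact pow_le_pow_left₀ (by linarith) h4 _
  have a3 : |P.al| ^ u.2.2.2.1 ≤ (B : ℤ) ^ u.2.2.2.1 := by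
    rw [abs_of_nonneg (by linarith)]
    exact pow_le_pow_left₀ (by linarith) h6 _
  have a4 : |P.be| ^ u.2.2.2.2 ≤ (B : ℤ) ^ u.2.2.2.2 := by
    rw [abs_of_nonneg (by linarith)]
    exact pow_le_pow_left₀ (by linarith) h8 _
  unfold mo
  rw [abs_mul, abs_mul, abs_mul, abs_mul, abs_pow, abs_pow, abs_pow, abs_pow, abs_pow]
  calc |P.T| ^ u.1 * |P.S| ^ u.2.1 * |P.x| ^ u.2.2.1 * |P.al| ^ u.2.2.2.1 * |P.be| ^ u.2.2.2.2
      ≤ (B : ℤ) ^ u.1 * (B : ℤ) ^ u.2.1 * (2 * (B : ℤ) ^ (k * u.2.2.1)) * (B : ℤ) ^ u.2.2.2.1 *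
          (B : ℤ) ^ u.2.2.2.2 := by gcongr
    _ = 2 * (B : ℤ) ^ wt k u := by
        unfold wt
        rw [pow_add, pow_add, pow_add, pow_add]
        ring

lemma box_mono {k M : ℕ} (hk : 5 ≤ k) : WB k M ⊆ Box k M := by
  intro u hu
  unfold WB at hu
  rw [mem_filter] at hu
  have h := hu.1
  unfold Box at h ⊢
  simp only [mem_product, mem_range] at h ⊢
  obtain ⟨h1, h2, h3, h4, h5⟩ := h
  exact ⟨h1, h2, h3, by omega, by omega⟩

lemma wb_e {k M : ℕ} {u : Ix} (hu : u ∈ WB k M) : u.2.2.1 < 2 ∧ wt k u ≤ M := by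
  unfold WB at hu
  rw [mem_filter] at hu
  have h := hu.1
  unfold Box at h
  simp only [mem_product, mem_range] at h
  exact ⟨h.2.2.1, hu.2⟩

lemma mo_map (u : Ix) (P : Pt ℤ) :
    mo u (P.map (fun z : ℤ => (z : ℚ))) = ((mo u P : ℤ) : ℚ) := by
  unfold mo Pt.map
  push_cast
  rfl

/-- The number of points in a box. -/
lemma card_le {k B : ℕ} {p : Co} (hp : p.Good) (S : Finset (Pt ℤ)) (hS : ∀ P ∈ S, Ok k B p P) :
    S.card ≤ B ^ 4 * (4 * B ^ k + 1) := by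
  classical
  have h1 : S.card ≤ (Icc (1 : ℤ) B ×ˢ Icc (1 : ℤ) B ×ˢ Icc (-(2 * (B : ℤ) ^ k)) (2 * (B : ℤ) ^ k) ×ˢ
      Icc (1 : ℤ) B ×ˢ Icc (1 : ℤ) B).card := by
    apply Finset.card_le_card_of_injOn (fun P : Pt ℤ => (P.T, P.S, P.x, P.al, P.be))
    · intro P hP
      have h2 := hS P hP
      have h3 := abs_le.1 (abs_x_le hp h2)
      obtain ⟨-, h4, h5, h6, h7, h8, h9, h10, h11, -⟩ := h2
      simp only [coe_product, Set.mem_prod, mem_coe, mem_Icc]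
      exact ⟨⟨h4, h5⟩, ⟨h6, h7⟩, h3, ⟨h8, h9⟩, h10, h11⟩
    · intro P _ Q _ h
      simp only [Prod.mk.injEq] at h
      cases P
      cases Q
      simp only at h
      obtain ⟨rfl, rfl, rfl, rfl, rfl⟩ := h
      rfl
  refine h1.trans (le_of_eq ?_)
  rw [card_product, card_product, card_product, card_product, Int.card_Icc, Int.card_Icc]
  have e1 : ((B : ℤ) + 1 - 1).toNat = B := by simp
  have e2 : (2 * (B : ℤ) ^ k + 1 - -(2 * (B : ℤ) ^ k)).toNat = 4 * B ^ k + 1 := by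
    have : (2 * (B : ℤ) ^ k + 1 - -(2 * (B : ℤ) ^ k)) = ((4 * B ^ k + 1 : ℕ) : ℤ) := by
      push_cast; ring
    rw [this, Int.toNat_natCast]
  rw [e1, e2]
  ring

/-- The small case: one point. -/
lemma small {k B M : ℕ} {p : Co} (hk : 5 ≤ k) (hM : 1 ≤ M) (hB : 1 ≤ B) (hp : p.Good)
    (S : Finset (Pt ℤ)) (hS : ∀ P ∈ S, Ok k B p P) (C : ℕ)
    (hC : (B ^ 4 * (4 * B ^ k + 1)) ^ 25 ≤ C) :
    ∃ K ⊆ S, S.card ^ 25 ≤ C * B ^ 9 * K.card ^ 25 ∧ ∃ g : Ix →₀ ℚ, g ≠ 0 ∧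
      g.support ⊆ Box k M ∧ ∀ P ∈ K, ev g (P.map (fun z : ℤ => (z : ℚ))) = 0 := by
  classical
  have hz : ((0, 0, 0, 0, 0) : Ix) ∈ Box k M := by
    unfold Box
    simp only [mem_product, mem_range]
    omega
  have ho : ((1, 0, 0, 0, 0) : Ix) ∈ Box k M := by
    unfold Box
    simp only [mem_product, mem_range]
    omega
  rcases S.eq_empty_or_nonempty with h0 | ⟨P, hP⟩
  · subst h0
    refine ⟨∅, Subset.refl _, by simp, Finsupp.single (0, 0, 0, 0, 0) 1, ?_, ?_, ?_⟩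
    · exact Finsupp.single_ne_zero.2 one_ne_zero
    · intro u hu
      have := Finsupp.support_single_subset hu
      rw [mem_singleton] at this
      rw [this]
      exact hz
    · intro P hP
      exact absurd hP (notMem_empty _)
  · refine ⟨{P}, singleton_subset_iff.2 hP, ?_, Finsupp.single (1, 0, 0, 0, 0) 1 -
      Finsupp.single (0, 0, 0, 0, 0) (P.T : ℚ), ?_, ?_, ?_⟩
    · rw [card_singleton, one_pow, mul_one]
      calc S.card ^ 25 ≤ (B ^ 4 * (4 * B ^ k + 1)) ^ 25 :=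
            Nat.pow_le_pow_left (card_le hp S hS) 25
        _ ≤ C * 1 := by rw [mul_one]; exact hC
        _ ≤ C * B ^ 9 := Nat.mul_le_mul_left C (Nat.one_le_pow _ _ hB)
    · intro h
      have h1 := DFunLike.congr_fun h ((1, 0, 0, 0, 0) : Ix)
      rw [Finsupp.sub_apply, Finsupp.single_eq_same, Finsupp.single_apply, if_neg (by simp)] at h1
      simp at h1
    · intro u hu
      have h1 := Finsupp.support_sub hu
      rw [mem_union] at h1
      rcases h1 with h1 | h1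
      · have := Finsupp.support_single_subset h1
        rw [mem_singleton] at this
        rw [this]
        exact ho
      · have := Finsupp.support_single_subset h1
        rw [mem_singleton] at this
        rw [this]
        exact hz
    · intro Q hQ
      rw [mem_singleton] at hQ
      subst hQ
      unfold ev
      rw [Finsupp.sum_sub_index (by intro a b₁ b₂; push_cast; ring),
        Finsupp.sum_single_index (by simp), Finsupp.sum_single_index (by simp)]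
      simp [mo, Pt.map]

/-- The floor of `B ^ 0.18`. -/
lemma exists_y (B : ℕ) (hB : 1 ≤ B) :
    ∃ y : ℕ, 1 ≤ y ∧ y ^ 100 ≤ B ^ 18 ∧ B ^ 18 < (y + 1) ^ 100 := by
  obtain ⟨y, hy⟩ : ∃ y : ℕ, y = Nat.findGreatest (fun y => y ^ 100 ≤ B ^ 18) (B ^ 18) := ⟨_, rfl⟩
  have h1 : y ^ 100 ≤ B ^ 18 := by
    rw [hy]
    exact Nat.findGreatest_spec (P := fun y => y ^ 100 ≤ B ^ 18) (m := 1)
      (Nat.one_le_pow _ _ hB) (by rw [one_pow]; exact Nat.one_le_pow _ _ hB)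
  have h2 : 1 ≤ y := by
    rw [hy]
    exact Nat.le_findGreatest (Nat.one_le_pow _ _ hB)
      (by rw [one_pow]; exact Nat.one_le_pow _ _ hB)
  refine ⟨y, h2, h1, ?_⟩
  by_contra hcon
  push Not at hcon
  have h3 : y + 1 ≤ B ^ 18 := by
    calc y + 1 ≤ (y + 1) ^ 100 := Nat.le_self_pow (by norm_num) _
      _ ≤ B ^ 18 := hcon
  have h4 : y + 1 ≤ y := by
    conv_rhs => rw [hy]
    exact Nat.le_findGreatest h3 hcon
  omega

lemma y_pow {B y k : ℕ} (hB : 2 ^ 100 ≤ B) (hy1 : 1 ≤ y) (hy : B ^ 18 < (y + 1) ^ 100) :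
    B ^ (k + 3) ≤ y ^ (6 * (k + 3)) := by
  have h1 : B ^ 17 ≤ y ^ 100 := by
    have h2 : (y + 1) ^ 100 ≤ 2 ^ 100 * y ^ 100 := by
      rw [← mul_pow]
      exact Nat.pow_le_pow_left (by omega) 100
    have h3 : 2 ^ 100 * B ^ 17 ≤ 2 ^ 100 * y ^ 100 := by
      calc 2 ^ 100 * B ^ 17 ≤ B * B ^ 17 := Nat.mul_le_mul_right _ hB
        _ = B ^ 18 := by ring
        _ ≤ (y + 1) ^ 100 := hy.le
        _ ≤ 2 ^ 100 * y ^ 100 := h2
    exact Nat.le_of_mul_le_mul_left h3 (by positivity)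
  have hB1 : 1 ≤ B := le_trans (Nat.one_le_two_pow) hB
  have h4 : (B ^ (k + 3)) ^ 100 ≤ (y ^ (6 * (k + 3))) ^ 100 := by
    calc (B ^ (k + 3)) ^ 100 = B ^ (100 * (k + 3)) := by rw [← pow_mul]; ring_nf
      _ ≤ B ^ (102 * (k + 3)) := Nat.pow_le_pow_right hB1 (by omega)
      _ = (B ^ 17) ^ (6 * (k + 3)) := by rw [← pow_mul]; ring_nf
      _ ≤ (y ^ 100) ^ (6 * (k + 3)) := Nat.pow_le_pow_left h1 _
      _ = (y ^ (6 * (k + 3))) ^ 100 := by rw [← pow_mul, ← pow_mul]; ring_nf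
  exact le_of_pow_le_pow_left₀ (by norm_num) (by positivity) h4

lemma not_dvd_a (n q B : ℕ) (a : ℤ) (ha0 : a ≠ 0) (ha : |a| ^ n ≤ B) (hq : B < q ^ n) :
    ¬ (q : ℤ) ∣ a := by
  intro hdv
  have h1 : (q : ℤ) ≤ |a| := Int.le_of_dvd (abs_pos.2 ha0) ((dvd_abs _ _).2 hdv)
  have h2 : (q : ℤ) ^ n ≤ |a| ^ n := pow_le_pow_left₀ (Int.natCast_nonneg q) h1 n
  have h3 : (q : ℤ) ^ n ≤ B := h2.trans ha
  have h4 : q ^ n ≤ B := by exact_mod_cast h3
  exact absurd h4 (not_le.2 hq)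

lemma lt_of_pow (n a q B : ℕ) (h1 : a ^ n ≤ B) (h2 : B < q ^ n) : a < q := by
  by_contra hcon
  push Not at hcon
  have := Nat.pow_le_pow_left hcon n
  omega

lemma q_le (q y B L : ℕ) (h1 : q ≤ 4 ^ L * y) (n m : ℕ) (h2 : y ^ n ≤ B ^ m) :
    q ^ n ≤ 4 ^ (n * L) * B ^ m := by
  calc q ^ n ≤ (4 ^ L * y) ^ n := Nat.pow_le_pow_left h1 n
    _ = 4 ^ (n * L) * y ^ n := by rw [mul_pow, ← pow_mul, mul_comm L n]
    _ ≤ 4 ^ (n * L) * B ^ m := Nat.mul_le_mul_left _ h2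

lemma q_half (q B L n m : ℕ) (h : q ^ (2 * n) ≤ 4 ^ (2 * n * L) * B ^ (2 * m)) :
    q ^ n ≤ 4 ^ (n * L) * B ^ m := by
  have h3 : (q ^ n) ^ 2 ≤ (4 ^ (n * L) * B ^ m) ^ 2 := by
    calc (q ^ n) ^ 2 = q ^ (2 * n) := by rw [← pow_mul]; ring_nf
      _ ≤ 4 ^ (2 * n * L) * B ^ (2 * m) := h
      _ = (4 ^ (n * L) * B ^ m) ^ 2 := by
          rw [mul_pow, ← pow_mul, ← pow_mul]
          ring_nf
  exact le_of_pow_le_pow_left₀ (by norm_num) (Nat.zero_le _) h3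

lemma card_fin (k q c c' L B n m C0 C : ℕ) (h1 : c ≤ 4 * k ^ 2 * q ^ 2 * c')
    (h2 : q ^ (2 * n) ≤ 4 ^ (2 * n * L) * B ^ m) (hC : (4 * k ^ 2) ^ n * 4 ^ (2 * n * L) ≤ C) :
    c ^ n ≤ (C0 + C) * B ^ m * c' ^ n := by
  calc c ^ n ≤ (4 * k ^ 2 * q ^ 2 * c') ^ n := Nat.pow_le_pow_left h1 n
    _ = (4 * k ^ 2) ^ n * q ^ (2 * n) * c' ^ n := by
        rw [mul_pow, mul_pow, ← pow_mul q 2 n]
    _ ≤ (4 * k ^ 2) ^ n * (4 ^ (2 * n * L) * B ^ m) * c' ^ n :=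
        Nat.mul_le_mul_right _ (Nat.mul_le_mul_left _ h2)
    _ = ((4 * k ^ 2) ^ n * 4 ^ (2 * n * L)) * B ^ m * c' ^ n := by ring
    _ ≤ (C0 + C) * B ^ m * c' ^ n := by
        apply Nat.mul_le_mul_right
        apply Nat.mul_le_mul_right
        omega

/-- The box principle for a subalgebra. -/
lemma box_alg (hBOX : S_BOX) (κ ι : Type) [Fintype ι] (m : ℕ)
    (R : Subalgebra (ZMod m) (κ → ZMod m)) (hm : 0 < m) (hfin : Finite R)
    (f : ι → κ → ℤ) (L F : ι → ℕ)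
    (hf : ∀ v, (fun i => ((f v i : ℤ) : ZMod m)) ∈ R) (hF : ∀ v i, |f v i| ≤ F v)
    (hc : Nat.card R < ∏ v, (L v + 1)) (hs : ∑ v, L v * F v < m) :
    ∃ l : ι → ℤ, l ≠ 0 ∧ (∀ v, |l v| ≤ L v) ∧ ∀ i, ∑ v, l v * f v i = 0 := by
  have hmem : ∀ x : κ → ZMod m, x ∈ R.toSubring.toAddSubgroup ↔ x ∈ R := fun x => Iff.rfl
  have e : ↥(R.toSubring.toAddSubgroup) ≃ ↥R :=
    Equiv.subtypeEquivRight hmem
  have hfin' : Finite ↥(R.toSubring.toAddSubgroup) := Finite.of_equiv _ e.symm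
  have hcard : Nat.card ↥(R.toSubring.toAddSubgroup) = Nat.card ↥R := Nat.card_congr e
  exact hBOX κ ι m R.toSubring.toAddSubgroup hm hfin' f L F (fun v => (hmem _).2 (hf v)) hF
    (by rw [hcard]; exact hc) hs

end I_STA

open I_STA in
theorem STA_pf (hPC : S_PC) (hCLS : S_CLS) (hINR : S_INR) (hCD2 : S_CD2) (hNUA : S_NUA)
    (hBOX : S_BOX) : S_STA := by
  classical
  intro k hk
  obtain ⟨M, s, hM, hN⟩ := hNUA k hk
  obtain ⟨L, hL⟩ : ∃ L : ℕ, L = 6 * (k + 3) := ⟨_, rfl⟩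
  obtain ⟨C1, hC1⟩ : ∃ C1 : ℕ, C1 = 4 ^ (100 * L) + 2 * (WB k M).card := ⟨_, rfl⟩
  obtain ⟨B0, hB0⟩ := hN C1
  obtain ⟨B1, hB1⟩ : ∃ B1 : ℕ, B1 = B0 + 2 ^ 100 + (2 * k) ^ 100 + 1 := ⟨_, rfl⟩
  refine ⟨M, (B1 ^ 4 * (4 * B1 ^ k + 1)) ^ 25 + (4 * k ^ 2) ^ 25 * 4 ^ (2 * 25 * L), ?_⟩
  intro B p S hB hp ha hS'
  have hS : ∀ P ∈ S, Ok k B p P := hS'
  by_cases hBB : B < B1
  · refine small hk hM hB hp S hS _ ?_
    have h1 : (B ^ 4 * (4 * B ^ k + 1)) ^ 25 ≤ (B1 ^ 4 * (4 * B1 ^ k + 1)) ^ 25 := by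
      have h2 : B ≤ B1 := hBB.le
      gcongr
    omega
  push Not at hBB
  have hBB0 : B0 ≤ B := by omega
  have hBB2 : 2 ^ 100 ≤ B := by omega
  have hBBk : (2 * k) ^ 100 ≤ B := by omega
  obtain ⟨y, hy1, hy2, hy3⟩ := exists_y B hB
  have hyL := y_pow (k := k) hBB2 hy1 hy3
  rw [← hL] at hyL
  -- choice of the prime
  obtain ⟨q, hq, hyq, hqy, S', hS'S, hScard, hqN⟩ := hPC (Pt ℤ) S
    (fun P => P.x * P.al * P.be) y L hy1 (by omega) (by
      intro P hP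
      have h1 := hS P hP
      have hx := abs_x_le hp h1
      obtain ⟨-, -, -, -, -, h8, h9, h10, h11, hx0⟩ := h1
      refine ⟨mul_ne_zero (mul_ne_zero hx0 (by omega)) (by omega), ?_⟩
      have h12 : |P.x * P.al * P.be| ≤ 2 * (B : ℤ) ^ k * B * B := by
        rw [abs_mul, abs_mul, abs_of_nonneg (by omega : (0 : ℤ) ≤ P.al),
          abs_of_nonneg (by omega : (0 : ℤ) ≤ P.be)]
        gcongr
      have h13 : (2 : ℤ) * (B : ℤ) ^ k * B * B ≤ (B : ℤ) ^ (k + 3) := by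
        have h14 : (2 : ℤ) ≤ B := by
          have : 2 ≤ B := le_trans (by norm_num) hBB2
          exact_mod_cast this
        calc (2 : ℤ) * (B : ℤ) ^ k * B * B ≤ B * (B : ℤ) ^ k * B * B := by gcongr
          _ = (B : ℤ) ^ (k + 3) := by ring
      calc |P.x * P.al * P.be| ≤ (B : ℤ) ^ (k + 3) := h12.trans h13
        _ ≤ (y : ℤ) ^ L := by exact_mod_cast hyL)
  have hq1 : B ^ 18 < q ^ 100 := lt_of_lt_of_le hy3 (Nat.pow_le_pow_left hyq 100)
  have hq2 : q ^ 100 ≤ 4 ^ (100 * L) * B ^ 18 := q_le q y B L hqy 100 18 hy2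
  have hq3 : q ^ 100 ≤ C1 * B ^ 18 := by
    refine hq2.trans (Nat.mul_le_mul_right _ ?_)
    rw [hC1]
    exact Nat.le_add_right _ _
  have hqB : B < q ^ 100 := lt_of_le_of_lt (Nat.le_self_pow (by norm_num) B) hq1
  have hqa : ¬ (q : ℤ) ∣ p.a := not_dvd_a 100 q B p.a hp.a ha hqB
  have hqk : 2 * k < q := lt_of_pow 100 (2 * k) q B hBBk hqB
  obtain ⟨K, hKS, hKcard, hKmod⟩ := hCLS k q p S' (by omega) hq (by omega) hqa
    (fun P hP => (hS P (hS'S hP)).1)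
  refine ⟨K, hKS.trans hS'S, ?_, ?_⟩
  · have h1 : S.card ≤ 4 * k ^ 2 * q ^ 2 * K.card := by
      calc S.card ≤ 2 * S'.card := hScard
        _ ≤ 2 * (2 * k ^ 2 * q ^ 2 * K.card) := Nat.mul_le_mul_left 2 hKcard
        _ = 4 * k ^ 2 * q ^ 2 * K.card := by ring
    have h2 : q ^ 50 ≤ 4 ^ (50 * L) * B ^ 9 := q_half q B L 50 9 hq2
    exact card_fin k q S.card K.card L B 25 9 _ _ h1 h2 le_rfl
  · rcases K.eq_empty_or_nonempty with hK0 | ⟨P0, hP0⟩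
    · subst hK0
      obtain ⟨K', -, -, g, hg1, hg2, -⟩ := small (k := k) (B := B) (M := M) (p := p) hk hM hB hp ∅
        (by simp) ((B ^ 4 * (4 * B ^ k + 1)) ^ 25) (Nat.le_refl _)
      exact ⟨g, hg1, hg2, by simp⟩
    have hin := hINR k q s p ↥K (fun i => i.1) P0 (by omega) hq hqk hqa
      (fun i => (hS i.1 (hS'S (hKS i.2))).1) (by
        intro i
        have h1 := hqN i.1 (hKS i.2)
        refine ⟨fun h => h1 ?_, fun h => h1 ?_, fun h => h1 ?_⟩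
        · exact Dvd.dvd.mul_right (Dvd.dvd.mul_right h _) _
        · exact Dvd.dvd.mul_right (Dvd.dvd.mul_left h _) _
        · exact Dvd.dvd.mul_left h _) (fun i => hKmod i.1 i.2 P0 hP0)
    have hRR := hCD2 q s ↥K (fun i => i.1.T - P0.T) (fun i => i.1.S - P0.S)
      hq.one_lt.le (fun i => ⟨(hKmod i.1 i.2 P0 hP0).1, (hKmod i.1 i.2 P0 hP0).2.1⟩)
    generalize RS q s {fun i : ↥K => i.1.T - P0.T, fun i : ↥K => i.1.S - P0.S} = R at hin hRR
    obtain ⟨hfin, hcard⟩ := hRR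
    obtain ⟨hnum1, hnum2⟩ := hB0 B q hBB0 hq1 hq3
    obtain ⟨l, hl0, hl1, hl2⟩ := box_alg hBOX ↥K ↥(WB k M) (q ^ s) R
      (pow_pos hq.pos s) hfin (fun v i => mo v.1 i.1) (fun v => B ^ (M - wt k v.1))
      (fun v => 2 * B ^ (wt k v.1)) (fun v => hin v.1) (by
        intro v i
        have := abs_mo_le hp (hS i.1 (hS'S (hKS i.2))) v.1 (wb_e v.2).1
        push_cast
        exact this) (by
        refine lt_of_le_of_lt hcard (lt_of_lt_of_eq hnum2 ?_)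
        rw [← Finset.prod_coe_sort]) (by
        have h1 : ∑ v : ↥(WB k M), B ^ (M - wt k v.1) * (2 * B ^ (wt k v.1)) =
            2 * (WB k M).card * B ^ M := by
          have h2 : ∀ v : ↥(WB k M), B ^ (M - wt k v.1) * (2 * B ^ (wt k v.1)) = 2 * B ^ M := by
            intro v
            have h3 : B ^ (M - wt k v.1) * B ^ (wt k v.1) = B ^ M := by
              rw [← pow_add, Nat.sub_add_cancel (wb_e v.2).2]
            calc B ^ (M - wt k v.1) * (2 * B ^ (wt k v.1)) =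
                2 * (B ^ (M - wt k v.1) * B ^ (wt k v.1)) := by ring
              _ = 2 * B ^ M := by rw [h3]
          rw [Finset.sum_congr rfl (fun v _ => h2 v), Finset.sum_const, Finset.card_univ,
            Fintype.card_coe, smul_eq_mul]
          ring
        rw [h1]
        refine lt_of_le_of_lt ?_ hnum1
        apply Nat.mul_le_mul_right
        rw [hC1]
        exact Nat.le_add_left _ _)
    refine ⟨Finsupp.onFinset (WB k M) (fun u => if h : u ∈ WB k M then ((l ⟨u, h⟩ : ℤ) : ℚ) else 0)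
      (by
        intro u hu
        by_contra hcon
        exact hu (dif_neg hcon)), ?_, ?_, ?_⟩
    · intro h0
      apply hl0
      funext v
      have h1 := DFunLike.congr_fun h0 v.1
      rw [Finsupp.onFinset_apply, dif_pos v.2, Finsupp.zero_apply] at h1
      have h2 : l v = 0 := by exact_mod_cast h1
      rw [h2]
      rfl
    · exact Finsupp.support_onFinset_subset.trans (box_mono hk)
    · intro P hP
      unfold ev
      rw [Finsupp.onFinset_sum _ (by intro a; simp)]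
      have h1 := hl2 ⟨P, hP⟩
      have h2 : ((∑ v : ↥(WB k M), l v * mo v.1 P : ℤ) : ℚ) = 0 := by
        rw [h1]
        simp
      rw [← h2]
      push_cast
      rw [← Finset.sum_coe_sort]
      refine Finset.sum_congr rfl fun v _ => ?_
      rw [dif_pos v.2, mo_map]
      try simp

end Pool.Agent.Work.MP_e0c7e8_nt.BG
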