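import Pool.Agent.Work.MP_e0c7e8_nt.BG.Stmts

/-!
# Item TP: Theorem P, the assembly of the Diophantine part
-/

set_option autoImplicit false

namespace Pool.Agent.Work.MP_e0c7e8_nt.BG

open Finset Polynomial

namespace I_TP

/-- Points with constant `T S` are few. -/
theorem const_card {Cd : ℕ} (hCd : ∀ n : ℕ, 1 ≤ n → n.divisors.card ^ 8 ≤ Cd * n) (B : ℕ)
    (K : Finset (Pt ℤ)) (hinj : Set.InjOn Pt.T (K : Set (Pt ℤ)))
    (hb : ∀ P ∈ K, 1 ≤ P.T ∧ P.T ≤ B ∧ 1 ≤ P.S ∧ P.S ≤ B) (c : ℤ)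
    (hc : ∀ P ∈ K, P.T * P.S = c) : K.card ^ 8 ≤ Cd * B ^ 2 := by
  rcases K.eq_empty_or_nonempty with h | ⟨P0, hP0⟩
  · simp [h]
  · obtain ⟨h1, h2, h3, h4⟩ := hb P0 hP0
    have hc0 := hc P0 hP0
    have hcpos : 1 ≤ c := by nlinarith
    have hcle : c ≤ (B : ℤ) ^ 2 := by rw [← hc0]; nlinarith
    have h5 : K.card ≤ (c.toNat).divisors.card := by
      apply Finset.card_le_card_of_injOn (fun P => P.T.toNat)
      · intro P hP
        obtain ⟨g1, g2, g3, g4⟩ := hb P hP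
        have h7 := hc P hP
        simp only [Finset.mem_coe, Nat.mem_divisors]
        constructor
        · refine ⟨P.S.toNat, ?_⟩
          zify
          rw [Int.toNat_of_nonneg (by omega), Int.toNat_of_nonneg (by omega),
            Int.toNat_of_nonneg (by omega)]
          exact h7.symm
        · omega
      · intro P hP Q hQ hPQ
        apply hinj hP hQ
        have h8 := hb P hP
        have h9 := hb Q hQ
        simp only at hPQ
        omega
    have h6 := hCd c.toNat (by omega)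
    calc K.card ^ 8 ≤ (c.toNat).divisors.card ^ 8 := Nat.pow_le_pow_left h5 8
      _ ≤ Cd * c.toNat := h6
      _ ≤ Cd * B ^ 2 := Nat.mul_le_mul_left _ (by
          zify; rw [Int.toNat_of_nonneg (by omega)]; exact hcle)

theorem add_pow5 (a b : ℕ) : (a + b) ^ 5 ≤ 32 * (a ^ 5 + b ^ 5) := by
  rcases le_total a b with h | h
  · calc (a + b) ^ 5 ≤ (2 * b) ^ 5 := Nat.pow_le_pow_left (by omega) 5
      _ = 32 * b ^ 5 := by ring
      _ ≤ 32 * (a ^ 5 + b ^ 5) := by gcongr; omega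
  · calc (a + b) ^ 5 ≤ (2 * a) ^ 5 := Nat.pow_le_pow_left (by omega) 5
      _ = 32 * a ^ 5 := by ring
      _ ≤ 32 * (a ^ 5 + b ^ 5) := by gcongr; omega

/-- The polynomial satisfied by `x`. -/
noncomputable def HH (k : ℕ) (p : Co) (al be : ℤ[X]) : ℤ[X][X] :=
  C (be ^ k) * X ^ 2 + C (C (p.D * p.a ^ 2) * be ^ k - 4 * (-(X * al)) ^ k)

theorem HH_coeff2 (k : ℕ) (p : Co) (al be : ℤ[X]) : (HH k p al be).coeff 2 = be ^ k := by
  unfold HH
  rw [coeff_add, coeff_C_mul, coeff_X_pow, coeff_C]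
  simp

theorem HH_Bx (k E1 : ℕ) (p : Co) (al be : ℤ[X]) (hal : al.natDegree ≤ E1)
    (hbe : be.natDegree ≤ E1) : Bx (k * E1 + k) 2 (HH k p al be) := by
  have hb : (be ^ k).natDegree ≤ k * E1 :=
    natDegree_pow_le.trans (Nat.mul_le_mul_left k hbe)
  have h1 : (C (p.D * p.a ^ 2) * be ^ k - 4 * (-(X * al)) ^ k : ℤ[X]).natDegree ≤ k * E1 + k := by
    refine (natDegree_sub_le _ _).trans (max_le ?_ ?_)
    · exact (natDegree_C_mul_le _ _).trans (by omega)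
    · have h2 : (-(X * al) : ℤ[X]).natDegree ≤ E1 + 1 := by
        rw [natDegree_neg]
        refine natDegree_mul_le.trans ?_
        have := natDegree_X_le (R := ℤ)
        omega
      have h3 : ((-(X * al)) ^ k : ℤ[X]).natDegree ≤ k * (E1 + 1) :=
        natDegree_pow_le.trans (Nat.mul_le_mul_left k h2)
      have h4 : (4 * (-(X * al)) ^ k : ℤ[X]) = C 4 * (-(X * al)) ^ k := by
        congr 1
      rw [h4]
      refine (natDegree_C_mul_le _ _).trans (h3.trans ?_)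
      rw [Nat.mul_add, Nat.mul_one]
  constructor
  · unfold HH
    refine (natDegree_add_le _ _).trans (max_le ?_ ?_)
    · exact natDegree_C_mul_X_pow_le _ _
    · rw [natDegree_C]; omega
  · intro j
    unfold HH
    rw [coeff_add, coeff_C_mul, coeff_X_pow, coeff_C]
    refine (natDegree_add_le _ _).trans (max_le ?_ ?_)
    · split_ifs
      · rw [mul_one]; omega
      · simp
    · split_ifs
      · exact h1
      · simp

theorem HH_eval (k : ℕ) (p : Co) (al be : ℤ[X]) (t y x : ℤ)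
    (h0 : x ^ 2 + p.D * p.a ^ 2 = 4 * (t * y) ^ k) (h1 : al.eval t + be.eval t * y = 0) :
    (HH k p al be).evalEval t x = 0 := by
  have h2 : -(t * al.eval t) = be.eval t * (t * y) := by
    linear_combination (-t) * h1
  have h3 : (HH k p al be).evalEval t x =
      be.eval t ^ k * x ^ 2 + (p.D * p.a ^ 2 * be.eval t ^ k - 4 * (-(t * al.eval t)) ^ k) := by
    simp [HH, evalEval]
  rw [h3, h2, mul_pow]
  linear_combination (be.eval t ^ k) * h0

theorem main {k : ℕ} (hk : 5 ≤ k) (M : ℕ) (hELM : S_ELM) (hDR : S_DR) (hEND : S_END)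
    (hDIV : S_DIV) :
    ∃ C : ℕ, ∀ (B : ℕ) (p : Co) (K : Finset (Pt ℤ)), 1 ≤ B → p.Good →
      (∀ P ∈ K, On k p P ∧ 1 ≤ P.T ∧ P.T ≤ B ∧ 1 ≤ P.S ∧ P.S ≤ B) →
      Set.InjOn Pt.T (K : Set (Pt ℤ)) →
      (∃ g : Ix →₀ ℚ, g ≠ 0 ∧ g.support ⊆ Box k M ∧
        ∀ P ∈ K, ev g (P.map (fun z : ℤ => (z : ℚ))) = 0) →
      K.card ^ 5 ≤ C * B ^ 3 := by
  obtain ⟨E, hE⟩ := hELM k (by omega) M
  obtain ⟨E1, C1, h1⟩ := hDR E E 1 1 le_rfl
  obtain ⟨E2, C2, h2⟩ := hDR (k * E1 + k) 2 k 2 (by omega)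
  obtain ⟨C3, h3⟩ := hEND k (max E1 E2) (by omega)
  obtain ⟨Cd, hd⟩ := hDIV
  refine ⟨C1 + C1 ^ 5 * C2 + (C1 * C2 * C3) ^ 5 +
    (C1 * C2) ^ 5 * (32 * (Cd + (max E1 E2) ^ 5)), ?_⟩
  intro B p K hB hp hK hinj ⟨g, hg0, hgs, hgK⟩
  obtain ⟨h, hh0, hhB, hhK⟩ := hE p hp g hg0 hgs
  have hB3 : 1 ≤ B ^ 3 := Nat.one_le_pow _ _ hB
  have hKb : ∀ P ∈ K, 1 ≤ P.T ∧ P.T ≤ B ∧ 1 ≤ P.S ∧ P.S ≤ B := fun P hP => (hK P hP).2
  by_cases c1 : C1 * B ^ 3 ≤ K.card ^ 5
  swap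
  · calc K.card ^ 5 ≤ C1 * B ^ 3 := by omega
      _ ≤ _ := by gcongr; rw [add_assoc, add_assoc]; exact Nat.le_add_right _ _
  obtain ⟨K1, hK1, hK1c, al, be, hbe, hald, hbed, hK1e⟩ := h1 B (Pt ℤ) K Pt.T Pt.S h hB
    (fun P hP => by
      obtain ⟨q1, q2, q3, q4⟩ := hKb P hP
      refine ⟨q1, q2, ?_⟩
      rw [abs_of_pos (by omega)]; simpa using q4) hinj hh0 hhB
    (fun P hP => hhK P (hK P hP).1 (hgK P hP)) c1
  have hinj1 : Set.InjOn Pt.T (K1 : Set (Pt ℤ)) := hinj.mono (by exact_mod_cast hK1)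
  by_cases c2 : C2 * B ^ 3 ≤ K1.card ^ 5
  swap
  · calc K.card ^ 5 ≤ (C1 * K1.card) ^ 5 := Nat.pow_le_pow_left hK1c 5
      _ = C1 ^ 5 * K1.card ^ 5 := by ring
      _ ≤ C1 ^ 5 * (C2 * B ^ 3) := by gcongr; omega
      _ = (C1 ^ 5 * C2) * B ^ 3 := by ring
      _ ≤ _ := by gcongr; omega
  obtain ⟨K2, hK2, hK2c, al2, be2, hbe2, hald2, hbed2, hK2e⟩ := h2 B (Pt ℤ) K1 Pt.T Pt.x
    (HH k p al be) hB
    (fun P hP => by
      obtain ⟨q1, q2, q3, q4⟩ := hKb P (hK1 hP)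
      refine ⟨q1, q2, ?_⟩
      have e0 := (hK P (hK1 hP)).1.e0
      have hD := hp.D
      have h4 : (P.T * P.S) ^ k ≤ ((B : ℤ) * B) ^ k := by
        apply pow_le_pow_left₀ (by positivity)
        exact mul_le_mul q2 q4 (by omega) (by omega)
      have h5 : P.x ^ 2 ≤ (((2 : ℕ) : ℤ) * (B : ℤ) ^ k) ^ 2 := by
        have h6 : (((2 : ℕ) : ℤ) * (B : ℤ) ^ k) ^ 2 = 4 * ((B : ℤ) * B) ^ k := by
          push_cast; rw [mul_pow (B : ℤ) (B : ℤ) k]; ring
        rw [h6]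
        simp only [Int.cast_id] at e0
        nlinarith [sq_nonneg p.a]
      exact abs_le_of_sq_le_sq h5 (by positivity)) hinj1
    (by
      intro h0
      have h6 := HH_coeff2 k p al be
      rw [h0, coeff_zero] at h6
      exact pow_ne_zero k hbe h6.symm)
    (HH_Bx k E1 p al be hald hbed)
    (fun P hP => HH_eval k p al be P.T P.S P.x
      (by simpa using (hK P (hK1 hP)).1.e0) (hK1e P hP)) c2
  have hinj2 : Set.InjOn Pt.T (K2 : Set (Pt ℤ)) := hinj1.mono (by exact_mod_cast hK2)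
  have hKK2 : K.card ≤ C1 * C2 * K2.card := by
    calc K.card ≤ C1 * K1.card := hK1c
      _ ≤ C1 * (C2 * K2.card) := Nat.mul_le_mul_left _ hK2c
      _ = _ := by ring
  by_cases c3 : C3 ≤ K2.card
  swap
  · calc K.card ^ 5 ≤ (C1 * C2 * K2.card) ^ 5 := Nat.pow_le_pow_left hKK2 5
      _ ≤ (C1 * C2 * C3) ^ 5 := by gcongr; omega
      _ = (C1 * C2 * C3) ^ 5 * 1 := by ring
      _ ≤ (C1 * C2 * C3) ^ 5 * B ^ 3 := Nat.mul_le_mul_left _ hB3
      _ ≤ _ := by gcongr; omega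
  obtain ⟨K3, hK3, hK3c, c, hc⟩ := h3 p.D p.a (Pt ℤ) K2 Pt.T Pt.S Pt.x al be al2 be2 hp.D hp.a
    hinj2 (fun P hP => by simpa using (hK P (hK1 (hK2 hP))).1.e0) hbe hbe2
    (hald.trans (le_max_left _ _)) (hbed.trans (le_max_left _ _))
    (hald2.trans (le_max_right _ _)) (hbed2.trans (le_max_right _ _))
    (fun P hP => ⟨hK1e P (hK2 hP), hK2e P hP⟩) c3
  have h7 := const_card hd B K3 (hinj2.mono (by exact_mod_cast hK3))
    (fun P hP => hKb P (hK1 (hK2 (hK3 hP)))) c hc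
  have h8 : K3.card ^ 5 ≤ Cd * B ^ 3 := by
    calc K3.card ^ 5 ≤ K3.card ^ 8 := by
          rcases Nat.eq_zero_or_pos K3.card with h9 | h9
          · rw [h9]; simp
          · exact Nat.pow_le_pow_right h9 (by norm_num)
      _ ≤ Cd * B ^ 2 := h7
      _ ≤ Cd * B ^ 3 := Nat.mul_le_mul_left _ (Nat.pow_le_pow_right hB (by norm_num))
  have h9 : K2.card ^ 5 ≤ 32 * (Cd + (max E1 E2) ^ 5) * B ^ 3 := by
    calc K2.card ^ 5 ≤ (K3.card + max E1 E2) ^ 5 := Nat.pow_le_pow_left hK3c 5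
      _ ≤ 32 * (K3.card ^ 5 + (max E1 E2) ^ 5) := add_pow5 _ _
      _ ≤ 32 * (Cd * B ^ 3 + (max E1 E2) ^ 5 * B ^ 3) := by
          gcongr
          exact Nat.le_mul_of_pos_right _ hB3
      _ = _ := by ring
  calc K.card ^ 5 ≤ (C1 * C2 * K2.card) ^ 5 := Nat.pow_le_pow_left hKK2 5
    _ = (C1 * C2) ^ 5 * K2.card ^ 5 := by ring
    _ ≤ (C1 * C2) ^ 5 * (32 * (Cd + (max E1 E2) ^ 5) * B ^ 3) := by gcongr
    _ = (C1 * C2) ^ 5 * (32 * (Cd + (max E1 E2) ^ 5)) * B ^ 3 := by ring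
    _ ≤ _ := by gcongr; omega

end I_TP

open I_TP in
theorem TP_pf (hSTA : S_STA) (hELM : S_ELM) (hDR : S_DR) (hEND : S_END) (hDIV : S_DIV) :
    S_TP := by
  intro k hk
  obtain ⟨M, C, hC⟩ := hSTA k hk
  obtain ⟨C5, h5⟩ := I_TP.main hk M hELM hDR hEND hDIV
  obtain ⟨Cd, hd⟩ := hDIV
  refine ⟨(2 ^ 8 * Cd) ^ 13 + (2 ^ 25 * (C * C5 ^ 5)) ^ 4, ?_⟩
  intro B p S hB hp ha hS
  classical
  have : Nonempty (Pt ℤ) := ⟨⟨0, 0, 0, 0, 0⟩⟩
  have hS' : ∀ N : ℕ, N ∈ S → ∃ P : Pt ℤ, On k p P ∧ P.T = N ∧ 1 ≤ P.S ∧ P.S ≤ B ∧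
      1 ≤ P.al ∧ P.al ≤ B ∧ 1 ≤ P.be ∧ P.be ≤ B := fun N hN => (hS N hN).2.2
  choose! f hf using hS'
  have hfinj : Set.InjOn f (S : Set ℕ) := by
    intro N hN N' hN' h
    have e1 := (hf N hN).2.1
    have e2 := (hf N' hN').2.1
    rw [h, e2] at e1
    exact_mod_cast e1.symm
  have hTinj : ∀ S' ⊆ S, Set.InjOn Pt.T ((S'.image f : Finset (Pt ℤ)) : Set (Pt ℤ)) := by
    intro S' hS' P hP Q hQ hPQ
    simp only [Finset.coe_image, Set.mem_image, Finset.mem_coe] at hP hQ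
    obtain ⟨N, hN, rfl⟩ := hP
    obtain ⟨N', hN', rfl⟩ := hQ
    rw [(hf N (hS' hN)).2.1, (hf N' (hS' hN')).2.1] at hPQ
    have : N = N' := by exact_mod_cast hPQ
    rw [this]
  have hbd : ∀ N ∈ S, 1 ≤ (f N).T ∧ (f N).T ≤ B := by
    intro N hN
    rw [(hf N hN).2.1]
    have := hS N hN
    constructor
    · exact_mod_cast this.1
    · exact_mod_cast this.2.1
  have hcard : (S.filter (fun N => (f N).x = 0)).card + (S.filter (fun N => ¬ (f N).x = 0)).card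
      = S.card := Finset.card_filter_add_card_filter_not _
  have hcases : S.card ≤ 2 * (S.filter (fun N => (f N).x = 0)).card ∨
      S.card ≤ 2 * (S.filter (fun N => ¬ (f N).x = 0)).card := by omega
  rcases hcases with h | h
  · -- many points with `x = 0`
    have hS0 : (S.filter (fun N => (f N).x = 0)).card ^ 8 ≤ Cd * B ^ 2 := by
      have e1 : ((S.filter (fun N => (f N).x = 0)).image f).card =
          (S.filter (fun N => (f N).x = 0)).card :=
        Finset.card_image_of_injOn (hfinj.mono (by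
          intro N hN
          exact (Finset.mem_filter.1 (by exact_mod_cast hN)).1))
      rw [← e1]
      rcases (S.filter (fun N => (f N).x = 0)).eq_empty_or_nonempty with h0 | ⟨N0, hN0⟩
      · rw [h0]; simp
      · rw [Finset.mem_filter] at hN0
        refine I_TP.const_card hd B _ (hTinj _ (Finset.filter_subset _ _)) ?_
          ((f N0).T * (f N0).S) ?_
        · intro P hP
          rw [Finset.mem_image] at hP
          obtain ⟨N, hN, rfl⟩ := hP
          rw [Finset.mem_filter] at hN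
          have := hf N hN.1
          exact ⟨(hbd N hN.1).1, (hbd N hN.1).2, this.2.2.1, this.2.2.2.1⟩
        · intro P hP
          rw [Finset.mem_image] at hP
          obtain ⟨N, hN, rfl⟩ := hP
          rw [Finset.mem_filter] at hN
          have e2 := (hf N hN.1).1.e0
          have e3 := (hf N0 hN0.1).1.e0
          rw [hN.2] at e2
          rw [hN0.2] at e3
          have e4 : ((f N).T * (f N).S) ^ k = ((f N0).T * (f N0).S) ^ k := by
            have : 4 * ((f N).T * (f N).S) ^ k = 4 * ((f N0).T * (f N0).S) ^ k := by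
              rw [← e2, ← e3]
            linarith
          have p1 : 0 ≤ (f N).T * (f N).S :=
            mul_nonneg (by have := hbd N hN.1; omega) (by have := hf N hN.1; omega)
          have p2 : 0 ≤ (f N0).T * (f N0).S :=
            mul_nonneg (by have := hbd N0 hN0.1; omega) (by have := hf N0 hN0.1; omega)
          exact (pow_left_inj₀ p1 p2 (by omega)).1 e4
    rcases Nat.eq_zero_or_pos S.card with hz | hz
    · rw [hz]; simp
    · calc S.card ^ 100 ≤ S.card ^ 104 := Nat.pow_le_pow_right hz (by norm_num)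
        _ = (S.card ^ 8) ^ 13 := by rw [← pow_mul]
        _ ≤ ((2 * (S.filter (fun N => (f N).x = 0)).card) ^ 8) ^ 13 := by gcongr
        _ = (2 ^ 8 * (S.filter (fun N => (f N).x = 0)).card ^ 8) ^ 13 := by rw [mul_pow]
        _ ≤ (2 ^ 8 * (Cd * B ^ 2)) ^ 13 := by gcongr
        _ = (2 ^ 8 * Cd) ^ 13 * B ^ 26 := by ring
        _ ≤ (2 ^ 8 * Cd) ^ 13 * B ^ 97 :=
            Nat.mul_le_mul_left _ (Nat.pow_le_pow_right hB (by norm_num))
        _ ≤ _ := Nat.mul_le_mul_right _ (Nat.le_add_right _ _)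
  · -- many points with `x ≠ 0`
    have e1 : ((S.filter (fun N => ¬ (f N).x = 0)).image f).card =
          (S.filter (fun N => ¬ (f N).x = 0)).card :=
        Finset.card_image_of_injOn (hfinj.mono (by
          intro N hN
          exact (Finset.mem_filter.1 (by exact_mod_cast hN)).1))
    obtain ⟨K, hK, hKc, g, hg0, hgs, hgK⟩ := hC B p
      ((S.filter (fun N => ¬ (f N).x = 0)).image f) hB hp ha (by
        intro P hP
        rw [Finset.mem_image] at hP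
        obtain ⟨N, hN, rfl⟩ := hP
        rw [Finset.mem_filter] at hN
        have := hf N hN.1
        exact ⟨this.1, (hbd N hN.1).1, (hbd N hN.1).2, this.2.2.1, this.2.2.2.1,
          this.2.2.2.2.1, this.2.2.2.2.2.1, this.2.2.2.2.2.2.1, this.2.2.2.2.2.2.2, hN.2⟩)
    have h6 := h5 B p K hB hp (by
      intro P hP
      have hP' := hK hP
      rw [Finset.mem_image] at hP'
      obtain ⟨N, hN, rfl⟩ := hP'
      rw [Finset.mem_filter] at hN
      have := hf N hN.1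
      exact ⟨this.1, (hbd N hN.1).1, (hbd N hN.1).2, this.2.2.1, this.2.2.2.1⟩)
      ((hTinj _ (Finset.filter_subset _ _)).mono (by exact_mod_cast hK)) ⟨g, hg0, hgs, hgK⟩
    rw [e1] at hKc
    have h7 : S.card ^ 25 ≤ 2 ^ 25 * (C * C5 ^ 5) * B ^ 24 := by
      calc S.card ^ 25 ≤ (2 * (S.filter (fun N => ¬ (f N).x = 0)).card) ^ 25 := by gcongr
        _ = 2 ^ 25 * (S.filter (fun N => ¬ (f N).x = 0)).card ^ 25 := by rw [mul_pow]
        _ ≤ 2 ^ 25 * (C * B ^ 9 * K.card ^ 25) := by gcongr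
        _ = 2 ^ 25 * (C * B ^ 9 * (K.card ^ 5) ^ 5) := by rw [← pow_mul]
        _ ≤ 2 ^ 25 * (C * B ^ 9 * (C5 * B ^ 3) ^ 5) := by gcongr
        _ = _ := by ring
    calc S.card ^ 100 = (S.card ^ 25) ^ 4 := by rw [← pow_mul]
      _ ≤ (2 ^ 25 * (C * C5 ^ 5) * B ^ 24) ^ 4 := by gcongr
      _ = (2 ^ 25 * (C * C5 ^ 5)) ^ 4 * B ^ 96 := by rw [mul_pow, ← pow_mul]
      _ ≤ (2 ^ 25 * (C * C5 ^ 5)) ^ 4 * B ^ 97 :=
          Nat.mul_le_mul_left _ (Nat.pow_le_pow_right hB (by norm_num))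
      _ ≤ _ := Nat.mul_le_mul_right _ (Nat.le_add_left _ _)

end Pool.Agent.Work.MP_e0c7e8_nt.BG
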