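import Pool.Agent.Work.MP_e0c7e8_nt.BG.StmtsI
import Pool.Agent.Work.MP_e0c7e8_nt.SM.ItemL6
import Pool.Agent.Work.MP_e0c7e8_nt.SM.ItemH3

/-!
# Item TWO: from `m` to `2^a m`
-/

set_option autoImplicit false

namespace Pool.Agent.Work.MP_e0c7e8_nt.BG

open Finset Pool.Agent.Work.MP_e0c7e8_nt.SM

open ItemH in
theorem TWO_pf (h0 : ClaimC0) (h1 : ClaimC1a1) (h1a : ClaimC1a) : S_TWO := by
  intro a ε hε
  have hδ : 0 < ε / (a + 1) := by positivity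
  obtain ⟨C2, hC2, hD⟩ := Pool.Agent.Work.MP_e0aece_nt.exists_divisor_bound _ hδ
  refine ⟨(4 * C2) ^ a, by positivity, ?_⟩
  intro m d hm hd hd4
  have := (h1a d hd hd4).1
  have e1 := card_tors_mul (ClassGroup ↥(Od d)) (2 ^ a) m
  have e2 := card_tors_two_pow (ClassGroup ↥(Od d)) a
  have e3 := claimH h0 h1 d hd hd4
  have hd1 : 1 ≤ d.natAbs := by omega
  have hnat : (d.natAbs : ℝ) = |(d : ℝ)| := by
    rw [Nat.cast_natAbs, Int.cast_abs]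
  have hb1 : (1 : ℝ) ≤ |(d : ℝ)| := by
    rw [← hnat]; exact_mod_cast hd1
  have hb0 : (0 : ℝ) < |(d : ℝ)| := by linarith
  have e5 := hD d.natAbs hd1
  rw [hnat] at e5
  have e6 : (Nat.card {y : ClassGroup ↥(Od d) // y ^ 2 = 1} : ℝ) ≤
      4 * C2 * |(d : ℝ)| ^ (ε / (a + 1)) := by
    calc (Nat.card {y : ClassGroup ↥(Od d) // y ^ 2 = 1} : ℝ) ≤ ((4 * d.natAbs.divisors.card : ℕ) : ℝ) := by
          exact_mod_cast e3
      _ = 4 * (d.natAbs.divisors.card : ℝ) := by push_cast; ring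
      _ ≤ 4 * (C2 * |(d : ℝ)| ^ (ε / (a + 1))) := by gcongr
      _ = _ := by ring
  have e7 : (Nat.card {y : ClassGroup ↥(Od d) // y ^ (2 ^ a) = 1} : ℝ) ≤
      (4 * C2) ^ a * |(d : ℝ)| ^ ε := by
    calc (Nat.card {y : ClassGroup ↥(Od d) // y ^ (2 ^ a) = 1} : ℝ) ≤
        (Nat.card {y : ClassGroup ↥(Od d) // y ^ 2 = 1} : ℝ) ^ a := by exact_mod_cast e2
      _ ≤ (4 * C2 * |(d : ℝ)| ^ (ε / (a + 1))) ^ a := by gcongr
      _ = (4 * C2) ^ a * |(d : ℝ)| ^ (ε / (a + 1) * a) := by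
          rw [mul_pow, Real.rpow_mul_natCast hb0.le]
      _ ≤ (4 * C2) ^ a * |(d : ℝ)| ^ ε := by
          refine mul_le_mul_of_nonneg_left ?_ (by positivity)
          apply Real.rpow_le_rpow_of_exponent_le hb1
          rw [div_mul_eq_mul_div, div_le_iff₀ (by positivity)]
          nlinarith
  calc (Nat.card {x : ClassGroup ↥(Od d) // x ^ (2 ^ a * m) = 1} : ℝ)
      ≤ (Nat.card {y : ClassGroup ↥(Od d) // y ^ (2 ^ a) = 1} : ℝ) *
        (Nat.card {y : ClassGroup ↥(Od d) // y ^ m = 1} : ℝ) := by exact_mod_cast e1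
    _ ≤ ((4 * C2) ^ a * |(d : ℝ)| ^ ε) *
        (Nat.card {y : ClassGroup ↥(Od d) // y ^ m = 1} : ℝ) := by gcongr

end Pool.Agent.Work.MP_e0c7e8_nt.BG
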