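import Pool.Agent.Work.MP_e0c7e8_nt.BG.StmtsI

/-!
# Item X3B: few ideals of small norm imply few split primes
-/

set_option autoImplicit false

namespace Pool.Agent.Work.MP_e0c7e8_nt.BG

open Finset Polynomial Pool.Agent.Work.MP_e0c7e8_nt.SM

namespace I_X3B

lemma core (K j : ℕ) (β δ θ c T D P M z x : ℝ) (hβ : 0 < β) (hβ1 : β ≤ 1) (hδ : 0 < δ)
    (hθ : 8 * β * θ = δ) (hK1 : 4 ≤ K * δ) (hj : 1 ≤ j) (hc1 : c < 1 / 2) (hc2 : 2 * c ≤ θ)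
    (hT : 10 ≤ T) (hTc : 20 * K ≤ T ^ c) (hD1 : T ^ ((K : ℝ) / 2) ≤ D) (hD2 : D ≤ T ^ (K : ℝ))
    (hz1 : T / 2 ≤ z) (hz2 : z ≤ T) (hx1 : D ^ β ≤ 10 * x) (hx2 : z ^ j ≤ x)
    (hx3 : x < z ^ (j + 1)) (hx4 : x ≤ D ^ β) (hP0 : 0 ≤ P)
    (hPM : P ^ j ≤ (j : ℝ) ^ j * M) (hM : M ≤ D ^ (β - δ)) :
    P ≤ T ^ (1 - c) := by
  have hT0 : 0 < T := by linarith
  have hT1 : 1 < T := by linarith
  have hz0 : 0 < z := by linarith
  have hz1' : 1 ≤ z := by linarith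
  have hj' : (1 : ℝ) ≤ j := by exact_mod_cast hj
  have hD0 : 0 < D := lt_of_lt_of_le (Real.rpow_pos_of_pos hT0 _) hD1
  have hx0 : 0 < x := lt_of_lt_of_le (pow_pos hz0 _) hx2
  have hK0 : (0 : ℝ) ≤ K := Nat.cast_nonneg _
  have hθ0 : 0 < θ := by
    by_contra hcon
    push Not at hcon
    have : 8 * β * θ ≤ 0 := mul_nonpos_of_nonneg_of_nonpos (by positivity) hcon
    linarith
  -- step 1
  have hjm : (j : ℝ) ≤ 2 * K * β := by
    have h1 : T ^ ((1 : ℝ) / 2) ≤ z := by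
      have e1 : T ^ ((1 : ℝ) / 2) * T ^ ((1 : ℝ) / 2) = T := by
        rw [← Real.rpow_add hT0]; norm_num
      have e2 : 2 ≤ T ^ ((1 : ℝ) / 2) := by
        by_contra hcon
        push Not at hcon
        have e3 : 0 < T ^ ((1 : ℝ) / 2) := Real.rpow_pos_of_pos hT0 _
        nlinarith
      nlinarith
    have h2 : (T ^ ((1 : ℝ) / 2)) ^ j ≤ z ^ j :=
      pow_le_pow_left₀ (Real.rpow_nonneg hT0.le _) h1 j
    have h3 : D ^ β ≤ (T ^ (K : ℝ)) ^ β :=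
      Real.rpow_le_rpow hD0.le hD2 hβ.le
    have h4 : T ^ ((1 : ℝ) / 2 * j) ≤ T ^ ((K : ℝ) * β) := by
      rw [Real.rpow_mul hT0.le, Real.rpow_mul hT0.le, Real.rpow_natCast]
      linarith
    have h5 := (Real.rpow_le_rpow_left_iff hT1).1 h4
    linarith
  -- step 2
  have hM2 : M ≤ 10 * z ^ ((j : ℝ) + 1 - K * δ / 2) := by
    have h1 : D ^ (β - δ) = D ^ β * D ^ (-δ) := by
      rw [← Real.rpow_add hD0]; ring_nf
    have h2 : D ^ (-δ) ≤ z ^ (-(K * δ / 2)) := by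
      have e1 : D ^ (-δ) ≤ (T ^ ((K : ℝ) / 2)) ^ (-δ) :=
        Real.rpow_le_rpow_of_nonpos (Real.rpow_pos_of_pos hT0 _) hD1 (by linarith)
      have e2 : (T ^ ((K : ℝ) / 2)) ^ (-δ) = T ^ (-(K * δ / 2)) := by
        rw [← Real.rpow_mul hT0.le]; ring_nf
      have e3 : T ^ (-(K * δ / 2)) ≤ z ^ (-(K * δ / 2)) :=
        Real.rpow_le_rpow_of_nonpos hz0 hz2 (by nlinarith)
      linarith
    have h3 : D ^ β * D ^ (-δ) ≤ (10 * z ^ (j + 1)) * z ^ (-(K * δ / 2)) := by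
      apply mul_le_mul _ h2 (Real.rpow_nonneg hD0.le _) (by positivity)
      linarith
    have h4 : (10 * z ^ (j + 1)) * z ^ (-(K * δ / 2)) = 10 * z ^ ((j : ℝ) + 1 - K * δ / 2) := by
      rw [mul_assoc, ← Real.rpow_natCast z (j + 1), ← Real.rpow_add hz0]
      push_cast
      ring_nf
    linarith
  -- step 3
  have hjK : (j : ℝ) ≤ 2 * K := by nlinarith
  have hP3 : P ≤ 10 * (2 * K) * z ^ (1 - θ) := by
    have hR0 : 0 ≤ 10 * (2 * (K : ℝ)) * z ^ (1 - θ) := by positivity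
    rw [← pow_le_pow_iff_left₀ hP0 hR0 (by omega : j ≠ 0)]
    have h1 : (10 * (2 * (K : ℝ)) * z ^ (1 - θ)) ^ j =
        10 ^ j * (2 * (K : ℝ)) ^ j * z ^ ((j : ℝ) * (1 - θ)) := by
      rw [mul_pow, mul_pow, ← Real.rpow_natCast (z ^ (1 - θ)) j, ← Real.rpow_mul hz0.le]
      ring_nf
    rw [h1]
    have h2 : (10 : ℝ) ≤ 10 ^ j := by
      calc (10 : ℝ) = 10 ^ 1 := by norm_num
        _ ≤ 10 ^ j := pow_le_pow_right₀ (by norm_num) hj
    have h3 : (j : ℝ) ^ j ≤ (2 * (K : ℝ)) ^ j := pow_le_pow_left₀ (by positivity) hjK j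
    have h4 : z ^ ((j : ℝ) + 1 - K * δ / 2) ≤ z ^ ((j : ℝ) * (1 - θ)) := by
      apply Real.rpow_le_rpow_of_exponent_le hz1'
      have h5 : (j : ℝ) * θ ≤ 2 * K * β * θ := mul_le_mul_of_nonneg_right hjm hθ0.le
      have h6 : 2 * K * β * θ = K * δ / 4 := by rw [← hθ]; ring
      nlinarith
    calc P ^ j ≤ (j : ℝ) ^ j * M := hPM
      _ ≤ (j : ℝ) ^ j * (10 * z ^ ((j : ℝ) + 1 - K * δ / 2)) := by
          apply mul_le_mul_of_nonneg_left hM2 (by positivity)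
      _ = 10 * (j : ℝ) ^ j * z ^ ((j : ℝ) + 1 - K * δ / 2) := by ring
      _ ≤ 10 ^ j * (2 * (K : ℝ)) ^ j * z ^ ((j : ℝ) * (1 - θ)) := by
          apply mul_le_mul (mul_le_mul h2 h3 (by positivity) (by positivity)) h4
            (by positivity) (by positivity)
  -- step 4
  have h1 : z ^ (1 - θ) ≤ z ^ (1 - 2 * c) :=
    Real.rpow_le_rpow_of_exponent_le hz1' (by linarith)
  have h2 : z ^ (1 - 2 * c) ≤ T ^ (1 - 2 * c) := Real.rpow_le_rpow hz0.le hz2 (by linarith)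
  have h3 : T ^ c * T ^ (1 - 2 * c) = T ^ (1 - c) := by
    rw [← Real.rpow_add hT0]; ring_nf
  calc P ≤ 10 * (2 * K) * z ^ (1 - θ) := hP3
    _ = 20 * K * z ^ (1 - θ) := by ring
    _ ≤ 20 * K * T ^ (1 - 2 * c) := by
        apply mul_le_mul_of_nonneg_left (h1.trans h2) (by positivity)
    _ ≤ T ^ c * T ^ (1 - 2 * c) := by
        apply mul_le_mul_of_nonneg_right hTc (Real.rpow_nonneg hT0.le _)
    _ = T ^ (1 - c) := h3

end I_X3B

theorem X3B_pf (h1 : ClaimX1) : S_X3B := by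
  intro β δ hβ hβ1 hδ _
  obtain ⟨θ, hθ⟩ : ∃ θ : ℝ, 8 * β * θ = δ := ⟨δ / (8 * β), by field_simp⟩
  have hθ0 : 0 < θ := by
    by_contra hcon
    push Not at hcon
    have : 8 * β * θ ≤ 0 := mul_nonpos_of_nonneg_of_nonpos (by positivity) hcon
    linarith
  obtain ⟨K0, hK0⟩ := exists_nat_ge (4 / δ)
  obtain ⟨K1, hK1⟩ := exists_nat_ge (4 / β)
  obtain ⟨K, hK⟩ : ∃ K : ℕ, K = K0 + K1 := ⟨_, rfl⟩
  have hKpos' : (0 : ℝ) < K := by
    have e1 : (0 : ℝ) < 4 / δ := by positivity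
    have e2 : (K : ℝ) = K0 + K1 := by rw [hK]; push_cast; ring
    have e3 : (0 : ℝ) ≤ K1 := Nat.cast_nonneg _
    linarith
  have hKpos : 0 < K := by exact_mod_cast hKpos'
  have hKδ : 4 ≤ (K : ℝ) * δ := by
    have e1 : (4 : ℝ) / δ ≤ K := by
      refine hK0.trans ?_
      exact_mod_cast (by omega : K0 ≤ K)
    rwa [div_le_iff₀ hδ] at e1
  have hKβ : 4 ≤ (K : ℝ) * β := by
    have e1 : (4 : ℝ) / β ≤ K := by
      refine hK1.trans ?_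
      exact_mod_cast (by omega : K1 ≤ K)
    rwa [div_le_iff₀ hβ] at e1
  refine ⟨K, hKpos, min (θ / 2) (1 / 4), lt_min (by positivity) (by norm_num), ?_, ?_⟩
  · exact lt_of_le_of_lt (min_le_right _ _) (by norm_num)
  obtain ⟨c, hc⟩ : ∃ c : ℝ, c = min (θ / 2) (1 / 4) := ⟨_, rfl⟩
  rw [← hc]
  have hc0 : 0 < c := by rw [hc]; exact lt_min (by positivity) (by norm_num)
  have hc1 : c < 1 / 2 := by rw [hc]; exact lt_of_le_of_lt (min_le_right _ _) (by norm_num)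
  have hc2 : 2 * c ≤ θ := by
    have := min_le_left (θ / 2) ((1 : ℝ) / 4)
    rw [← hc] at this
    linarith
  obtain ⟨T0, hT0⟩ : ∃ T0 : ℝ, T0 = max 10 ((20 * (K : ℝ)) ^ (1 / c)) := ⟨_, rfl⟩
  have hT01 : 10 ≤ T0 := by rw [hT0]; exact le_max_left _ _
  have hT02 : (20 * (K : ℝ)) ^ (1 / c) ≤ T0 := by rw [hT0]; exact le_max_right _ _
  refine ⟨T0 ^ K, one_le_pow₀ (by linarith), ?_⟩
  intro X d hX hd1 hd2 hMM
  have hX0 : 0 < X := lt_of_lt_of_le (by positivity) hX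
  obtain ⟨T, hT⟩ : ∃ T : ℝ, T = X ^ ((1 : ℝ) / K) := ⟨_, rfl⟩
  have hTT0 : T0 ≤ T := by
    have e1 : (T0 ^ K) ^ ((1 : ℝ) / K) ≤ X ^ ((1 : ℝ) / K) :=
      Real.rpow_le_rpow (by positivity) hX (by positivity)
    rw [← Real.rpow_natCast T0 K, ← Real.rpow_mul (by linarith)] at e1
    rw [hT]
    have e2 : (K : ℝ) * (1 / K) = 1 := by field_simp
    rw [e2, Real.rpow_one] at e1
    exact e1
  have hT10 : 10 ≤ T := hT01.trans hTT0
  have hTpos : 0 < T := by linarith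
  have hXT : X = T ^ (K : ℝ) := by
    rw [hT, ← Real.rpow_mul hX0.le]
    have e2 : (1 : ℝ) / K * K = 1 := by field_simp
    rw [e2, Real.rpow_one]
  have hTc : 20 * (K : ℝ) ≤ T ^ c := by
    have e1 : ((20 * (K : ℝ)) ^ (1 / c)) ^ c ≤ T ^ c :=
      Real.rpow_le_rpow (by positivity) (hT02.trans hTT0) hc0.le
    rw [← Real.rpow_mul (by positivity)] at e1
    have e2 : 1 / c * c = 1 := by field_simp
    rw [e2, Real.rpow_one] at e1
    exact e1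
  have hgoal : X ^ ((1 - c) / K) = T ^ (1 - c) := by
    rw [hT, ← Real.rpow_mul hX0.le]
    ring_nf
  rw [hgoal, ← hT]
  obtain ⟨D, hD⟩ : ∃ D : ℝ, D = |(d : ℝ)| := ⟨_, rfl⟩
  rw [← hD] at hd1 hd2 hMM
  have hD1 : T ^ ((K : ℝ) / 2) ≤ D := by
    refine le_trans (le_of_eq ?_) hd1
    rw [hXT, ← Real.rpow_mul hTpos.le]
    ring_nf
  have hD2 : D ≤ T ^ (K : ℝ) := by rw [← hXT]; exact hd2
  have hD0 : 0 < D := lt_of_lt_of_le (Real.rpow_pos_of_pos hTpos _) hD1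
  -- the numbers `Z` and `x`
  obtain ⟨Z, hZ⟩ : ∃ Z : ℕ, Z = ⌊T⌋₊ := ⟨_, rfl⟩
  rw [← hZ]
  have hZ1 : (Z : ℝ) ≤ T := by rw [hZ]; exact Nat.floor_le hTpos.le
  have hZ2 : T / 2 ≤ (Z : ℝ) := by
    have := Nat.lt_floor_add_one T
    rw [← hZ] at this
    linarith
  have hZge : 2 ≤ Z := by
    have : (5 : ℝ) ≤ Z := by linarith
    have : 5 ≤ Z := by exact_mod_cast this
    omega
  obtain ⟨x, hx⟩ : ∃ x : ℕ, x = ⌊D ^ β⌋₊ := ⟨_, rfl⟩
  rw [← hx] at hMM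
  have hDm : T ^ (2 : ℝ) ≤ D ^ β := by
    have e1 : (T ^ ((K : ℝ) / 2)) ^ β ≤ D ^ β :=
      Real.rpow_le_rpow (Real.rpow_nonneg hTpos.le _) hD1 hβ.le
    rw [← Real.rpow_mul hTpos.le] at e1
    refine le_trans (Real.rpow_le_rpow_of_exponent_le (by linarith) ?_) e1
    linarith
  have hT2 : T ^ (2 : ℝ) = T * T := by
    rw [Real.rpow_two]; ring
  have e10 : 10 * T ≤ T * T := mul_le_mul_of_nonneg_right hT10 hTpos.le
  rw [hT2] at hDm
  have hx4 : (x : ℝ) ≤ D ^ β := by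
    rw [hx]; exact Nat.floor_le (Real.rpow_nonneg hD0.le _)
  have hx5 : D ^ β < x + 1 := by
    rw [hx]; exact Nat.lt_floor_add_one _
  have hx1 : D ^ β ≤ 10 * x := by linarith
  have hZx : Z ≤ x := by
    have : (Z : ℝ) ≤ x := by linarith
    exact_mod_cast this
  have hx0 : x ≠ 0 := by omega
  obtain ⟨j, hj⟩ : ∃ j : ℕ, j = Nat.log Z x := ⟨_, rfl⟩
  have hj1 : 1 ≤ j := by
    rw [hj]
    exact Nat.log_pos (by omega) hZx
  have hx2 : Z ^ j ≤ x := by rw [hj]; exact Nat.pow_log_le_self Z hx0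
  have hx3 : x < Z ^ (j + 1) := by rw [hj]; exact Nat.lt_pow_succ_log_self (by omega) x
  have hP := h1 d Z j x hj1 hx2
  exact I_X3B.core K j β δ θ c T D (Pd d Z) (MM d x) Z x hβ hβ1 hδ hθ hKδ hj1 hc1 hc2 hT10 hTc
    hD1 hD2 hZ2 hZ1 hx1 (by exact_mod_cast hx2) (by exact_mod_cast hx3) hx4 (by positivity)
    (by exact_mod_cast hP) hMM

end Pool.Agent.Work.MP_e0c7e8_nt.BG
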