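import Pool.Agent.Work.MP_e0c7e8_nt.BG.I_PC
import Pool.Agent.Work.MP_e0c7e8_nt.BG.I_CD1
import Pool.Agent.Work.MP_e0c7e8_nt.BG.I_CD2
import Pool.Agent.Work.MP_e0c7e8_nt.BG.I_IFT
import Pool.Agent.Work.MP_e0c7e8_nt.BG.I_BOX
import Pool.Agent.Work.MP_e0c7e8_nt.BG.I_INR
import Pool.Agent.Work.MP_e0c7e8_nt.BG.I_CLS
import Pool.Agent.Work.MP_e0c7e8_nt.BG.I_NUA
import Pool.Agent.Work.MP_e0c7e8_nt.BG.I_STA
import Pool.Agent.Work.MP_e0c7e8_nt.BG.I_MUL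
import Pool.Agent.Work.MP_e0c7e8_nt.BG.I_BES
import Pool.Agent.Work.MP_e0c7e8_nt.BG.I_PRM
import Pool.Agent.Work.MP_e0c7e8_nt.BG.I_IND
import Pool.Agent.Work.MP_e0c7e8_nt.BG.I_NV
import Pool.Agent.Work.MP_e0c7e8_nt.BG.I_NZ2
import Pool.Agent.Work.MP_e0c7e8_nt.BG.I_ELM
import Pool.Agent.Work.MP_e0c7e8_nt.BG.I_HT
import Pool.Agent.Work.MP_e0c7e8_nt.BG.I_CLY
import Pool.Agent.Work.MP_e0c7e8_nt.BG.I_DRC
import Pool.Agent.Work.MP_e0c7e8_nt.BG.I_PSD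
import Pool.Agent.Work.MP_e0c7e8_nt.BG.I_DRS
import Pool.Agent.Work.MP_e0c7e8_nt.BG.I_DR
import Pool.Agent.Work.MP_e0c7e8_nt.BG.I_MS
import Pool.Agent.Work.MP_e0c7e8_nt.BG.I_END
import Pool.Agent.Work.MP_e0c7e8_nt.BG.I_DIV
import Pool.Agent.Work.MP_e0c7e8_nt.BG.I_TP
import Pool.Agent.Work.MP_e0c7e8_nt.BG.I_IDA
import Pool.Agent.Work.MP_e0c7e8_nt.BG.I_IDB
import Pool.Agent.Work.MP_e0c7e8_nt.BG.I_IDC
import Pool.Agent.Work.MP_e0c7e8_nt.BG.I_EQS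
import Pool.Agent.Work.MP_e0c7e8_nt.BG.I_CLQ
import Pool.Agent.Work.MP_e0c7e8_nt.BG.I_PAT
import Pool.Agent.Work.MP_e0c7e8_nt.BG.I_BGC
import Pool.Agent.Work.MP_e0c7e8_nt.BG.I_PW
import Pool.Agent.Work.MP_e0c7e8_nt.BG.I_X3B
import Pool.Agent.Work.MP_e0c7e8_nt.BG.I_TWO
import Pool.Agent.Work.MP_e0c7e8_nt.BG.I_FP
import Pool.Agent.Work.MP_e0c7e8_nt.BG.I_FF
import Pool.Agent.Work.MP_e0c7e8_nt.BG.I_FS
import Pool.Agent.Work.MP_e0c7e8_nt.BG.I_L5B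
import Pool.Agent.Work.MP_e0c7e8_nt.SM.Main
import Pool.Agent.Work.MP_e0c7e8_nt.SM.MainX

/-!
# Beyond the GRH bound: assembly
-/

set_option autoImplicit false

namespace Pool.Agent.Work.MP_e0c7e8_nt.BG

open Finset Polynomial Pool.Agent.Work.MP_e0c7e8_nt.SM

theorem TP_all : S_TP :=
  TP_pf (STA_pf PC_pf CLS_pf (INR_pf CD2_pf IFT_pf) CD2_pf NUA_pf BOX_pf)
    (ELM_pf MUL_pf (NZ2_pf (NV_pf (IND_pf BES_pf PRM_pf))))
    (DR_pf (DRS_pf PC_pf HT_pf CLY_pf (DRC_pf CD1_pf IFT_pf BOX_pf) PSD_pf))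
    (END_pf MS_pf) DIV_pf

theorem c1a1_all : ClaimC1a1 := claimC1a1 claimC0

theorem c1a_all : ClaimC1a := claimC1a c1a1_all

theorem c1c_all : ClaimC1c := claimC1c claimC1b claimN1

theorem c2b1_all : ClaimC2b1 := claimC2b1 claimC0

theorem PW_all : S_PW :=
  PW_pf (BGC_pf (PAT_pf (EQS_pf claimC0 (IDA_pf c2b1_all) (IDB_pf c2b1_all)
    (IDC_pf claimC0 c2b1_all) claimC2b0) CLQ_pf claimN1) TP_all) c1a_all c1c_all

theorem TWO_all : S_TWO := TWO_pf claimC0 c1a1_all c1a_all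

theorem FP_all : S_FP := FP_pf PW_all (X3B_pf claimX1) TWO_all c1a_all c1c_all

theorem FF_all : S_FF := FF_pf PW_all (X3B_pf claimX1)
  (claimX4 claimX5 claimX6 (claimX8 (claimX7 claimS1)) claimX9 claimX10) TWO_all

theorem L5B_all : S_L5B := by
  have s2 := claimS2 claimS1
  have s4 := claimS4 s2 claimS5 claimS6
  have g10 : ClaimG10 := claimG10 (claimG8 (claimG6b claimG4
    (claimG6 (claimG3 claimG2x) claimG4 claimG5)) claimG7 claimN1) claimG9 claimS1 claimN1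
  have l4 : ClaimL4 := claimL4 (claimL3 (claimL2b claimG4 (claimL2 (claimL1 claimG2x claimG5)
    claimG4 claimG5)) claimG7) claimG9 g10
  have s10 : ClaimS10 := claimS10 s2 (claimS3 s2) s4 claimS5
    (claimS8 s2 claimS5 claimS6 (claimS7a s2 claimS5 claimS6) (claimS7b s2 claimS6) claimS8a)
    (claimS9 s2 s4 claimN1)
  exact L5B_pf l4 s10 claimN3 (claimN4 claimS1 s2) (claimN5 (claimN2 claimN2a) claimN1)

theorem FS_all : S_FS := FS_pf PW_all L5B_all TWO_all c1a_all c1c_all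

end Pool.Agent.Work.MP_e0c7e8_nt.BG
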