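import Pool.Agent.Work.MP_e0c7e8_nt.BG.Stmts
import Pool.Agent.Work.MP_e0c7e8_nt.SM.StmtsX

/-!
# Beyond the GRH bound for `k`-torsion: statements of the items, ideals and class groups

Paper proof: note 3719 on MP_e0c7e8_nt. `Od`, `th`, `Pi1`, `Pi2`, `chi`, `FF`, `TT`, `MM`, `Pd`,
`NSq` are the definitions of `SM/Defs.lean`, `SM/StmtsX.lean`; all `Claim..` of `SM` are proved on
main (`SM/Item*.lean`) and may be used as hypotheses or directly.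
-/

set_option autoImplicit false

namespace Pool.Agent.Work.MP_e0c7e8_nt.BG

open Finset Pool.Agent.Work.MP_e0c7e8_nt.SM

/-! ## Primitive ideals -/

/-- `n p` is a simple root of `F` modulo every split prime `p`. -/
def Rt (d : ℤ) (n : ℕ → ℤ) : Prop :=
  ∀ p : ℕ, p.Prime → chi d p = 1 → (p : ℤ) ∣ FF d (n p) ∧ ¬ (p : ℤ) ∣ 2 * n p + d

/-- Indices of primitive ideals: the norm and the set of the primes with the first prime ideal. -/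
abbrev AI := ℕ × Finset ℕ

/-- Admissible indices. -/
def Adm (d : ℤ) (A : AI) : Prop :=
  1 ≤ A.1 ∧ (∀ p ∈ A.1.primeFactors, chi d p = 1) ∧ A.2 ⊆ A.1.primeFactors

/-- The conjugate index. -/
def cj (A : AI) : AI := (A.1, A.1.primeFactors \ A.2)

/-- The ideal of an index. -/
noncomputable def JJ (d : ℤ) (n : ℕ → ℤ) (A : AI) : Ideal ↥(Od d) :=
  ∏ p ∈ A.1.primeFactors, (if p ∈ A.2 then Pi1 d p (n p) else Pi2 d p (n p)) ^ A.1.factorization p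

/-- [IDA] norm and conjugate of the ideals (`C2b1`, `ItemC2b2.map_Pi1`, `map_Pi2`). -/
def S_IDA : Prop := ∀ (d : ℤ) (n : ℕ → ℤ), d < 0 → (d % 4 = 0 ∨ d % 4 = 1) → Rt d n →
  ∀ A : AI, Adm d A → JJ d n A * JJ d n (cj A) = Ideal.span {(A.1 : ↥(Od d))} ∧
    ∀ σ : ↥(Od d) ≃+* ↥(Od d), σ (th d) = (d : ↥(Od d)) - th d →
      (JJ d n A).map (σ : ↥(Od d) →+* ↥(Od d)) = JJ d n (cj A)

/-- [IDB] the classes of the ideals (as in `SM/ItemC2b.lean`: `ItemC2b.units`,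
`ClassGroup.mk_eq_one_of_coe_ideal`). -/
def S_IDB : Prop := ∀ (d : ℤ) (n : ℕ → ℤ), d < 0 → (d % 4 = 0 ∨ d % 4 = 1) → Rt d n →
  ∃ cl : AI → ClassGroup ↥(Od d), ∀ A A' : AI, Adm d A → Adm d A' → ∀ k : ℕ,
    cl A ^ k = cl A' ^ k → ∃ g : ↥(Od d), JJ d n A ^ k * JJ d n (cj A') ^ k = Ideal.span {g}

/-- [IDC] `A^k conj(A')^k` is not generated by an integer if `A ≠ A'`. Cancel the common factors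
`(p)`; what remains is a product of powers of `Pi1 d p (n p)` or `Pi2 d p (n p)` (one of them for
each `p`) generated by an integer, hence trivial: this is the second half of the proof of
`SM/ItemC2b2.lean` (`not_dvd`; the hypothesis `4 ∏ .. < |d|` is only used there to show that the
generator is an integer). -/
def S_IDC : Prop := ∀ (d : ℤ) (n : ℕ → ℤ), d < 0 → (d % 4 = 0 ∨ d % 4 = 1) → Rt d n →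
  ∀ A A' : AI, Adm d A → Adm d A' → ∀ (k : ℕ) (u : ℤ), 1 ≤ k →
    JJ d n A ^ k * JJ d n (cj A') ^ k = Ideal.span {(u : ↥(Od d))} → A = A'

/-- [EQS] the equations. `g_j = u_j + v_j θ` the generator of `A_j^k conj(A_1)^k`, `j = 2, 3, 4`,
`N(g_j) = (n_1 n_j)^k` (`IDA`, as in `SM/ItemC2b2.lean`: `hA'`, `hNm`), `x = 2 u_2 + d v_2`,
`a = v_2`, `c = - v_3`, `c' = - v_4`; `g_2 σ(g_3)` generates
`n_1^k A_2^k conj(A_3)^k`, so `g_2 σ(g_3) = n_1^k δ`, whose `θ`-coordinate gives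
`v_2 u_3 - v_3 u_2 = n_1^k b`; `(δ) = A_2^k conj(A_3)^k` and `N(δ) = (n_2 n_3)^k` bound `b`;
`a g_3 + c g_2 = b n_1^k`, take norms; all numbers are nonzero by `IDC`
(`b c' - b' c = ± a * (θ-coordinate of the generator of A_3^k conj(A_4)^k)`). -/
def S_EQS : Prop := ∀ d : ℤ, d < 0 → (d % 4 = 0 ∨ d % 4 = 1) → ∃ cl : AI → ClassGroup ↥(Od d),
  ∀ (k B : ℕ) (A1 A2 A3 A4 : AI), 1 ≤ k → Adm d A1 → Adm d A2 → Adm d A3 → Adm d A4 →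
    A1.1 ≤ B → A2.1 ≤ B → A3.1 ≤ B → A4.1 ≤ B →
    A1 ≠ A2 → A1 ≠ A3 → A1 ≠ A4 → A2 ≠ A3 → A2 ≠ A4 → A3 ≠ A4 →
    cl A2 ^ k = cl A1 ^ k → cl A3 ^ k = cl A1 ^ k → cl A4 ^ k = cl A1 ^ k →
    ∃ (p : Co) (P : Pt ℤ), p.Good ∧ p.D = -d ∧ On k p P ∧ P.T = A1.1 ∧ P.S = A2.1 ∧
      P.al = A3.1 ∧ P.be = A4.1 ∧ p.a ^ 2 * p.D ≤ 4 * B ^ (2 * k) ∧
      p.b ^ 2 * p.D ≤ 4 * B ^ (2 * k) ∧ p.c ^ 2 * p.D ≤ 4 * B ^ (2 * k) ∧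
      p.b' ^ 2 * p.D ≤ 4 * B ^ (2 * k) ∧ p.c' ^ 2 * p.D ≤ 4 * B ^ (2 * k)

/-- [CLQ] if a map has at most `N` values and `6 N < |S|`, at least half of the elements of `S` are
in fibres with at least four elements. -/
def S_CLQ : Prop := ∀ (α β : Type) (S : Finset α) (f : α → β) (N : ℕ),
  (f '' (S : Set α)).ncard ≤ N → 6 * N < S.card → ∃ S' ⊆ S, S.card ≤ 2 * S'.card ∧
    ∀ A1 ∈ S', ∃ A2 ∈ S, ∃ A3 ∈ S, ∃ A4 ∈ S, A1 ≠ A2 ∧ A1 ≠ A3 ∧ A1 ≠ A4 ∧ A2 ≠ A3 ∧ A2 ≠ A4 ∧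
      A3 ≠ A4 ∧ f A2 = f A1 ∧ f A3 = f A1 ∧ f A4 = f A1

/-- [PAT] many norms with one pattern. The map `A ↦ cl A ^ k` has at most `#cl / #cl[k]` values on
the `MM d B` admissible indices with norm `≤ B`; `CLQ`, `EQS`; all coefficients are `≤ V`;
pigeonhole over `(2 V + 1)^5` patterns; at most `2^ω(N) ≤ C B^ι` indices with norm `N`
(`ClaimN1`). -/
def S_PAT : Prop := ∀ k : ℕ, 1 ≤ k → ∀ ι : ℝ, 0 < ι → ∃ C : ℝ, 0 < C ∧ ∀ (d : ℤ) (B V : ℕ),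
  d < 0 → (d % 4 = 0 ∨ d % 4 = 1) → 1 ≤ B → 1 ≤ V → 4 * B ^ (2 * k) ≤ V ^ 2 * d.natAbs →
  Finite (ClassGroup ↥(Od d)) →
  6 * Nat.card (ClassGroup ↥(Od d)) <
    Nat.card {y : ClassGroup ↥(Od d) // y ^ k = 1} * MM d B →
  ∃ (p : Co) (S : Finset ℕ), p.Good ∧ |p.a| ≤ V ∧ (∀ N ∈ S, 1 ≤ N ∧ N ≤ B ∧
    ∃ P : Pt ℤ, On k p P ∧ P.T = N ∧ 1 ≤ P.S ∧ P.S ≤ B ∧ 1 ≤ P.al ∧ P.al ≤ B ∧
      1 ≤ P.be ∧ P.be ≤ B) ∧ (MM d B : ℝ) ≤ C * (V : ℝ) ^ 5 * (B : ℝ) ^ ι * S.card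

/-- [BGC] the torsion bound (`PAT` with `ι = 1 / 500`, `TP`). -/
def S_BGC : Prop := ∀ k : ℕ, 5 ≤ k → ∃ C : ℕ, ∀ (d : ℤ) (B V : ℕ),
  d < 0 → (d % 4 = 0 ∨ d % 4 = 1) → 1 ≤ B → 1 ≤ V → 4 * B ^ (2 * k) ≤ V ^ 2 * d.natAbs →
  V ^ 200 ≤ B → C * B ^ 997 < MM d B ^ 1000 → Finite (ClassGroup ↥(Od d)) →
  Nat.card {y : ClassGroup ↥(Od d) // y ^ k = 1} * MM d B ≤ 6 * Nat.card (ClassGroup ↥(Od d))

/-- [PW] the same with real exponents: `B = ⌊|d|^(1/(2k) + 1/(500k^2))⌋`,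
`V = ⌈2 |d|^(1/(500k))⌉` (`BGC`, `ClaimC1a`, `ClaimC1c`). -/
def S_PW : Prop := ∀ k : ℕ, 5 ≤ k → ∃ C : ℝ, 0 < C ∧ ∀ d : ℤ, d < 0 → (d % 4 = 0 ∨ d % 4 = 1) →
  |(d : ℝ)| ^ ((1 : ℝ) / (2 * k) + 3 / (2000 * k ^ 2)) ≤
    MM d ⌊|(d : ℝ)| ^ ((1 : ℝ) / (2 * k) + 1 / (500 * k ^ 2))⌋₊ →
  (Nat.card {y : ClassGroup ↥(Od d) // y ^ k = 1} : ℝ) ≤
    C * |(d : ℝ)| ^ ((1 : ℝ) / 2 - 1 / (2 * k) - 1 / (800 * k ^ 2))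

/-- [X3B] few ideals of norm at most `|d|^β` imply few split primes (as `SM/ItemX3.lean`, with a
real exponent `β`; `ClaimX1`). -/
def S_X3B : Prop := ∀ β δ : ℝ, 0 < β → β ≤ 1 → 0 < δ → δ ≤ β → ∃ K : ℕ, 0 < K ∧ ∃ c : ℝ, 0 < c ∧
  c < 1 / 2 ∧ ∃ X0 : ℝ, 1 ≤ X0 ∧ ∀ (X : ℝ) (d : ℤ), X0 ≤ X → X ^ ((1 : ℝ) / 2) ≤ |(d : ℝ)| →
    |(d : ℝ)| ≤ X → (MM d ⌊|(d : ℝ)| ^ β⌋₊ : ℝ) ≤ |(d : ℝ)| ^ (β - δ) →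
    (Pd d ⌊X ^ ((1 : ℝ) / K)⌋₊ : ℝ) ≤ X ^ ((1 - c) / K)

/-- [L5B] many primitive ideals of norm at most `|d|^β` for smooth `d` (as `SM/ItemL5.lean` /
`SM/ItemN6.lean`, with a real exponent `β` and `|d|^β` instead of `(|d| / 5)^(1 / 2k)`; the
smoothness condition is written out as `Smp` of `SM/ItemL4.lean`). -/
def S_L5B : Prop := ∀ β η ε : ℝ, 0 < β → β ≤ 1 / 2 → 0 < η → 0 < ε →
  ∃ c : ℝ, 0 < c ∧ ∃ D : ℝ, 0 < D ∧ ∀ d : ℤ, d < 0 → D ≤ |(d : ℝ)| →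
    (∃ q : ℕ, (q : ℝ) ≤ (|(d : ℝ)| ^ (β - η)) ^ 2 ∧
      ∀ p : ℕ, p.Prime → p ≠ q → Odd (padicValInt p d) → (p : ℝ) ≤ |(d : ℝ)| ^ (β - η)) →
    c * |(d : ℝ)| ^ (β - ε) ≤ MM d ⌊|(d : ℝ)| ^ β⌋₊

/-- [TWO] from `m` to `2^a m` (genus theory, as in `SM/ItemL7.lean`). -/
def S_TWO : Prop := ∀ (a : ℕ) (ε : ℝ), 0 < ε → ∃ C : ℝ, 0 < C ∧ ∀ (m : ℕ) (d : ℤ), 0 < m →
  d < 0 → (d % 4 = 0 ∨ d % 4 = 1) →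
  (Nat.card {x : ClassGroup ↥(Od d) // x ^ (2 ^ a * m) = 1} : ℝ) ≤
    C * |(d : ℝ)| ^ ε * Nat.card {x : ClassGroup ↥(Od d) // x ^ m = 1}

/-! ## The three final theorems -/

/-- [FP] the pointwise theorem (`PW`, `X3B` with `X = |d|`, `TWO`). -/
def S_FP : Prop := ∀ m : ℕ, 5 ≤ m → ∃ K : ℕ, 0 < K ∧ ∃ c : ℝ, 0 < c ∧ ∀ a : ℕ, ∃ C : ℝ, 0 < C ∧
  ∀ d : ℤ, d < 0 → (d % 4 = 0 ∨ d % 4 = 1) →
    |(d : ℝ)| ^ ((1 - c) / K) ≤ Pd d ⌊|(d : ℝ)| ^ ((1 : ℝ) / K)⌋₊ →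
    (Nat.card {x : ClassGroup ↥(Od d) // x ^ (2 ^ a * m) = 1} : ℝ) ≤
      C * |(d : ℝ)| ^ ((1 : ℝ) / 2 - 1 / (2 * m) - 1 / (1000 * m ^ 2))

/-- [FF] few exceptions (`PW`, `X3B`, `ClaimX4`, `TWO`; as `SM/ItemX12.lean`). -/
def S_FF : Prop := ∀ a m : ℕ, 5 ≤ m → ∃ C : ℝ, 0 < C ∧ ∀ X Y : ℝ, 2 ≤ Y → Y ≤ X →
  ∀ S : Finset ℤ, (∀ d ∈ S, d < 0 ∧ (d % 4 = 0 ∨ d % 4 = 1) ∧ Y ≤ |(d : ℝ)| ∧ |(d : ℝ)| ≤ X ∧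
    C * |(d : ℝ)| ^ ((1 : ℝ) / 2 - 1 / (2 * m) - 1 / (1000 * m ^ 2)) <
      (Nat.card {x : ClassGroup ↥(Od d) // x ^ (2 ^ a * m) = 1} : ℝ)) →
  NSq S → (S.card : ℝ) ≤ C * (1 + Real.log (Real.log X / Real.log Y))

/-- [FS] smooth discriminants (`PW`, `L5B`, `TWO`). -/
def S_FS : Prop := ∀ a m : ℕ, 5 ≤ m → ∃ C : ℝ, 0 < C ∧ ∀ d : ℤ, d < 0 → (d % 4 = 0 ∨ d % 4 = 1) →
  (∃ q : ℕ, (q : ℝ) ≤ |(d : ℝ)| ^ ((1 : ℝ) / m) ∧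
    ∀ p : ℕ, p.Prime → p ≠ q → Odd (padicValInt p d) → (p : ℝ) ≤ |(d : ℝ)| ^ ((1 : ℝ) / (2 * m))) →
  (Nat.card {x : ClassGroup ↥(Od d) // x ^ (2 ^ a * m) = 1} : ℝ) ≤
    C * |(d : ℝ)| ^ ((1 : ℝ) / 2 - 1 / (2 * m) - 1 / (1000 * m ^ 2))

end Pool.Agent.Work.MP_e0c7e8_nt.BG
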