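import Mathlib

/-!
# Beyond the GRH bound for `k`-torsion, `k ≥ 5`: definitions

Paper proof: note 3719 on MP_e0c7e8_nt.
-/

set_option autoImplicit false

namespace Pool.Agent.Work.MP_e0c7e8_nt.BG

open Finset Polynomial

/-- The coefficients of the three equations. -/
structure Co where
  D : ℤ
  a : ℤ
  b : ℤ
  c : ℤ
  b' : ℤ
  c' : ℤ

/-- The conditions on the coefficients. -/
structure Co.Good (p : Co) : Prop where
  D : 0 < p.D
  a : p.a ≠ 0
  b : p.b ≠ 0
  c : p.c ≠ 0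
  b' : p.b' ≠ 0
  c' : p.c' ≠ 0
  det : p.b * p.c' ≠ p.b' * p.c

/-- Points `(n₁, n₂, x, n₃, n₄)` with coordinates in `A`. -/
structure Pt (A : Type) where
  T : A
  S : A
  x : A
  al : A
  be : A

/-- The image of a point. -/
def Pt.map {A B : Type} (f : A → B) (P : Pt A) : Pt B := ⟨f P.T, f P.S, f P.x, f P.al, f P.be⟩

/-- The three equations (E0), (E3), (E4). -/
structure On {A : Type} [CommRing A] (k : ℕ) (p : Co) (P : Pt A) : Prop where
  e0 : P.x ^ 2 + (p.D : A) * (p.a : A) ^ 2 = 4 * (P.T * P.S) ^ k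
  e3 : (p.a : A) ^ 2 * P.al ^ k =
    (p.b : A) ^ 2 * P.T ^ k - (p.b : A) * (p.c : A) * P.x + (p.c : A) ^ 2 * P.S ^ k
  e4 : (p.a : A) ^ 2 * P.be ^ k =
    (p.b' : A) ^ 2 * P.T ^ k - (p.b' : A) * (p.c' : A) * P.x + (p.c' : A) ^ 2 * P.S ^ k

/-- Exponent vectors `(i, j, e, c, c')` of the monomials `T^i S^j x^e al^c be^c'`. -/
abbrev Ix := ℕ × ℕ × ℕ × ℕ × ℕ

/-- The monomials. -/
def mo {A : Type} [CommRing A] (u : Ix) (P : Pt A) : A :=
  P.T ^ u.1 * P.S ^ u.2.1 * P.x ^ u.2.2.1 * P.al ^ u.2.2.2.1 * P.be ^ u.2.2.2.2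

/-- `i, j ≤ m`, `e < 2`, `c, c' < k`. -/
def Box (k m : ℕ) : Finset Ix :=
  range (m + 1) ×ˢ range (m + 1) ×ˢ range 2 ×ˢ range k ×ˢ range k

/-- The value of a formal combination of monomials at a point over a field. -/
noncomputable def ev {A : Type} [Field A] (F : Ix →₀ ℚ) (P : Pt A) : A :=
  F.sum fun u r => (r : A) * mo u P

/-- The weights: `T, S, al, be` have weight `1` and `x` has weight `k`. -/
def wt (k : ℕ) (u : Ix) : ℕ := u.1 + u.2.1 + k * u.2.2.1 + u.2.2.2.1 + u.2.2.2.2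

/-- The monomials of weight at most `M` with `e < 2`, `c, c' < 5`. -/
def WB (k M : ℕ) : Finset Ix := (Box 5 M).filter fun u => wt k u ≤ M

/-- The polynomials over `ℤ / q^s` in the integer functions of the set `G`, as functions on `κ`. -/
def RS (q s : ℕ) {κ : Type} (G : Set (κ → ℤ)) : Subalgebra (ZMod (q ^ s)) (κ → ZMod (q ^ s)) :=
  Algebra.adjoin (ZMod (q ^ s)) ((fun (f : κ → ℤ) (i : κ) => ((f i : ℤ) : ZMod (q ^ s))) '' G)

/-- Polynomials in two variables: degree at most `n` in the outer variable `Y`, degree at most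
`E` in the inner variable `X`. -/
def Bx (E n : ℕ) (h : ℤ[X][X]) : Prop := h.natDegree ≤ n ∧ ∀ j, (h.coeff j).natDegree ≤ E

/-- The algebraic closure of `ℂ(t)`. -/
abbrev Om := AlgebraicClosure (RatFunc ℂ)

/-- The element `t`. -/
noncomputable def tt : Om := algebraMap (RatFunc ℂ) Om RatFunc.X

/-- The constants. -/
noncomputable def cc (z : ℂ) : Om := algebraMap (RatFunc ℂ) Om (RatFunc.C z)

end Pool.Agent.Work.MP_e0c7e8_nt.BG
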