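import Pool.Agent.Work.MP_e0c7e8_nt.BG.StmtsI
import Pool.Agent.Work.MP_e0c7e8_nt.SM.ItemC2b2

/-!
# Item EQS: the three equations
-/

set_option autoImplicit false

namespace Pool.Agent.Work.MP_e0c7e8_nt.BG

open Finset Polynomial Pool.Agent.Work.MP_e0c7e8_nt.SM

namespace I_EQS

/-- The norm form. -/
def Nm (d u v : ℤ) : ℤ := u ^ 2 + u * v * d + v ^ 2 * ((d ^ 2 - d) / 4)

lemma four_Nm {d : ℤ} (h : d % 4 = 0 ∨ d % 4 = 1) (u v : ℤ) :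
    4 * Nm d u v = (2 * u + d * v) ^ 2 + v ^ 2 * (-d) := by
  have h4 : 4 * ((d ^ 2 - d) / 4) = d ^ 2 - d := by
    apply Int.mul_ediv_cancel'
    rcases h with h | h
    · obtain ⟨k, rfl⟩ : (4 : ℤ) ∣ d := Int.dvd_of_emod_eq_zero h
      exact ⟨4 * k ^ 2 - k, by ring⟩
    · obtain ⟨k, hk⟩ : (4 : ℤ) ∣ d - 1 := by omega
      have : d = 4 * k + 1 := by linarith
      subst this
      exact ⟨(4 * k + 1) * k, by ring⟩
  unfold Nm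
  linear_combination v ^ 2 * h4

lemma cj_cj {d : ℤ} {A : AI} (hA : Adm d A) : cj (cj A) = A := by
  have h := hA.2.2
  unfold cj
  ext1
  · rfl
  · simp only
    exact Finset.sdiff_sdiff_eq_self h

lemma adm_cj {d : ℤ} {A : AI} (hA : Adm d A) : Adm d (cj A) :=
  ⟨hA.1, hA.2.1, Finset.sdiff_subset⟩

lemma bound {d : ℤ} (hd4 : d % 4 = 0 ∨ d % 4 = 1) {u v : ℤ} {a b k B : ℕ}
    (h : Nm d u v = ((a : ℤ) * (b : ℤ)) ^ k) (ha : a ≤ B) (hb : b ≤ B) :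
    v ^ 2 * (-d) ≤ 4 * (B : ℤ) ^ (2 * k) := by
  have h1 := four_Nm hd4 u v
  rw [h] at h1
  have h2 : ((a : ℤ) * (b : ℤ)) ^ k ≤ (B : ℤ) ^ (2 * k) := by
    rw [pow_mul, sq]
    have h3 : (a * b) ^ k ≤ (B * B) ^ k := Nat.pow_le_pow_left (Nat.mul_le_mul ha hb) k
    exact_mod_cast h3
  have h4 : 0 ≤ (2 * u + d * v) ^ 2 := sq_nonneg _
  linarith

lemma gen {d : ℤ} {n : ℕ → ℤ} (hd : d < 0) (hd4 : d % 4 = 0 ∨ d % 4 = 1) (hR : Rt d n)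
    (hrep : ∀ z : ↥(Od d), ∃ u v : ℤ, z = (u : ↥(Od d)) + (v : ↥(Od d)) * th d)
    (hns : ∀ u v : ℤ, Complex.normSq (((u : ↥(Od d)) + (v : ↥(Od d)) * th d : ↥(Od d)) : ℂ) =
      ((u ^ 2 + u * v * d + v ^ 2 * ((d ^ 2 - d) / 4) : ℤ) : ℝ))
    (hnb : ∀ u v : ℤ, (v : ℝ) ^ 2 * |(d : ℝ)| ≤
      4 * Complex.normSq (((u : ↥(Od d)) + (v : ↥(Od d)) * th d : ↥(Od d)) : ℂ))
    (σ : ↥(Od d) ≃+* ↥(Od d)) (hσ : σ (th d) = (d : ↥(Od d)) - th d)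
    (hσn : ∀ z : ↥(Od d), ((z * σ z : ↥(Od d)) : ℂ) = (Complex.normSq (z : ℂ) : ℂ))
    (h1 : S_IDA) (h3 : S_IDC) {A A' : AI} (hA : Adm d A) (hA' : Adm d A') {k : ℕ} (hk : 1 ≤ k)
    {g : ↥(Od d)} (hg : JJ d n A ^ k * JJ d n (cj A') ^ k = Ideal.span {g}) :
    ∃ u v : ℤ, g = (u : ↥(Od d)) + (v : ↥(Od d)) * th d ∧
      Nm d u v = ((A.1 : ℤ) * (A'.1 : ℤ)) ^ k ∧ (A ≠ A' → v ≠ 0) := by
  obtain ⟨u, v, huv⟩ := hrep g
  refine ⟨u, v, huv, ?_, ?_⟩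
  · obtain ⟨hn1, hm1⟩ := h1 d n hd hd4 hR A hA
    obtain ⟨hn2, hm2⟩ := h1 d n hd hd4 hR A' hA'
    obtain ⟨-, hm3⟩ := h1 d n hd hd4 hR (cj A') (adm_cj hA')
    have e1 : Ideal.map (σ : ↥(Od d) →+* ↥(Od d)) (Ideal.span {g}) =
        JJ d n (cj A) ^ k * JJ d n A' ^ k := by
      rw [← hg, Ideal.map_mul, Ideal.map_pow, Ideal.map_pow, hm1 σ hσ, hm3 σ hσ, cj_cj hA']
    rw [Ideal.map_span, Set.image_singleton] at e1
    have e2 : Ideal.span {g * σ g} = Ideal.span {(((A.1 : ℤ) * (A'.1 : ℤ)) ^ k : ↥(Od d))} := by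
      rw [← Ideal.span_singleton_mul_span_singleton, ← hg]
      have e3 : Ideal.span {σ g} = JJ d n (cj A) ^ k * JJ d n A' ^ k := e1
      rw [e3]
      calc JJ d n A ^ k * JJ d n (cj A') ^ k * (JJ d n (cj A) ^ k * JJ d n A' ^ k)
          = (JJ d n A * JJ d n (cj A)) ^ k * (JJ d n A' * JJ d n (cj A')) ^ k := by ring
        _ = _ := by
          rw [hn1, hn2, Ideal.span_singleton_pow, Ideal.span_singleton_pow,
            Ideal.span_singleton_mul_span_singleton, mul_pow]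
          push_cast
          rfl
    have hn : Complex.normSq (g : ℂ) = ((Nm d u v : ℤ) : ℝ) := by
      rw [huv, hns u v]; rfl
    have hgσ : g * σ g = ((Nm d u v : ℤ) : ↥(Od d)) := by
      apply Subtype.ext
      rw [hσn g, hn]
      simp
    rw [hgσ] at e2
    have e4 : (((A.1 : ℤ) * (A'.1 : ℤ)) ^ k : ↥(Od d)) =
        (((((A.1 : ℤ) * (A'.1 : ℤ)) ^ k : ℤ)) : ↥(Od d)) := by push_cast; rfl
    rw [e4] at e2
    have hd1 : Nm d u v ∣ ((A.1 : ℤ) * (A'.1 : ℤ)) ^ k := by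
      apply ItemC2b2.dvd_of_dvd hd hrep hnb
      apply Ideal.mem_span_singleton.1
      rw [e2]
      exact Ideal.mem_span_singleton_self _
    have hd2 : ((A.1 : ℤ) * (A'.1 : ℤ)) ^ k ∣ Nm d u v := by
      apply ItemC2b2.dvd_of_dvd hd hrep hnb
      apply Ideal.mem_span_singleton.1
      rw [← e2]
      exact Ideal.mem_span_singleton_self _
    have hN0 : 0 ≤ Nm d u v := by
      have := Complex.normSq_nonneg (g : ℂ)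
      rw [hn] at this
      exact_mod_cast this
    exact Int.dvd_antisymm hN0 (by positivity) hd1 hd2
  · intro hne hv
    apply hne
    refine h3 d n hd hd4 hR A A' hA hA' k u hk ?_
    rw [hg, huv, hv]
    simp

lemma delta {d : ℤ} {n : ℕ → ℤ} (hd : d < 0) (hd4 : d % 4 = 0 ∨ d % 4 = 1) (hR : Rt d n)
    (σ : ↥(Od d) ≃+* ↥(Od d)) (hσ : σ (th d) = (d : ↥(Od d)) - th d)
    (h1 : S_IDA) {A1 A2 A3 : AI} (hA1 : Adm d A1) (hA3 : Adm d A3) {k : ℕ}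
    {g2 g3 h : ↥(Od d)} (hg2 : JJ d n A2 ^ k * JJ d n (cj A1) ^ k = Ideal.span {g2})
    (hg3 : JJ d n A3 ^ k * JJ d n (cj A1) ^ k = Ideal.span {g3})
    (hh : JJ d n A2 ^ k * JJ d n (cj A3) ^ k = Ideal.span {h}) :
    ∃ δ : ↥(Od d), g2 * σ g3 = (((A1.1 : ℤ) ^ k : ℤ) : ↥(Od d)) * δ ∧
      JJ d n A2 ^ k * JJ d n (cj A3) ^ k = Ideal.span {δ} := by
  obtain ⟨hn1, -⟩ := h1 d n hd hd4 hR A1 hA1
  obtain ⟨-, hm3⟩ := h1 d n hd hd4 hR A3 hA3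
  obtain ⟨-, hm1⟩ := h1 d n hd hd4 hR (cj A1) (adm_cj hA1)
  have e1 : Ideal.map (σ : ↥(Od d) →+* ↥(Od d)) (Ideal.span {g3}) =
      JJ d n (cj A3) ^ k * JJ d n A1 ^ k := by
    rw [← hg3, Ideal.map_mul, Ideal.map_pow, Ideal.map_pow, hm3 σ hσ, hm1 σ hσ, cj_cj hA1]
  rw [Ideal.map_span, Set.image_singleton] at e1
  have e3 : Ideal.span {σ g3} = JJ d n (cj A3) ^ k * JJ d n A1 ^ k := e1
  have e2 : Ideal.span {g2 * σ g3} = Ideal.span {h * ((A1.1 : ↥(Od d)) ^ k)} := by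
    rw [← Ideal.span_singleton_mul_span_singleton, ← hg2, e3,
      ← Ideal.span_singleton_mul_span_singleton, ← hh, ← Ideal.span_singleton_pow, ← hn1]
    ring
  obtain ⟨w, hw⟩ := Ideal.span_singleton_eq_span_singleton.1 e2.symm
  refine ⟨h * w, ?_, ?_⟩
  · rw [← hw]
    push_cast
    ring
  · rw [hh]
    apply Ideal.span_singleton_eq_span_singleton.2
    exact ⟨w, rfl⟩

/-- the `θ`-coordinate of `g_2 σ(g_3)` -/
lemma coordd {d : ℤ} (hd : d < 0)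
    (hnb : ∀ u v : ℤ, (v : ℝ) ^ 2 * |(d : ℝ)| ≤
      4 * Complex.normSq (((u : ↥(Od d)) + (v : ↥(Od d)) * th d : ↥(Od d)) : ℂ))
    (hth : th d * ((d : ↥(Od d)) - th d) = (((d ^ 2 - d) / 4 : ℤ) : ↥(Od d)))
    (σ : ↥(Od d) ≃+* ↥(Od d)) (hσ : σ (th d) = (d : ↥(Od d)) - th d)
    {u2 v2 u3 v3 s b M : ℤ} {g2 g3 δ : ↥(Od d)}
    (hg2 : g2 = (u2 : ↥(Od d)) + (v2 : ↥(Od d)) * th d)
    (hg3 : g3 = (u3 : ↥(Od d)) + (v3 : ↥(Od d)) * th d)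
    (hδ : δ = (s : ↥(Od d)) + (b : ↥(Od d)) * th d)
    (h : g2 * σ g3 = (M : ↥(Od d)) * δ) : v2 * u3 - v3 * u2 = M * b := by
  have e : σ g3 = (u3 : ↥(Od d)) + (v3 : ↥(Od d)) * ((d : ↥(Od d)) - th d) := by
    rw [hg3, map_add, map_mul, map_intCast, map_intCast, hσ]
  have h5 : ((u2 * u3 + u2 * v3 * d + v2 * v3 * ((d ^ 2 - d) / 4) : ℤ) : ↥(Od d)) +
      ((v2 * u3 - v3 * u2 : ℤ) : ↥(Od d)) * th d =
      ((M * s : ℤ) : ↥(Od d)) + ((M * b : ℤ) : ↥(Od d)) * th d := by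
    rw [e, hg2, hδ] at h
    push_cast at h hth ⊢
    linear_combination h - (v2 : ↥(Od d)) * (v3 : ↥(Od d)) * hth
  exact (ItemC2b2.coord hd hnb h5).2

/-- the second equation -/
lemma eq3 {d u2 v2 u3 v3 b M X Y : ℤ} (hM : M ≠ 0) (h : v2 * u3 - v3 * u2 = M * b)
    (h2 : Nm d u2 v2 = X * M) (h3 : Nm d u3 v3 = Y * M) :
    v2 ^ 2 * Y = b ^ 2 * M - b * (-v3) * (2 * u2 + d * v2) + (-v3) ^ 2 * X := by
  apply mul_right_cancel₀ hM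
  unfold Nm at h2 h3
  generalize (d ^ 2 - d) / 4 = c0 at h2 h3
  linear_combination (-v2 ^ 2) * h3 + v3 ^ 2 * h2 +
    (v2 * u3 - v3 * u2 + M * b + v3 * (2 * u2 + d * v2)) * h

end I_EQS

open I_EQS in
theorem EQS_pf (hC0 : ClaimC0) (h1 : S_IDA) (h2 : S_IDB) (h3 : S_IDC) (hb0 : ClaimC2b0) :
    S_EQS := by
  classical
  intro d hd hd4
  have hn : ∀ p : ℕ, ∃ n : ℤ, p.Prime → chi d p = 1 →
      (p : ℤ) ∣ FF d n ∧ ¬ (p : ℤ) ∣ 2 * n + d := by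
    intro p
    by_cases hp : p.Prime ∧ chi d p = 1
    · obtain ⟨n, hn⟩ := hb0 d p hd4 hp.1 hp.2
      exact ⟨n, fun _ _ => hn⟩
    · exact ⟨0, fun ha hb => absurd ⟨ha, hb⟩ hp⟩
  choose n hn using hn
  have hR : Rt d n := hn
  obtain ⟨hrep, hns, hnb, hth, σ, hσ, hσn⟩ := hC0 d hd hd4
  obtain ⟨cl, hcl⟩ := h2 d n hd hd4 hR
  refine ⟨cl, ?_⟩
  intro k B A1 A2 A3 A4 hk hA1 hA2 hA3 hA4 hB1 hB2 hB3 hB4 h12 h13 h14 h23 h24 h34 hc2 hc3 hc4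
  obtain ⟨g2, hg2⟩ := hcl A2 A1 hA2 hA1 k hc2
  obtain ⟨g3, hg3⟩ := hcl A3 A1 hA3 hA1 k hc3
  obtain ⟨g4, hg4⟩ := hcl A4 A1 hA4 hA1 k hc4
  obtain ⟨e23, he23⟩ := hcl A2 A3 hA2 hA3 k (hc2.trans hc3.symm)
  obtain ⟨e24, he24⟩ := hcl A2 A4 hA2 hA4 k (hc2.trans hc4.symm)
  obtain ⟨e34, he34⟩ := hcl A3 A4 hA3 hA4 k (hc3.trans hc4.symm)
  obtain ⟨δ23, hm23, hs23⟩ := delta hd hd4 hR σ hσ h1 hA1 hA3 hg2 hg3 he23
  obtain ⟨δ24, hm24, hs24⟩ := delta hd hd4 hR σ hσ h1 hA1 hA4 hg2 hg4 he24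
  obtain ⟨δ34, hm34, hs34⟩ := delta hd hd4 hR σ hσ h1 hA1 hA4 hg3 hg4 he34
  obtain ⟨u2, v2, hu2, hN2, hv2⟩ := gen hd hd4 hR hrep hns hnb σ hσ hσn h1 h3 hA2 hA1 hk hg2
  obtain ⟨u3, v3, hu3, hN3, hv3⟩ := gen hd hd4 hR hrep hns hnb σ hσ hσn h1 h3 hA3 hA1 hk hg3
  obtain ⟨u4, v4, hu4, hN4, hv4⟩ := gen hd hd4 hR hrep hns hnb σ hσ hσn h1 h3 hA4 hA1 hk hg4
  obtain ⟨s, b, hδ, hNb, hb⟩ := gen hd hd4 hR hrep hns hnb σ hσ hσn h1 h3 hA2 hA3 hk hs23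
  obtain ⟨s', b', hδ', hNb', hb'⟩ := gen hd hd4 hR hrep hns hnb σ hσ hσn h1 h3 hA2 hA4 hk hs24
  obtain ⟨t, β, hδt, -, hβ⟩ := gen hd hd4 hR hrep hns hnb σ hσ hσn h1 h3 hA3 hA4 hk hs34
  have c23 := coordd hd hnb hth σ hσ hu2 hu3 hδ hm23
  have c24 := coordd hd hnb hth σ hσ hu2 hu4 hδ' hm24
  have c34 := coordd hd hnb hth σ hσ hu3 hu4 hδt hm34
  have hv2' := hv2 h12.symm
  have hv3' := hv3 h13.symm
  have hv4' := hv4 h14.symm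
  have hbn := hb h23
  have hbn' := hb' h24
  have hβn := hβ h34
  have hM : ((A1.1 : ℤ)) ^ k ≠ 0 := by
    have := hA1.1
    positivity
  rw [mul_pow] at hN2 hN3 hN4
  refine ⟨⟨-d, v2, b, -v3, b', -v4⟩, ⟨A1.1, A2.1, 2 * u2 + d * v2, A3.1, A4.1⟩, ?_, rfl, ?_, rfl,
    rfl, rfl, rfl, ?_, ?_, ?_, ?_, ?_⟩
  · refine ⟨by simpa using hd, hv2', hbn, neg_ne_zero.2 hv3', hbn', neg_ne_zero.2 hv4', ?_⟩
    intro hdet
    simp only at hdet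
    have h5 : v2 * β = 0 := by
      apply mul_left_cancel₀ hM
      linear_combination (-v2) * c34 - v4 * c23 + v3 * c24 + (A1.1 : ℤ) ^ k * hdet
    rcases mul_eq_zero.1 h5 with h6 | h6
    · exact hv2' h6
    · exact hβn h6
  · refine ⟨?_, ?_, ?_⟩
    · simp only [Int.cast_id]
      have h5 := four_Nm hd4 u2 v2
      rw [hN2] at h5
      rw [mul_pow]
      linear_combination -h5
    · simp only [Int.cast_id]
      exact eq3 hM c23 hN2 hN3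
    · simp only [Int.cast_id]
      exact eq3 hM c24 hN2 hN4
  · exact bound hd4 (u := u2) (by rw [mul_pow]; exact hN2) hB2 hB1
  · exact bound hd4 hNb hB2 hB3
  · simp only [neg_sq]
    exact bound hd4 (u := u3) (by rw [mul_pow]; exact hN3) hB3 hB1
  · exact bound hd4 hNb' hB2 hB4
  · simp only [neg_sq]
    exact bound hd4 (u := u4) (by rw [mul_pow]; exact hN4) hB4 hB1

end Pool.Agent.Work.MP_e0c7e8_nt.BG
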