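import Pool.Agent.Work.MP_e0c7e8_nt.BG.StmtsI
import Pool.Agent.Work.MP_e0c7e8_nt.SM.ItemL5

/-!
# Item L5B: many primitive ideals of norm at most `|d| ^ β` (adaptation of `SM/ItemL5.lean`)
-/

set_option autoImplicit false

namespace Pool.Agent.Work.MP_e0c7e8_nt.BG

open Finset Filter Topology Pool.Agent.Work.MP_e0c7e8_nt.SM

open Pool.Agent.Work.MP_e0c7e8_nt.SM.ItemN6 Pool.Agent.Work.MP_e0c7e8_nt.SM.ItemL5 in
theorem L5B_pf (h10 : ClaimL4) (hS : ClaimS10) (h3 : ClaimN3) (h4 : ClaimN4) (h5 : ClaimN5) :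
    S_L5B := by
  intro κ η ε hκ0 hκ1 hη hε
  obtain ⟨η1, hη1, hη1η, hη1κ⟩ : ∃ η1 : ℝ, 0 < η1 ∧ η1 ≤ η ∧ η1 ≤ 2 * κ / 3 :=
    ⟨min η (2 * κ / 3), lt_min hη (by positivity), min_le_left _ _, min_le_right _ _⟩
  obtain ⟨c1, hc1, C1, hC1, hG⟩ := h10 (η1 / 2) (by linarith) (by linarith)
  obtain ⟨e1, he1, he1ε, he1c, he1η⟩ : ∃ e1 : ℝ, 0 < e1 ∧ e1 ≤ ε / 20 ∧ e1 ≤ c1 / 4 ∧
      e1 ≤ η1 / 8 :=
    ⟨min (min (ε / 20) (c1 / 4)) (η1 / 8), lt_min (lt_min (by positivity) (by positivity))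
      (by positivity), (min_le_left _ _).trans (min_le_left _ _),
      (min_le_left _ _).trans (min_le_right _ _), min_le_right _ _⟩
  obtain ⟨c2, hc2, hL⟩ := hS e1 he1
  obtain ⟨C3, hC3, hN5⟩ := h5 e1 he1
  obtain ⟨K, hK⟩ : ∃ K : ℝ, K = 1 + 2 / e1 := ⟨_, rfl⟩
  have hK0 : 0 < K := by rw [hK]; positivity
  obtain ⟨M, hM⟩ : ∃ M : ℝ, M = 20 + 96 * C1 * K / c2 + 320 / c2 + 8 * C3 * K / c2 := ⟨_, rfl⟩
  have ht1 : 0 < 96 * C1 * K / c2 := by positivity
  have ht2 : 0 < 320 / c2 := by positivity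
  have ht3 : 0 < 8 * C3 * K / c2 := by positivity
  have hM0 : 0 < M := by rw [hM]; linarith
  refine ⟨c2 / 40, by positivity, M ^ (2 / e1) + 2 ^ (1 / κ) + 1, by positivity, ?_⟩
  intro d hd hD hsmo
  obtain ⟨X, hX⟩ : ∃ X : ℝ, X = |(d : ℝ)| := ⟨_, rfl⟩
  have hLd := hL d (not_square_of_neg hd)
  rw [← hX] at hD hsmo hLd ⊢
  have hMp : 0 < M ^ (2 / e1) := Real.rpow_pos_of_pos hM0 _
  have h2k : (0 : ℝ) < 2 ^ (1 / κ) := Real.rpow_pos_of_pos (by norm_num) _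
  have hX1 : 1 ≤ X := by linarith
  have hX0 : 0 < X := by linarith
  have hT : M ≤ X ^ (e1 / 2) := by
    have h1 : M ^ (2 / e1) ≤ X := by linarith
    have h2 : (M ^ (2 / e1)) ^ (e1 / 2) ≤ X ^ (e1 / 2) :=
      Real.rpow_le_rpow hMp.le h1 (by positivity)
    rw [← Real.rpow_mul hM0.le] at h2
    have h3 : 2 / e1 * (e1 / 2) = 1 := by field_simp
    rwa [h3, Real.rpow_one] at h2
  have hmono : ∀ {a b : ℝ}, a ≤ b → X ^ a ≤ X ^ b := fun h =>
    Real.rpow_le_rpow_of_exponent_le hX1 h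
  have hpos : ∀ a : ℝ, 0 < X ^ a := fun a => Real.rpow_pos_of_pos hX0 a
  -- the logarithm
  have hlogK : 1 + Real.log X ≤ K * X ^ (e1 / 2) := by
    have h1 := Real.log_le_rpow_div hX0.le (show 0 < e1 / 2 by positivity)
    have h2 : (1 : ℝ) ≤ X ^ (e1 / 2) := Real.one_le_rpow hX1 (by positivity)
    have h3 : X ^ (e1 / 2) / (e1 / 2) = 2 / e1 * X ^ (e1 / 2) := by field_simp
    rw [h3] at h1
    rw [hK, add_mul, one_mul]
    linarith
  -- x
  obtain ⟨x, hx⟩ : ∃ x : ℕ, x = ⌊X ^ κ⌋₊ := ⟨_, rfl⟩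
  rw [← hx]
  have hy0 : (0 : ℝ) ≤ X ^ κ := Real.rpow_nonneg hX0.le _
  have hy2 : (2 : ℝ) ≤ X ^ κ := by
    have h1 : (2 : ℝ) ^ (1 / κ) ≤ X := by linarith
    have h2 := Real.rpow_le_rpow h2k.le h1 hκ0.le
    rw [← Real.rpow_mul (by norm_num)] at h2
    have h3' : 1 / κ * κ = 1 := by field_simp
    rwa [h3', Real.rpow_one] at h2
  have hxle : (x : ℝ) ≤ X ^ κ := by rw [hx]; exact Nat.floor_le hy0
  have hxge : X ^ κ / 2 ≤ x := by
    have h1 := Nat.lt_floor_add_one (X ^ κ)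
    rw [← hx] at h1
    linarith
  have hx10 : X ^ κ / 10 ≤ x := by linarith
  have hx1 : (1 : ℝ) ≤ x := by linarith
  have hx1' : 1 ≤ x := by exact_mod_cast hx1
  have hxX : (x : ℝ) ≤ X := by
    refine hxle.trans ?_
    calc X ^ κ ≤ X ^ (1 : ℝ) := hmono (by linarith)
      _ = X := Real.rpow_one X
  have hlogx : Real.log x ≤ Real.log X := Real.log_le_log (by linarith) hxX
  have hlogx0 : 0 ≤ Real.log x := Real.log_nonneg hx1
  have hlogX0 : 0 ≤ Real.log X := Real.log_nonneg hX1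
  -- A
  obtain ⟨A, hA⟩ : ∃ A : ℕ, A = ⌈X ^ (κ - η1 / 2)⌉₊ := ⟨_, rfl⟩
  have hA0 : X ^ (κ - η1 / 2) ≤ A := by rw [hA]; exact Nat.le_ceil _
  have hA1 : 1 ≤ A := by
    rw [hA]
    exact Nat.ceil_pos.2 (hpos _)
  have hAle : (A : ℝ) ≤ 2 * X ^ (κ - η1 / 2) := by
    have h1 := Nat.ceil_lt_add_one (hpos (κ - η1 / 2)).le
    rw [← hA] at h1
    have h2 : (1 : ℝ) ≤ X ^ (κ - η1 / 2) := Real.one_le_rpow hX1 (by linarith)
    linarith
  have hA20 : (A : ℝ) ≤ 20 * X ^ (-(η1 / 2)) * x := by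
    have h1 : X ^ (κ - η1 / 2) = X ^ (-(η1 / 2)) * X ^ κ := by
      rw [← Real.rpow_add hX0]
      congr 1
      ring
    have h2 : X ^ (-(η1 / 2)) * (X ^ κ / 10) ≤ X ^ (-(η1 / 2)) * x :=
      mul_le_mul_of_nonneg_left hx10 (hpos _).le
    rw [h1] at hAle
    linarith
  have hAx : A ≤ x := by
    have h1 : 20 ≤ X ^ (η1 / 2) := by
      have h2 : X ^ (e1 / 2) ≤ X ^ (η1 / 2) := hmono (by linarith)
      rw [hM] at hT
      linarith
    have h2 : 20 * X ^ (-(η1 / 2)) ≤ 1 := by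
      rw [Real.rpow_neg hX0.le, ← div_eq_mul_inv, div_le_one (hpos _)]
      exact h1
    have h3' : (A : ℝ) ≤ x := by
      refine hA20.trans ?_
      calc 20 * X ^ (-(η1 / 2)) * x ≤ 1 * x := mul_le_mul_of_nonneg_right h2 (by linarith)
        _ = x := one_mul _
    exact_mod_cast h3'
  -- the character sums
  obtain ⟨B, hB⟩ : ∃ B : ℝ, B = C1 * X ^ (-c1) := ⟨_, rfl⟩
  have hB0 : 0 ≤ B := by rw [hB]; exact mul_nonneg hC1.le (hpos _).le
  have hsum : ∀ n : ℕ, A ≤ n → |∑ j ∈ Icc 1 n, (chi d j : ℝ)| ≤ B * n := by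
    intro n hn
    have hn' : X ^ (κ - η1 / 2) ≤ n := hA0.trans (by exact_mod_cast hn)
    have h1 := hG X d n hX1 hX.ge (not_square_of_neg hd) (smp_mono hsmo (hpos _).le (by
      rw [le_div_iff₀ (hpos _)]
      calc X ^ (κ - η) * X ^ (η1 / 2) ≤ X ^ (κ - η1) * X ^ (η1 / 2) :=
            mul_le_mul_of_nonneg_right (hmono (by linarith)) (hpos _).le
        _ = X ^ (κ - η1 / 2) := by
            rw [← Real.rpow_add hX0]
            congr 1
            ring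
        _ ≤ n := hn')) (by
      refine le_trans (hmono ?_) hn'
      linarith)
    rw [hB]
    calc _ ≤ C1 * n * X ^ (-c1) := h1
      _ = _ := by ring
  have hN4 := h4 d A B (not_square_of_neg hd) hA1 hB0 hsum
  have hN3 := h3 d A x B hA1 hAx hB0 hsum
  rw [← hX] at hN4
  obtain ⟨u, hu⟩ : ∃ u : ℝ, u = X ^ (-e1) := ⟨_, rfl⟩
  have hu0 : 0 < u := by rw [hu]; exact hpos _
  have hMle : ∀ {M' : ℝ}, M' ≤ M → M' ≤ X ^ (e1 / 2) := fun h => h.trans hT
  -- (i)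
  have hi : B * (6 + 2 * Real.log X) ≤ c2 / 16 * u := by
    have h1 : 96 * C1 * K / c2 * X ^ (-c1 + e1 / 2) ≤ u := by
      rw [hu]
      exact key hX1 (hMle (by rw [hM]; linarith only [ht1, ht2, ht3])) (by linarith only [he1, he1c, he1η, hκ1, hη1, hη1κ])
    have h2 : B * (6 + 2 * Real.log X) ≤ B * (6 * (K * X ^ (e1 / 2))) :=
      mul_le_mul_of_nonneg_left (by linarith only [hlogK, hlogx, hlogX0]) hB0
    have h3' : B * (6 * (K * X ^ (e1 / 2))) =
        c2 / 16 * (96 * C1 * K / c2 * X ^ (-c1 + e1 / 2)) := by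
      rw [hB, Real.rpow_add hX0]
      field_simp
      ring
    calc _ ≤ _ := h2
      _ = _ := h3'
      _ ≤ _ := mul_le_mul_of_nonneg_left h1 (by positivity)
  -- (ii)
  have hii : 1 / X ≤ c2 / 16 * u := by
    have h1 : 16 / c2 * X ^ (-1 : ℝ) ≤ u := by
      rw [hu]
      refine key hX1 (hMle ?_) (by linarith)
      have : 16 / c2 ≤ 320 / c2 := div_le_div_of_nonneg_right (by norm_num) hc2.le
      rw [hM]
      linarith
    have h2 : 1 / X = c2 / 16 * (16 / c2 * X ^ (-1 : ℝ)) := by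
      rw [Real.rpow_neg_one]
      field_simp
    rw [h2]
    exact mul_le_mul_of_nonneg_left h1 (by positivity)
  -- (iii)
  have hiii : (A : ℝ) ≤ c2 / 16 * u * x := by
    have h1 : 320 / c2 * X ^ (-(η1 / 2)) ≤ u := by
      rw [hu]
      exact key hX1 (hMle (by rw [hM]; linarith only [ht1, ht2, ht3])) (by linarith only [he1, he1c, he1η, hκ1, hη1, hη1κ])
    have h2 : 20 * X ^ (-(η1 / 2)) ≤ c2 / 16 * u := by
      have h3' := mul_le_mul_of_nonneg_left h1 (show 0 ≤ c2 / 16 by positivity)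
      have h4' : c2 / 16 * (320 / c2 * X ^ (-(η1 / 2))) = 20 * X ^ (-(η1 / 2)) := by
        field_simp
        norm_num
      linarith only [h3', h4']
    exact hA20.trans (mul_le_mul_of_nonneg_right h2 (by linarith only [hx1]))
  -- (iv)
  have hiv : 2 * B * x * (1 + Real.log x) ≤ c2 / 16 * u * x := by
    have h1 : 96 * C1 * K / c2 * X ^ (-c1 + e1 / 2) ≤ u := by
      rw [hu]
      exact key hX1 (hMle (by rw [hM]; linarith only [ht1, ht2, ht3])) (by linarith only [he1, he1c, he1η, hκ1, hη1, hη1κ])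
    have h2 : B * (1 + Real.log x) ≤ B * (K * X ^ (e1 / 2)) :=
      mul_le_mul_of_nonneg_left (by linarith only [hlogK, hlogx, hlogX0]) hB0
    have h3' : B * (K * X ^ (e1 / 2)) =
        c2 / 96 * (96 * C1 * K / c2 * X ^ (-c1 + e1 / 2)) := by
      rw [hB, Real.rpow_add hX0]
      field_simp
    have h4' : c2 / 96 * (96 * C1 * K / c2 * X ^ (-c1 + e1 / 2)) ≤ c2 / 96 * u :=
      mul_le_mul_of_nonneg_left h1 (by positivity)
    have h5' : B * (1 + Real.log x) ≤ c2 / 96 * u := by linarith only [h2, h3', h4']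
    have h6 : 2 * (B * (1 + Real.log x)) * x ≤ 2 * (c2 / 96 * u) * x :=
      mul_le_mul_of_nonneg_right (by linarith only [h5']) (by linarith only [hx1])
    have h7 : 2 * (c2 / 96 * u) * x ≤ c2 / 16 * u * x := by
      apply mul_le_mul_of_nonneg_right _ (by linarith only [hx1])
      have : 0 < c2 * u := by positivity
      linarith only [this]
    calc 2 * B * x * (1 + Real.log x) = 2 * (B * (1 + Real.log x)) * x := by ring
      _ ≤ _ := h6
      _ ≤ _ := h7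
  -- lower bound for the sum
  have hSA : 14 / 16 * c2 * u ≤ ∑ m ∈ Icc 1 A, (chi d m : ℝ) / m := by
    have h1 := abs_le.1 hN4
    rw [← hu] at hLd
    have h2 := h1.2
    clear * - h2 hLd hi hii
    linarith
  have hR : 12 / 16 * c2 * u * x ≤ ∑ a ∈ Icc 1 x, (ff d a : ℝ) := by
    have h1 : (x : ℝ) * (14 / 16 * c2 * u) ≤ (x : ℝ) * ∑ m ∈ Icc 1 A, (chi d m : ℝ) / m :=
      mul_le_mul_of_nonneg_left hSA (by linarith only [hx1])
    clear * - h1 hN3 hiii hiv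
    linarith
  -- N5
  have hE1 : 1 ≤ X ^ (12 * e1) := Real.one_le_rpow hX1 (by positivity)
  have hN5' := hN5 d x (X ^ (12 * e1)) hd.ne hx1' hE1
  rw [← hX] at hN5'
  have hv : C3 * X ^ e1 * x * (1 + Real.log x) * (X ^ (12 * e1)) ^ (-(1 / 4) : ℝ) ≤
      c2 / 8 * u * x := by
    have h1 : 8 * C3 * K / c2 * X ^ (-(3 * e1 / 2)) ≤ u := by
      rw [hu]
      exact key hX1 (hMle (by rw [hM]; linarith only [ht1, ht2, ht3])) (by linarith only [he1, he1c, he1η, hκ1, hη1, hη1κ])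
    have h2 : (X ^ (12 * e1)) ^ (-(1 / 4) : ℝ) = X ^ (-(3 * e1)) := by
      rw [← Real.rpow_mul hX0.le]
      congr 1
      ring
    rw [h2]
    have h3' : C3 * X ^ e1 * x * (1 + Real.log x) * X ^ (-(3 * e1)) ≤
        C3 * X ^ e1 * x * (K * X ^ (e1 / 2)) * X ^ (-(3 * e1)) := by
      apply mul_le_mul_of_nonneg_right _ (hpos _).le
      apply mul_le_mul_of_nonneg_left (by linarith only [hlogK, hlogx])
      have := hpos e1
      positivity
    have h4' : C3 * X ^ e1 * x * (K * X ^ (e1 / 2)) * X ^ (-(3 * e1)) =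
        c2 / 8 * (8 * C3 * K / c2 * X ^ (-(3 * e1 / 2))) * x := by
      have h5' : X ^ e1 * X ^ (e1 / 2) * X ^ (-(3 * e1)) = X ^ (-(3 * e1 / 2)) := by
        rw [← Real.rpow_add hX0, ← Real.rpow_add hX0]
        congr 1
        ring
      calc C3 * X ^ e1 * x * (K * X ^ (e1 / 2)) * X ^ (-(3 * e1)) =
          C3 * K * x * (X ^ e1 * X ^ (e1 / 2) * X ^ (-(3 * e1))) := by ring
        _ = C3 * K * x * X ^ (-(3 * e1 / 2)) := by rw [h5']
        _ = _ := by field_simp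
    have h6 : c2 / 8 * (8 * C3 * K / c2 * X ^ (-(3 * e1 / 2))) * x ≤ c2 / 8 * u * x :=
      mul_le_mul_of_nonneg_right (mul_le_mul_of_nonneg_left h1 (by positivity)) (by linarith only [hx1])
    linarith only [h3', h4', h6]
  have hfin : c2 / 2 * u * x ≤ 2 * X ^ (12 * e1) * MM d x := by
    have h1 : 0 < c2 * u * x := by positivity
    clear * - h1 hv hR hN5'
    linarith
  have hux : X ^ (κ - e1) / 10 ≤ u * x := by
    have h1 : u * (X ^ κ / 10) ≤ u * x := mul_le_mul_of_nonneg_left hx10 hu0.le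
    have h2 : X ^ (κ - e1) = u * X ^ κ := by
      rw [hu, ← Real.rpow_add hX0]
      congr 1
      ring
    rw [h2]
    linarith only [h1]
  have hlow : c2 / 40 * X ^ (κ - ε) * (2 * X ^ (12 * e1)) ≤ 2 * X ^ (12 * e1) * MM d x := by
    refine le_trans ?_ hfin
    have h1 : X ^ (κ - ε) * X ^ (12 * e1) ≤ X ^ (κ - e1) := by
      rw [← Real.rpow_add hX0]
      exact hmono (by linarith only [he1, he1ε])
    have h2 : c2 / 20 * (X ^ (κ - ε) * X ^ (12 * e1)) ≤ c2 / 20 * X ^ (κ - e1) :=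
      mul_le_mul_of_nonneg_left h1 (by positivity)
    have h3' : c2 / 2 * (X ^ (κ - e1) / 10) ≤ c2 / 2 * (u * x) :=
      mul_le_mul_of_nonneg_left hux (by positivity)
    linarith only [h2, h3']
  have hE0 : 0 < 2 * X ^ (12 * e1) := by positivity
  rw [mul_comm (2 * X ^ (12 * e1)) (MM d x : ℝ)] at hlow
  exact le_of_mul_le_mul_right hlow hE0

end Pool.Agent.Work.MP_e0c7e8_nt.BG
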