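import Pool.Agent.Work.MP_e0c7e8_nt.BG.Stmts

/-!
Block BG of MP_e0c7e8_nt, item MUL: products of formal combinations.
-/

set_option autoImplicit false

namespace Pool.Agent.Work.MP_e0c7e8_nt.BG

open Finset Polynomial

namespace I_MUL

variable {A : Type} [Field A] [CharZero A]

theorem ev_add (F G : Ix →₀ ℚ) (P : Pt A) : ev (F + G) P = ev F P + ev G P := by
  unfold ev
  apply Finsupp.sum_add_index'
  · intro u
    rw [Rat.cast_zero, zero_mul]
  · intro u r s
    rw [Rat.cast_add, add_mul]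

theorem ev_single (u : Ix) (r : ℚ) (P : Pt A) : ev (Finsupp.single u r) P = (r : A) * mo u P := by
  unfold ev
  apply Finsupp.sum_single_index
  rw [Rat.cast_zero, zero_mul]

theorem ev_smul (r : ℚ) (F : Ix →₀ ℚ) (P : Pt A) : ev (r • F) P = (r : A) * ev F P := by
  unfold ev
  rw [Finsupp.sum_smul_index (fun u => by rw [Rat.cast_zero, zero_mul]), Finsupp.mul_sum]
  refine Finsupp.sum_congr fun u _ => ?_
  rw [Rat.cast_mul, mul_assoc]

/-- functions of level `m`. -/
def Lv (A : Type) [Field A] (k : ℕ) (p : Co) (m : ℕ) (f : Pt A → A) : Prop :=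
  ∃ H : Ix →₀ ℚ, H.support ⊆ Box k m ∧ ∀ P : Pt A, On k p P → ev H P = f P

theorem mem_Box {k m : ℕ} {u : Ix} : u ∈ Box k m ↔ u.1 ≤ m ∧ u.2.1 ≤ m ∧ u.2.2.1 < 2 ∧
    u.2.2.2.1 < k ∧ u.2.2.2.2 < k := by
  unfold Box
  simp only [Finset.mem_product, Finset.mem_range]
  omega

variable {k : ℕ} {p : Co}

theorem Lv.mono {m m' : ℕ} (h : m ≤ m') {f : Pt A → A} (hf : Lv A k p m f) : Lv A k p m' f := by
  obtain ⟨H, h1, h2⟩ := hf
  refine ⟨H, fun u hu => ?_, h2⟩
  have := mem_Box.1 (h1 hu)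
  exact mem_Box.2 ⟨by omega, by omega, by omega, by omega, by omega⟩

theorem Lv.congr {m : ℕ} {f g : Pt A → A} (hf : Lv A k p m f)
    (h : ∀ P, On k p P → f P = g P) : Lv A k p m g := by
  obtain ⟨H, h1, h2⟩ := hf
  exact ⟨H, h1, fun P hP => (h2 P hP).trans (h P hP)⟩

theorem Lv.add {m : ℕ} {f g : Pt A → A} (hf : Lv A k p m f) (hg : Lv A k p m g) :
    Lv A k p m (fun P => f P + g P) := by
  obtain ⟨H, h1, h2⟩ := hf
  obtain ⟨G, g1, g2⟩ := hg
  refine ⟨H + G, fun u hu => ?_, fun P hP => ?_⟩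
  · rcases Finset.mem_union.1 (Finsupp.support_add hu) with h | h
    · exact h1 h
    · exact g1 h
  · rw [ev_add, h2 P hP, g2 P hP]

theorem Lv.smul {m : ℕ} {f : Pt A → A} (hf : Lv A k p m f) (r : ℚ) :
    Lv A k p m (fun P => (r : A) * f P) := by
  obtain ⟨H, h1, h2⟩ := hf
  refine ⟨r • H, fun u hu => h1 (Finsupp.support_smul hu), fun P hP => ?_⟩
  rw [ev_smul, h2 P hP]

theorem Lv.zero (m : ℕ) : Lv A k p m (fun _ => 0) :=
  ⟨0, by simp, fun P _ => by unfold ev; simp⟩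

theorem Lv.mon {m : ℕ} {u : Ix} (hu : u ∈ Box k m) : Lv A k p m (fun P => mo u P) := by
  refine ⟨Finsupp.single u 1, fun v hv => ?_, fun P _ => ?_⟩
  · have := Finsupp.support_single_subset hv
    rw [Finset.mem_singleton] at this
    rw [this]
    exact hu
  · rw [ev_single, Rat.cast_one, one_mul]

theorem Lv.sum {m : ℕ} (s : Finset Ix) (r : Ix → ℚ) (f : Ix → Pt A → A)
    (hf : ∀ u ∈ s, Lv A k p m (f u)) : Lv A k p m (fun P => ∑ u ∈ s, (r u : A) * f u P) := by
  induction s using Finset.induction_on with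
  | empty =>
      refine (Lv.zero m).congr fun P _ => ?_
      rw [Finset.sum_empty]
  | insert u s hu ih =>
      have h1 := ((hf u (Finset.mem_insert_self u s)).smul (r u)).add
        (ih fun v hv => hf v (Finset.mem_insert_of_mem hv))
      refine h1.congr fun P _ => ?_
      rw [Finset.sum_insert hu]

/-- the general multiplier. -/
theorem Lv.mult {m m' : ℕ} (φ : Pt A → A)
    (hφ : ∀ u ∈ Box k m, Lv A k p m' (fun P => φ P * mo u P)) {f : Pt A → A}
    (hf : Lv A k p m f) : Lv A k p m' (fun P => φ P * f P) := by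
  obtain ⟨H, h1, h2⟩ := hf
  have h3 := Lv.sum H.support (fun u => H u) (fun u P => φ P * mo u P) fun u hu => hφ u (h1 hu)
  refine h3.congr fun P hP => ?_
  rw [← h2 P hP]
  unfold ev
  rw [Finsupp.mul_sum]
  refine Finset.sum_congr rfl fun u _ => ?_
  ring

theorem Lv.TS {m : ℕ} {f : Pt A → A} (hf : Lv A k p m f) (i j d : ℕ) (hi : i ≤ d) (hj : j ≤ d) :
    Lv A k p (m + d) (fun P => P.T ^ i * P.S ^ j * f P) := by
  refine Lv.mult (fun P => P.T ^ i * P.S ^ j) (fun u hu => ?_) hf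
  have hu' := mem_Box.1 hu
  have h1 : ((u.1 + i, u.2.1 + j, u.2.2) : Ix) ∈ Box k (m + d) :=
    mem_Box.2 ⟨by simp only; omega, by simp only; omega, hu'.2.2.1, hu'.2.2.2.1, hu'.2.2.2.2⟩
  refine (Lv.mon h1).congr fun P _ => ?_
  unfold mo
  simp only
  ring

theorem Lv.X {m : ℕ} {f : Pt A → A} (hf : Lv A k p m f) (hk : 1 ≤ k) :
    Lv A k p (m + k) (fun P => P.x * f P) := by
  refine Lv.mult (fun P => P.x) (fun u hu => ?_) hf
  have hu' := mem_Box.1 hu
  obtain ⟨i, j, e, c, c'⟩ := u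
  simp only at hu'
  obtain ⟨h1, h2, h3, h4, h5⟩ := hu'
  interval_cases e
  · have hm : ((i, j, 1, c, c') : Ix) ∈ Box k (m + k) :=
      mem_Box.2 ⟨by simp only; omega, by simp only; omega, by simp only; omega, h4, h5⟩
    refine (Lv.mon hm).congr fun P _ => ?_
    unfold mo
    simp only
    ring
  · have hm : ((i + k, j + k, 0, c, c') : Ix) ∈ Box k (m + k) :=
      mem_Box.2 ⟨by simp only; omega, by simp only; omega, by simp only; omega, h4, h5⟩
    have hm' : ((i, j, 0, c, c') : Ix) ∈ Box k (m + k) :=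
      mem_Box.2 ⟨by simp only; omega, by simp only; omega, by simp only; omega, h4, h5⟩
    refine (((Lv.mon hm).smul 4).add ((Lv.mon hm').smul (-(p.D * p.a ^ 2 : ℤ)))).congr
      fun P hP => ?_
    unfold mo
    simp only
    have h0 : P.x ^ 2 = 4 * (P.T * P.S) ^ k - (p.D : A) * (p.a : A) ^ 2 := by
      rw [← hP.e0]; ring
    push_cast
    linear_combination (- P.T ^ i * P.S ^ j * P.al ^ c * P.be ^ c') * h0

theorem Lv.AL {m : ℕ} {f : Pt A → A} (hf : Lv A k p m f) (hk : 1 ≤ k) (ha : p.a ≠ 0) :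
    Lv A k p (m + k) (fun P => P.al * f P) := by
  refine Lv.mult (fun P => P.al) (fun u hu => ?_) hf
  have hu' := mem_Box.1 hu
  obtain ⟨i, j, e, c, c'⟩ := u
  simp only at hu'
  obtain ⟨h1, h2, h3, h4, h5⟩ := hu'
  by_cases hc : c + 1 < k
  · have hm : ((i, j, e, c + 1, c') : Ix) ∈ Box k (m + k) :=
      mem_Box.2 ⟨by simp only; omega, by simp only; omega, by simp only; omega, hc, h5⟩
    refine (Lv.mon hm).congr fun P _ => ?_
    unfold mo
    simp only
    ring
  · have hck : c + 1 = k := by omega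
    have hm : ((i, j, e, 0, c') : Ix) ∈ Box k m :=
      mem_Box.2 ⟨by simp only; omega, by simp only; omega, by simp only; omega, by simp only; omega,
        h5⟩
    have e1 := (Lv.mon (A := A) (p := p) hm).TS k 0 k le_rfl (Nat.zero_le _)
    have e2 := (Lv.mon (A := A) (p := p) hm).TS 0 k k (Nat.zero_le _) le_rfl
    have e3 := (Lv.mon (A := A) (p := p) hm).X hk
    refine (((e1.smul ((p.b : ℚ) ^ 2 / (p.a : ℚ) ^ 2)).add
      (e2.smul ((p.c : ℚ) ^ 2 / (p.a : ℚ) ^ 2))).add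
      (e3.smul (-((p.b : ℚ) * (p.c : ℚ)) / (p.a : ℚ) ^ 2))).congr fun P hP => ?_
    have ha' : (p.a : A) ≠ 0 := Int.cast_ne_zero.2 ha
    have h0 : P.al ^ k = ((p.b : A) ^ 2 * P.T ^ k - (p.b : A) * (p.c : A) * P.x +
        (p.c : A) ^ 2 * P.S ^ k) / (p.a : A) ^ 2 := by
      rw [← hP.e3]; field_simp
    have h6 : P.al * mo (i, j, e, c, c') P = P.al ^ k * mo (i, j, e, 0, c') P := by
      unfold mo
      simp only
      rw [← hck]
      ring
    rw [h6, h0]
    push_cast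
    field_simp
    ring

theorem Lv.BE {m : ℕ} {f : Pt A → A} (hf : Lv A k p m f) (hk : 1 ≤ k) (ha : p.a ≠ 0) :
    Lv A k p (m + k) (fun P => P.be * f P) := by
  refine Lv.mult (fun P => P.be) (fun u hu => ?_) hf
  have hu' := mem_Box.1 hu
  obtain ⟨i, j, e, c, c'⟩ := u
  simp only at hu'
  obtain ⟨h1, h2, h3, h4, h5⟩ := hu'
  by_cases hc : c' + 1 < k
  · have hm : ((i, j, e, c, c' + 1) : Ix) ∈ Box k (m + k) :=
      mem_Box.2 ⟨by simp only; omega, by simp only; omega, by simp only; omega, h4, hc⟩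
    refine (Lv.mon hm).congr fun P _ => ?_
    unfold mo
    simp only
    ring
  · have hck : c' + 1 = k := by omega
    have hm : ((i, j, e, c, 0) : Ix) ∈ Box k m :=
      mem_Box.2 ⟨by simp only; omega, by simp only; omega, by simp only; omega, h4,
        by simp only; omega⟩
    have e1 := (Lv.mon (A := A) (p := p) hm).TS k 0 k le_rfl (Nat.zero_le _)
    have e2 := (Lv.mon (A := A) (p := p) hm).TS 0 k k (Nat.zero_le _) le_rfl
    have e3 := (Lv.mon (A := A) (p := p) hm).X hk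
    refine (((e1.smul ((p.b' : ℚ) ^ 2 / (p.a : ℚ) ^ 2)).add
      (e2.smul ((p.c' : ℚ) ^ 2 / (p.a : ℚ) ^ 2))).add
      (e3.smul (-((p.b' : ℚ) * (p.c' : ℚ)) / (p.a : ℚ) ^ 2))).congr fun P hP => ?_
    have ha' : (p.a : A) ≠ 0 := Int.cast_ne_zero.2 ha
    have h0 : P.be ^ k = ((p.b' : A) ^ 2 * P.T ^ k - (p.b' : A) * (p.c' : A) * P.x +
        (p.c' : A) ^ 2 * P.S ^ k) / (p.a : A) ^ 2 := by
      rw [← hP.e4]; field_simp
    have h6 : P.be * mo (i, j, e, c, c') P = P.be ^ k * mo (i, j, e, c, 0) P := by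
      unfold mo
      simp only
      rw [← hck]
      ring
    rw [h6, h0]
    push_cast
    field_simp
    ring

theorem Lv.ALp {m : ℕ} {f : Pt A → A} (hf : Lv A k p m f) (hk : 1 ≤ k) (ha : p.a ≠ 0) (c : ℕ) :
    Lv A k p (m + k * c) (fun P => P.al ^ c * f P) := by
  induction c with
  | zero => exact hf.congr fun P _ => by rw [pow_zero, one_mul]
  | succ c ih =>
      refine ((ih.AL hk ha).congr fun P _ => ?_).mono (le_of_eq (by ring))
      rw [pow_succ']
      ring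

theorem Lv.BEp {m : ℕ} {f : Pt A → A} (hf : Lv A k p m f) (hk : 1 ≤ k) (ha : p.a ≠ 0) (c : ℕ) :
    Lv A k p (m + k * c) (fun P => P.be ^ c * f P) := by
  induction c with
  | zero => exact hf.congr fun P _ => by rw [pow_zero, one_mul]
  | succ c ih =>
      refine ((ih.BE hk ha).congr fun P _ => ?_).mono (le_of_eq (by ring))
      rw [pow_succ']
      ring

theorem Lv.Xp {m : ℕ} {f : Pt A → A} (hf : Lv A k p m f) (hk : 1 ≤ k) (e : ℕ) :
    Lv A k p (m + k * e) (fun P => P.x ^ e * f P) := by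
  induction e with
  | zero => exact hf.congr fun P _ => by rw [pow_zero, one_mul]
  | succ c ih =>
      refine ((ih.X hk).congr fun P _ => ?_).mono (le_of_eq (by ring))
      rw [pow_succ']
      ring

theorem Lv.MO {m m' : ℕ} {f : Pt A → A} (hf : Lv A k p m f) (hk : 1 ≤ k) (ha : p.a ≠ 0)
    {u : Ix} (hu : u ∈ Box k m') :
    Lv A k p (m + m' + (k + k * k + k * k)) (fun P => f P * mo u P) := by
  have hu' := mem_Box.1 hu
  have h1 := ((((hf.TS u.1 u.2.1 m' hu'.1 hu'.2.1).Xp hk u.2.2.1).ALp hk ha u.2.2.2.1).BEp hk ha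
    u.2.2.2.2)
  refine (h1.congr fun P _ => ?_).mono ?_
  · unfold mo
    ring
  · have h2 : k * u.2.2.1 ≤ k * 1 := Nat.mul_le_mul_left _ (by omega)
    have h3 : k * u.2.2.2.1 ≤ k * k := Nat.mul_le_mul_left _ (by omega)
    have h4 : k * u.2.2.2.2 ≤ k * k := Nat.mul_le_mul_left _ (by omega)
    omega

end I_MUL

open I_MUL in
theorem MUL_pf : S_MUL := by
  intro k hk
  refine ⟨k + k * k + k * k, ?_⟩
  intro p hp m m' F G hF hG
  have hf : Lv Om k p m (fun P => ev F P) := ⟨F, hF, fun P _ => rfl⟩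
  have h3 : Lv Om k p (m + m' + (k + k * k + k * k))
      (fun P => ∑ u ∈ G.support, ((G u : ℚ) : Om) * (ev F P * mo u P)) :=
    Lv.sum G.support (fun u => G u) (fun u P => ev F P * mo u P) fun u hu =>
      hf.MO hk hp.a (hG hu)
  obtain ⟨H, h1, h2⟩ := h3
  refine ⟨H, h1, fun P hP => ?_⟩
  rw [h2 P hP]
  have h5 : ev G P = ∑ u ∈ G.support, ((G u : ℚ) : Om) * mo u P := rfl
  rw [h5, Finset.mul_sum]
  refine Finset.sum_congr rfl fun u _ => ?_
  ring

end Pool.Agent.Work.MP_e0c7e8_nt.BG
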