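import Pool.Agent.Work.MP_e0c7e8_nt.BG.Stmts

/-!
# [PC] choice of a prime

Bertrand's postulate gives `2 L` different primes in `(y, 4 ^ L y]`; average over them.
-/

set_option autoImplicit false

namespace Pool.Agent.Work.MP_e0c7e8_nt.BG

open Finset Polynomial

namespace I_PC

/-- a prime in `(n, 2 n]` for each `n`. -/
theorem exists_seq (y : ℕ) (hy : 1 ≤ y) :
    ∃ p : ℕ → ℕ, ∀ j, (p j).Prime ∧ 2 ^ j * y < p j ∧ p j ≤ 2 ^ (j + 1) * y := by
  have h : ∀ j : ℕ, ∃ p : ℕ, p.Prime ∧ 2 ^ j * y < p ∧ p ≤ 2 ^ (j + 1) * y := by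
    intro j
    have hpos : 2 ^ j * y ≠ 0 := by positivity
    obtain ⟨p, hp, h1, h2⟩ := Nat.exists_prime_lt_and_le_two_mul (2 ^ j * y) hpos
    exact ⟨p, hp, h1, by rw [pow_succ]; linarith⟩
  choose p hp using h
  exact ⟨p, hp⟩

end I_PC

open I_PC in
theorem PC_pf : S_PC := by
  classical
  intro ι S N y L hy hL hN
  obtain ⟨p, hp⟩ := exists_seq y hy
  have hmono : StrictMono p := by
    apply strictMono_nat_of_lt_succ
    intro j
    exact lt_of_le_of_lt (hp j).2.2 (hp (j + 1)).2.1
  -- few of the primes divide `N t`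
  have hfew : ∀ t ∈ S, ((range (2 * L)).filter fun j => (p j : ℤ) ∣ N t).card < L := by
    intro t ht
    by_contra hcon
    push Not at hcon
    obtain ⟨J, hJ, hJc⟩ := Finset.exists_subset_card_eq hcon
    have hdvd : (∏ j ∈ J, p j) ∣ (N t).natAbs := by
      have h1 : (∏ j ∈ J, (p j : ℤ)) ∣ N t := by
        apply Finset.prod_dvd_of_coprime
        · intro i _ j _ hij
          exact Nat.isCoprime_iff_coprime.mpr
            ((Nat.coprime_primes (hp i).1 (hp j).1).mpr (hmono.injective.ne hij))
        · intro j hj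
          exact (mem_filter.mp (hJ hj)).2
      rw [← Int.natCast_dvd]
      push_cast
      exact h1
    have hle : ∏ j ∈ J, p j ≤ (N t).natAbs :=
      Nat.le_of_dvd (Int.natAbs_pos.mpr (hN t ht).1) hdvd
    have hlt : y ^ L < ∏ j ∈ J, p j := by
      rw [← hJc, ← Finset.prod_const]
      apply Finset.prod_lt_prod
      · intro j _; omega
      · intro j _
        have := (hp j).2.1
        have h2 : y ≤ 2 ^ j * y := Nat.le_mul_of_pos_left _ (by positivity)
        omega
      · have hne : J.Nonempty := by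
          rw [← Finset.card_pos]; omega
        obtain ⟨j, hj⟩ := hne
        refine ⟨j, hj, ?_⟩
        have := (hp j).2.1
        have h2 : y ≤ 2 ^ j * y := Nat.le_mul_of_pos_left _ (by positivity)
        omega
    have hab : (N t).natAbs ≤ y ^ L := by
      have := (hN t ht).2
      zify
      simpa using this
    omega
  -- average
  have hsum : ∑ j ∈ range (2 * L), (S.filter fun t => (p j : ℤ) ∣ N t).card ≤ (L - 1) * S.card := by
    have h1 : ∑ j ∈ range (2 * L), (S.filter fun t => (p j : ℤ) ∣ N t).card =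
        ∑ t ∈ S, ((range (2 * L)).filter fun j => (p j : ℤ) ∣ N t).card := by
      simp only [Finset.card_filter]
      rw [Finset.sum_comm]
    rw [h1]
    calc ∑ t ∈ S, ((range (2 * L)).filter fun j => (p j : ℤ) ∣ N t).card
        ≤ ∑ _t ∈ S, (L - 1) := Finset.sum_le_sum fun t ht => by have := hfew t ht; omega
      _ = (L - 1) * S.card := by rw [Finset.sum_const, smul_eq_mul, mul_comm]
  have hex : ∃ j ∈ range (2 * L), 2 * (S.filter fun t => (p j : ℤ) ∣ N t).card ≤ S.card := by
    by_contra hcon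
    push Not at hcon
    have h2 : ∑ j ∈ range (2 * L), S.card ≤
        ∑ j ∈ range (2 * L), 2 * (S.filter fun t => (p j : ℤ) ∣ N t).card :=
      Finset.sum_le_sum fun j hj => (hcon j hj).le
    rw [Finset.sum_const, smul_eq_mul, card_range, ← Finset.mul_sum] at h2
    rcases Nat.eq_zero_or_pos S.card with h0 | h0
    · have := hcon 0 (by simp; omega)
      rw [Finset.card_eq_zero] at h0
      subst h0
      simp at this
    · have h3 : 2 * L * S.card ≤ 2 * ((L - 1) * S.card) := le_trans h2 (by omega)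
      have h4 : L * S.card ≤ (L - 1) * S.card := by nlinarith
      have h5 : L ≤ L - 1 := Nat.le_of_mul_le_mul_right h4 h0
      omega
  obtain ⟨j, hj, hjS⟩ := hex
  rw [mem_range] at hj
  refine ⟨p j, (hp j).1, ?_, ?_, S.filter fun t => ¬ (p j : ℤ) ∣ N t, filter_subset _ _, ?_, ?_⟩
  · have := (hp j).2.1
    have h2 : y ≤ 2 ^ j * y := Nat.le_mul_of_pos_left _ (by positivity)
    omega
  · refine le_trans (hp j).2.2 ?_
    apply Nat.mul_le_mul_right
    rw [show (4 : ℕ) = 2 ^ 2 by norm_num, ← pow_mul]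
    exact Nat.pow_le_pow_right (by norm_num) (by omega)
  · have := Finset.card_filter_add_card_filter_not (s := S) (fun t => (p j : ℤ) ∣ N t)
    omega
  · intro t ht
    exact (mem_filter.mp ht).2

end Pool.Agent.Work.MP_e0c7e8_nt.BG
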