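import Pool.Agent.Work.MP_e0c7e8_nt.BG.Stmts

/-!
# Item PSD: pseudo-division
-/

set_option autoImplicit false

namespace Pool.Agent.Work.MP_e0c7e8_nt.BG

open Finset Polynomial

namespace I_PSD

lemma deg_term {E M : ℕ} {a b c : ℤ[X]} (ha : a.natDegree ≤ E) (hb : b.natDegree ≤ M)
    (hc : c.natDegree ≤ M) (p q : ℕ) : (a * b ^ p * c ^ q).natDegree ≤ E + (p + q) * M := by
  have h1 : (b ^ p).natDegree ≤ p * M := natDegree_pow_le.trans (Nat.mul_le_mul_left p hb)
  have h2 : (c ^ q).natDegree ≤ q * M := natDegree_pow_le.trans (Nat.mul_le_mul_left q hc)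
  have h3 : (a * b ^ p).natDegree ≤ a.natDegree + (b ^ p).natDegree := natDegree_mul_le
  have h4 : (a * b ^ p * c ^ q).natDegree ≤ (a * b ^ p).natDegree + (c ^ q).natDegree :=
    natDegree_mul_le
  have h5 : (p + q) * M = p * M + q * M := by ring
  omega

/-- The resultant. -/
noncomputable def rho (n : ℕ) (h : ℤ[X][X]) (al be : ℤ[X]) : ℤ[X] :=
  ∑ j ∈ range (n + 1), h.coeff j * be ^ (n - j) * (-al) ^ j

/-- The quotient. -/
noncomputable def quo (n : ℕ) (h : ℤ[X][X]) (al be : ℤ[X]) : ℤ[X][X] :=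
  ∑ j ∈ range (n + 1), ∑ i ∈ range j,
    C (h.coeff j * be ^ (n - j + i) * (-al) ^ (j - 1 - i)) * X ^ i

lemma sum_eq {n : ℕ} {h : ℤ[X][X]} (hn : h.natDegree ≤ n) :
    h = ∑ j ∈ range (n + 1), C (h.coeff j) * X ^ j := by
  conv_lhs => rw [as_sum_range' h (n + 1) (by omega)]
  exact sum_congr rfl fun j _ => (C_mul_X_pow_eq_monomial).symm

lemma key {n : ℕ} {h : ℤ[X][X]} (al be : ℤ[X]) (hn : h.natDegree ≤ n) :
    C (be ^ n) * h - C (rho n h al be) = (C al + C be * X) * quo n h al be := by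
  have e1 : C (be ^ n) * h = ∑ j ∈ range (n + 1), C (h.coeff j) * C be ^ (n - j) *
      (C be * X) ^ j := by
    conv_lhs => rw [sum_eq hn, mul_sum]
    refine sum_congr rfl fun j hj => ?_
    have h1 : n - j + j = n := Nat.sub_add_cancel (Nat.lt_succ_iff.1 (mem_range.1 hj))
    conv_lhs => rw [← h1]
    rw [C_pow, pow_add, mul_pow]
    ring
  have e2 : C (rho n h al be) = ∑ j ∈ range (n + 1), C (h.coeff j) * C be ^ (n - j) *
      (-C al) ^ j := by
    unfold rho
    rw [map_sum]
    refine sum_congr rfl fun j _ => ?_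
    rw [C_mul, C_mul, C_pow, C_pow, C_neg]
  rw [e1, e2, ← sum_sub_distrib]
  unfold quo
  rw [mul_sum]
  refine sum_congr rfl fun j _ => ?_
  rw [← mul_sub, ← geom_sum₂_mul, mul_sum, sum_mul, mul_sum]
  refine sum_congr rfl fun i _ => ?_
  rw [C_mul, C_mul, C_pow, C_pow, C_neg, pow_add, mul_pow]
  ring

lemma quo_coeff {E n M : ℕ} {h : ℤ[X][X]} {al be : ℤ[X]} (hn : Bx E n h)
    (hal : al.natDegree ≤ M) (hbe : be.natDegree ≤ M) (l : ℕ) :
    ((quo n h al be).coeff l).natDegree ≤ E + n * M := by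
  unfold quo
  rw [finsetSum_coeff]
  refine natDegree_sum_le_of_forall_le _ _ fun j hj => ?_
  rw [finsetSum_coeff]
  refine natDegree_sum_le_of_forall_le _ _ fun i hi => ?_
  rw [coeff_C_mul_X_pow]
  split_ifs with hl
  · refine (deg_term (hn.2 j) hbe (by rwa [natDegree_neg]) _ _).trans ?_
    have h1 : n - j + i + (j - 1 - i) ≤ n := by
      have := mem_range.1 hj
      have := mem_range.1 hi
      omega
    exact Nat.add_le_add_left (Nat.mul_le_mul_right M h1) E
  · rw [natDegree_zero]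
    exact Nat.zero_le _

lemma quo_deg {n : ℕ} (h : ℤ[X][X]) (al be : ℤ[X]) : (quo n h al be).natDegree ≤ n - 1 := by
  unfold quo
  refine natDegree_sum_le_of_forall_le _ _ fun j hj => ?_
  refine natDegree_sum_le_of_forall_le _ _ fun i hi => ?_
  refine (natDegree_C_mul_X_pow_le _ _).trans ?_
  have := mem_range.1 hj
  have := mem_range.1 hi
  omega

lemma rho_deg {E n M : ℕ} {h : ℤ[X][X]} {al be : ℤ[X]} (hn : Bx E n h)
    (hal : al.natDegree ≤ M) (hbe : be.natDegree ≤ M) :
    (rho n h al be).natDegree ≤ E + n * M := by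
  unfold rho
  refine natDegree_sum_le_of_forall_le _ _ fun j hj => ?_
  refine (deg_term (hn.2 j) hbe (by rwa [natDegree_neg]) _ _).trans ?_
  have h1 : n - j + j ≤ n := by
    have := mem_range.1 hj
    omega
  exact Nat.add_le_add_left (Nat.mul_le_mul_right M h1) E

lemma key_eval {n : ℕ} {h : ℤ[X][X]} (al be : ℤ[X]) (hn : h.natDegree ≤ n) (t y : ℤ) :
    be.eval t ^ n * h.evalEval t y - (rho n h al be).eval t =
      (al.eval t + be.eval t * y) * (quo n h al be).evalEval t y := by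
  have h1 := congrArg (evalEval t y) (key al be hn)
  simpa [evalEval_mul, evalEval_sub, evalEval_add, evalEval_C, evalEval_X] using h1

end I_PSD

open I_PSD in
theorem PSD_pf : S_PSD := by
  intro E n M h al be hh hn1 hn hbe0 hal hbe
  by_cases hr : rho n h al be = 0
  · right
    refine ⟨quo n h al be, ?_, ⟨quo_deg h al be, quo_coeff hn hal hbe⟩, ?_⟩
    · intro h0
      have h1 := key al be hn.1
      rw [hr, h0, mul_zero, C_0, sub_zero] at h1
      rcases mul_eq_zero.1 h1 with h2 | h2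
      · exact hbe0 (pow_eq_zero_iff (by omega)|>.1 (C_eq_zero.1 h2))
      · exact hh h2
    · intro t y hty
      have h1 := key_eval al be hn.1 t y
      rw [hr, hty, mul_zero, eval_zero, sub_zero] at h1
      exact mul_eq_zero.1 h1.symm
  · left
    refine ⟨rho n h al be, hr, rho_deg hn hal hbe, ?_⟩
    intro t y hty hab
    have h1 := key_eval al be hn.1 t y
    rw [hty, hab, mul_zero, zero_mul, zero_sub, neg_eq_zero] at h1
    exact h1

end Pool.Agent.Work.MP_e0c7e8_nt.BG
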